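import Pool.Agent.H310R3.NA12

/-!
# The symmetric system

Positions are triples (level, coordinate, bit). Conditions are sets of positions of the levels
below a given level. The automorphisms preserve the levels and act on finitely many coordinates.
-/

set_option maxHeartbeats 1000000
set_option linter.all false
set_option synthInstance.maxSize 2000

namespace Pool.Agent.Y580

open FirstOrder FirstOrder.Language
open Pool.Agent.Helper672.ZFA
open Pool.Agent.Helper672.ZFA.H635 (IPerm SymSys)

universe u

variable (M : Type u) [L.Structure M] [hM : IsModel M]

/-- Coordinates and bits. -/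
abbrev Qs : Type u := INat M × INat M

/-- Positions: level, coordinate, bit. -/
abbrev Ps : Type u := INat M × (INat M × INat M)

/-- Sets of positions. -/
abbrev XX : Type u := IPow M (Ps M)

variable {M}

/-- Agreement below the level `l`. -/
def AgL (l : INat M) (x y : XX M) : Prop := ∀ a, a.1 < l → (a ∈ x ↔ a ∈ y)

/-- Agreement on the coordinates below `m`. -/
def AgC (m : INat M) (x y : XX M) : Prop := ∀ a, a.2.1 < m → (a ∈ x ↔ a ∈ y)

/-- Agreement below the level `l` on the coordinates below `m`. -/
def AgLC (l m : INat M) (x y : XX M) : Prop := ∀ a, a.1 < l → a.2.1 < m → (a ∈ x ↔ a ∈ y)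

theorem AgL.refl (l : INat M) (x : XX M) : AgL l x x := fun _ _ => Iff.rfl
theorem AgL.symm {l : INat M} {x y : XX M} (h : AgL l x y) : AgL l y x := fun a ha => (h a ha).symm
theorem AgL.trans {l : INat M} {x y z : XX M} (h : AgL l x y) (h' : AgL l y z) : AgL l x z :=
  fun a ha => (h a ha).trans (h' a ha)
theorem AgL.mono {l l' : INat M} {x y : XX M} (h : AgL l x y) (hl : l' ≤ l) : AgL l' x y :=
  fun a ha => h a (ha.trans_le hl)
theorem AgC.refl (l : INat M) (x : XX M) : AgC l x x := fun _ _ => Iff.rfl
theorem AgC.symm {l : INat M} {x y : XX M} (h : AgC l x y) : AgC l y x := fun a ha => (h a ha).symm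
theorem AgC.trans {l : INat M} {x y z : XX M} (h : AgC l x y) (h' : AgC l y z) : AgC l x z :=
  fun a ha => (h a ha).trans (h' a ha)
theorem AgC.mono {l l' : INat M} {x y : XX M} (h : AgC l x y) (hl : l' ≤ l) : AgC l' x y :=
  fun a ha => h a (ha.trans_le hl)
theorem AgLC.refl (l m : INat M) (x : XX M) : AgLC l m x x := fun _ _ _ => Iff.rfl
theorem AgLC.symm {l m : INat M} {x y : XX M} (h : AgLC l m x y) : AgLC l m y x :=
  fun a ha hb => (h a ha hb).symm
theorem AgLC.trans {l m : INat M} {x y z : XX M} (h : AgLC l m x y) (h' : AgLC l m y z) :
    AgLC l m x z := fun a ha hb => (h a ha hb).trans (h' a ha hb)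
theorem AgL.lc {l m : INat M} {x y : XX M} (h : AgL l x y) : AgLC l m x y := fun a ha _ => h a ha
theorem AgC.lc {l m : INat M} {x y : XX M} (h : AgC m x y) : AgLC l m x y := fun a _ ha => h a ha

/-! ### Conditions -/

/-- The conditions. -/
def IsCo (p : INat M × XX M) : Prop := ∀ a, a ∈ p.2 → a.1 < p.1

theorem int_isCo : Int M (IsCo (M := M)) := by
  unfold IsCo
  (repeat' (first | with_reducible exact IntF.id | with_reducible exact IntF.fst' | with_reducible exact IntF.snd' | with_reducible exact IntF.const _ | with_reducible exact Int.const _ | assumption | with_reducible apply Int.and | with_reducible apply Int.or | with_reducible apply Int.not | with_reducible apply Int.imp | with_reducible apply Int.iff | with_reducible apply Int.ne | with_reducible apply Int.eq | with_reducible apply Int.mem | with_reducible apply Int.subset | with_reducible apply Int.ltN | with_reducible apply Int.leN | with_reducible_and_instances apply Helper672.ZFA.Int.le | with_reducible_and_instances apply Helper672.ZFA.Int.lt | with_reducible apply Int.all | with_reducible apply Int.ex | with_reducible apply IntF.fst | with_reducible apply IntF.snd | with_reducible apply IntF.app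 | with_reducible apply IntF.inl | with_reducible apply IntF.inr | with_reducible_and_instances apply IntF.mul | with_reducible_and_instances apply IntF.inv | with_reducible_and_instances apply IntF.add | with_reducible_and_instances apply IntF.sub | with_reducible_and_instances apply IntF.neg | with_reducible_and_instances apply IntF.smul | with_reducible apply Int.fin | with_reducible apply IntF.sep | with_reducible apply IntF.lam | with_reducible apply IntF.insert | with_reducible apply IntF.singleton | with_reducible apply IntF.union | with_reducible apply IntF.iimage | with_reducible apply IntF.ite | with_reducible apply IntF.the | with_reducible apply IntF.irec | with_reducible apply IntF.succ | with_reducible apply IntF.val | with_reducible apply IntF.mk | (with_reducible refine Int.comp ?_ ?_; assumption) | (with_reducible refine Int.comp₂ ?_ ?_ ?_; assumption) | (with_reducible refine Int.comp₃ ?_ ?_ ?_ ?_; assumption) | (with_reducible refine Int.comp₄ ?_ ?_ ?_ ?_ ?_; assumption) | (with_reducible refine IntF.comp ?_ ?_; assumption) | (with_reducible refine IntF.comp₂ ?_ ?_ ?_; assumption) | (with_reducible refine IntF.comp₃ ?_ ?_ ?_ ?_; assumption)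 | with_reducible apply IntF.pair))

instance : Fact (Int M (IsCo (M := M))) := ⟨int_isCo⟩

variable (M) in
/-- The notion of forcing. -/
abbrev Co : Type u := {p : INat M × XX M // IsCo p}

instance : Preorder (Co M) where
  le p q := q.1.1 ≤ p.1.1 ∧ AgL q.1.1 p.1.2 q.1.2
  le_refl p := ⟨le_rfl, AgL.refl _ _⟩
  le_trans p q r h h' := ⟨h'.1.trans h.1, (h.2.mono h'.1).trans h'.2⟩

theorem le_def' {p q : Co M} : p ≤ q ↔ q.1.1 ≤ p.1.1 ∧ AgL q.1.1 p.1.2 q.1.2 := Iff.rfl

instance : ILE M (Co M) where
  out := by
    change Int M (fun q : Co M × Co M => q.2.1.1 ≤ q.1.1.1 ∧
      ∀ a, a.1 < q.2.1.1 → (a ∈ q.1.1.2 ↔ a ∈ q.2.1.2))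
    (repeat' (first | with_reducible exact IntF.id | with_reducible exact IntF.fst' | with_reducible exact IntF.snd' | with_reducible exact IntF.const _ | with_reducible exact Int.const _ | assumption | with_reducible apply Int.and | with_reducible apply Int.or | with_reducible apply Int.not | with_reducible apply Int.imp | with_reducible apply Int.iff | with_reducible apply Int.ne | with_reducible apply Int.eq | with_reducible apply Int.mem | with_reducible apply Int.subset | with_reducible apply Int.ltN | with_reducible apply Int.leN | with_reducible_and_instances apply Helper672.ZFA.Int.le | with_reducible_and_instances apply Helper672.ZFA.Int.lt | with_reducible apply Int.all | with_reducible apply Int.ex | with_reducible apply IntF.fst | with_reducible apply IntF.snd | with_reducible apply IntF.app | with_reducible apply IntF.inl | with_reducible apply IntF.inr | with_reducible_and_instances apply IntF.mul | with_reducible_and_instances apply IntF.inv | with_reducible_and_instances apply IntF.add | with_reducible_and_instances apply IntF.sub | with_reducible_and_instances apply IntF.neg | with_reducible_and_instances apply IntF.smul | with_reducible apply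 Int.fin | with_reducible apply IntF.sep | with_reducible apply IntF.lam | with_reducible apply IntF.insert | with_reducible apply IntF.singleton | with_reducible apply IntF.union | with_reducible apply IntF.iimage | with_reducible apply IntF.ite | with_reducible apply IntF.the | with_reducible apply IntF.irec | with_reducible apply IntF.succ | with_reducible apply IntF.val | with_reducible apply IntF.mk | (with_reducible refine Int.comp ?_ ?_; assumption) | (with_reducible refine Int.comp₂ ?_ ?_ ?_; assumption) | (with_reducible refine Int.comp₃ ?_ ?_ ?_ ?_; assumption) | (with_reducible refine Int.comp₄ ?_ ?_ ?_ ?_ ?_; assumption) | (with_reducible refine IntF.comp ?_ ?_; assumption) | (with_reducible refine IntF.comp₂ ?_ ?_ ?_; assumption) | (with_reducible refine IntF.comp₃ ?_ ?_ ?_ ?_; assumption) | with_reducible apply IntF.pair))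

theorem Co.ext' {p q : Co M} (h : p.1.1 = q.1.1) (h' : AgL p.1.1 p.1.2 q.1.2) : p = q := by
  refine Subtype.ext (Prod.ext h (IPow.ext' fun a => ?_))
  constructor
  · intro ha
    exact (h' a (p.2 a ha)).1 ha
  · intro ha
    refine (h' a ?_).2 ha
    rw [h]
    exact q.2 a ha

/-! ### Automorphisms -/

/-- The permutation acts on the coordinates below `m`. -/
def Bd (m : INat M) (π : IPerm M (XX M)) : Prop :=
  (∀ x a, m ≤ a.2.1 → (a ∈ π.1.1 x ↔ a ∈ x)) ∧
    ∀ x y, AgC m x y ↔ AgC m (π.1.1 x) (π.1.1 y)

/-- The permutation preserves the levels. -/
def Lv (π : IPerm M (XX M)) : Prop := ∀ x y l, AgL l x y ↔ AgL l (π.1.1 x) (π.1.1 y)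

/-- The conditions for automorphisms. -/
def IsAut (π : IPerm M (XX M)) : Prop := Lv π ∧ ∃ m, Bd m π

theorem int_Bd : Int M (fun q : INat M × IPerm M (XX M) => Bd q.1 q.2) := by
  unfold Bd AgC
  (repeat' (first | with_reducible exact IntF.id | with_reducible exact IntF.fst' | with_reducible exact IntF.snd' | with_reducible exact IntF.const _ | with_reducible exact Int.const _ | assumption | with_reducible apply Int.and | with_reducible apply Int.or | with_reducible apply Int.not | with_reducible apply Int.imp | with_reducible apply Int.iff | with_reducible apply Int.ne | with_reducible apply Int.eq | with_reducible apply Int.mem | with_reducible apply Int.subset | with_reducible apply Int.ltN | with_reducible apply Int.leN | with_reducible_and_instances apply Helper672.ZFA.Int.le | with_reducible_and_instances apply Helper672.ZFA.Int.lt | with_reducible apply Int.all | with_reducible apply Int.ex | with_reducible apply IntF.fst | with_reducible apply IntF.snd | with_reducible apply IntF.app | with_reducible apply IntF.inl | with_reducible apply IntF.inr | with_reducible_and_instances apply IntF.mul | with_reducible_and_instances apply IntF.inv | with_reducible_and_instances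 apply IntF.add | with_reducible_and_instances apply IntF.sub | with_reducible_and_instances apply IntF.neg | with_reducible_and_instances apply IntF.smul | with_reducible apply Int.fin | with_reducible apply IntF.sep | with_reducible apply IntF.lam | with_reducible apply IntF.insert | with_reducible apply IntF.singleton | with_reducible apply IntF.union | with_reducible apply IntF.iimage | with_reducible apply IntF.ite | with_reducible apply IntF.the | with_reducible apply IntF.irec | with_reducible apply IntF.succ | with_reducible apply IntF.val | with_reducible apply IntF.mk | (with_reducible refine Int.comp ?_ ?_; assumption) | (with_reducible refine Int.comp₂ ?_ ?_ ?_; assumption) | (with_reducible refine Int.comp₃ ?_ ?_ ?_ ?_; assumption) | (with_reducible refine Int.comp₄ ?_ ?_ ?_ ?_ ?_; assumption) | (with_reducible refine IntF.comp ?_ ?_; assumption) | (with_reducible refine IntF.comp₂ ?_ ?_ ?_; assumption) | (with_reducible refine IntF.comp₃ ?_ ?_ ?_ ?_; assumption) | with_reducible apply IntF.pair))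

theorem int_isAut : Int M (IsAut (M := M)) := by
  have h : Int M (fun q : INat M × IPerm M (XX M) => Bd q.1 q.2) := int_Bd
  unfold IsAut Lv AgL
  refine Int.and ?_ (Int.ex ?_)
  · (repeat' (first | with_reducible exact IntF.id | with_reducible exact IntF.fst' | with_reducible exact IntF.snd' | with_reducible exact IntF.const _ | with_reducible exact Int.const _ | assumption | with_reducible apply Int.and | with_reducible apply Int.or | with_reducible apply Int.not | with_reducible apply Int.imp | with_reducible apply Int.iff | with_reducible apply Int.ne | with_reducible apply Int.eq | with_reducible apply Int.mem | with_reducible apply Int.subset | with_reducible apply Int.ltN | with_reducible apply Int.leN | with_reducible_and_instances apply Helper672.ZFA.Int.le | with_reducible_and_instances apply Helper672.ZFA.Int.lt | with_reducible apply Int.all | with_reducible apply Int.ex | with_reducible apply IntF.fst | with_reducible apply IntF.snd | with_reducible apply IntF.app | with_reducible apply IntF.inl | with_reducible apply IntF.inr | with_reducible_and_instances apply IntF.mul | with_reducible_and_instances apply IntF.inv | with_reducible_and_instances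 apply IntF.add | with_reducible_and_instances apply IntF.sub | with_reducible_and_instances apply IntF.neg | with_reducible_and_instances apply IntF.smul | with_reducible apply Int.fin | with_reducible apply IntF.sep | with_reducible apply IntF.lam | with_reducible apply IntF.insert | with_reducible apply IntF.singleton | with_reducible apply IntF.union | with_reducible apply IntF.iimage | with_reducible apply IntF.ite | with_reducible apply IntF.the | with_reducible apply IntF.irec | with_reducible apply IntF.succ | with_reducible apply IntF.val | with_reducible apply IntF.mk | (with_reducible refine Int.comp ?_ ?_; assumption) | (with_reducible refine Int.comp₂ ?_ ?_ ?_; assumption) | (with_reducible refine Int.comp₃ ?_ ?_ ?_ ?_; assumption) | (with_reducible refine Int.comp₄ ?_ ?_ ?_ ?_ ?_; assumption) | (with_reducible refine IntF.comp ?_ ?_; assumption) | (with_reducible refine IntF.comp₂ ?_ ?_ ?_; assumption) | (with_reducible refine IntF.comp₃ ?_ ?_ ?_ ?_; assumption) | with_reducible apply IntF.pair))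
  · (repeat' (first | with_reducible exact IntF.id | with_reducible exact IntF.fst' | with_reducible exact IntF.snd' | with_reducible exact IntF.const _ | with_reducible exact Int.const _ | assumption | with_reducible apply Int.and | with_reducible apply Int.or | with_reducible apply Int.not | with_reducible apply Int.imp | with_reducible apply Int.iff | with_reducible apply Int.ne | with_reducible apply Int.eq | with_reducible apply Int.mem | with_reducible apply Int.subset | with_reducible apply Int.ltN | with_reducible apply Int.leN | with_reducible_and_instances apply Helper672.ZFA.Int.le | with_reducible_and_instances apply Helper672.ZFA.Int.lt | with_reducible apply Int.all | with_reducible apply Int.ex | with_reducible apply IntF.fst | with_reducible apply IntF.snd | with_reducible apply IntF.app | with_reducible apply IntF.inl | with_reducible apply IntF.inr | with_reducible_and_instances apply IntF.mul | with_reducible_and_instances apply IntF.inv | with_reducible_and_instances apply IntF.add | with_reducible_and_instances apply IntF.sub | with_reducible_and_instances apply IntF.neg | with_reducible_and_instances apply IntF.smul | with_reducible apply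 Int.fin | with_reducible apply IntF.sep | with_reducible apply IntF.lam | with_reducible apply IntF.insert | with_reducible apply IntF.singleton | with_reducible apply IntF.union | with_reducible apply IntF.iimage | with_reducible apply IntF.ite | with_reducible apply IntF.the | with_reducible apply IntF.irec | with_reducible apply IntF.succ | with_reducible apply IntF.val | with_reducible apply IntF.mk | (with_reducible refine Int.comp ?_ ?_; assumption) | (with_reducible refine Int.comp₂ ?_ ?_ ?_; assumption) | (with_reducible refine Int.comp₃ ?_ ?_ ?_ ?_; assumption) | (with_reducible refine Int.comp₄ ?_ ?_ ?_ ?_ ?_; assumption) | (with_reducible refine IntF.comp ?_ ?_; assumption) | (with_reducible refine IntF.comp₂ ?_ ?_ ?_; assumption) | (with_reducible refine IntF.comp₃ ?_ ?_ ?_ ?_; assumption) | with_reducible apply IntF.pair))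

theorem Lv.mul {π σ : IPerm M (XX M)} (h : Lv π) (h' : Lv σ) : Lv (π * σ) := fun x y l => by
  rw [IPerm.mul_apply, IPerm.mul_apply, ← h, ← h']

theorem Lv.one : Lv (1 : IPerm M (XX M)) := fun x y l => by
  rw [IPerm.one_apply, IPerm.one_apply]

theorem Lv.inv {π : IPerm M (XX M)} (h : Lv π) : Lv π⁻¹ := fun x y l => by
  have e : ∀ x, π.1.1 (π.1.2 x) = x := π.2.1
  have h1 := h (π.1.2 x) (π.1.2 y) l
  rw [e, e] at h1
  rw [IPerm.inv_apply, IPerm.inv_apply]
  exact h1.symm

theorem Bd.mono {m m' : INat M} {π : IPerm M (XX M)} (h : Bd m π) (hm : m ≤ m') : Bd m' π := by
  refine ⟨fun x a ha => h.1 x a (hm.trans ha), fun x y => ⟨fun h1 a ha => ?_, fun h1 a ha => ?_⟩⟩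
  · by_cases h2 : a.2.1 < m
    · exact (h.2 x y).1 (h1.mono hm) a h2
    · rw [h.1 x a (not_lt.1 h2), h.1 y a (not_lt.1 h2)]
      exact h1 a ha
  · by_cases h2 : a.2.1 < m
    · exact (h.2 x y).2 (h1.mono hm) a h2
    · rw [← h.1 x a (not_lt.1 h2), ← h.1 y a (not_lt.1 h2)]
      exact h1 a ha

theorem Bd.mul {m : INat M} {π σ : IPerm M (XX M)} (h : Bd m π) (h' : Bd m σ) :
    Bd m (π * σ) := by
  refine ⟨fun x a ha => ?_, fun x y => ?_⟩
  · rw [IPerm.mul_apply, h.1 _ a ha, h'.1 _ a ha]
  · rw [IPerm.mul_apply, IPerm.mul_apply, ← h.2, ← h'.2]

theorem Bd.one (m : INat M) : Bd m (1 : IPerm M (XX M)) := by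
  refine ⟨fun x a ha => ?_, fun x y => ?_⟩
  · rw [IPerm.one_apply]
  · rw [IPerm.one_apply, IPerm.one_apply]

theorem Bd.inv {m : INat M} {π : IPerm M (XX M)} (h : Bd m π) : Bd m π⁻¹ := by
  have e : ∀ x, π.1.1 (π.1.2 x) = x := π.2.1
  refine ⟨fun x a ha => ?_, fun x y => ?_⟩
  · rw [IPerm.inv_apply, ← h.1 _ a ha, e]
  · have h1 := h.2 (π.1.2 x) (π.1.2 y)
    rw [e, e] at h1
    rw [IPerm.inv_apply, IPerm.inv_apply]
    exact h1.symm

variable (M) in
/-- The group of automorphisms. -/
def GmH : Subgroup (IPerm M (XX M)) where
  carrier := {π | IsAut π}
  mul_mem' := by
    rintro π σ ⟨h1, m, h2⟩ ⟨h1', m', h2'⟩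
    exact ⟨h1.mul h1', max m m', (h2.mono (le_max_left _ _)).mul (h2'.mono (le_max_right _ _))⟩
  one_mem' := ⟨Lv.one, 0, Bd.one _⟩
  inv_mem' := by
    rintro π ⟨h1, m, h2⟩
    exact ⟨h1.inv, m, h2.inv⟩

instance : Fact (Int M (fun π : IPerm M (XX M) => π ∈ GmH M)) := ⟨int_isAut⟩

variable (M) in
/-- The group of automorphisms. -/
abbrev Gm : Type u := {π : IPerm M (XX M) // π ∈ GmH M}

/-- The action on sets of positions. -/
def rh (π : Gm M) (x : XX M) : XX M := π.1.1.1 x

section

variable (π σ : Gm M)

theorem rh_inv_rh (x : XX M) : rh π⁻¹ (rh π x) = x := π.1.2.2 x
theorem rh_rh_inv (x : XX M) : rh π (rh π⁻¹ x) = x := π.1.2.1 x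
theorem rh_mul (x : XX M) : rh (π * σ) x = rh π (rh σ x) := IPerm.mul_apply _ _ _
theorem rh_one (x : XX M) : rh (1 : Gm M) x = x := IPerm.one_apply _
theorem rh_lv {x y : XX M} {l : INat M} : AgL l (rh π x) (rh π y) ↔ AgL l x y :=
  (π.2.1 x y l).symm
theorem exists_bd : ∃ m, Bd m π.1 := π.2.2

end

theorem rh_c {π : Gm M} {m : INat M} (h : Bd m π.1) {x y : XX M} :
    AgC m (rh π x) (rh π y) ↔ AgC m x y := (h.2 x y).symm

theorem rh_far {π : Gm M} {m : INat M} (h : Bd m π.1) {x : XX M} {a : Ps M} (ha : m ≤ a.2.1) :
    a ∈ rh π x ↔ a ∈ x := h.1 x a ha

theorem int_rh : IntF M (fun q : Gm M × XX M => rh q.1 q.2) := by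
  unfold rh
  (repeat' (first | with_reducible exact IntF.id | with_reducible exact IntF.fst' | with_reducible exact IntF.snd' | with_reducible exact IntF.const _ | with_reducible exact Int.const _ | assumption | with_reducible apply Int.and | with_reducible apply Int.or | with_reducible apply Int.not | with_reducible apply Int.imp | with_reducible apply Int.iff | with_reducible apply Int.ne | with_reducible apply Int.eq | with_reducible apply Int.mem | with_reducible apply Int.subset | with_reducible apply Int.ltN | with_reducible apply Int.leN | with_reducible_and_instances apply Helper672.ZFA.Int.le | with_reducible_and_instances apply Helper672.ZFA.Int.lt | with_reducible apply Int.all | with_reducible apply Int.ex | with_reducible apply IntF.fst | with_reducible apply IntF.snd | with_reducible apply IntF.app | with_reducible apply IntF.inl | with_reducible apply IntF.inr | with_reducible_and_instances apply IntF.mul | with_reducible_and_instances apply IntF.inv | with_reducible_and_instances apply IntF.add | with_reducible_and_instances apply IntF.sub | with_reducible_and_instances apply IntF.neg | with_reducible_and_instances apply IntF.smul | with_reducible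 apply Int.fin | with_reducible apply IntF.sep | with_reducible apply IntF.lam | with_reducible apply IntF.insert | with_reducible apply IntF.singleton | with_reducible apply IntF.union | with_reducible apply IntF.iimage | with_reducible apply IntF.ite | with_reducible apply IntF.the | with_reducible apply IntF.irec | with_reducible apply IntF.succ | with_reducible apply IntF.val | with_reducible apply IntF.mk | (with_reducible refine Int.comp ?_ ?_; assumption) | (with_reducible refine Int.comp₂ ?_ ?_ ?_; assumption) | (with_reducible refine Int.comp₃ ?_ ?_ ?_ ?_; assumption) | (with_reducible refine Int.comp₄ ?_ ?_ ?_ ?_ ?_; assumption) | (with_reducible refine IntF.comp ?_ ?_; assumption) | (with_reducible refine IntF.comp₂ ?_ ?_ ?_; assumption) | (with_reducible refine IntF.comp₃ ?_ ?_ ?_ ?_; assumption) | with_reducible apply IntF.pair))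

/-- The mixture of two sets. -/
noncomputable def mix (m : INat M) (x y : XX M) : XX M :=
  sep M fun a => (a.2.1 < m ∧ a ∈ x) ∨ (m ≤ a.2.1 ∧ a ∈ y)

theorem mem_mix {m : INat M} {x y : XX M} {a : Ps M} :
    a ∈ mix m x y ↔ (a.2.1 < m ∧ a ∈ x) ∨ (m ≤ a.2.1 ∧ a ∈ y) :=
  mem_sep (p := fun a : Ps M => (a.2.1 < m ∧ a ∈ x) ∨ (m ≤ a.2.1 ∧ a ∈ y)) (by (repeat' (first | with_reducible exact IntF.id | with_reducible exact IntF.fst' | with_reducible exact IntF.snd' | with_reducible exact IntF.const _ | with_reducible exact Int.const _ | assumption | with_reducible apply Int.and | with_reducible apply Int.or | with_reducible apply Int.not | with_reducible apply Int.imp | with_reducible apply Int.iff | with_reducible apply Int.ne | with_reducible apply Int.eq | with_reducible apply Int.mem | with_reducible apply Int.subset | with_reducible apply Int.ltN | with_reducible apply Int.leN | with_reducible_and_instances apply Helper672.ZFA.Int.le | with_reducible_and_instances apply Helper672.ZFA.Int.lt | with_reducible apply Int.all | with_reducible apply Int.ex | with_reducible apply IntF.fst | with_reducible apply IntF.snd | with_reducible apply IntF.app | with_reducible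 apply IntF.inl | with_reducible apply IntF.inr | with_reducible_and_instances apply IntF.mul | with_reducible_and_instances apply IntF.inv | with_reducible_and_instances apply IntF.add | with_reducible_and_instances apply IntF.sub | with_reducible_and_instances apply IntF.neg | with_reducible_and_instances apply IntF.smul | with_reducible apply Int.fin | with_reducible apply IntF.sep | with_reducible apply IntF.lam | with_reducible apply IntF.insert | with_reducible apply IntF.singleton | with_reducible apply IntF.union | with_reducible apply IntF.iimage | with_reducible apply IntF.ite | with_reducible apply IntF.the | with_reducible apply IntF.irec | with_reducible apply IntF.succ | with_reducible apply IntF.val | with_reducible apply IntF.mk | (with_reducible refine Int.comp ?_ ?_; assumption) | (with_reducible refine Int.comp₂ ?_ ?_ ?_; assumption) | (with_reducible refine Int.comp₃ ?_ ?_ ?_ ?_; assumption) | (with_reducible refine Int.comp₄ ?_ ?_ ?_ ?_ ?_; assumption) | (with_reducible refine IntF.comp ?_ ?_; assumption) | (with_reducible refine IntF.comp₂ ?_ ?_ ?_; assumption) | (with_reducible refine IntF.comp₃ ?_ ?_ ?_ ?_; assumption) | with_reducible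 apply IntF.pair)))

theorem mem_mix_lt {m : INat M} {x y : XX M} {a : Ps M} (h : a.2.1 < m) :
    a ∈ mix m x y ↔ a ∈ x := by
  rw [mem_mix]
  exact ⟨fun h1 => h1.elim (fun h => h.2) (fun h1 => absurd h (not_lt.2 h1.1)),
    fun h1 => Or.inl ⟨h, h1⟩⟩

theorem mem_mix_ge {m : INat M} {x y : XX M} {a : Ps M} (h : m ≤ a.2.1) :
    a ∈ mix m x y ↔ a ∈ y := by
  rw [mem_mix]
  exact ⟨fun h1 => h1.elim (fun h1 => absurd h1.1 (not_lt.2 h)) (fun h => h.2),
    fun h1 => Or.inr ⟨h, h1⟩⟩

theorem mix_c (m : INat M) (x y : XX M) : AgC m (mix m x y) x := fun a ha => mem_mix_lt ha

theorem mix_l {l m : INat M} {x y : XX M} (h : AgLC l m x y) : AgL l (mix m x y) y := by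
  intro a ha
  by_cases h1 : a.2.1 < m
  · rw [mem_mix_lt h1]
    exact h a ha h1
  · exact mem_mix_ge (not_lt.1 h1)

theorem rh_lc {π : Gm M} {m : INat M} (hm : Bd m π.1) {l : INat M} {x y : XX M}
    (h : AgLC l m x y) : AgLC l m (rh π x) (rh π y) := by
  have h1 : AgC m (rh π x) (rh π (mix m x y)) := (rh_c hm).2 (mix_c m x y).symm
  have h2 : AgL l (rh π (mix m x y)) (rh π y) := (rh_lv π).2 (mix_l h)
  exact (h1.lc).trans h2.lc

instance : IMul M (Gm M) where
  out := by
    refine IntF.mk ?_
    have h : IntF M (fun q : Gm M × Gm M => q.1.1 * q.2.1) := by
      (repeat' (first | with_reducible exact IntF.id | with_reducible exact IntF.fst' | with_reducible exact IntF.snd' | with_reducible exact IntF.const _ | with_reducible exact Int.const _ | assumption | with_reducible apply Int.and | with_reducible apply Int.or | with_reducible apply Int.not | with_reducible apply Int.imp | with_reducible apply Int.iff | with_reducible apply Int.ne | with_reducible apply Int.eq | with_reducible apply Int.mem | with_reducible apply Int.subset | with_reducible apply Int.ltN | with_reducible apply Int.leN | with_reducible_and_instances apply Helper672.ZFA.Int.le | with_reducible_and_instances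 apply Helper672.ZFA.Int.lt | with_reducible apply Int.all | with_reducible apply Int.ex | with_reducible apply IntF.fst | with_reducible apply IntF.snd | with_reducible apply IntF.app | with_reducible apply IntF.inl | with_reducible apply IntF.inr | with_reducible_and_instances apply IntF.mul | with_reducible_and_instances apply IntF.inv | with_reducible_and_instances apply IntF.add | with_reducible_and_instances apply IntF.sub | with_reducible_and_instances apply IntF.neg | with_reducible_and_instances apply IntF.smul | with_reducible apply Int.fin | with_reducible apply IntF.sep | with_reducible apply IntF.lam | with_reducible apply IntF.insert | with_reducible apply IntF.singleton | with_reducible apply IntF.union | with_reducible apply IntF.iimage | with_reducible apply IntF.ite | with_reducible apply IntF.the | with_reducible apply IntF.irec | with_reducible apply IntF.succ | with_reducible apply IntF.val | with_reducible apply IntF.mk | (with_reducible refine Int.comp ?_ ?_; assumption) | (with_reducible refine Int.comp₂ ?_ ?_ ?_; assumption) | (with_reducible refine Int.comp₃ ?_ ?_ ?_ ?_; assumption) | (with_reducible refine Int.comp₄ ?_ ?_ ?_ ?_ ?_;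 assumption) | (with_reducible refine IntF.comp ?_ ?_; assumption) | (with_reducible refine IntF.comp₂ ?_ ?_ ?_; assumption) | (with_reducible refine IntF.comp₃ ?_ ?_ ?_ ?_; assumption) | with_reducible apply IntF.pair))
    exact h

instance : IInv M (Gm M) where
  out := by
    refine IntF.mk ?_
    have h : IntF M (fun q : Gm M => q.1⁻¹) := by
      (repeat' (first | with_reducible exact IntF.id | with_reducible exact IntF.fst' | with_reducible exact IntF.snd' | with_reducible exact IntF.const _ | with_reducible exact Int.const _ | assumption | with_reducible apply Int.and | with_reducible apply Int.or | with_reducible apply Int.not | with_reducible apply Int.imp | with_reducible apply Int.iff | with_reducible apply Int.ne | with_reducible apply Int.eq | with_reducible apply Int.mem | with_reducible apply Int.subset | with_reducible apply Int.ltN | with_reducible apply Int.leN | with_reducible_and_instances apply Helper672.ZFA.Int.le | with_reducible_and_instances apply Helper672.ZFA.Int.lt | with_reducible apply Int.all | with_reducible apply Int.ex | with_reducible apply IntF.fst | with_reducible apply IntF.snd | with_reducible apply IntF.app | with_reducible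 apply IntF.inl | with_reducible apply IntF.inr | with_reducible_and_instances apply IntF.mul | with_reducible_and_instances apply IntF.inv | with_reducible_and_instances apply IntF.add | with_reducible_and_instances apply IntF.sub | with_reducible_and_instances apply IntF.neg | with_reducible_and_instances apply IntF.smul | with_reducible apply Int.fin | with_reducible apply IntF.sep | with_reducible apply IntF.lam | with_reducible apply IntF.insert | with_reducible apply IntF.singleton | with_reducible apply IntF.union | with_reducible apply IntF.iimage | with_reducible apply IntF.ite | with_reducible apply IntF.the | with_reducible apply IntF.irec | with_reducible apply IntF.succ | with_reducible apply IntF.val | with_reducible apply IntF.mk | (with_reducible refine Int.comp ?_ ?_; assumption) | (with_reducible refine Int.comp₂ ?_ ?_ ?_; assumption) | (with_reducible refine Int.comp₃ ?_ ?_ ?_ ?_; assumption) | (with_reducible refine Int.comp₄ ?_ ?_ ?_ ?_ ?_; assumption) | (with_reducible refine IntF.comp ?_ ?_; assumption) | (with_reducible refine IntF.comp₂ ?_ ?_ ?_; assumption) | (with_reducible refine IntF.comp₃ ?_ ?_ ?_ ?_; assumption) | with_reducible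 apply IntF.pair))
    exact h

/-! ### The action on conditions -/

/-- The part of `x` below the level `l`. -/
noncomputable def lv (l : INat M) (x : XX M) : XX M := sep M fun a => a.1 < l ∧ a ∈ x

theorem mem_lv {l : INat M} {x : XX M} {a : Ps M} : a ∈ lv l x ↔ a.1 < l ∧ a ∈ x :=
  mem_sep (p := fun a : Ps M => a.1 < l ∧ a ∈ x) (by (repeat' (first | with_reducible exact IntF.id | with_reducible exact IntF.fst' | with_reducible exact IntF.snd' | with_reducible exact IntF.const _ | with_reducible exact Int.const _ | assumption | with_reducible apply Int.and | with_reducible apply Int.or | with_reducible apply Int.not | with_reducible apply Int.imp | with_reducible apply Int.iff | with_reducible apply Int.ne | with_reducible apply Int.eq | with_reducible apply Int.mem | with_reducible apply Int.subset | with_reducible apply Int.ltN | with_reducible apply Int.leN | with_reducible_and_instances apply Helper672.ZFA.Int.le | with_reducible_and_instances apply Helper672.ZFA.Int.lt | with_reducible apply Int.all | with_reducible apply Int.ex | with_reducible apply IntF.fst | with_reducible apply IntF.snd | with_reducible apply IntF.app | with_reducible apply IntF.inl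 | with_reducible apply IntF.inr | with_reducible_and_instances apply IntF.mul | with_reducible_and_instances apply IntF.inv | with_reducible_and_instances apply IntF.add | with_reducible_and_instances apply IntF.sub | with_reducible_and_instances apply IntF.neg | with_reducible_and_instances apply IntF.smul | with_reducible apply Int.fin | with_reducible apply IntF.sep | with_reducible apply IntF.lam | with_reducible apply IntF.insert | with_reducible apply IntF.singleton | with_reducible apply IntF.union | with_reducible apply IntF.iimage | with_reducible apply IntF.ite | with_reducible apply IntF.the | with_reducible apply IntF.irec | with_reducible apply IntF.succ | with_reducible apply IntF.val | with_reducible apply IntF.mk | (with_reducible refine Int.comp ?_ ?_; assumption) | (with_reducible refine Int.comp₂ ?_ ?_ ?_; assumption) | (with_reducible refine Int.comp₃ ?_ ?_ ?_ ?_; assumption) | (with_reducible refine Int.comp₄ ?_ ?_ ?_ ?_ ?_; assumption) | (with_reducible refine IntF.comp ?_ ?_; assumption) | (with_reducible refine IntF.comp₂ ?_ ?_ ?_; assumption) | (with_reducible refine IntF.comp₃ ?_ ?_ ?_ ?_; assumption) | with_reducible apply IntF.pair)))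

theorem int_lv : IntF M (fun q : INat M × XX M => lv q.1 q.2) := by
  unfold lv
  refine IntF.sep ?_
  (repeat' (first | with_reducible exact IntF.id | with_reducible exact IntF.fst' | with_reducible exact IntF.snd' | with_reducible exact IntF.const _ | with_reducible exact Int.const _ | assumption | with_reducible apply Int.and | with_reducible apply Int.or | with_reducible apply Int.not | with_reducible apply Int.imp | with_reducible apply Int.iff | with_reducible apply Int.ne | with_reducible apply Int.eq | with_reducible apply Int.mem | with_reducible apply Int.subset | with_reducible apply Int.ltN | with_reducible apply Int.leN | with_reducible_and_instances apply Helper672.ZFA.Int.le | with_reducible_and_instances apply Helper672.ZFA.Int.lt | with_reducible apply Int.all | with_reducible apply Int.ex | with_reducible apply IntF.fst | with_reducible apply IntF.snd | with_reducible apply IntF.app | with_reducible apply IntF.inl | with_reducible apply IntF.inr | with_reducible_and_instances apply IntF.mul | with_reducible_and_instances apply IntF.inv | with_reducible_and_instances apply IntF.add | with_reducible_and_instances apply IntF.sub | with_reducible_and_instances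 apply IntF.neg | with_reducible_and_instances apply IntF.smul | with_reducible apply Int.fin | with_reducible apply IntF.sep | with_reducible apply IntF.lam | with_reducible apply IntF.insert | with_reducible apply IntF.singleton | with_reducible apply IntF.union | with_reducible apply IntF.iimage | with_reducible apply IntF.ite | with_reducible apply IntF.the | with_reducible apply IntF.irec | with_reducible apply IntF.succ | with_reducible apply IntF.val | with_reducible apply IntF.mk | (with_reducible refine Int.comp ?_ ?_; assumption) | (with_reducible refine Int.comp₂ ?_ ?_ ?_; assumption) | (with_reducible refine Int.comp₃ ?_ ?_ ?_ ?_; assumption) | (with_reducible refine Int.comp₄ ?_ ?_ ?_ ?_ ?_; assumption) | (with_reducible refine IntF.comp ?_ ?_; assumption) | (with_reducible refine IntF.comp₂ ?_ ?_ ?_; assumption) | (with_reducible refine IntF.comp₃ ?_ ?_ ?_ ?_; assumption) | with_reducible apply IntF.pair))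

theorem lv_agl (l : INat M) (x : XX M) : AgL l (lv l x) x := fun a ha => by
  rw [mem_lv]
  exact ⟨fun h => h.2, fun h => ⟨ha, h⟩⟩

theorem isCo_lv (l : INat M) (x : XX M) : IsCo (l, lv l x) := fun a ha => (mem_lv.1 ha).1

/-- The condition given by the part of `x` below the level `l`. -/
noncomputable def co (l : INat M) (x : XX M) : Co M := ⟨(l, lv l x), isCo_lv l x⟩

theorem co_eq {l : INat M} {x y : XX M} : co l x = co l y ↔ AgL l x y := by
  constructor
  · intro h
    have h1 : lv l x = lv l y := congrArg (fun p : Co M => p.1.2) h
    have h2 := (lv_agl l x).symm
    rw [h1] at h2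
    exact h2.trans (lv_agl l y)
  · intro h
    refine Co.ext' rfl ?_
    exact ((lv_agl l x).trans h).trans (lv_agl l y).symm

theorem co_self (p : Co M) : co p.1.1 p.1.2 = p := Co.ext' rfl (lv_agl _ _)

theorem le_co {p : Co M} {l : INat M} {x : XX M} : p ≤ co l x ↔ l ≤ p.1.1 ∧ AgL l p.1.2 x := by
  rw [le_def']
  change l ≤ p.1.1 ∧ AgL l p.1.2 (lv l x) ↔ _
  refine and_congr_right fun _ => ⟨fun h => h.trans (lv_agl l x), fun h => h.trans (lv_agl l x).symm⟩

theorem co_le_co {l l' : INat M} {x y : XX M} : co l x ≤ co l' y ↔ l' ≤ l ∧ AgL l' x y := by
  rw [le_co]
  change l' ≤ l ∧ AgL l' (lv l x) y ↔ _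
  refine and_congr_right fun h => ⟨fun h1 => (((lv_agl l x).mono h).symm).trans h1,
    fun h1 => ((lv_agl l x).mono h).trans h1⟩

noncomputable instance : SMul (Gm M) (Co M) := ⟨fun π p => co p.1.1 (rh π p.1.2)⟩

theorem smul_def' (π : Gm M) (p : Co M) : π • p = co p.1.1 (rh π p.1.2) := rfl

theorem smul_co (π : Gm M) (l : INat M) (x : XX M) : π • co l x = co l (rh π x) := by
  rw [smul_def']
  exact co_eq.2 ((rh_lv π).2 (lv_agl l x))

theorem smul_len (π : Gm M) (p : Co M) : (π • p).1.1 = p.1.1 := rfl

theorem smul_agl (π : Gm M) (p : Co M) : AgL p.1.1 (π • p).1.2 (rh π p.1.2) := lv_agl _ _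

noncomputable instance : MulAction (Gm M) (Co M) where
  one_smul p := by
    rw [smul_def', rh_one, co_self]
  mul_smul π σ p := by
    rw [smul_def' σ, smul_co, smul_def', rh_mul]

instance : ISMul M (Gm M) (Co M) where
  out := by
    have h : IntF M (fun q : Gm M × XX M => rh q.1 q.2) := int_rh
    refine IntF.of_rel (r := fun (q : Gm M × Co M) (p : Co M) =>
      p.1.1 = q.2.1.1 ∧ ∀ a, a ∈ p.1.2 ↔ (a.1 < q.2.1.1 ∧ a ∈ rh q.1 q.2.1.2)) (by (repeat' (first | with_reducible exact IntF.id | with_reducible exact IntF.fst' | with_reducible exact IntF.snd' | with_reducible exact IntF.const _ | with_reducible exact Int.const _ | assumption | with_reducible apply Int.and | with_reducible apply Int.or | with_reducible apply Int.not | with_reducible apply Int.imp | with_reducible apply Int.iff | with_reducible apply Int.ne | with_reducible apply Int.eq | with_reducible apply Int.mem | with_reducible apply Int.subset | with_reducible apply Int.ltN | with_reducible apply Int.leN | with_reducible_and_instances apply Helper672.ZFA.Int.le | with_reducible_and_instances apply Helper672.ZFA.Int.lt | with_reducible apply Int.all | with_reducible apply Int.ex | with_reducible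 apply IntF.fst | with_reducible apply IntF.snd | with_reducible apply IntF.app | with_reducible apply IntF.inl | with_reducible apply IntF.inr | with_reducible_and_instances apply IntF.mul | with_reducible_and_instances apply IntF.inv | with_reducible_and_instances apply IntF.add | with_reducible_and_instances apply IntF.sub | with_reducible_and_instances apply IntF.neg | with_reducible_and_instances apply IntF.smul | with_reducible apply Int.fin | with_reducible apply IntF.sep | with_reducible apply IntF.lam | with_reducible apply IntF.insert | with_reducible apply IntF.singleton | with_reducible apply IntF.union | with_reducible apply IntF.iimage | with_reducible apply IntF.ite | with_reducible apply IntF.the | with_reducible apply IntF.irec | with_reducible apply IntF.succ | with_reducible apply IntF.val | with_reducible apply IntF.mk | (with_reducible refine Int.comp ?_ ?_; assumption) | (with_reducible refine Int.comp₂ ?_ ?_ ?_; assumption) | (with_reducible refine Int.comp₃ ?_ ?_ ?_ ?_; assumption) | (with_reducible refine Int.comp₄ ?_ ?_ ?_ ?_ ?_; assumption) | (with_reducible refine IntF.comp ?_ ?_; assumption) | (with_reducible refine IntF.comp₂ ?_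 ?_ ?_; assumption) | (with_reducible refine IntF.comp₃ ?_ ?_ ?_ ?_; assumption) | with_reducible apply IntF.pair))) fun q p => ?_
    constructor
    · rintro ⟨h1, h2⟩
      refine Subtype.ext (Prod.ext h1.symm (IPow.ext' fun a => ?_))
      rw [h2]
      exact mem_lv
    · rintro rfl
      exact ⟨rfl, fun a => mem_lv⟩

variable (M) in
/-- The symmetric system. -/
noncomputable def SS : SymSys M (Co M) (Gm M) (INat M) where
  smul_le π p q h := by
    rw [smul_def', smul_def', co_le_co]
    exact ⟨h.1, (rh_lv π).2 h.2⟩
  U n π := ∀ x, AgC n (rh π x) x
  int_U := by
    have h : IntF M (fun q : Gm M × XX M => rh q.1 q.2) := int_rh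
    unfold AgC
    (repeat' (first | with_reducible exact IntF.id | with_reducible exact IntF.fst' | with_reducible exact IntF.snd' | with_reducible exact IntF.const _ | with_reducible exact Int.const _ | assumption | with_reducible apply Int.and | with_reducible apply Int.or | with_reducible apply Int.not | with_reducible apply Int.imp | with_reducible apply Int.iff | with_reducible apply Int.ne | with_reducible apply Int.eq | with_reducible apply Int.mem | with_reducible apply Int.subset | with_reducible apply Int.ltN | with_reducible apply Int.leN | with_reducible_and_instances apply Helper672.ZFA.Int.le | with_reducible_and_instances apply Helper672.ZFA.Int.lt | with_reducible apply Int.all | with_reducible apply Int.ex | with_reducible apply IntF.fst | with_reducible apply IntF.snd | with_reducible apply IntF.app | with_reducible apply IntF.inl | with_reducible apply IntF.inr | with_reducible_and_instances apply IntF.mul | with_reducible_and_instances apply IntF.inv | with_reducible_and_instances apply IntF.add | with_reducible_and_instances apply IntF.sub | with_reducible_and_instances apply IntF.neg | with_reducible_and_instances apply IntF.smul | with_reducible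 apply Int.fin | with_reducible apply IntF.sep | with_reducible apply IntF.lam | with_reducible apply IntF.insert | with_reducible apply IntF.singleton | with_reducible apply IntF.union | with_reducible apply IntF.iimage | with_reducible apply IntF.ite | with_reducible apply IntF.the | with_reducible apply IntF.irec | with_reducible apply IntF.succ | with_reducible apply IntF.val | with_reducible apply IntF.mk | (with_reducible refine Int.comp ?_ ?_; assumption) | (with_reducible refine Int.comp₂ ?_ ?_ ?_; assumption) | (with_reducible refine Int.comp₃ ?_ ?_ ?_ ?_; assumption) | (with_reducible refine Int.comp₄ ?_ ?_ ?_ ?_ ?_; assumption) | (with_reducible refine IntF.comp ?_ ?_; assumption) | (with_reducible refine IntF.comp₂ ?_ ?_ ?_; assumption) | (with_reducible refine IntF.comp₃ ?_ ?_ ?_ ?_; assumption) | with_reducible apply IntF.pair))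
  nonempty := ⟨0⟩
  one _ x := by
    rw [rh_one]
    exact AgC.refl _ _
  mul _ a b ha hb x := by
    rw [rh_mul]
    exact (ha _).trans (hb x)
  inv _ a ha x := by
    have h := ha (rh a⁻¹ x)
    rw [rh_rh_inv] at h
    exact h.symm
  dir l l' := ⟨max l l', fun a ha => ⟨fun x => (ha x).mono (le_max_left _ _),
    fun x => (ha x).mono (le_max_right _ _)⟩⟩
  conj π l := by
    obtain ⟨m, hm⟩ := exists_bd π
    have hm' : Bd (max l m) π⁻¹.1 := (hm.mono (le_max_right l m)).inv
    refine ⟨max l m, fun a ha x => ?_⟩
    rw [rh_mul, rh_mul]
    have h1 := (rh_c hm').2 (ha (rh π x))
    rw [rh_inv_rh] at h1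
    exact h1.mono (le_max_left _ _)

theorem SS_U {n : INat M} {π : Gm M} : (SS M).U n π ↔ ∀ x, AgC n (rh π x) x := Iff.rfl

end Pool.Agent.Y580
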