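import Pool.Agent.Y580.A1

/-!
# A pairing function and codes of finite parts of sets of positions
-/

set_option maxHeartbeats 1000000
set_option linter.all false
set_option synthInstance.maxSize 2000

namespace Pool.Agent.Y580

open FirstOrder FirstOrder.Language
open Pool.Agent.Helper672.ZFA
open Pool.Agent.Helper672.ZFA.H635 (IPerm SymSys)

universe u

variable {M : Type u} [L.Structure M] [hM : IsModel M]

theorem dbl_inj {a b : INat M} (h : a + a = b + b) : a = b := by
  rcases INat.total a b with ⟨c, rfl⟩ | ⟨c, rfl⟩
  · have h1 : a + a + 0 = a + a + (c + c) := (add_zero _).trans (h.trans (by ring))
    have h2 := add_left_cancel h1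
    have h3 := INat.eq_zero_of_add h2.symm
    rw [h3, add_zero]
  · have h1 : b + b + (c + c) = b + b + 0 := Eq.trans (by ring) (h.trans (add_zero _).symm)
    have h2 := add_left_cancel h1
    have h3 := INat.eq_zero_of_add h2
    rw [h3, add_zero]

theorem dbl_ne {a b : INat M} : a + a ≠ INat.succ (b + b) := by
  intro h
  rw [INat.succ_eq] at h
  rcases INat.total a b with ⟨c, rfl⟩ | ⟨c, rfl⟩
  · have h1 : a + a + 0 = a + a + (c + c + 1) := (add_zero _).trans (h.trans (by ring))
    have h2 := add_left_cancel h1
    rw [← INat.succ_eq] at h2
    exact INat.succ_ne_zero _ h2.symm
  · have h1 : b + b + (c + c) = b + b + 1 := Eq.trans (by ring) h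
    have h2 := add_left_cancel h1
    rcases INat.eq_zero_or_succ c with rfl | ⟨d, rfl⟩
    · rw [add_zero, INat.one_def] at h2
      exact INat.succ_ne_zero _ h2.symm
    · rw [INat.succ_eq, ← add_assoc] at h2
      have h3 : d + 1 + d = 0 := by
        have h4 : d + 1 + d + 1 = 0 + 1 := by
          rw [h2, zero_add]
        exact add_right_cancel h4
      have h4 : d + d + 1 = 0 := by
        rw [← h3]
        ring
      rw [← INat.succ_eq] at h4
      exact INat.succ_ne_zero _ h4

/-- The pairing function. -/
noncomputable def J (a b : INat M) : INat M := irec (b + b) (fun _ y => INat.succ (y + y)) a

theorem int_J : IntF M (fun q : INat M × INat M => J q.1 q.2) := by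
  unfold J
  (repeat' (first | with_reducible exact IntF.id | with_reducible exact IntF.fst' | with_reducible exact IntF.snd' | with_reducible exact IntF.const _ | with_reducible exact Int.const _ | assumption | with_reducible apply Int.and | with_reducible apply Int.or | with_reducible apply Int.not | with_reducible apply Int.imp | with_reducible apply Int.iff | with_reducible apply Int.ne | with_reducible apply Int.eq | with_reducible apply Int.mem | with_reducible apply Int.subset | with_reducible apply Int.ltN | with_reducible apply Int.leN | with_reducible_and_instances apply Helper672.ZFA.Int.le | with_reducible_and_instances apply Helper672.ZFA.Int.lt | with_reducible apply Int.all | with_reducible apply Int.ex | with_reducible apply IntF.fst | with_reducible apply IntF.snd | with_reducible apply IntF.app | with_reducible apply IntF.inl | with_reducible apply IntF.inr | with_reducible_and_instances apply IntF.mul | with_reducible_and_instances apply IntF.inv | with_reducible_and_instances apply IntF.add | with_reducible_and_instances apply IntF.sub | with_reducible_and_instances apply IntF.neg | with_reducible_and_instances apply IntF.smul | with_reducible apply Int.fin | with_reducible apply IntF.sep | with_reducible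 apply IntF.lam | with_reducible apply IntF.insert | with_reducible apply IntF.singleton | with_reducible apply IntF.union | with_reducible apply IntF.iimage | with_reducible apply IntF.ite | with_reducible apply IntF.the | with_reducible apply IntF.irec | with_reducible apply IntF.succ | with_reducible apply IntF.val | with_reducible apply IntF.mk | (with_reducible refine Int.comp ?_ ?_; assumption) | (with_reducible refine Int.comp₂ ?_ ?_ ?_; assumption) | (with_reducible refine Int.comp₃ ?_ ?_ ?_ ?_; assumption) | (with_reducible refine Int.comp₄ ?_ ?_ ?_ ?_ ?_; assumption) | (with_reducible refine IntF.comp ?_ ?_; assumption) | (with_reducible refine IntF.comp₂ ?_ ?_ ?_; assumption) | (with_reducible refine IntF.comp₃ ?_ ?_ ?_ ?_; assumption) | with_reducible apply IntF.pair))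

theorem int_step : IntF M (fun q : INat M × INat M => INat.succ (q.2 + q.2)) := by
  (repeat' (first | with_reducible exact IntF.id | with_reducible exact IntF.fst' | with_reducible exact IntF.snd' | with_reducible exact IntF.const _ | with_reducible exact Int.const _ | assumption | with_reducible apply Int.and | with_reducible apply Int.or | with_reducible apply Int.not | with_reducible apply Int.imp | with_reducible apply Int.iff | with_reducible apply Int.ne | with_reducible apply Int.eq | with_reducible apply Int.mem | with_reducible apply Int.subset | with_reducible apply Int.ltN | with_reducible apply Int.leN | with_reducible_and_instances apply Helper672.ZFA.Int.le | with_reducible_and_instances apply Helper672.ZFA.Int.lt | with_reducible apply Int.all | with_reducible apply Int.ex | with_reducible apply IntF.fst | with_reducible apply IntF.snd | with_reducible apply IntF.app | with_reducible apply IntF.inl | with_reducible apply IntF.inr | with_reducible_and_instances apply IntF.mul | with_reducible_and_instances apply IntF.inv | with_reducible_and_instances apply IntF.add | with_reducible_and_instances apply IntF.sub | with_reducible_and_instances apply IntF.neg | with_reducible_and_instances apply IntF.smul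 | with_reducible apply Int.fin | with_reducible apply IntF.sep | with_reducible apply IntF.lam | with_reducible apply IntF.insert | with_reducible apply IntF.singleton | with_reducible apply IntF.union | with_reducible apply IntF.iimage | with_reducible apply IntF.ite | with_reducible apply IntF.the | with_reducible apply IntF.irec | with_reducible apply IntF.succ | with_reducible apply IntF.val | with_reducible apply IntF.mk | (with_reducible refine Int.comp ?_ ?_; assumption) | (with_reducible refine Int.comp₂ ?_ ?_ ?_; assumption) | (with_reducible refine Int.comp₃ ?_ ?_ ?_ ?_; assumption) | (with_reducible refine Int.comp₄ ?_ ?_ ?_ ?_ ?_; assumption) | (with_reducible refine IntF.comp ?_ ?_; assumption) | (with_reducible refine IntF.comp₂ ?_ ?_ ?_; assumption) | (with_reducible refine IntF.comp₃ ?_ ?_ ?_ ?_; assumption) | with_reducible apply IntF.pair))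

theorem J_zero (b : INat M) : J 0 b = b + b := irec_zero int_step

theorem J_succ (a b : INat M) : J a.succ b = INat.succ (J a b + J a b) := irec_succ int_step a

theorem J_inj {a b a' b' : INat M} (h : J a b = J a' b') : a = a' ∧ b = b' := by
  have hJ : IntF M (fun q : INat M × INat M => J q.1 q.2) := int_J
  have key : ∀ a : INat M, ∀ a' b b' : INat M, J a b = J a' b' → a = a' ∧ b = b' := by
    refine INat.ind (by (repeat' (first | with_reducible exact IntF.id | with_reducible exact IntF.fst' | with_reducible exact IntF.snd' | with_reducible exact IntF.const _ | with_reducible exact Int.const _ | assumption | with_reducible apply Int.and | with_reducible apply Int.or | with_reducible apply Int.not | with_reducible apply Int.imp | with_reducible apply Int.iff | with_reducible apply Int.ne | with_reducible apply Int.eq | with_reducible apply Int.mem | with_reducible apply Int.subset | with_reducible apply Int.ltN | with_reducible apply Int.leN | with_reducible_and_instances apply Helper672.ZFA.Int.le | with_reducible_and_instances apply Helper672.ZFA.Int.lt | with_reducible apply Int.all | with_reducible apply Int.ex | with_reducible apply IntF.fst | with_reducible apply IntF.snd | with_reducible apply IntF.app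 | with_reducible apply IntF.inl | with_reducible apply IntF.inr | with_reducible_and_instances apply IntF.mul | with_reducible_and_instances apply IntF.inv | with_reducible_and_instances apply IntF.add | with_reducible_and_instances apply IntF.sub | with_reducible_and_instances apply IntF.neg | with_reducible_and_instances apply IntF.smul | with_reducible apply Int.fin | with_reducible apply IntF.sep | with_reducible apply IntF.lam | with_reducible apply IntF.insert | with_reducible apply IntF.singleton | with_reducible apply IntF.union | with_reducible apply IntF.iimage | with_reducible apply IntF.ite | with_reducible apply IntF.the | with_reducible apply IntF.irec | with_reducible apply IntF.succ | with_reducible apply IntF.val | with_reducible apply IntF.mk | (with_reducible refine Int.comp ?_ ?_; assumption) | (with_reducible refine Int.comp₂ ?_ ?_ ?_; assumption) | (with_reducible refine Int.comp₃ ?_ ?_ ?_ ?_; assumption) | (with_reducible refine Int.comp₄ ?_ ?_ ?_ ?_ ?_; assumption) | (with_reducible refine IntF.comp ?_ ?_; assumption) | (with_reducible refine IntF.comp₂ ?_ ?_ ?_; assumption) | (with_reducible refine IntF.comp₃ ?_ ?_ ?_ ?_; assumption) | with_reducible apply IntF.pair))) ?_ ?_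
    · intro a' b b' h
      rcases INat.eq_zero_or_succ a' with rfl | ⟨c, rfl⟩
      · rw [J_zero, J_zero] at h
        exact ⟨rfl, dbl_inj h⟩
      · rw [J_zero, J_succ] at h
        exact absurd h dbl_ne
    · intro a ih a' b b' h
      rcases INat.eq_zero_or_succ a' with rfl | ⟨c, rfl⟩
      · rw [J_zero, J_succ] at h
        exact absurd h.symm dbl_ne
      · rw [J_succ, J_succ] at h
        obtain ⟨h1, h2⟩ := ih _ _ _ (dbl_inj (INat.succ_inj h))
        exact ⟨congrArg INat.succ h1, h2⟩
  exact key a a' b b' h

/-- The code of a coordinate and a bit. -/
noncomputable def Jq (q : Qs M) : INat M := J q.1 q.2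

theorem int_Jq : IntF M (Jq (M := M)) := int_J

theorem Jq_inj {q q' : Qs M} (h : Jq q = Jq q') : q = q' :=
  Prod.ext (J_inj h).1 (J_inj h).2

/-- The code of a position. -/
noncomputable def Jt (a : Ps M) : INat M := J a.1 (Jq a.2)

theorem int_Jt : IntF M (Jt (M := M)) := by
  have hJ : IntF M (fun q : INat M × INat M => J q.1 q.2) := int_J
  have hq : IntF M (Jq (M := M)) := int_Jq
  unfold Jt
  (repeat' (first | with_reducible exact IntF.id | with_reducible exact IntF.fst' | with_reducible exact IntF.snd' | with_reducible exact IntF.const _ | with_reducible exact Int.const _ | assumption | with_reducible apply Int.and | with_reducible apply Int.or | with_reducible apply Int.not | with_reducible apply Int.imp | with_reducible apply Int.iff | with_reducible apply Int.ne | with_reducible apply Int.eq | with_reducible apply Int.mem | with_reducible apply Int.subset | with_reducible apply Int.ltN | with_reducible apply Int.leN | with_reducible_and_instances apply Helper672.ZFA.Int.le | with_reducible_and_instances apply Helper672.ZFA.Int.lt | with_reducible apply Int.all | with_reducible apply Int.ex | with_reducible apply IntF.fst | with_reducible apply IntF.snd | with_reducible apply IntF.app | with_reducible apply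 IntF.inl | with_reducible apply IntF.inr | with_reducible_and_instances apply IntF.mul | with_reducible_and_instances apply IntF.inv | with_reducible_and_instances apply IntF.add | with_reducible_and_instances apply IntF.sub | with_reducible_and_instances apply IntF.neg | with_reducible_and_instances apply IntF.smul | with_reducible apply Int.fin | with_reducible apply IntF.sep | with_reducible apply IntF.lam | with_reducible apply IntF.insert | with_reducible apply IntF.singleton | with_reducible apply IntF.union | with_reducible apply IntF.iimage | with_reducible apply IntF.ite | with_reducible apply IntF.the | with_reducible apply IntF.irec | with_reducible apply IntF.succ | with_reducible apply IntF.val | with_reducible apply IntF.mk | (with_reducible refine Int.comp ?_ ?_; assumption) | (with_reducible refine Int.comp₂ ?_ ?_ ?_; assumption) | (with_reducible refine Int.comp₃ ?_ ?_ ?_ ?_; assumption) | (with_reducible refine Int.comp₄ ?_ ?_ ?_ ?_ ?_; assumption) | (with_reducible refine IntF.comp ?_ ?_; assumption) | (with_reducible refine IntF.comp₂ ?_ ?_ ?_; assumption) | (with_reducible refine IntF.comp₃ ?_ ?_ ?_ ?_; assumption) | with_reducible apply IntF.pair))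

theorem Jt_inj {q q' : Ps M} (h : Jt q = Jt q') : q = q' :=
  Prod.ext (J_inj h).1 (Jq_inj (J_inj h).2)

open Classical in
/-- One step of the coding. -/
noncomputable def cst (s : XX M) (j y : INat M) : INat M :=
  if ∃ a, a ∈ s ∧ Jt a = j then J (INat.succ 0) y else J 0 y

theorem int_cst : IntF M (fun q : (XX M × INat M) × INat M => cst q.1.1 q.1.2 q.2) := by
  have hJ : IntF M (fun q : INat M × INat M => J q.1 q.2) := int_J
  have ht : IntF M (Jt (M := M)) := int_Jt
  unfold cst
  (repeat' (first | with_reducible exact IntF.id | with_reducible exact IntF.fst' | with_reducible exact IntF.snd' | with_reducible exact IntF.const _ | with_reducible exact Int.const _ | assumption | with_reducible apply Int.and | with_reducible apply Int.or | with_reducible apply Int.not | with_reducible apply Int.imp | with_reducible apply Int.iff | with_reducible apply Int.ne | with_reducible apply Int.eq | with_reducible apply Int.mem | with_reducible apply Int.subset | with_reducible apply Int.ltN | with_reducible apply Int.leN | with_reducible_and_instances apply Helper672.ZFA.Int.le | with_reducible_and_instances apply Helper672.ZFA.Int.lt | with_reducible apply Int.all | with_reducible apply Int.ex | with_reducible apply IntF.fst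 | with_reducible apply IntF.snd | with_reducible apply IntF.app | with_reducible apply IntF.inl | with_reducible apply IntF.inr | with_reducible_and_instances apply IntF.mul | with_reducible_and_instances apply IntF.inv | with_reducible_and_instances apply IntF.add | with_reducible_and_instances apply IntF.sub | with_reducible_and_instances apply IntF.neg | with_reducible_and_instances apply IntF.smul | with_reducible apply Int.fin | with_reducible apply IntF.sep | with_reducible apply IntF.lam | with_reducible apply IntF.insert | with_reducible apply IntF.singleton | with_reducible apply IntF.union | with_reducible apply IntF.iimage | with_reducible apply IntF.ite | with_reducible apply IntF.the | with_reducible apply IntF.irec | with_reducible apply IntF.succ | with_reducible apply IntF.val | with_reducible apply IntF.mk | (with_reducible refine Int.comp ?_ ?_; assumption) | (with_reducible refine Int.comp₂ ?_ ?_ ?_; assumption) | (with_reducible refine Int.comp₃ ?_ ?_ ?_ ?_; assumption) | (with_reducible refine Int.comp₄ ?_ ?_ ?_ ?_ ?_; assumption) | (with_reducible refine IntF.comp ?_ ?_; assumption) | (with_reducible refine IntF.comp₂ ?_ ?_ ?_; assumption) | (with_reducible refine IntF.comp₃ ?_ ?_ ?_ ?_; assumption)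 | with_reducible apply IntF.pair))

/-- The code of the number `m` and the elements of `s` with codes below `k`. -/
noncomputable def cd (k m : INat M) (s : XX M) : INat M := irec m (fun j y => cst s j y) k

theorem int_cd : IntF M (fun q : (INat M × INat M) × XX M => cd q.1.1 q.1.2 q.2) := by
  have hc : IntF M (fun q : (XX M × INat M) × INat M => cst q.1.1 q.1.2 q.2) := int_cst
  unfold cd
  (repeat' (first | with_reducible exact IntF.id | with_reducible exact IntF.fst' | with_reducible exact IntF.snd' | with_reducible exact IntF.const _ | with_reducible exact Int.const _ | assumption | with_reducible apply Int.and | with_reducible apply Int.or | with_reducible apply Int.not | with_reducible apply Int.imp | with_reducible apply Int.iff | with_reducible apply Int.ne | with_reducible apply Int.eq | with_reducible apply Int.mem | with_reducible apply Int.subset | with_reducible apply Int.ltN | with_reducible apply Int.leN | with_reducible_and_instances apply Helper672.ZFA.Int.le | with_reducible_and_instances apply Helper672.ZFA.Int.lt | with_reducible apply Int.all | with_reducible apply Int.ex | with_reducible apply IntF.fst | with_reducible apply IntF.snd | with_reducible apply IntF.app | with_reducible apply IntF.inl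 | with_reducible apply IntF.inr | with_reducible_and_instances apply IntF.mul | with_reducible_and_instances apply IntF.inv | with_reducible_and_instances apply IntF.add | with_reducible_and_instances apply IntF.sub | with_reducible_and_instances apply IntF.neg | with_reducible_and_instances apply IntF.smul | with_reducible apply Int.fin | with_reducible apply IntF.sep | with_reducible apply IntF.lam | with_reducible apply IntF.insert | with_reducible apply IntF.singleton | with_reducible apply IntF.union | with_reducible apply IntF.iimage | with_reducible apply IntF.ite | with_reducible apply IntF.the | with_reducible apply IntF.irec | with_reducible apply IntF.succ | with_reducible apply IntF.val | with_reducible apply IntF.mk | (with_reducible refine Int.comp ?_ ?_; assumption) | (with_reducible refine Int.comp₂ ?_ ?_ ?_; assumption) | (with_reducible refine Int.comp₃ ?_ ?_ ?_ ?_; assumption) | (with_reducible refine Int.comp₄ ?_ ?_ ?_ ?_ ?_; assumption) | (with_reducible refine IntF.comp ?_ ?_; assumption) | (with_reducible refine IntF.comp₂ ?_ ?_ ?_; assumption) | (with_reducible refine IntF.comp₃ ?_ ?_ ?_ ?_; assumption) | with_reducible apply IntF.pair))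

theorem int_cst' (s : XX M) : IntF M (fun q : INat M × INat M => cst s q.1 q.2) := by
  have hc : IntF M (fun q : (XX M × INat M) × INat M => cst q.1.1 q.1.2 q.2) := int_cst
  (repeat' (first | with_reducible exact IntF.id | with_reducible exact IntF.fst' | with_reducible exact IntF.snd' | with_reducible exact IntF.const _ | with_reducible exact Int.const _ | assumption | with_reducible apply Int.and | with_reducible apply Int.or | with_reducible apply Int.not | with_reducible apply Int.imp | with_reducible apply Int.iff | with_reducible apply Int.ne | with_reducible apply Int.eq | with_reducible apply Int.mem | with_reducible apply Int.subset | with_reducible apply Int.ltN | with_reducible apply Int.leN | with_reducible_and_instances apply Helper672.ZFA.Int.le | with_reducible_and_instances apply Helper672.ZFA.Int.lt | with_reducible apply Int.all | with_reducible apply Int.ex | with_reducible apply IntF.fst | with_reducible apply IntF.snd | with_reducible apply IntF.app | with_reducible apply IntF.inl | with_reducible apply IntF.inr | with_reducible_and_instances apply IntF.mul | with_reducible_and_instances apply IntF.inv | with_reducible_and_instances apply IntF.add | with_reducible_and_instances apply IntF.sub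 | with_reducible_and_instances apply IntF.neg | with_reducible_and_instances apply IntF.smul | with_reducible apply Int.fin | with_reducible apply IntF.sep | with_reducible apply IntF.lam | with_reducible apply IntF.insert | with_reducible apply IntF.singleton | with_reducible apply IntF.union | with_reducible apply IntF.iimage | with_reducible apply IntF.ite | with_reducible apply IntF.the | with_reducible apply IntF.irec | with_reducible apply IntF.succ | with_reducible apply IntF.val | with_reducible apply IntF.mk | (with_reducible refine Int.comp ?_ ?_; assumption) | (with_reducible refine Int.comp₂ ?_ ?_ ?_; assumption) | (with_reducible refine Int.comp₃ ?_ ?_ ?_ ?_; assumption) | (with_reducible refine Int.comp₄ ?_ ?_ ?_ ?_ ?_; assumption) | (with_reducible refine IntF.comp ?_ ?_; assumption) | (with_reducible refine IntF.comp₂ ?_ ?_ ?_; assumption) | (with_reducible refine IntF.comp₃ ?_ ?_ ?_ ?_; assumption) | with_reducible apply IntF.pair))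

theorem cd_inj {k m m' : INat M} {s s' : XX M} (h : cd k m s = cd k m' s') :
    m = m' ∧ ∀ a, Jt a < k → (a ∈ s ↔ a ∈ s') := by
  have hc : IntF M (fun q : (INat M × INat M) × XX M => cd q.1.1 q.1.2 q.2) := int_cd
  have ht : IntF M (Jt (M := M)) := int_Jt
  have key : ∀ k : INat M, cd k m s = cd k m' s' →
      m = m' ∧ ∀ a, Jt a < k → (a ∈ s ↔ a ∈ s') := by
    refine INat.ind (by (repeat' (first | with_reducible exact IntF.id | with_reducible exact IntF.fst' | with_reducible exact IntF.snd' | with_reducible exact IntF.const _ | with_reducible exact Int.const _ | assumption | with_reducible apply Int.and | with_reducible apply Int.or | with_reducible apply Int.not | with_reducible apply Int.imp | with_reducible apply Int.iff | with_reducible apply Int.ne | with_reducible apply Int.eq | with_reducible apply Int.mem | with_reducible apply Int.subset | with_reducible apply Int.ltN | with_reducible apply Int.leN | with_reducible_and_instances apply Helper672.ZFA.Int.le | with_reducible_and_instances apply Helper672.ZFA.Int.lt | with_reducible apply Int.all | with_reducible apply Int.ex | with_reducible apply IntF.fst | with_reducible apply IntF.snd | with_reducible apply IntF.app | with_reducible apply IntF.inl | with_reducible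 apply IntF.inr | with_reducible_and_instances apply IntF.mul | with_reducible_and_instances apply IntF.inv | with_reducible_and_instances apply IntF.add | with_reducible_and_instances apply IntF.sub | with_reducible_and_instances apply IntF.neg | with_reducible_and_instances apply IntF.smul | with_reducible apply Int.fin | with_reducible apply IntF.sep | with_reducible apply IntF.lam | with_reducible apply IntF.insert | with_reducible apply IntF.singleton | with_reducible apply IntF.union | with_reducible apply IntF.iimage | with_reducible apply IntF.ite | with_reducible apply IntF.the | with_reducible apply IntF.irec | with_reducible apply IntF.succ | with_reducible apply IntF.val | with_reducible apply IntF.mk | (with_reducible refine Int.comp ?_ ?_; assumption) | (with_reducible refine Int.comp₂ ?_ ?_ ?_; assumption) | (with_reducible refine Int.comp₃ ?_ ?_ ?_ ?_; assumption) | (with_reducible refine Int.comp₄ ?_ ?_ ?_ ?_ ?_; assumption) | (with_reducible refine IntF.comp ?_ ?_; assumption) | (with_reducible refine IntF.comp₂ ?_ ?_ ?_; assumption) | (with_reducible refine IntF.comp₃ ?_ ?_ ?_ ?_; assumption) | with_reducible apply IntF.pair))) ?_ ?_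
    · intro h
      unfold cd at h
      rw [irec_zero (int_cst' s), irec_zero (int_cst' s')] at h
      exact ⟨h, fun a ha => absurd ha INat.not_lt_zero⟩
    · intro k ih h
      unfold cd at h
      rw [irec_succ (int_cst' s), irec_succ (int_cst' s')] at h
      change cst s k (cd k m s) = cst s' k (cd k m' s') at h
      have h0 : ¬ (INat.succ (0 : INat M) = 0) := INat.succ_ne_zero _
      have h1 : ((∃ a, a ∈ s ∧ Jt a = k) ↔ ∃ a, a ∈ s' ∧ Jt a = k) ∧
          cd k m s = cd k m' s' := by
        unfold cst at h
        by_cases h1 : ∃ a, a ∈ s ∧ Jt a = k
        · by_cases h2 : ∃ a, a ∈ s' ∧ Jt a = k
          · rw [if_pos h1, if_pos h2] at h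
            exact ⟨iff_of_true h1 h2, (J_inj h).2⟩
          · rw [if_pos h1, if_neg h2] at h
            exact absurd (J_inj h).1 h0
        · by_cases h2 : ∃ a, a ∈ s' ∧ Jt a = k
          · rw [if_neg h1, if_pos h2] at h
            exact absurd (J_inj h).1.symm h0
          · rw [if_neg h1, if_neg h2] at h
            exact ⟨iff_of_false h1 h2, (J_inj h).2⟩
      obtain ⟨h2, h3⟩ := ih h1.2
      refine ⟨h2, fun a ha => ?_⟩
      rcases lt_or_eq_of_le (INat.lt_succ_iff.1 ha) with h4 | h4
      · exact h3 a h4
      · have h5 : ∀ t : XX M, a ∈ t ↔ ∃ a, a ∈ t ∧ Jt a = k := fun t =>
          ⟨fun h => ⟨a, h, h4⟩, fun ⟨b, hb, h6⟩ => by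
            rw [← h4] at h6
            rwa [Jt_inj h6] at hb⟩
        rw [h5 s, h5 s']
        exact h1.1
  exact key k h

end Pool.Agent.Y580
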