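import Pool.Agent.Y580.A2

/-!
# Permutations of the positions inside a level
-/

set_option maxHeartbeats 1000000
set_option linter.all false
set_option synthInstance.maxSize 2000

namespace Pool.Agent.Y580

open FirstOrder FirstOrder.Language
open Pool.Agent.Helper672.ZFA
open Pool.Agent.Helper672.ZFA.H635 (IPerm SymSys)

universe u

variable {M : Type u} [L.Structure M] [hM : IsModel M]

open Classical in
/-- The swap of the elements of `D` with elements of the coordinate `e`. -/
noncomputable def swf (e : INat M) (D : Qs M → Prop) (f : Qs M → INat M) (q : Qs M) : Qs M :=
  if D q then (e, f q) else the (fun q' => D q' ∧ (e, f q') = q) q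

section

variable {e : INat M} {D : Qs M → Prop} {f : Qs M → INat M}

theorem swf_of_D {q : Qs M} (h : D q) : swf e D f q = (e, f q) := by
  unfold swf
  rw [if_pos h]

variable (hD : ∀ q, D q → q.1 < e) (hf : ∀ q q', D q → D q' → f q = f q' → q = q')

include hD hf in
theorem swf_of_im {q : Qs M} (h : D q) : swf e D f (e, f q) = q := by
  unfold swf
  rw [if_neg (fun h1 => absurd (hD _ h1) (lt_irrefl e))]
  refine the_eq ⟨q, ⟨h, rfl⟩, fun q' hq' => ?_⟩ ⟨h, rfl⟩
  exact hf _ _ hq'.1 h (congrArg Prod.snd hq'.2)

theorem swf_of_not {q : Qs M} (h : ¬ D q) (h' : ∀ q', D q' → (e, f q') ≠ q) :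
    swf e D f q = q := by
  unfold swf
  rw [if_neg h]
  unfold the
  rw [dif_neg]
  rintro ⟨q', hq', -⟩
  exact h' q' hq'.1 hq'.2

theorem swf_of_lt {q : Qs M} (h : ¬ D q) (h' : q.1 ≠ e) : swf e D f q = q :=
  swf_of_not h fun q' _ h2 => h' (by rw [← h2])

include hD hf in
theorem swf_swf (q : Qs M) : swf e D f (swf e D f q) = q := by
  by_cases h : D q
  · rw [swf_of_D h, swf_of_im hD hf h]
  · by_cases h' : ∃ q', D q' ∧ (e, f q') = q
    · obtain ⟨q', h1, rfl⟩ := h'
      rw [swf_of_im hD hf h1, swf_of_D h1]
    · push Not at h'
      rw [swf_of_not h h', swf_of_not h h']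

end

/-- The first domain. -/
def D1 (n e : INat M) (q : Qs M) : Prop := n ≤ q.1 ∧ q.1 < e

/-- The second domain. -/
def D2 (n m d l l' : INat M) (q : Qs M) : Prop := (n ≤ q.1 ∧ q.1 < m) ∨ (q.1 = d ∧ l ≠ l')

open Classical in
/-- The second function. -/
noncomputable def f2 (n m l l' : INat M) (q : Qs M) : INat M :=
  if q.1 < m then Jq (n, J l (Jq q)) else Jq (n, J l' q.2)

theorem D1_lt {n e : INat M} : ∀ q, D1 n e q → q.1 < e := fun _ h => h.2

theorem D2_lt {n m d l l' : INat M} (hmd : m ≤ d) : ∀ q, D2 n m d l l' q → q.1 < d.succ := by
  rintro q (h | h)
  · exact h.2.trans_le (hmd.trans (INat.le_succ_self d))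
  · rw [h.1]
    exact INat.lt_succ_self d

theorem f2_inj {n m d l l' : INat M} (hmd : m ≤ d) : ∀ q q', D2 n m d l l' q →
    D2 n m d l l' q' → f2 n m l l' q = f2 n m l l' q' → q = q' := by
  have key : ∀ q : Qs M, D2 n m d l l' q → ¬ q.1 < m → q.1 = d ∧ l ≠ l' := by
    rintro q (h | h) h1
    · exact absurd h.2 h1
    · exact h
  intro q q' h h' hf
  unfold f2 at hf
  by_cases h1 : q.1 < m
  · by_cases h2 : q'.1 < m
    · rw [if_pos h1, if_pos h2] at hf
      exact Jq_inj (J_inj (congrArg Prod.snd (Jq_inj hf))).2
    · rw [if_pos h1, if_neg h2] at hf
      exact absurd (J_inj (congrArg Prod.snd (Jq_inj hf))).1 (key q' h' h2).2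
  · by_cases h2 : q'.1 < m
    · rw [if_neg h1, if_pos h2] at hf
      exact absurd (J_inj (congrArg Prod.snd (Jq_inj hf))).1.symm (key q h h1).2
    · rw [if_neg h1, if_neg h2] at hf
      refine Prod.ext ?_ (J_inj (congrArg Prod.snd (Jq_inj hf))).2
      rw [(key q h h1).1, (key q' h' h2).1]

theorem int_sw1 (n e : INat M) : IntF M (swf e (D1 n e) Jq) := by
  have hJ : IntF M (Jq (M := M)) := int_Jq
  have hD : Int M (D1 n e) := by
    unfold D1
    (repeat' (first | with_reducible exact IntF.id | with_reducible exact IntF.fst' | with_reducible exact IntF.snd' | with_reducible exact IntF.const _ | with_reducible exact Int.const _ | assumption | with_reducible apply Int.and | with_reducible apply Int.or | with_reducible apply Int.not | with_reducible apply Int.imp | with_reducible apply Int.iff | with_reducible apply Int.ne | with_reducible apply Int.eq | with_reducible apply Int.mem | with_reducible apply Int.subset | with_reducible apply Int.ltN | with_reducible apply Int.leN | with_reducible_and_instances apply Helper672.ZFA.Int.le | with_reducible_and_instances apply Helper672.ZFA.Int.lt | with_reducible apply Int.all | with_reducible apply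 Int.ex | with_reducible apply IntF.fst | with_reducible apply IntF.snd | with_reducible apply IntF.app | with_reducible apply IntF.inl | with_reducible apply IntF.inr | with_reducible_and_instances apply IntF.mul | with_reducible_and_instances apply IntF.inv | with_reducible_and_instances apply IntF.add | with_reducible_and_instances apply IntF.sub | with_reducible_and_instances apply IntF.neg | with_reducible_and_instances apply IntF.smul | with_reducible apply Int.fin | with_reducible apply IntF.sep | with_reducible apply IntF.lam | with_reducible apply IntF.insert | with_reducible apply IntF.singleton | with_reducible apply IntF.union | with_reducible apply IntF.iimage | with_reducible apply IntF.ite | with_reducible apply IntF.the | with_reducible apply IntF.irec | with_reducible apply IntF.succ | with_reducible apply IntF.val | with_reducible apply IntF.mk | (with_reducible refine Int.comp ?_ ?_; assumption) | (with_reducible refine Int.comp₂ ?_ ?_ ?_; assumption) | (with_reducible refine Int.comp₃ ?_ ?_ ?_ ?_; assumption) | (with_reducible refine Int.comp₄ ?_ ?_ ?_ ?_ ?_; assumption) | (with_reducible refine IntF.comp ?_ ?_; assumption) | (with_reducible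 refine IntF.comp₂ ?_ ?_ ?_; assumption) | (with_reducible refine IntF.comp₃ ?_ ?_ ?_ ?_; assumption) | with_reducible apply IntF.pair))
  unfold swf
  (repeat' (first | with_reducible exact IntF.id | with_reducible exact IntF.fst' | with_reducible exact IntF.snd' | with_reducible exact IntF.const _ | with_reducible exact Int.const _ | assumption | with_reducible apply Int.and | with_reducible apply Int.or | with_reducible apply Int.not | with_reducible apply Int.imp | with_reducible apply Int.iff | with_reducible apply Int.ne | with_reducible apply Int.eq | with_reducible apply Int.mem | with_reducible apply Int.subset | with_reducible apply Int.ltN | with_reducible apply Int.leN | with_reducible_and_instances apply Helper672.ZFA.Int.le | with_reducible_and_instances apply Helper672.ZFA.Int.lt | with_reducible apply Int.all | with_reducible apply Int.ex | with_reducible apply IntF.fst | with_reducible apply IntF.snd | with_reducible apply IntF.app | with_reducible apply IntF.inl | with_reducible apply IntF.inr | with_reducible_and_instances apply IntF.mul | with_reducible_and_instances apply IntF.inv | with_reducible_and_instances apply IntF.add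 | with_reducible_and_instances apply IntF.sub | with_reducible_and_instances apply IntF.neg | with_reducible_and_instances apply IntF.smul | with_reducible apply Int.fin | with_reducible apply IntF.sep | with_reducible apply IntF.lam | with_reducible apply IntF.insert | with_reducible apply IntF.singleton | with_reducible apply IntF.union | with_reducible apply IntF.iimage | with_reducible apply IntF.ite | with_reducible apply IntF.the | with_reducible apply IntF.irec | with_reducible apply IntF.succ | with_reducible apply IntF.val | with_reducible apply IntF.mk | (with_reducible refine Int.comp ?_ ?_; assumption) | (with_reducible refine Int.comp₂ ?_ ?_ ?_; assumption) | (with_reducible refine Int.comp₃ ?_ ?_ ?_ ?_; assumption) | (with_reducible refine Int.comp₄ ?_ ?_ ?_ ?_ ?_; assumption) | (with_reducible refine IntF.comp ?_ ?_; assumption) | (with_reducible refine IntF.comp₂ ?_ ?_ ?_; assumption) | (with_reducible refine IntF.comp₃ ?_ ?_ ?_ ?_; assumption) | with_reducible apply IntF.pair))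

theorem int_f2 (n m : INat M) :
    IntF M (fun w : (INat M × INat M) × Qs M => f2 n m w.1.1 w.1.2 w.2) := by
  have hJ : IntF M (Jq (M := M)) := int_Jq
  have hJ' : IntF M (fun q : INat M × INat M => J q.1 q.2) := int_J
  unfold f2
  (repeat' (first | with_reducible exact IntF.id | with_reducible exact IntF.fst' | with_reducible exact IntF.snd' | with_reducible exact IntF.const _ | with_reducible exact Int.const _ | assumption | with_reducible apply Int.and | with_reducible apply Int.or | with_reducible apply Int.not | with_reducible apply Int.imp | with_reducible apply Int.iff | with_reducible apply Int.ne | with_reducible apply Int.eq | with_reducible apply Int.mem | with_reducible apply Int.subset | with_reducible apply Int.ltN | with_reducible apply Int.leN | with_reducible_and_instances apply Helper672.ZFA.Int.le | with_reducible_and_instances apply Helper672.ZFA.Int.lt | with_reducible apply Int.all | with_reducible apply Int.ex | with_reducible apply IntF.fst | with_reducible apply IntF.snd | with_reducible apply IntF.app | with_reducible apply IntF.inl | with_reducible apply IntF.inr | with_reducible_and_instances apply IntF.mul | with_reducible_and_instances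 apply IntF.inv | with_reducible_and_instances apply IntF.add | with_reducible_and_instances apply IntF.sub | with_reducible_and_instances apply IntF.neg | with_reducible_and_instances apply IntF.smul | with_reducible apply Int.fin | with_reducible apply IntF.sep | with_reducible apply IntF.lam | with_reducible apply IntF.insert | with_reducible apply IntF.singleton | with_reducible apply IntF.union | with_reducible apply IntF.iimage | with_reducible apply IntF.ite | with_reducible apply IntF.the | with_reducible apply IntF.irec | with_reducible apply IntF.succ | with_reducible apply IntF.val | with_reducible apply IntF.mk | (with_reducible refine Int.comp ?_ ?_; assumption) | (with_reducible refine Int.comp₂ ?_ ?_ ?_; assumption) | (with_reducible refine Int.comp₃ ?_ ?_ ?_ ?_; assumption) | (with_reducible refine Int.comp₄ ?_ ?_ ?_ ?_ ?_; assumption) | (with_reducible refine IntF.comp ?_ ?_; assumption) | (with_reducible refine IntF.comp₂ ?_ ?_ ?_; assumption) | (with_reducible refine IntF.comp₃ ?_ ?_ ?_ ?_; assumption) | with_reducible apply IntF.pair))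

theorem int_D2 (n m d : INat M) :
    Int M (fun w : (INat M × INat M) × Qs M => D2 n m d w.1.1 w.1.2 w.2) := by
  unfold D2
  (repeat' (first | with_reducible exact IntF.id | with_reducible exact IntF.fst' | with_reducible exact IntF.snd' | with_reducible exact IntF.const _ | with_reducible exact Int.const _ | assumption | with_reducible apply Int.and | with_reducible apply Int.or | with_reducible apply Int.not | with_reducible apply Int.imp | with_reducible apply Int.iff | with_reducible apply Int.ne | with_reducible apply Int.eq | with_reducible apply Int.mem | with_reducible apply Int.subset | with_reducible apply Int.ltN | with_reducible apply Int.leN | with_reducible_and_instances apply Helper672.ZFA.Int.le | with_reducible_and_instances apply Helper672.ZFA.Int.lt | with_reducible apply Int.all | with_reducible apply Int.ex | with_reducible apply IntF.fst | with_reducible apply IntF.snd | with_reducible apply IntF.app | with_reducible apply IntF.inl | with_reducible apply IntF.inr | with_reducible_and_instances apply IntF.mul | with_reducible_and_instances apply IntF.inv | with_reducible_and_instances apply IntF.add | with_reducible_and_instances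 apply IntF.sub | with_reducible_and_instances apply IntF.neg | with_reducible_and_instances apply IntF.smul | with_reducible apply Int.fin | with_reducible apply IntF.sep | with_reducible apply IntF.lam | with_reducible apply IntF.insert | with_reducible apply IntF.singleton | with_reducible apply IntF.union | with_reducible apply IntF.iimage | with_reducible apply IntF.ite | with_reducible apply IntF.the | with_reducible apply IntF.irec | with_reducible apply IntF.succ | with_reducible apply IntF.val | with_reducible apply IntF.mk | (with_reducible refine Int.comp ?_ ?_; assumption) | (with_reducible refine Int.comp₂ ?_ ?_ ?_; assumption) | (with_reducible refine Int.comp₃ ?_ ?_ ?_ ?_; assumption) | (with_reducible refine Int.comp₄ ?_ ?_ ?_ ?_ ?_; assumption) | (with_reducible refine IntF.comp ?_ ?_; assumption) | (with_reducible refine IntF.comp₂ ?_ ?_ ?_; assumption) | (with_reducible refine IntF.comp₃ ?_ ?_ ?_ ?_; assumption) | with_reducible apply IntF.pair))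

theorem int_sw2 (n m d : INat M) : IntF M (fun w : (INat M × INat M) × Qs M =>
    swf d.succ (D2 n m d w.1.1 w.1.2) (f2 n m w.1.1 w.1.2) w.2) := by
  have h1 : IntF M (fun w : (INat M × INat M) × Qs M => f2 n m w.1.1 w.1.2 w.2) := int_f2 n m
  have h2 : Int M (fun w : (INat M × INat M) × Qs M => D2 n m d w.1.1 w.1.2 w.2) := int_D2 n m d
  unfold swf
  (repeat' (first | with_reducible exact IntF.id | with_reducible exact IntF.fst' | with_reducible exact IntF.snd' | with_reducible exact IntF.const _ | with_reducible exact Int.const _ | assumption | with_reducible apply Int.and | with_reducible apply Int.or | with_reducible apply Int.not | with_reducible apply Int.imp | with_reducible apply Int.iff | with_reducible apply Int.ne | with_reducible apply Int.eq | with_reducible apply Int.mem | with_reducible apply Int.subset | with_reducible apply Int.ltN | with_reducible apply Int.leN | with_reducible_and_instances apply Helper672.ZFA.Int.le | with_reducible_and_instances apply Helper672.ZFA.Int.lt | with_reducible apply Int.all | with_reducible apply Int.ex | with_reducible apply IntF.fst | with_reducible apply IntF.snd | with_reducible apply IntF.app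 | with_reducible apply IntF.inl | with_reducible apply IntF.inr | with_reducible_and_instances apply IntF.mul | with_reducible_and_instances apply IntF.inv | with_reducible_and_instances apply IntF.add | with_reducible_and_instances apply IntF.sub | with_reducible_and_instances apply IntF.neg | with_reducible_and_instances apply IntF.smul | with_reducible apply Int.fin | with_reducible apply IntF.sep | with_reducible apply IntF.lam | with_reducible apply IntF.insert | with_reducible apply IntF.singleton | with_reducible apply IntF.union | with_reducible apply IntF.iimage | with_reducible apply IntF.ite | with_reducible apply IntF.the | with_reducible apply IntF.irec | with_reducible apply IntF.succ | with_reducible apply IntF.val | with_reducible apply IntF.mk | (with_reducible refine Int.comp ?_ ?_; assumption) | (with_reducible refine Int.comp₂ ?_ ?_ ?_; assumption) | (with_reducible refine Int.comp₃ ?_ ?_ ?_ ?_; assumption) | (with_reducible refine Int.comp₄ ?_ ?_ ?_ ?_ ?_; assumption) | (with_reducible refine IntF.comp ?_ ?_; assumption) | (with_reducible refine IntF.comp₂ ?_ ?_ ?_; assumption) | (with_reducible refine IntF.comp₃ ?_ ?_ ?_ ?_;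 assumption) | with_reducible apply IntF.pair))

/-- The first swap. -/
noncomputable def sw1 (n e : INat M) : IPerm M (Qs M) :=
  IPerm.ofInv (swf e (D1 n e) Jq) (int_sw1 n e)
    (swf_swf D1_lt fun _ _ _ _ h => Jq_inj h)

/-- The second swap. -/
noncomputable def sw2 (n m d : INat M) (hmd : m ≤ d) (l l' : INat M) : IPerm M (Qs M) :=
  IPerm.ofInv (swf d.succ (D2 n m d l l') (f2 n m l l'))
    ((int_sw2 n m d).comp (IntF.pair (IntF.const (l, l')) IntF.id)) (swf_swf (D2_lt hmd) (f2_inj hmd))

/-- The permutation of the positions inside a level. -/
noncomputable def om (n m d : INat M) (hmd : m ≤ d) (l l' : INat M) : IPerm M (Qs M) :=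
  sw1 n d.succ * sw2 n m d hmd l l'

theorem om_apply {n m d : INat M} (hmd : m ≤ d) (l l' : INat M) (q : Qs M) :
    (om n m d hmd l l').1.1 q = swf d.succ (D1 n d.succ) Jq
      (swf d.succ (D2 n m d l l') (f2 n m l l') q) := IPerm.mul_apply _ _ _

theorem int_om (n m d : INat M) (hmd : m ≤ d) :
    IntF M (fun w : INat M × INat M => om n m d hmd w.1 w.2) := by
  have h1 : IntF M (swf d.succ (D1 n d.succ) Jq) := int_sw1 n d.succ
  have h2 : IntF M (fun w : (INat M × INat M) × Qs M =>
    swf d.succ (D2 n m d w.1.1 w.1.2) (f2 n m w.1.1 w.1.2) w.2) := int_sw2 n m d
  refine IntF.of_rel (r := fun (w : INat M × INat M) (g : IPerm M (Qs M)) => ∀ q, g.1.1 q =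
    swf d.succ (D1 n d.succ) Jq (swf d.succ (D2 n m d w.1 w.2) (f2 n m w.1 w.2) q)) ?_ fun w g => ?_
  · have h3 : IntF M (fun a : (INat M × INat M) × IPerm M (Qs M) => a.2) := IntF.snd'
    refine Int.all (p := fun (a : (INat M × INat M) × IPerm M (Qs M)) (q : Qs M) => a.2.1.1 q =
      swf d.succ (D1 n d.succ) Jq (swf d.succ (D2 n m d a.1.1 a.1.2) (f2 n m a.1.1 a.1.2) q)) ?_
    refine Int.eq ?_ ?_
    · (repeat' (first | with_reducible exact IntF.id | with_reducible exact IntF.fst' | with_reducible exact IntF.snd' | with_reducible exact IntF.const _ | with_reducible exact Int.const _ | assumption | with_reducible apply Int.and | with_reducible apply Int.or | with_reducible apply Int.not | with_reducible apply Int.imp | with_reducible apply Int.iff | with_reducible apply Int.ne | with_reducible apply Int.eq | with_reducible apply Int.mem | with_reducible apply Int.subset | with_reducible apply Int.ltN | with_reducible apply Int.leN | with_reducible_and_instances apply Helper672.ZFA.Int.le | with_reducible_and_instances apply Helper672.ZFA.Int.lt | with_reducible apply Int.all | with_reducible apply Int.ex | with_reducible apply IntF.fst | with_reducible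 apply IntF.snd | with_reducible apply IntF.app | with_reducible apply IntF.inl | with_reducible apply IntF.inr | with_reducible_and_instances apply IntF.mul | with_reducible_and_instances apply IntF.inv | with_reducible_and_instances apply IntF.add | with_reducible_and_instances apply IntF.sub | with_reducible_and_instances apply IntF.neg | with_reducible_and_instances apply IntF.smul | with_reducible apply Int.fin | with_reducible apply IntF.sep | with_reducible apply IntF.lam | with_reducible apply IntF.insert | with_reducible apply IntF.singleton | with_reducible apply IntF.union | with_reducible apply IntF.iimage | with_reducible apply IntF.ite | with_reducible apply IntF.the | with_reducible apply IntF.irec | with_reducible apply IntF.succ | with_reducible apply IntF.val | with_reducible apply IntF.mk | (with_reducible refine Int.comp ?_ ?_; assumption) | (with_reducible refine Int.comp₂ ?_ ?_ ?_; assumption) | (with_reducible refine Int.comp₃ ?_ ?_ ?_ ?_; assumption) | (with_reducible refine Int.comp₄ ?_ ?_ ?_ ?_ ?_; assumption) | (with_reducible refine IntF.comp ?_ ?_; assumption) | (with_reducible refine IntF.comp₂ ?_ ?_ ?_; assumption) |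 (with_reducible refine IntF.comp₃ ?_ ?_ ?_ ?_; assumption) | with_reducible apply IntF.pair))
    · exact IntF.comp h1 (IntF.comp h2 (IntF.pair (IntF.comp IntF.fst' IntF.fst') IntF.snd'))
  · constructor
    · intro h
      exact IPerm.ext' fun q => (om_apply hmd _ _ q).trans (h q).symm
    · rintro rfl q
      exact om_apply hmd _ _ q

section

variable {n m d : INat M} (hmd : m ≤ d) (l l' : INat M)

theorem om_near {q : Qs M} (h : n ≤ q.1) (h' : q.1 < m) :
    (om n m d hmd l l').1.1 q = (n, J l (Jq q)) := by
  have h2 : D2 n m d l l' q := Or.inl ⟨h, h'⟩
  rw [om_apply, swf_of_D h2]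
  have e1 : f2 n m l l' q = Jq (n, J l (Jq q)) := by
    unfold f2
    rw [if_pos h']
  rw [e1]
  exact swf_of_im D1_lt (fun _ _ _ _ h => Jq_inj h)
    ⟨le_rfl, (h.trans_lt h').trans_le (hmd.trans (INat.le_succ_self d))⟩

theorem om_d (hnd : n ≤ d) (hl : l ≠ l') (c : INat M) :
    (om n m d hmd l l').1.1 (d, c) = (n, J l' c) := by
  have h2 : D2 n m d l l' (d, c) := Or.inr ⟨rfl, hl⟩
  rw [om_apply, swf_of_D h2]
  have e1 : f2 n m l l' (d, c) = Jq (n, J l' c) := by
    unfold f2
    rw [if_neg (not_lt.2 hmd)]
  rw [e1]
  exact swf_of_im D1_lt (fun _ _ _ _ h => Jq_inj h)
    ⟨le_rfl, hnd.trans_lt (INat.lt_succ_self d)⟩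

theorem om_low (hnd : n ≤ d) {q : Qs M} (h : q.1 < n) : (om n m d hmd l l').1.1 q = q := by
  have h1 : q.1 ≠ d.succ := ((h.trans_le hnd).trans (INat.lt_succ_self d)).ne
  have h2 : swf d.succ (D2 n m d l l') (f2 n m l l') q = q := by
    refine swf_of_lt ?_ h1
    rintro (h3 | h3)
    · exact absurd h (not_lt.2 h3.1)
    · rw [h3.1] at h
      exact absurd h (not_lt.2 hnd)
  rw [om_apply, h2]
  exact swf_of_lt (fun h3 => absurd h (not_lt.2 h3.1)) h1

theorem om_far {q : Qs M} (h : d.succ < q.1) : (om n m d hmd l l').1.1 q = q := by
  have h2 : swf d.succ (D2 n m d l l') (f2 n m l l') q = q := by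
    refine swf_of_lt ?_ h.ne'
    intro h3
    exact absurd (D2_lt hmd q h3) (not_lt.2 h.le)
  rw [om_apply, h2]
  exact swf_of_lt (fun h3 => absurd h3.2 (not_lt.2 h.le)) h.ne'

end

end Pool.Agent.Y580
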