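import Pool.Agent.Y580.A3

/-!
# Automorphisms that depend on the history
-/

set_option maxHeartbeats 400000
set_option linter.all false
set_option synthInstance.maxSize 2000

namespace Pool.Agent.Y580

open FirstOrder FirstOrder.Language
open Pool.Agent.Helper672.ZFA
open Pool.Agent.Helper672.ZFA.H635 (IPerm SymSys)

universe u

variable (M : Type u) [L.Structure M] [hM : IsModel M]

/-- The data for an automorphism: at each level `k`, the positions of the level are permuted by
a permutation that depends on the part below the level `k` only, and then some of them
are flipped. -/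
structure HD where
  Pi : INat M → XX M → IPerm M (Qs M)
  int : IntF M (fun q : INat M × XX M => Pi q.1 q.2)
  dl : XX M
  m : INat M
  hist : ∀ k x y, AgL k x y → Pi k x = Pi k y
  bd : ∀ k x y, AgC m x y → Pi k x = Pi k y
  far : ∀ k x q, m ≤ q.1 → (Pi k x).1.1 q = q
  dm : ∀ a, a ∈ dl → a.2.1 < m

variable {M}

namespace HD

variable (H : HD M)

/-- The map. -/
noncomputable def f (x : XX M) : XX M :=
  sep M fun a => ¬ ((a.1, (H.Pi a.1 x).1.1 a.2) ∈ x ↔ a ∈ H.dl)

theorem mem_f {x : XX M} {a : Ps M} :
    a ∈ H.f x ↔ ¬ ((a.1, (H.Pi a.1 x).1.1 a.2) ∈ x ↔ a ∈ H.dl) := by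
  have h := H.int
  exact mem_sep (p := fun a : Ps M => ¬ ((a.1, (H.Pi a.1 x).1.1 a.2) ∈ x ↔ a ∈ H.dl)) (by (repeat' (first | with_reducible exact IntF.id | with_reducible exact IntF.fst' | with_reducible exact IntF.snd' | with_reducible exact IntF.const _ | with_reducible exact Int.const _ | assumption | with_reducible apply Int.and | with_reducible apply Int.or | with_reducible apply Int.not | with_reducible apply Int.imp | with_reducible apply Int.iff | with_reducible apply Int.ne | with_reducible apply Int.eq | with_reducible apply Int.mem | with_reducible apply Int.subset | with_reducible apply Int.ltN | with_reducible apply Int.leN | with_reducible_and_instances apply Helper672.ZFA.Int.le | with_reducible_and_instances apply Helper672.ZFA.Int.lt | with_reducible apply Int.all | with_reducible apply Int.ex | with_reducible apply IntF.fst | with_reducible apply IntF.snd | with_reducible apply IntF.app | with_reducible apply IntF.inl | with_reducible apply IntF.inr | with_reducible apply Int.fin | with_reducible apply IntF.sep | with_reducible apply IntF.lam | with_reducible apply IntF.insert | with_reducible apply IntF.singleton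 | with_reducible apply IntF.union | with_reducible apply IntF.iimage | with_reducible apply IntF.ite | with_reducible apply IntF.the | with_reducible apply IntF.irec | with_reducible apply IntF.succ | with_reducible apply IntF.val | (with_reducible refine Int.comp ?_ ?_; assumption) | (with_reducible refine Int.comp₂ ?_ ?_ ?_; assumption) | (with_reducible refine Int.comp₃ ?_ ?_ ?_ ?_; assumption) | (with_reducible refine Int.comp₄ ?_ ?_ ?_ ?_ ?_; assumption) | (with_reducible refine IntF.comp ?_ ?_; assumption) | (with_reducible refine IntF.comp₂ ?_ ?_ ?_; assumption) | (with_reducible refine IntF.comp₃ ?_ ?_ ?_ ?_; assumption) | with_reducible apply IntF.mk | with_reducible apply IntF.pair)))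

theorem int_f : IntF M H.f := by
  have h := H.int
  unfold f
  refine IntF.sep ?_
  (repeat' (first | with_reducible exact IntF.id | with_reducible exact IntF.fst' | with_reducible exact IntF.snd' | with_reducible exact IntF.const _ | with_reducible exact Int.const _ | assumption | with_reducible apply Int.and | with_reducible apply Int.or | with_reducible apply Int.not | with_reducible apply Int.imp | with_reducible apply Int.iff | with_reducible apply Int.ne | with_reducible apply Int.eq | with_reducible apply Int.mem | with_reducible apply Int.subset | with_reducible apply Int.ltN | with_reducible apply Int.leN | with_reducible_and_instances apply Helper672.ZFA.Int.le | with_reducible_and_instances apply Helper672.ZFA.Int.lt | with_reducible apply Int.all | with_reducible apply Int.ex | with_reducible apply IntF.fst | with_reducible apply IntF.snd | with_reducible apply IntF.app | with_reducible apply IntF.inl | with_reducible apply IntF.inr | with_reducible apply Int.fin | with_reducible apply IntF.sep | with_reducible apply IntF.lam | with_reducible apply IntF.insert | with_reducible apply IntF.singleton | with_reducible apply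 IntF.union | with_reducible apply IntF.iimage | with_reducible apply IntF.ite | with_reducible apply IntF.the | with_reducible apply IntF.irec | with_reducible apply IntF.succ | with_reducible apply IntF.val | (with_reducible refine Int.comp ?_ ?_; assumption) | (with_reducible refine Int.comp₂ ?_ ?_ ?_; assumption) | (with_reducible refine Int.comp₃ ?_ ?_ ?_ ?_; assumption) | (with_reducible refine Int.comp₄ ?_ ?_ ?_ ?_ ?_; assumption) | (with_reducible refine IntF.comp ?_ ?_; assumption) | (with_reducible refine IntF.comp₂ ?_ ?_ ?_; assumption) | (with_reducible refine IntF.comp₃ ?_ ?_ ?_ ?_; assumption) | with_reducible apply IntF.mk | with_reducible apply IntF.pair))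

theorem f_l {l : INat M} {x y : XX M} (h : AgL l x y) : AgL l (H.f x) (H.f y) := by
  intro a ha
  rw [mem_f, mem_f, H.hist a.1 x y (h.mono ha.le)]
  rw [h (a.1, (H.Pi a.1 y).1.1 a.2) ha]

theorem inj_l {l : INat M} {x y : XX M} (h : AgL l (H.f x) (H.f y)) : AgL l x y := by
  have key : ∀ k : INat M, k ≤ l → AgL k x y := by
    refine INat.ind (by unfold AgL; (repeat' (first | with_reducible exact IntF.id | with_reducible exact IntF.fst' | with_reducible exact IntF.snd' | with_reducible exact IntF.const _ | with_reducible exact Int.const _ | assumption | with_reducible apply Int.and | with_reducible apply Int.or | with_reducible apply Int.not | with_reducible apply Int.imp | with_reducible apply Int.iff | with_reducible apply Int.ne | with_reducible apply Int.eq | with_reducible apply Int.mem | with_reducible apply Int.subset | with_reducible apply Int.ltN | with_reducible apply Int.leN | with_reducible_and_instances apply Helper672.ZFA.Int.le | with_reducible_and_instances apply Helper672.ZFA.Int.lt | with_reducible apply Int.all | with_reducible apply Int.ex | with_reducible apply IntF.fst | with_reducible apply IntF.snd | with_reducible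 apply IntF.app | with_reducible apply IntF.inl | with_reducible apply IntF.inr | with_reducible apply Int.fin | with_reducible apply IntF.sep | with_reducible apply IntF.lam | with_reducible apply IntF.insert | with_reducible apply IntF.singleton | with_reducible apply IntF.union | with_reducible apply IntF.iimage | with_reducible apply IntF.ite | with_reducible apply IntF.the | with_reducible apply IntF.irec | with_reducible apply IntF.succ | with_reducible apply IntF.val | (with_reducible refine Int.comp ?_ ?_; assumption) | (with_reducible refine Int.comp₂ ?_ ?_ ?_; assumption) | (with_reducible refine Int.comp₃ ?_ ?_ ?_ ?_; assumption) | (with_reducible refine Int.comp₄ ?_ ?_ ?_ ?_ ?_; assumption) | (with_reducible refine IntF.comp ?_ ?_; assumption) | (with_reducible refine IntF.comp₂ ?_ ?_ ?_; assumption) | (with_reducible refine IntF.comp₃ ?_ ?_ ?_ ?_; assumption) | with_reducible apply IntF.mk | with_reducible apply IntF.pair))) ?_ ?_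
    · intro _ a ha
      exact absurd ha INat.not_lt_zero
    · intro k ih hk a ha
      have hk' : k < l := INat.succ_le_iff.1 hk
      have ih' := ih hk'.le
      rcases lt_or_eq_of_le (INat.lt_succ_iff.1 ha) with h1 | h1
      · exact ih' a h1
      · have e1 := H.hist k x y ih'
        have e2 : (H.Pi k y).1.1 ((H.Pi k y).1.2 a.2) = a.2 := (H.Pi k y).2.1 _
        have h2 := h (k, (H.Pi k y).1.2 a.2) hk'
        rw [mem_f, mem_f] at h2
        dsimp only at h2
        rw [e1, e2, ← h1] at h2
        tauto
  exact key l le_rfl

theorem f_inj {x y : XX M} (h : H.f x = H.f y) : x = y := by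
  refine IPow.ext' fun a => ?_
  have h1 : AgL a.1.succ (H.f x) (H.f y) := by
    rw [h]
    exact AgL.refl _ _
  exact H.inj_l h1 a (INat.lt_succ_self _)

/-- One step of the construction of preimages. -/
noncomputable def up1 (y : XX M) (l : INat M) (x : XX M) : XX M :=
  sep M fun a => (a.1 < l ∧ a ∈ x) ∨ (a.1 = l ∧
    ¬ ((l, (H.Pi l x).1.2 a.2) ∈ y ↔ (l, (H.Pi l x).1.2 a.2) ∈ H.dl))

theorem mem_up1 {y : XX M} {l : INat M} {x : XX M} {a : Ps M} : a ∈ H.up1 y l x ↔
    (a.1 < l ∧ a ∈ x) ∨ (a.1 = l ∧
      ¬ ((l, (H.Pi l x).1.2 a.2) ∈ y ↔ (l, (H.Pi l x).1.2 a.2) ∈ H.dl)) := by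
  have h := H.int
  exact mem_sep (p := fun a : Ps M => (a.1 < l ∧ a ∈ x) ∨ (a.1 = l ∧
    ¬ ((l, (H.Pi l x).1.2 a.2) ∈ y ↔ (l, (H.Pi l x).1.2 a.2) ∈ H.dl))) (by (repeat' (first | with_reducible exact IntF.id | with_reducible exact IntF.fst' | with_reducible exact IntF.snd' | with_reducible exact IntF.const _ | with_reducible exact Int.const _ | assumption | with_reducible apply Int.and | with_reducible apply Int.or | with_reducible apply Int.not | with_reducible apply Int.imp | with_reducible apply Int.iff | with_reducible apply Int.ne | with_reducible apply Int.eq | with_reducible apply Int.mem | with_reducible apply Int.subset | with_reducible apply Int.ltN | with_reducible apply Int.leN | with_reducible_and_instances apply Helper672.ZFA.Int.le | with_reducible_and_instances apply Helper672.ZFA.Int.lt | with_reducible apply Int.all | with_reducible apply Int.ex | with_reducible apply IntF.fst | with_reducible apply IntF.snd | with_reducible apply IntF.app | with_reducible apply IntF.inl | with_reducible apply IntF.inr | with_reducible apply Int.fin | with_reducible apply IntF.sep | with_reducible apply IntF.lam | with_reducible apply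 IntF.insert | with_reducible apply IntF.singleton | with_reducible apply IntF.union | with_reducible apply IntF.iimage | with_reducible apply IntF.ite | with_reducible apply IntF.the | with_reducible apply IntF.irec | with_reducible apply IntF.succ | with_reducible apply IntF.val | (with_reducible refine Int.comp ?_ ?_; assumption) | (with_reducible refine Int.comp₂ ?_ ?_ ?_; assumption) | (with_reducible refine Int.comp₃ ?_ ?_ ?_ ?_; assumption) | (with_reducible refine Int.comp₄ ?_ ?_ ?_ ?_ ?_; assumption) | (with_reducible refine IntF.comp ?_ ?_; assumption) | (with_reducible refine IntF.comp₂ ?_ ?_ ?_; assumption) | (with_reducible refine IntF.comp₃ ?_ ?_ ?_ ?_; assumption) | with_reducible apply IntF.mk | with_reducible apply IntF.pair)))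

theorem surj_l (y : XX M) (l : INat M) : ∃ x, AgL l (H.f x) y := by
  have hf := H.int_f
  refine INat.ind (p := fun l : INat M => ∃ x, AgL l (H.f x) y) (by unfold AgL; (repeat' (first | with_reducible exact IntF.id | with_reducible exact IntF.fst' | with_reducible exact IntF.snd' | with_reducible exact IntF.const _ | with_reducible exact Int.const _ | assumption | with_reducible apply Int.and | with_reducible apply Int.or | with_reducible apply Int.not | with_reducible apply Int.imp | with_reducible apply Int.iff | with_reducible apply Int.ne | with_reducible apply Int.eq | with_reducible apply Int.mem | with_reducible apply Int.subset | with_reducible apply Int.ltN | with_reducible apply Int.leN | with_reducible_and_instances apply Helper672.ZFA.Int.le | with_reducible_and_instances apply Helper672.ZFA.Int.lt | with_reducible apply Int.all | with_reducible apply Int.ex | with_reducible apply IntF.fst | with_reducible apply IntF.snd | with_reducible apply IntF.app | with_reducible apply IntF.inl | with_reducible apply IntF.inr | with_reducible apply Int.fin | with_reducible apply IntF.sep | with_reducible apply IntF.lam | with_reducible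 apply IntF.insert | with_reducible apply IntF.singleton | with_reducible apply IntF.union | with_reducible apply IntF.iimage | with_reducible apply IntF.ite | with_reducible apply IntF.the | with_reducible apply IntF.irec | with_reducible apply IntF.succ | with_reducible apply IntF.val | (with_reducible refine Int.comp ?_ ?_; assumption) | (with_reducible refine Int.comp₂ ?_ ?_ ?_; assumption) | (with_reducible refine Int.comp₃ ?_ ?_ ?_ ?_; assumption) | (with_reducible refine Int.comp₄ ?_ ?_ ?_ ?_ ?_; assumption) | (with_reducible refine IntF.comp ?_ ?_; assumption) | (with_reducible refine IntF.comp₂ ?_ ?_ ?_; assumption) | (with_reducible refine IntF.comp₃ ?_ ?_ ?_ ?_; assumption) | with_reducible apply IntF.mk | with_reducible apply IntF.pair))) ?_ ?_ l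
  · exact ⟨y, fun a ha => absurd ha INat.not_lt_zero⟩
  · rintro l ⟨x, hx⟩
    have h1 : AgL l (H.up1 y l x) x := by
      intro a ha
      rw [mem_up1]
      constructor
      · rintro (h2 | h2)
        · exact h2.2
        · exact absurd ha (by rw [h2.1]; exact lt_irrefl l)
      · intro h2
        exact Or.inl ⟨ha, h2⟩
    refine ⟨H.up1 y l x, fun a ha => ?_⟩
    rcases lt_or_eq_of_le (INat.lt_succ_iff.1 ha) with h2 | h2
    · exact ((H.f_l h1).trans hx) a h2
    · rw [mem_f, h2, H.hist l _ _ h1, mem_up1]
      dsimp only
      have e1 : (H.Pi l x).1.2 ((H.Pi l x).1.1 a.2) = a.2 := (H.Pi l x).2.2 _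
      rw [e1]
      have e2 : a = (l, a.2) := Prod.ext h2 rfl
      rw [← e2]
      have e3 : ¬ l < l := lt_irrefl l
      tauto

theorem surj (y : XX M) : ∃ x, H.f x = y := by
  have hf := H.int_f
  let x : XX M := sep M fun a => ∃ w, (∀ b, b.1 < a.1.succ → (b ∈ H.f w ↔ b ∈ y)) ∧ a ∈ w
  have hx : ∀ a, a ∈ x ↔ ∃ w, AgL a.1.succ (H.f w) y ∧ a ∈ w := fun a =>
    mem_sep (p := fun a : Ps M => ∃ w, (∀ b, b.1 < a.1.succ → (b ∈ H.f w ↔ b ∈ y)) ∧ a ∈ w)
      (by (repeat' (first | with_reducible exact IntF.id | with_reducible exact IntF.fst' | with_reducible exact IntF.snd' | with_reducible exact IntF.const _ | with_reducible exact Int.const _ | assumption | with_reducible apply Int.and | with_reducible apply Int.or | with_reducible apply Int.not | with_reducible apply Int.imp | with_reducible apply Int.iff | with_reducible apply Int.ne | with_reducible apply Int.eq | with_reducible apply Int.mem | with_reducible apply Int.subset | with_reducible apply Int.ltN | with_reducible apply Int.leN | with_reducible_and_instances apply Helper672.ZFA.Int.le | with_reducible_and_instances apply Helper672.ZFA.Int.lt | with_reducible apply Int.all | with_reducible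 apply Int.ex | with_reducible apply IntF.fst | with_reducible apply IntF.snd | with_reducible apply IntF.app | with_reducible apply IntF.inl | with_reducible apply IntF.inr | with_reducible apply Int.fin | with_reducible apply IntF.sep | with_reducible apply IntF.lam | with_reducible apply IntF.insert | with_reducible apply IntF.singleton | with_reducible apply IntF.union | with_reducible apply IntF.iimage | with_reducible apply IntF.ite | with_reducible apply IntF.the | with_reducible apply IntF.irec | with_reducible apply IntF.succ | with_reducible apply IntF.val | (with_reducible refine Int.comp ?_ ?_; assumption) | (with_reducible refine Int.comp₂ ?_ ?_ ?_; assumption) | (with_reducible refine Int.comp₃ ?_ ?_ ?_ ?_; assumption) | (with_reducible refine Int.comp₄ ?_ ?_ ?_ ?_ ?_; assumption) | (with_reducible refine IntF.comp ?_ ?_; assumption) | (with_reducible refine IntF.comp₂ ?_ ?_ ?_; assumption) | (with_reducible refine IntF.comp₃ ?_ ?_ ?_ ?_; assumption) | with_reducible apply IntF.mk | with_reducible apply IntF.pair)))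
  have h1 : ∀ l, AgL l (H.f x) y := by
    intro l
    obtain ⟨w, hw⟩ := H.surj_l y l
    have h2 : AgL l x w := by
      intro a ha
      have ha' : a.1.succ ≤ l := INat.succ_le_iff.2 ha
      rw [hx]
      constructor
      · rintro ⟨w', h3, h4⟩
        have h5 : AgL a.1.succ w' w := H.inj_l (h3.trans (hw.mono ha').symm)
        exact (h5 a (INat.lt_succ_self _)).1 h4
      · intro h3
        exact ⟨w, hw.mono ha', h3⟩
    exact (H.f_l h2).trans hw
  exact ⟨x, IPow.ext' fun a => h1 a.1.succ a (INat.lt_succ_self _)⟩

theorem f_c {x y : XX M} (h : AgC H.m x y) : AgC H.m (H.f x) (H.f y) := by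
  intro a ha
  rw [mem_f, mem_f, H.bd a.1 x y h]
  have h1 : ((H.Pi a.1 y).1.1 a.2).1 < H.m := by
    by_contra h2
    have h3 := H.far a.1 y _ (not_lt.1 h2)
    have h4 : (H.Pi a.1 y).1.1 a.2 = a.2 := by
      have h5 := congrArg (fun q => (H.Pi a.1 y).1.2 q) h3
      have e : ∀ q, (H.Pi a.1 y).1.2 ((H.Pi a.1 y).1.1 q) = q := (H.Pi a.1 y).2.2
      simp only [e] at h5
      exact h5
    rw [h4] at h2
    exact h2 ha
  rw [h (a.1, (H.Pi a.1 y).1.1 a.2) h1]

theorem f_far {x : XX M} {a : Ps M} (h : H.m ≤ a.2.1) : a ∈ H.f x ↔ a ∈ x := by
  rw [mem_f, H.far a.1 x a.2 h]
  have h1 : ¬ a ∈ H.dl := fun h1 => absurd (H.dm a h1) (not_lt.2 h)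
  have e : ((a.1, a.2) : Ps M) = a := rfl
  rw [e]
  tauto

theorem f_c' {x y : XX M} (h : AgC H.m (H.f x) (H.f y)) : AgC H.m x y := by
  have h1 : AgC H.m (H.f (mix H.m x y)) (H.f x) := H.f_c (mix_c _ _ _)
  have h2 : H.f (mix H.m x y) = H.f y := by
    refine IPow.ext' fun a => ?_
    by_cases h3 : a.2.1 < H.m
    · exact (h1.trans h) a h3
    · rw [H.f_far (not_lt.1 h3), H.f_far (not_lt.1 h3)]
      exact mem_mix_ge (not_lt.1 h3)
  have h3 := H.f_inj h2
  have h4 := mix_c H.m x y
  rw [h3] at h4
  exact h4.symm

theorem exists_aut : ∃ π : Gm M, Bd H.m π.1 ∧ ∀ x, rh π⁻¹ x = H.f x := by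
  choose g hg using H.surj
  have hg' : ∀ x, g (H.f x) = x := fun x => H.f_inj (hg _)
  have hf := H.int_f
  have hgi : IntF M g := by
    refine IntF.of_rel (r := fun y x => H.f x = y) (by (repeat' (first | with_reducible exact IntF.id | with_reducible exact IntF.fst' | with_reducible exact IntF.snd' | with_reducible exact IntF.const _ | with_reducible exact Int.const _ | assumption | with_reducible apply Int.and | with_reducible apply Int.or | with_reducible apply Int.not | with_reducible apply Int.imp | with_reducible apply Int.iff | with_reducible apply Int.ne | with_reducible apply Int.eq | with_reducible apply Int.mem | with_reducible apply Int.subset | with_reducible apply Int.ltN | with_reducible apply Int.leN | with_reducible_and_instances apply Helper672.ZFA.Int.le | with_reducible_and_instances apply Helper672.ZFA.Int.lt | with_reducible apply Int.all | with_reducible apply Int.ex | with_reducible apply IntF.fst | with_reducible apply IntF.snd | with_reducible apply IntF.app | with_reducible apply IntF.inl | with_reducible apply IntF.inr | with_reducible apply Int.fin | with_reducible apply IntF.sep | with_reducible apply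 IntF.lam | with_reducible apply IntF.insert | with_reducible apply IntF.singleton | with_reducible apply IntF.union | with_reducible apply IntF.iimage | with_reducible apply IntF.ite | with_reducible apply IntF.the | with_reducible apply IntF.irec | with_reducible apply IntF.succ | with_reducible apply IntF.val | (with_reducible refine Int.comp ?_ ?_; assumption) | (with_reducible refine Int.comp₂ ?_ ?_ ?_; assumption) | (with_reducible refine Int.comp₃ ?_ ?_ ?_ ?_; assumption) | (with_reducible refine Int.comp₄ ?_ ?_ ?_ ?_ ?_; assumption) | (with_reducible refine IntF.comp ?_ ?_; assumption) | (with_reducible refine IntF.comp₂ ?_ ?_ ?_; assumption) | (with_reducible refine IntF.comp₃ ?_ ?_ ?_ ?_; assumption) | with_reducible apply IntF.mk | with_reducible apply IntF.pair))) fun y x => ?_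
    constructor
    · rintro rfl
      exact hg' x
    · rintro rfl
      exact hg y
  let π : IPerm M (XX M) := ⟨(⟨g, hgi⟩, ⟨H.f, hf⟩), hg', hg⟩
  have hb : Bd H.m π := by
    refine ⟨fun x a ha => ?_, fun x y => ?_⟩
    · change a ∈ g x ↔ a ∈ x
      rw [← H.f_far (x := g x) ha, hg]
    · change AgC H.m x y ↔ AgC H.m (g x) (g y)
      constructor
      · intro h
        rw [← hg x, ← hg y] at h
        exact H.f_c' h
      · intro h
        have h1 := H.f_c h
        rwa [hg, hg] at h1
  refine ⟨⟨π, ?_, H.m, hb⟩, hb, fun x => rfl⟩
  intro x y l
  change AgL l x y ↔ AgL l (g x) (g y)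
  constructor
  · intro h
    rw [← hg x, ← hg y] at h
    exact H.inj_l h
  · intro h
    have h1 := H.f_l h
    rwa [hg, hg] at h1

end HD

/-! ### Translations -/

/-- The symmetric difference. -/
noncomputable def xd (x d : XX M) : XX M := sep M fun a => ¬ (a ∈ x ↔ a ∈ d)

theorem mem_xd {x d : XX M} {a : Ps M} : a ∈ xd x d ↔ ¬ (a ∈ x ↔ a ∈ d) :=
  mem_sep (p := fun a : Ps M => ¬ (a ∈ x ↔ a ∈ d)) (by (repeat' (first | with_reducible exact IntF.id | with_reducible exact IntF.fst' | with_reducible exact IntF.snd' | with_reducible exact IntF.const _ | with_reducible exact Int.const _ | assumption | with_reducible apply Int.and | with_reducible apply Int.or | with_reducible apply Int.not | with_reducible apply Int.imp | with_reducible apply Int.iff | with_reducible apply Int.ne | with_reducible apply Int.eq | with_reducible apply Int.mem | with_reducible apply Int.subset | with_reducible apply Int.ltN | with_reducible apply Int.leN | with_reducible_and_instances apply Helper672.ZFA.Int.le | with_reducible_and_instances apply Helper672.ZFA.Int.lt | with_reducible apply Int.all | with_reducible apply Int.ex | with_reducible apply IntF.fst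 | with_reducible apply IntF.snd | with_reducible apply IntF.app | with_reducible apply IntF.inl | with_reducible apply IntF.inr | with_reducible apply Int.fin | with_reducible apply IntF.sep | with_reducible apply IntF.lam | with_reducible apply IntF.insert | with_reducible apply IntF.singleton | with_reducible apply IntF.union | with_reducible apply IntF.iimage | with_reducible apply IntF.ite | with_reducible apply IntF.the | with_reducible apply IntF.irec | with_reducible apply IntF.succ | with_reducible apply IntF.val | (with_reducible refine Int.comp ?_ ?_; assumption) | (with_reducible refine Int.comp₂ ?_ ?_ ?_; assumption) | (with_reducible refine Int.comp₃ ?_ ?_ ?_ ?_; assumption) | (with_reducible refine Int.comp₄ ?_ ?_ ?_ ?_ ?_; assumption) | (with_reducible refine IntF.comp ?_ ?_; assumption) | (with_reducible refine IntF.comp₂ ?_ ?_ ?_; assumption) | (with_reducible refine IntF.comp₃ ?_ ?_ ?_ ?_; assumption) | with_reducible apply IntF.mk | with_reducible apply IntF.pair)))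

theorem int_xd (d : XX M) : IntF M (fun x => xd x d) := by
  unfold xd
  refine IntF.sep ?_
  (repeat' (first | with_reducible exact IntF.id | with_reducible exact IntF.fst' | with_reducible exact IntF.snd' | with_reducible exact IntF.const _ | with_reducible exact Int.const _ | assumption | with_reducible apply Int.and | with_reducible apply Int.or | with_reducible apply Int.not | with_reducible apply Int.imp | with_reducible apply Int.iff | with_reducible apply Int.ne | with_reducible apply Int.eq | with_reducible apply Int.mem | with_reducible apply Int.subset | with_reducible apply Int.ltN | with_reducible apply Int.leN | with_reducible_and_instances apply Helper672.ZFA.Int.le | with_reducible_and_instances apply Helper672.ZFA.Int.lt | with_reducible apply Int.all | with_reducible apply Int.ex | with_reducible apply IntF.fst | with_reducible apply IntF.snd | with_reducible apply IntF.app | with_reducible apply IntF.inl | with_reducible apply IntF.inr | with_reducible apply Int.fin | with_reducible apply IntF.sep | with_reducible apply IntF.lam | with_reducible apply IntF.insert | with_reducible apply IntF.singleton | with_reducible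 apply IntF.union | with_reducible apply IntF.iimage | with_reducible apply IntF.ite | with_reducible apply IntF.the | with_reducible apply IntF.irec | with_reducible apply IntF.succ | with_reducible apply IntF.val | (with_reducible refine Int.comp ?_ ?_; assumption) | (with_reducible refine Int.comp₂ ?_ ?_ ?_; assumption) | (with_reducible refine Int.comp₃ ?_ ?_ ?_ ?_; assumption) | (with_reducible refine Int.comp₄ ?_ ?_ ?_ ?_ ?_; assumption) | (with_reducible refine IntF.comp ?_ ?_; assumption) | (with_reducible refine IntF.comp₂ ?_ ?_ ?_; assumption) | (with_reducible refine IntF.comp₃ ?_ ?_ ?_ ?_; assumption) | with_reducible apply IntF.mk | with_reducible apply IntF.pair))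

theorem xd_xd (x d : XX M) : xd (xd x d) d = x := IPow.ext' fun a => by
  rw [mem_xd, mem_xd]
  tauto

theorem xd_l {l : INat M} {x y d : XX M} : AgL l (xd x d) (xd y d) ↔ AgL l x y := by
  constructor
  · intro h a ha
    have h1 := h a ha
    rw [mem_xd, mem_xd] at h1
    tauto
  · intro h a ha
    rw [mem_xd, mem_xd, h a ha]

theorem xd_c {l : INat M} {x y d : XX M} : AgC l (xd x d) (xd y d) ↔ AgC l x y := by
  constructor
  · intro h a ha
    have h1 := h a ha
    rw [mem_xd, mem_xd] at h1
    tauto
  · intro h a ha
    rw [mem_xd, mem_xd, h a ha]

theorem xd_lc {l m : INat M} {x y d : XX M} : AgLC l m (xd x d) (xd y d) ↔ AgLC l m x y := by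
  constructor
  · intro h a ha hb
    have h1 := h a ha hb
    rw [mem_xd, mem_xd] at h1
    tauto
  · intro h a ha hb
    rw [mem_xd, mem_xd, h a ha hb]

/-- Translations are automorphisms. -/
theorem exists_tr {m : INat M} {d : XX M} (hd : ∀ a, a ∈ d → a.2.1 < m) :
    ∃ π : Gm M, Bd m π.1 ∧ (∀ x, rh π x = xd x d) ∧ ∀ x, rh π⁻¹ x = xd x d := by
  let π : IPerm M (XX M) := ⟨(⟨fun x => xd x d, int_xd d⟩, ⟨fun x => xd x d, int_xd d⟩),
    fun x => xd_xd x d, fun x => xd_xd x d⟩
  have hb : Bd m π := by
    refine ⟨fun x a ha => ?_, fun x y => xd_c.symm⟩
    change a ∈ xd x d ↔ a ∈ x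
    rw [mem_xd]
    have h1 : ¬ a ∈ d := fun h1 => absurd (hd a h1) (not_lt.2 ha)
    tauto
  exact ⟨⟨π, fun x y l => xd_l.symm, m, hb⟩, hb, fun x => rfl, fun x => rfl⟩

end Pool.Agent.Y580
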