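import Pool.Agent.Y580.A4

/-!
# Localization and equality of names
-/

set_option maxHeartbeats 400000
set_option linter.all false
set_option synthInstance.maxSize 2000

namespace Pool.Agent.Y580

open FirstOrder FirstOrder.Language
open Pool.Agent.Helper672.ZFA
open Pool.Agent.Helper672.ZFA.H635 (IPerm SymSys IG WFI FEq FMem tw Good Sy og feq_tw tw_mul
  feq_og ig_og)

universe u

variable {M : Type u} [L.Structure M] [hM : IsModel M]

section loc

variable {ρ : Gm M} {l m m' : INat M} {x₀ z δ : XX M}

open Classical in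
/-- The localized automorphism. -/
noncomputable def kf (ρ : Gm M) (l m' : INat M) (x₀ δ : XX M) (x : XX M) : XX M :=
  if AgLC l m' x x₀ then rh ρ x else xd x δ

theorem int_kf (ρ : Gm M) (l m' : INat M) (x₀ δ : XX M) : IntF M (kf ρ l m' x₀ δ) := by
  have h1 : IntF M (fun q : Gm M × XX M => rh q.1 q.2) := int_rh
  have h2 := int_xd δ
  unfold kf AgLC
  (repeat' (first | with_reducible exact IntF.id | with_reducible exact IntF.fst' | with_reducible exact IntF.snd' | with_reducible exact IntF.const _ | with_reducible exact Int.const _ | assumption | with_reducible apply Int.and | with_reducible apply Int.or | with_reducible apply Int.not | with_reducible apply Int.imp | with_reducible apply Int.iff | with_reducible apply Int.ne | with_reducible apply Int.eq | with_reducible apply Int.mem | with_reducible apply Int.subset | with_reducible apply Int.ltN | with_reducible apply Int.leN | with_reducible_and_instances apply Helper672.ZFA.Int.le | with_reducible_and_instances apply Helper672.ZFA.Int.lt | with_reducible apply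 Int.all | with_reducible apply Int.ex | with_reducible apply IntF.fst | with_reducible apply IntF.snd | with_reducible apply IntF.app | with_reducible apply IntF.inl | with_reducible apply IntF.inr | with_reducible apply Int.fin | with_reducible apply IntF.sep | with_reducible apply IntF.lam | with_reducible apply IntF.insert | with_reducible apply IntF.singleton | with_reducible apply IntF.union | with_reducible apply IntF.iimage | with_reducible apply IntF.ite | with_reducible apply IntF.the | with_reducible apply IntF.irec | with_reducible apply IntF.succ | with_reducible apply IntF.val | (with_reducible refine Int.comp ?_ ?_; assumption) | (with_reducible refine Int.comp₂ ?_ ?_ ?_; assumption) | (with_reducible refine Int.comp₃ ?_ ?_ ?_ ?_; assumption) | (with_reducible refine Int.comp₄ ?_ ?_ ?_ ?_ ?_; assumption) | (with_reducible refine IntF.comp ?_ ?_; assumption) | (with_reducible refine IntF.comp₂ ?_ ?_ ?_; assumption) | (with_reducible refine IntF.comp₃ ?_ ?_ ?_ ?_; assumption) | with_reducible apply IntF.mk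 | with_reducible apply IntF.pair))

variable (hm : Bd m' ρ.1) (hz : AgL l z (rh ρ x₀)) (hδ : z = xd x₀ δ)
  (hfar : ∀ a, a ∈ δ → a.2.1 < m')

include hm hz in
theorem loc1 {x : XX M} (h : AgLC l m' x x₀) : AgLC l m' (rh ρ x) z :=
  (rh_lc hm h).trans hz.symm.lc

include hδ in
theorem loc2 {x : XX M} : AgLC l m' (xd x δ) z ↔ AgLC l m' x x₀ := by
  rw [hδ]
  exact xd_lc

include hm hz in
theorem loc3 {x : XX M} (h : AgLC l m' x z) : AgLC l m' (rh ρ⁻¹ x) x₀ := by
  have h1 := rh_lc (π := ρ⁻¹) hm.inv (h.trans hz.lc)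
  rwa [rh_inv_rh] at h1

include hδ in
theorem loc4 {x : XX M} : AgLC l m' (xd x δ) x₀ ↔ AgLC l m' x z := by
  have h := loc2 (l := l) (m' := m') hδ (x := xd x δ)
  rw [xd_xd] at h
  exact h.symm

include hm hz hδ in
theorem kf_kf (x : XX M) : kf ρ⁻¹ l m' z δ (kf ρ l m' x₀ δ x) = x := by
  unfold kf
  by_cases h : AgLC l m' x x₀
  · rw [if_pos h, if_pos (loc1 hm hz h), rh_inv_rh]
  · rw [if_neg h, if_neg (fun h1 => h ((loc2 hδ).1 h1)), xd_xd]

include hm hz hδ hfar in
theorem kf_l (x : XX M) : AgL l (kf ρ l m' x₀ δ x) (xd x δ) := by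
  unfold kf
  by_cases h : AgLC l m' x x₀
  · rw [if_pos h]
    intro a ha
    by_cases h1 : a.2.1 < m'
    · rw [loc1 hm hz h a ha h1, hδ, mem_xd, mem_xd, h a ha h1]
    · have h2 : ¬ a ∈ δ := fun h2 => h1 (hfar a h2)
      rw [rh_far hm (not_lt.1 h1), mem_xd]
      tauto
  · rw [if_neg h]
    exact AgL.refl _ _

end loc

theorem exists_loc {ρ : Gm M} {p : Co M} {m : INat M}
    (h : ∀ t : Co M, t ≤ p → AgC m t.1.2 (ρ • t).1.2) :
    ∃ κ : Gm M, (SS M).U m κ ∧ ∀ t : Co M, t ≤ p → κ • t = ρ • t := by
  obtain ⟨m₀, hm₀⟩ := exists_bd ρ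
  have hm : Bd (max m m₀) ρ.1 := hm₀.mono (le_max_right _ _)
  have hmm : m ≤ max m m₀ := le_max_left _ _
  generalize max m m₀ = m' at hm hmm
  let l := p.1.1
  let x₀ := p.1.2
  let z := (ρ • p).1.2
  let δ := xd x₀ z
  have hz : AgL l z (rh ρ x₀) := smul_agl ρ p
  have hδ : z = xd x₀ δ := by
    refine IPow.ext' fun a => ?_
    rw [mem_xd, mem_xd]
    tauto
  have hd1 : ∀ a, a ∈ δ → a.1 < l := by
    intro a ha
    by_contra h1
    refine (mem_xd.1 ha) (iff_of_false (fun h2 => h1 (p.2 a h2)) fun h2 => h1 ?_)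
    exact (ρ • p).2 a h2
  have hd2 : ∀ a, a ∈ δ → m ≤ a.2.1 := by
    intro a ha
    by_contra h1
    exact (mem_xd.1 ha) (h p le_rfl a (not_le.1 h1))
  have hd3 : ∀ a, a ∈ δ → a.2.1 < m' := by
    intro a ha
    by_contra h1
    refine (mem_xd.1 ha) ?_
    rw [hz a (hd1 a ha), rh_far hm (not_lt.1 h1)]
  have hz' : AgL l x₀ (rh ρ⁻¹ z) := by
    have h1 := (rh_lv ρ⁻¹).2 hz
    rw [rh_inv_rh] at h1
    exact h1.symm
  have hδ' : x₀ = xd z δ := by
    rw [hδ, xd_xd]
  have e1 : ∀ x, kf ρ⁻¹ l m' z δ (kf ρ l m' x₀ δ x) = x := kf_kf hm hz hδ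
  have e2 : ∀ x, kf ρ l m' x₀ δ (kf ρ⁻¹ l m' z δ x) = x := by
    have h1 := kf_kf (ρ := ρ⁻¹) (l := l) (m' := m') (x₀ := z) (z := x₀) (δ := δ) hm.inv hz' hδ'
    rwa [inv_inv] at h1
  let κ : IPerm M (XX M) := ⟨(⟨kf ρ l m' x₀ δ, int_kf _ _ _ _ _⟩,
    ⟨kf ρ⁻¹ l m' z δ, int_kf _ _ _ _ _⟩), e2, e1⟩
  have hK : ∀ x, AgL l (kf ρ l m' x₀ δ x) (xd x δ) := kf_l hm hz hδ hd3
  have hb : Bd m' κ := by
    refine ⟨fun x a ha => ?_, fun x y => ?_⟩
    · change a ∈ kf ρ l m' x₀ δ x ↔ a ∈ x
      unfold kf
      by_cases h1 : AgLC l m' x x₀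
      · rw [if_pos h1, rh_far hm ha]
      · rw [if_neg h1, mem_xd]
        have h2 : ¬ a ∈ δ := fun h2 => absurd (hd3 a h2) (not_lt.2 ha)
        tauto
    · change AgC m' x y ↔ AgC m' (kf ρ l m' x₀ δ x) (kf ρ l m' x₀ δ y)
      have hc : (AgLC l m' x y) → (AgLC l m' x x₀ ↔ AgLC l m' y x₀) := fun h1 =>
        ⟨fun h2 => h1.symm.trans h2, fun h2 => h1.trans h2⟩
      constructor
      · intro h1
        have h2 := hc h1.lc
        unfold kf
        by_cases h3 : AgLC l m' x x₀
        · rw [if_pos h3, if_pos (h2.1 h3)]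
          exact (rh_c hm).2 h1
        · rw [if_neg h3, if_neg (fun h4 => h3 (h2.2 h4))]
          exact xd_c.2 h1
      · intro h1
        have h5 : AgLC l m' (xd x δ) (xd y δ) :=
          ((hK x).symm.lc.trans h1.lc).trans (hK y).lc
        have h2 := hc (xd_lc.1 h5)
        unfold kf at h1
        by_cases h3 : AgLC l m' x x₀
        · rw [if_pos h3, if_pos (h2.1 h3)] at h1
          exact (rh_c hm).1 h1
        · rw [if_neg h3, if_neg (fun h4 => h3 (h2.2 h4))] at h1
          exact xd_c.1 h1
  have hl : Lv κ := by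
    intro x y k
    change AgL k x y ↔ AgL k (kf ρ l m' x₀ δ x) (kf ρ l m' x₀ δ y)
    rcases le_total k l with hk | hk
    · constructor
      · intro h1
        exact (((hK x).mono hk).trans (xd_l.2 h1)).trans ((hK y).mono hk).symm
      · intro h1
        exact xd_l.1 ((((hK x).mono hk).symm.trans h1).trans ((hK y).mono hk))
    · have hc : (AgL l x y) → (AgLC l m' x x₀ ↔ AgLC l m' y x₀) := fun h1 =>
        ⟨fun h2 => h1.symm.lc.trans h2, fun h2 => h1.lc.trans h2⟩
      constructor
      · intro h1
        have h2 := hc (h1.mono hk)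
        unfold kf
        by_cases h3 : AgLC l m' x x₀
        · rw [if_pos h3, if_pos (h2.1 h3)]
          exact (rh_lv ρ).2 h1
        · rw [if_neg h3, if_neg (fun h4 => h3 (h2.2 h4))]
          exact xd_l.2 h1
      · intro h1
        have h5 : AgL l (xd x δ) (xd y δ) :=
          ((hK x).symm.trans (h1.mono hk)).trans (hK y)
        have h2 := hc (xd_l.1 h5)
        unfold kf at h1
        by_cases h3 : AgLC l m' x x₀
        · rw [if_pos h3, if_pos (h2.1 h3)] at h1
          exact (rh_lv ρ).1 h1
        · rw [if_neg h3, if_neg (fun h4 => h3 (h2.2 h4))] at h1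
          exact xd_l.1 h1
  refine ⟨⟨κ, hl, m', hb⟩, ?_, ?_⟩
  · intro x
    change AgC m (kf ρ l m' x₀ δ x) x
    unfold kf
    by_cases h3 : AgLC l m' x x₀
    · rw [if_pos h3]
      intro a ha
      -- the modification of `x` that extends `p`
      let y : XX M := sep M fun a => (a.1 < l ∧ m' ≤ a.2.1 ∧ a ∈ x₀) ∨
        (¬ (a.1 < l ∧ m' ≤ a.2.1) ∧ a ∈ x)
      have hy : ∀ a, a ∈ y ↔ (a.1 < l ∧ m' ≤ a.2.1 ∧ a ∈ x₀) ∨
          (¬ (a.1 < l ∧ m' ≤ a.2.1) ∧ a ∈ x) := fun a =>
        mem_sep (p := fun a : Ps M => (a.1 < l ∧ m' ≤ a.2.1 ∧ a ∈ x₀) ∨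
          (¬ (a.1 < l ∧ m' ≤ a.2.1) ∧ a ∈ x)) (by (repeat' (first | with_reducible exact IntF.id | with_reducible exact IntF.fst' | with_reducible exact IntF.snd' | with_reducible exact IntF.const _ | with_reducible exact Int.const _ | assumption | with_reducible apply Int.and | with_reducible apply Int.or | with_reducible apply Int.not | with_reducible apply Int.imp | with_reducible apply Int.iff | with_reducible apply Int.ne | with_reducible apply Int.eq | with_reducible apply Int.mem | with_reducible apply Int.subset | with_reducible apply Int.ltN | with_reducible apply Int.leN | with_reducible_and_instances apply Helper672.ZFA.Int.le | with_reducible_and_instances apply Helper672.ZFA.Int.lt | with_reducible apply Int.all | with_reducible apply Int.ex | with_reducible apply IntF.fst | with_reducible apply IntF.snd | with_reducible apply IntF.app | with_reducible apply IntF.inl | with_reducible apply IntF.inr | with_reducible apply Int.fin | with_reducible apply IntF.sep | with_reducible apply IntF.lam | with_reducible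 apply IntF.insert | with_reducible apply IntF.singleton | with_reducible apply IntF.union | with_reducible apply IntF.iimage | with_reducible apply IntF.ite | with_reducible apply IntF.the | with_reducible apply IntF.irec | with_reducible apply IntF.succ | with_reducible apply IntF.val | (with_reducible refine Int.comp ?_ ?_; assumption) | (with_reducible refine Int.comp₂ ?_ ?_ ?_; assumption) | (with_reducible refine Int.comp₃ ?_ ?_ ?_ ?_; assumption) | (with_reducible refine Int.comp₄ ?_ ?_ ?_ ?_ ?_; assumption) | (with_reducible refine IntF.comp ?_ ?_; assumption) | (with_reducible refine IntF.comp₂ ?_ ?_ ?_; assumption) | (with_reducible refine IntF.comp₃ ?_ ?_ ?_ ?_; assumption) | with_reducible apply IntF.mk | with_reducible apply IntF.pair)))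
      have hy1 : AgC m' y x := by
        intro b hb
        rw [hy]
        have : ¬ m' ≤ b.2.1 := not_le.2 hb
        tauto
      have hy2 : AgL l y x₀ := by
        intro b hb
        rw [hy]
        by_cases h4 : b.2.1 < m'
        · have h5 := h3 b hb h4
          have : ¬ m' ≤ b.2.1 := not_le.2 h4
          tauto
        · have : m' ≤ b.2.1 := not_lt.1 h4
          tauto
      have hk1 : l ≤ max l a.1.succ := le_max_left _ _
      have hk2 : a.1 < max l a.1.succ := (INat.lt_succ_self _).trans_le (le_max_right _ _)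
      generalize max l a.1.succ = k at hk1 hk2
      have ht : co k y ≤ p := by
        rw [← co_self p, co_le_co]
        exact ⟨hk1, hy2⟩
      have h4 := h _ ht a ha
      rw [smul_co] at h4
      have h5 : a ∈ (co k y).1.2 ↔ a ∈ y := lv_agl k y a hk2
      have h6 : a ∈ (co k (rh ρ y)).1.2 ↔ a ∈ rh ρ y := lv_agl k _ a hk2
      have ha' := ha.trans_le hmm
      rw [h5, h6, hy1 a ha', (rh_c hm).2 hy1 a ha'] at h4
      exact h4.symm
    · rw [if_neg h3]
      intro a ha
      have h4 : ¬ a ∈ δ := fun h4 => absurd (hd2 a h4) (not_le.2 ha)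
      rw [mem_xd]
      tauto
  · intro t ht
    rw [smul_def', smul_def']
    change co _ (kf ρ l m' x₀ δ t.1.2) = _
    unfold kf
    rw [if_pos]
    exact ht.2.lc

/-! ### Equality of names -/

theorem smul_up {π σ : Gm M} {q s : Co M} (h : q ≤ s) (h' : π • q = σ • q) : π • s = σ • s := by
  rw [smul_def', smul_def', co_eq] at h'
  rw [smul_def', smul_def', co_eq]
  exact (((rh_lv π).2 h.2).symm.trans (h'.mono h.1)).trans ((rh_lv σ).2 h.2)

theorem smul_le_smul' (π : Gm M) {p q : Co M} (h : p ≤ q) : π • p ≤ π • q := (SS M).smul_le π h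

theorem le_smul_iff (π : Gm M) {p q : Co M} : p ≤ π • q ↔ π⁻¹ • p ≤ q := by
  constructor
  · intro h
    have h1 := smul_le_smul' π⁻¹ h
    rwa [inv_smul_smul] at h1
  · intro h
    have h1 := smul_le_smul' π h
    rwa [smul_inv_smul] at h1

variable {α : Type u} [ITy M α] {E : α → Co M → α → Prop}

theorem feq_agree {π σ : Gm M} {p : Co M} (h : ∀ t : Co M, t ≤ p → π⁻¹ • t = σ⁻¹ • t) (a : α) :
    FEq M (tw π E) (tw σ E) p a a := by
  refine FEq.of_rel (r := fun q x y => x = y ∧ q ≤ p) ?_ ?_ ⟨rfl, le_rfl⟩
  · (repeat' (first | with_reducible exact IntF.id | with_reducible exact IntF.fst' | with_reducible exact IntF.snd' | with_reducible exact IntF.const _ | with_reducible exact Int.const _ | assumption | with_reducible apply Int.and | with_reducible apply Int.or | with_reducible apply Int.not | with_reducible apply Int.imp | with_reducible apply Int.iff | with_reducible apply Int.ne | with_reducible apply Int.eq | with_reducible apply Int.mem | with_reducible apply Int.subset | with_reducible apply Int.ltN | with_reducible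 apply Int.leN | with_reducible_and_instances apply Helper672.ZFA.Int.le | with_reducible_and_instances apply Helper672.ZFA.Int.lt | with_reducible apply Int.all | with_reducible apply Int.ex | with_reducible apply IntF.fst | with_reducible apply IntF.snd | with_reducible apply IntF.app | with_reducible apply IntF.inl | with_reducible apply IntF.inr | with_reducible apply Int.fin | with_reducible apply IntF.sep | with_reducible apply IntF.lam | with_reducible apply IntF.insert | with_reducible apply IntF.singleton | with_reducible apply IntF.union | with_reducible apply IntF.iimage | with_reducible apply IntF.ite | with_reducible apply IntF.the | with_reducible apply IntF.irec | with_reducible apply IntF.succ | with_reducible apply IntF.val | (with_reducible refine Int.comp ?_ ?_; assumption) | (with_reducible refine Int.comp₂ ?_ ?_ ?_; assumption) | (with_reducible refine Int.comp₃ ?_ ?_ ?_ ?_; assumption) | (with_reducible refine Int.comp₄ ?_ ?_ ?_ ?_ ?_; assumption) | (with_reducible refine IntF.comp ?_ ?_; assumption)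 | (with_reducible refine IntF.comp₂ ?_ ?_ ?_; assumption) | (with_reducible refine IntF.comp₃ ?_ ?_ ?_ ?_; assumption) | with_reducible apply IntF.mk | with_reducible apply IntF.pair))
  rintro q x _ ⟨rfl, hq⟩
  refine ⟨fun q' hq' => ⟨rfl, hq'.trans hq⟩, ?_, ?_⟩
  · intro a' s h1 q' h2 h3
    refine ⟨q', le_rfl, a', s, ?_, h3, rfl, h2.trans hq⟩
    change E a' (σ⁻¹ • s) x
    rw [← smul_up h3 (h q' (h2.trans hq))]
    exact h1
  · intro a' s h1 q' h2 h3
    refine ⟨q', le_rfl, a', s, ?_, h3, rfl, h2.trans hq⟩
    change E a' (π⁻¹ • s) x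
    rw [smul_up h3 (h q' (h2.trans hq))]
    exact h1

/-- Names depend on the coordinates in the support only. -/
theorem feq_LL (hE : Good (SS M) E) {b : α} {m : INat M} (hb : Sy (SS M) E m b) {π σ : Gm M}
    {p : Co M} (h : ∀ t : Co M, t ≤ p → AgC m (π⁻¹ • t).1.2 (σ⁻¹ • t).1.2) :
    FEq M (og (Γ := Gm M) E) (og E) p (π, b) (σ, b) := by
  have hI := hE.int
  obtain ⟨κ, hκ, hκ'⟩ := exists_loc (ρ := σ⁻¹ * π) (p := π⁻¹ • p) (m := m) (fun t ht => by
    have h1 : π • t ≤ p := by
      have h2 := smul_le_smul' π ht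
      rwa [smul_inv_smul] at h2
    have h2 := h (π • t) h1
    rw [inv_smul_smul, ← mul_smul] at h2
    exact h2)
  have hκi : (SS M).U m κ⁻¹ := (SS M).inv _ _ hκ
  have h1 : FEq M (tw (π⁻¹ * σ) E) (tw κ⁻¹ E) (π⁻¹ • p) b b := by
    refine feq_agree (fun t ht => ?_) b
    rw [inv_inv, mul_inv_rev, inv_inv]
    exact (hκ' t ht).symm
  have h2 : FEq M (tw κ⁻¹ E) E (π⁻¹ • p) b b := hb _ hκi _
  have h3 := h1.trans (hI.tw _) (hI.tw _) hI h2
  have h4 := feq_tw (SS M) π h3
  rw [← tw_mul, mul_inv_cancel_left, smul_inv_smul] at h4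
  have h5 : FEq M (tw σ E) (og E) p b ((σ, b) : Gm M × α) := feq_og σ p b
  have h6 : FEq M (tw π E) (og E) p b ((π, b) : Gm M × α) := feq_og π p b
  have hO := ig_og (Γ := Gm M) hI
  exact ((h6.symm (hI.tw π) hO).trans hO (hI.tw π) (hI.tw σ)
    (h4.symm (hI.tw σ) (hI.tw π))).trans hO (hI.tw σ) hO h5

end Pool.Agent.Y580
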