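import Pool.Agent.Y580.A5

/-!
# The coding automorphisms
-/

set_option maxHeartbeats 400000
set_option linter.all false
set_option synthInstance.maxSize 2000

namespace Pool.Agent.Y580

open FirstOrder FirstOrder.Language
open Pool.Agent.Helper672.ZFA
open Pool.Agent.Helper672.ZFA.H635 (IPerm SymSys IG WFI FEq FMem tw Good Sy og feq_tw tw_mul
  feq_og ig_og feq_tw_og)

universe u

variable {M : Type u} [L.Structure M] [hM : IsModel M]

/-- The history of the real given by `σ` and `m₁`. -/
noncomputable def hs (σ : Gm M) (m₁ k : INat M) (x : XX M) : XX M :=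
  sep M fun a => a.1 < k ∧ a.2.1 < m₁ ∧ a ∈ rh σ⁻¹ x

theorem mem_hs {σ : Gm M} {m₁ k : INat M} {x : XX M} {a : Ps M} :
    a ∈ hs σ m₁ k x ↔ a.1 < k ∧ a.2.1 < m₁ ∧ a ∈ rh σ⁻¹ x := by
  have h1 : IntF M (fun q : Gm M × XX M => rh q.1 q.2) := int_rh
  exact mem_sep (p := fun a : Ps M => a.1 < k ∧ a.2.1 < m₁ ∧ a ∈ rh σ⁻¹ x) (by (repeat' (first | with_reducible exact IntF.id | with_reducible exact IntF.fst' | with_reducible exact IntF.snd' | with_reducible exact IntF.const _ | with_reducible exact Int.const _ | assumption | with_reducible apply Int.and | with_reducible apply Int.or | with_reducible apply Int.not | with_reducible apply Int.imp | with_reducible apply Int.iff | with_reducible apply Int.ne | with_reducible apply Int.eq | with_reducible apply Int.mem | with_reducible apply Int.subset | with_reducible apply Int.ltN | with_reducible apply Int.leN | with_reducible_and_instances apply Helper672.ZFA.Int.le | with_reducible_and_instances apply Helper672.ZFA.Int.lt | with_reducible apply Int.all | with_reducible apply Int.ex | with_reducible apply IntF.fst | with_reducible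 apply IntF.snd | with_reducible apply IntF.app | with_reducible apply IntF.inl | with_reducible apply IntF.inr | with_reducible apply Int.fin | with_reducible apply IntF.sep | with_reducible apply IntF.lam | with_reducible apply IntF.insert | with_reducible apply IntF.singleton | with_reducible apply IntF.union | with_reducible apply IntF.iimage | with_reducible apply IntF.ite | with_reducible apply IntF.the | with_reducible apply IntF.irec | with_reducible apply IntF.succ | with_reducible apply IntF.val | (with_reducible refine Int.comp ?_ ?_; assumption) | (with_reducible refine Int.comp₂ ?_ ?_ ?_; assumption) | (with_reducible refine Int.comp₃ ?_ ?_ ?_ ?_; assumption) | (with_reducible refine Int.comp₄ ?_ ?_ ?_ ?_ ?_; assumption) | (with_reducible refine IntF.comp ?_ ?_; assumption) | (with_reducible refine IntF.comp₂ ?_ ?_ ?_; assumption) | (with_reducible refine IntF.comp₃ ?_ ?_ ?_ ?_; assumption) | with_reducible apply IntF.mk | with_reducible apply IntF.pair)))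

/-- The code of the history. -/
noncomputable def la (σ : Gm M) (m₁ k : INat M) (x : XX M) : INat M := cd k m₁ (hs σ m₁ k x)

theorem int_la : IntF M (fun w : ((Gm M × INat M) × INat M) × XX M =>
    la w.1.1.1 w.1.1.2 w.1.2 w.2) := by
  have h1 : IntF M (fun q : Gm M × XX M => rh q.1 q.2) := int_rh
  have h2 : IntF M (fun q : (INat M × INat M) × XX M => cd q.1.1 q.1.2 q.2) := int_cd
  unfold la hs
  refine IntF.comp₃ (p := fun (k m : INat M) (x : XX M) => cd k m x) h2 ?_ ?_ ?_
  · (repeat' (first | with_reducible exact IntF.id | with_reducible exact IntF.fst' | with_reducible exact IntF.snd' | with_reducible exact IntF.const _ | with_reducible exact Int.const _ | assumption | with_reducible apply Int.and | with_reducible apply Int.or | with_reducible apply Int.not | with_reducible apply Int.imp | with_reducible apply Int.iff | with_reducible apply Int.ne | with_reducible apply Int.eq | with_reducible apply Int.mem | with_reducible apply Int.subset | with_reducible apply Int.ltN | with_reducible apply Int.leN | with_reducible_and_instances apply Helper672.ZFA.Int.le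 | with_reducible_and_instances apply Helper672.ZFA.Int.lt | with_reducible apply Int.all | with_reducible apply Int.ex | with_reducible apply IntF.fst | with_reducible apply IntF.snd | with_reducible apply IntF.app | with_reducible apply IntF.inl | with_reducible apply IntF.inr | with_reducible apply Int.fin | with_reducible apply IntF.sep | with_reducible apply IntF.lam | with_reducible apply IntF.insert | with_reducible apply IntF.singleton | with_reducible apply IntF.union | with_reducible apply IntF.iimage | with_reducible apply IntF.ite | with_reducible apply IntF.the | with_reducible apply IntF.irec | with_reducible apply IntF.succ | with_reducible apply IntF.val | (with_reducible refine Int.comp ?_ ?_; assumption) | (with_reducible refine Int.comp₂ ?_ ?_ ?_; assumption) | (with_reducible refine Int.comp₃ ?_ ?_ ?_ ?_; assumption) | (with_reducible refine Int.comp₄ ?_ ?_ ?_ ?_ ?_; assumption) | (with_reducible refine IntF.comp ?_ ?_; assumption) | (with_reducible refine IntF.comp₂ ?_ ?_ ?_; assumption) | (with_reducible refine IntF.comp₃ ?_ ?_ ?_ ?_; assumption)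 | with_reducible apply IntF.mk | with_reducible apply IntF.pair))
  · (repeat' (first | with_reducible exact IntF.id | with_reducible exact IntF.fst' | with_reducible exact IntF.snd' | with_reducible exact IntF.const _ | with_reducible exact Int.const _ | assumption | with_reducible apply Int.and | with_reducible apply Int.or | with_reducible apply Int.not | with_reducible apply Int.imp | with_reducible apply Int.iff | with_reducible apply Int.ne | with_reducible apply Int.eq | with_reducible apply Int.mem | with_reducible apply Int.subset | with_reducible apply Int.ltN | with_reducible apply Int.leN | with_reducible_and_instances apply Helper672.ZFA.Int.le | with_reducible_and_instances apply Helper672.ZFA.Int.lt | with_reducible apply Int.all | with_reducible apply Int.ex | with_reducible apply IntF.fst | with_reducible apply IntF.snd | with_reducible apply IntF.app | with_reducible apply IntF.inl | with_reducible apply IntF.inr | with_reducible apply Int.fin | with_reducible apply IntF.sep | with_reducible apply IntF.lam | with_reducible apply IntF.insert | with_reducible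 apply IntF.singleton | with_reducible apply IntF.union | with_reducible apply IntF.iimage | with_reducible apply IntF.ite | with_reducible apply IntF.the | with_reducible apply IntF.irec | with_reducible apply IntF.succ | with_reducible apply IntF.val | (with_reducible refine Int.comp ?_ ?_; assumption) | (with_reducible refine Int.comp₂ ?_ ?_ ?_; assumption) | (with_reducible refine Int.comp₃ ?_ ?_ ?_ ?_; assumption) | (with_reducible refine Int.comp₄ ?_ ?_ ?_ ?_ ?_; assumption) | (with_reducible refine IntF.comp ?_ ?_; assumption) | (with_reducible refine IntF.comp₂ ?_ ?_ ?_; assumption) | (with_reducible refine IntF.comp₃ ?_ ?_ ?_ ?_; assumption) | with_reducible apply IntF.mk | with_reducible apply IntF.pair))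
  · refine IntF.sep ?_
    refine Int.and ?_ (Int.and ?_ (Int.mem ?_ ?_))
    · (repeat' (first | with_reducible exact IntF.id | with_reducible exact IntF.fst' | with_reducible exact IntF.snd' | with_reducible exact IntF.const _ | with_reducible exact Int.const _ | assumption | with_reducible apply Int.and | with_reducible apply Int.or | with_reducible apply Int.not | with_reducible apply Int.imp | with_reducible apply Int.iff | with_reducible apply Int.ne | with_reducible apply Int.eq | with_reducible apply Int.mem | with_reducible apply Int.subset | with_reducible apply Int.ltN | with_reducible apply Int.leN | with_reducible_and_instances apply Helper672.ZFA.Int.le | with_reducible_and_instances apply Helper672.ZFA.Int.lt | with_reducible apply Int.all | with_reducible apply Int.ex | with_reducible apply IntF.fst | with_reducible apply IntF.snd | with_reducible apply IntF.app | with_reducible apply IntF.inl | with_reducible apply IntF.inr | with_reducible apply Int.fin | with_reducible apply IntF.sep | with_reducible apply IntF.lam | with_reducible apply IntF.insert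 | with_reducible apply IntF.singleton | with_reducible apply IntF.union | with_reducible apply IntF.iimage | with_reducible apply IntF.ite | with_reducible apply IntF.the | with_reducible apply IntF.irec | with_reducible apply IntF.succ | with_reducible apply IntF.val | (with_reducible refine Int.comp ?_ ?_; assumption) | (with_reducible refine Int.comp₂ ?_ ?_ ?_; assumption) | (with_reducible refine Int.comp₃ ?_ ?_ ?_ ?_; assumption) | (with_reducible refine Int.comp₄ ?_ ?_ ?_ ?_ ?_; assumption) | (with_reducible refine IntF.comp ?_ ?_; assumption) | (with_reducible refine IntF.comp₂ ?_ ?_ ?_; assumption) | (with_reducible refine IntF.comp₃ ?_ ?_ ?_ ?_; assumption) | with_reducible apply IntF.mk | with_reducible apply IntF.pair))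
    · (repeat' (first | with_reducible exact IntF.id | with_reducible exact IntF.fst' | with_reducible exact IntF.snd' | with_reducible exact IntF.const _ | with_reducible exact Int.const _ | assumption | with_reducible apply Int.and | with_reducible apply Int.or | with_reducible apply Int.not | with_reducible apply Int.imp | with_reducible apply Int.iff | with_reducible apply Int.ne | with_reducible apply Int.eq | with_reducible apply Int.mem | with_reducible apply Int.subset | with_reducible apply Int.ltN | with_reducible apply Int.leN | with_reducible_and_instances apply Helper672.ZFA.Int.le | with_reducible_and_instances apply Helper672.ZFA.Int.lt | with_reducible apply Int.all | with_reducible apply Int.ex | with_reducible apply IntF.fst | with_reducible apply IntF.snd | with_reducible apply IntF.app | with_reducible apply IntF.inl | with_reducible apply IntF.inr | with_reducible apply Int.fin | with_reducible apply IntF.sep | with_reducible apply IntF.lam | with_reducible apply IntF.insert | with_reducible apply IntF.singleton | with_reducible apply IntF.union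 | with_reducible apply IntF.iimage | with_reducible apply IntF.ite | with_reducible apply IntF.the | with_reducible apply IntF.irec | with_reducible apply IntF.succ | with_reducible apply IntF.val | (with_reducible refine Int.comp ?_ ?_; assumption) | (with_reducible refine Int.comp₂ ?_ ?_ ?_; assumption) | (with_reducible refine Int.comp₃ ?_ ?_ ?_ ?_; assumption) | (with_reducible refine Int.comp₄ ?_ ?_ ?_ ?_ ?_; assumption) | (with_reducible refine IntF.comp ?_ ?_; assumption) | (with_reducible refine IntF.comp₂ ?_ ?_ ?_; assumption) | (with_reducible refine IntF.comp₃ ?_ ?_ ?_ ?_; assumption) | with_reducible apply IntF.mk | with_reducible apply IntF.pair))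
    · (repeat' (first | with_reducible exact IntF.id | with_reducible exact IntF.fst' | with_reducible exact IntF.snd' | with_reducible exact IntF.const _ | with_reducible exact Int.const _ | assumption | with_reducible apply Int.and | with_reducible apply Int.or | with_reducible apply Int.not | with_reducible apply Int.imp | with_reducible apply Int.iff | with_reducible apply Int.ne | with_reducible apply Int.eq | with_reducible apply Int.mem | with_reducible apply Int.subset | with_reducible apply Int.ltN | with_reducible apply Int.leN | with_reducible_and_instances apply Helper672.ZFA.Int.le | with_reducible_and_instances apply Helper672.ZFA.Int.lt | with_reducible apply Int.all | with_reducible apply Int.ex | with_reducible apply IntF.fst | with_reducible apply IntF.snd | with_reducible apply IntF.app | with_reducible apply IntF.inl | with_reducible apply IntF.inr | with_reducible apply Int.fin | with_reducible apply IntF.sep | with_reducible apply IntF.lam | with_reducible apply IntF.insert | with_reducible apply IntF.singleton | with_reducible apply IntF.union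 | with_reducible apply IntF.iimage | with_reducible apply IntF.ite | with_reducible apply IntF.the | with_reducible apply IntF.irec | with_reducible apply IntF.succ | with_reducible apply IntF.val | (with_reducible refine Int.comp ?_ ?_; assumption) | (with_reducible refine Int.comp₂ ?_ ?_ ?_; assumption) | (with_reducible refine Int.comp₃ ?_ ?_ ?_ ?_; assumption) | (with_reducible refine Int.comp₄ ?_ ?_ ?_ ?_ ?_; assumption) | (with_reducible refine IntF.comp ?_ ?_; assumption) | (with_reducible refine IntF.comp₂ ?_ ?_ ?_; assumption) | (with_reducible refine IntF.comp₃ ?_ ?_ ?_ ?_; assumption) | with_reducible apply IntF.mk | with_reducible apply IntF.pair))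
    · refine IntF.comp₂ (p := fun (σ : Gm M) (x : XX M) => rh σ x) h1 (IntF.inv ?_) ?_
      · (repeat' (first | with_reducible exact IntF.id | with_reducible exact IntF.fst' | with_reducible exact IntF.snd' | with_reducible exact IntF.const _ | with_reducible exact Int.const _ | assumption | with_reducible apply Int.and | with_reducible apply Int.or | with_reducible apply Int.not | with_reducible apply Int.imp | with_reducible apply Int.iff | with_reducible apply Int.ne | with_reducible apply Int.eq | with_reducible apply Int.mem | with_reducible apply Int.subset | with_reducible apply Int.ltN | with_reducible apply Int.leN | with_reducible_and_instances apply Helper672.ZFA.Int.le | with_reducible_and_instances apply Helper672.ZFA.Int.lt | with_reducible apply Int.all | with_reducible apply Int.ex | with_reducible apply IntF.fst | with_reducible apply IntF.snd | with_reducible apply IntF.app | with_reducible apply IntF.inl | with_reducible apply IntF.inr | with_reducible apply Int.fin | with_reducible apply IntF.sep | with_reducible apply IntF.lam | with_reducible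 apply IntF.insert | with_reducible apply IntF.singleton | with_reducible apply IntF.union | with_reducible apply IntF.iimage | with_reducible apply IntF.ite | with_reducible apply IntF.the | with_reducible apply IntF.irec | with_reducible apply IntF.succ | with_reducible apply IntF.val | (with_reducible refine Int.comp ?_ ?_; assumption) | (with_reducible refine Int.comp₂ ?_ ?_ ?_; assumption) | (with_reducible refine Int.comp₃ ?_ ?_ ?_ ?_; assumption) | (with_reducible refine Int.comp₄ ?_ ?_ ?_ ?_ ?_; assumption) | (with_reducible refine IntF.comp ?_ ?_; assumption) | (with_reducible refine IntF.comp₂ ?_ ?_ ?_; assumption) | (with_reducible refine IntF.comp₃ ?_ ?_ ?_ ?_; assumption) | with_reducible apply IntF.mk | with_reducible apply IntF.pair))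
      · (repeat' (first | with_reducible exact IntF.id | with_reducible exact IntF.fst' | with_reducible exact IntF.snd' | with_reducible exact IntF.const _ | with_reducible exact Int.const _ | assumption | with_reducible apply Int.and | with_reducible apply Int.or | with_reducible apply Int.not | with_reducible apply Int.imp | with_reducible apply Int.iff | with_reducible apply Int.ne | with_reducible apply Int.eq | with_reducible apply Int.mem | with_reducible apply Int.subset | with_reducible apply Int.ltN | with_reducible apply Int.leN | with_reducible_and_instances apply Helper672.ZFA.Int.le | with_reducible_and_instances apply Helper672.ZFA.Int.lt | with_reducible apply Int.all | with_reducible apply Int.ex | with_reducible apply IntF.fst | with_reducible apply IntF.snd | with_reducible apply IntF.app | with_reducible apply IntF.inl | with_reducible apply IntF.inr | with_reducible apply Int.fin | with_reducible apply IntF.sep | with_reducible apply IntF.lam | with_reducible apply IntF.insert | with_reducible apply IntF.singleton | with_reducible apply IntF.union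 | with_reducible apply IntF.iimage | with_reducible apply IntF.ite | with_reducible apply IntF.the | with_reducible apply IntF.irec | with_reducible apply IntF.succ | with_reducible apply IntF.val | (with_reducible refine Int.comp ?_ ?_; assumption) | (with_reducible refine Int.comp₂ ?_ ?_ ?_; assumption) | (with_reducible refine Int.comp₃ ?_ ?_ ?_ ?_; assumption) | (with_reducible refine Int.comp₄ ?_ ?_ ?_ ?_ ?_; assumption) | (with_reducible refine IntF.comp ?_ ?_; assumption) | (with_reducible refine IntF.comp₂ ?_ ?_ ?_; assumption) | (with_reducible refine IntF.comp₃ ?_ ?_ ?_ ?_; assumption) | with_reducible apply IntF.mk | with_reducible apply IntF.pair))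

theorem la_l {σ : Gm M} {m₁ k : INat M} {x y : XX M} (h : AgL k x y) :
    la σ m₁ k x = la σ m₁ k y := by
  unfold la
  congr 1
  refine IPow.ext' fun a => ?_
  rw [mem_hs, mem_hs]
  refine and_congr_right fun h1 => ?_
  rw [(rh_lv σ⁻¹).2 h a h1]

theorem la_c {σ : Gm M} {m₁ k m' : INat M} {x y : XX M} (hσ : Bd m' σ.1) (hm : m₁ ≤ m')
    (h : AgC m' x y) : la σ m₁ k x = la σ m₁ k y := by
  unfold la
  congr 1
  refine IPow.ext' fun a => ?_
  rw [mem_hs, mem_hs]
  refine and_congr_right fun _ => and_congr_right fun h1 => ?_
  exact (rh_c (π := σ⁻¹) hσ.inv).2 h a (h1.trans_le hm)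

theorem la_tau (τ σ : Gm M) (m₁ k : INat M) (x : XX M) :
    la σ m₁ k (rh τ⁻¹ x) = la (τ * σ) m₁ k x := by
  unfold la
  congr 1
  refine IPow.ext' fun a => ?_
  rw [mem_hs, mem_hs, mul_inv_rev, rh_mul]

theorem la_sep {σ σ' : Gm M} {m₁ m₁' k : INat M} {x : XX M}
    (h : la σ m₁ k x = la σ' m₁' k x) : m₁ = m₁' ∧ ∀ a, Jt a < k → a.1 < k → a.2.1 < m₁ →
      (a ∈ rh σ⁻¹ x ↔ a ∈ rh σ'⁻¹ x) := by
  obtain ⟨h1, h2⟩ := cd_inj h
  refine ⟨h1, fun a h3 h4 h5 => ?_⟩
  have h6 := h2 a h3
  rw [mem_hs, mem_hs, ← h1] at h6
  tauto

open Classical in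
/-- The permutations for the automorphisms. -/
noncomputable def Pg (n m d : INat M) (hmd : m ≤ d) (k₁ : INat M) (l l' : INat M → XX M → INat M)
    (k : INat M) (x : XX M) : IPerm M (Qs M) :=
  if k₁ ≤ k then om n m d hmd (l k x) (l' k x) else 1

theorem Pg_pos {n m d : INat M} {hmd : m ≤ d} {k₁ : INat M} {l l' : INat M → XX M → INat M}
    {k : INat M} {x : XX M} (h : k₁ ≤ k) :
    Pg n m d hmd k₁ l l' k x = om n m d hmd (l k x) (l' k x) := if_pos h

theorem Pg_neg {n m d : INat M} {hmd : m ≤ d} {k₁ : INat M} {l l' : INat M → XX M → INat M}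
    {k : INat M} {x : XX M} (h : ¬ k₁ ≤ k) (q : Qs M) :
    (Pg n m d hmd k₁ l l' k x).1.1 q = q := by
  unfold Pg
  rw [if_neg h, IPerm.one_apply]

theorem exists_ga {n m d : INat M} (hnm : n ≤ m) (hmd : m ≤ d) (k₁ : INat M)
    {l l' : INat M → XX M → INat M} (hl : IntF M (fun q : INat M × XX M => l q.1 q.2))
    (hl' : IntF M (fun q : INat M × XX M => l' q.1 q.2))
    (hh : ∀ k x y, AgL k x y → l k x = l k y) (hh' : ∀ k x y, AgL k x y → l' k x = l' k y)
    {c : INat M} (hc : ∀ k x y, AgC c x y → l k x = l k y)
    (hc' : ∀ k x y, AgC c x y → l' k x = l' k y) {δ : XX M}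
    (hδ1 : ∀ a, a ∈ δ → a.1 < k₁) (hδ2 : ∀ a, a ∈ δ → n ≤ a.2.1)
    (hδ3 : ∀ a, a ∈ δ → a.2.1 < c) :
    ∃ ω : Gm M, (SS M).U n ω ∧
      (∀ x a, a.1 < k₁ → (a ∈ rh ω⁻¹ x ↔ ¬ (a ∈ x ↔ a ∈ δ))) ∧
      (∀ x a, k₁ ≤ a.1 → a.2.1 < n → (a ∈ rh ω⁻¹ x ↔ a ∈ x)) ∧
      (∀ x a, k₁ ≤ a.1 → n ≤ a.2.1 → a.2.1 < m →
        (a ∈ rh ω⁻¹ x ↔ (a.1, (n, J (l a.1 x) (Jq a.2))) ∈ x)) ∧
      (∀ x k b, k₁ ≤ k → l k x ≠ l' k x →
        ((k, (d, b)) ∈ rh ω⁻¹ x ↔ (k, (n, J (l' k x) b)) ∈ x)) := by
  have h1 : IntF M (fun w : INat M × INat M => om n m d hmd w.1 w.2) := int_om n m d hmd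
  let H : HD M :=
    { Pi := Pg n m d hmd k₁ l l'
      int := by
        unfold Pg
        (repeat' (first | with_reducible exact IntF.id | with_reducible exact IntF.fst' | with_reducible exact IntF.snd' | with_reducible exact IntF.const _ | with_reducible exact Int.const _ | assumption | with_reducible apply Int.and | with_reducible apply Int.or | with_reducible apply Int.not | with_reducible apply Int.imp | with_reducible apply Int.iff | with_reducible apply Int.ne | with_reducible apply Int.eq | with_reducible apply Int.mem | with_reducible apply Int.subset | with_reducible apply Int.ltN | with_reducible apply Int.leN | with_reducible_and_instances apply Helper672.ZFA.Int.le | with_reducible_and_instances apply Helper672.ZFA.Int.lt | with_reducible apply Int.all | with_reducible apply Int.ex | with_reducible apply IntF.fst | with_reducible apply IntF.snd | with_reducible apply IntF.app | with_reducible apply IntF.inl | with_reducible apply IntF.inr | with_reducible apply Int.fin | with_reducible apply IntF.sep | with_reducible apply IntF.lam | with_reducible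 apply IntF.insert | with_reducible apply IntF.singleton | with_reducible apply IntF.union | with_reducible apply IntF.iimage | with_reducible apply IntF.ite | with_reducible apply IntF.the | with_reducible apply IntF.irec | with_reducible apply IntF.succ | with_reducible apply IntF.val | (with_reducible refine Int.comp ?_ ?_; assumption) | (with_reducible refine Int.comp₂ ?_ ?_ ?_; assumption) | (with_reducible refine Int.comp₃ ?_ ?_ ?_ ?_; assumption) | (with_reducible refine Int.comp₄ ?_ ?_ ?_ ?_ ?_; assumption) | (with_reducible refine IntF.comp ?_ ?_; assumption) | (with_reducible refine IntF.comp₂ ?_ ?_ ?_; assumption) | (with_reducible refine IntF.comp₃ ?_ ?_ ?_ ?_; assumption) | with_reducible apply IntF.mk | with_reducible apply IntF.pair))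
      dl := δ
      m := max d.succ.succ c
      hist := fun k x y h => by
        unfold Pg
        rw [hh k x y h, hh' k x y h]
      bd := fun k x y h => by
        unfold Pg
        rw [hc k x y (h.mono (le_max_right _ _)), hc' k x y (h.mono (le_max_right _ _))]
      far := fun k x q hq => by
        by_cases h2 : k₁ ≤ k
        · rw [Pg_pos h2]
          exact om_far hmd _ _ (INat.succ_le_iff.1 ((le_max_left _ _).trans hq))
        · exact Pg_neg h2 q
      dm := fun a ha => (hδ3 a ha).trans_le (le_max_right _ _) }
  obtain ⟨ω, hω, hω'⟩ := H.exists_aut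
  have hd : ∀ a, k₁ ≤ a.1 → ¬ a ∈ H.dl := fun a h2 h3 => absurd (hδ1 a h3) (not_lt.2 h2)
  have e1 : ∀ x a, a.1 < k₁ → (a ∈ rh ω⁻¹ x ↔ ¬ (a ∈ x ↔ a ∈ δ)) := by
    intro x a ha
    rw [hω', H.mem_f]
    have e : (H.Pi a.1 x).1.1 a.2 = a.2 := Pg_neg (not_le.2 ha) a.2
    rw [e]
  have e2 : ∀ x a, k₁ ≤ a.1 → a.2.1 < n → (a ∈ rh ω⁻¹ x ↔ a ∈ x) := by
    intro x a ha hb
    rw [hω', H.mem_f]
    have e : (H.Pi a.1 x).1.1 a.2 = a.2 := by
      change (Pg n m d hmd k₁ l l' a.1 x).1.1 a.2 = a.2
      rw [Pg_pos ha]
      exact om_low hmd _ _ (hnm.trans hmd) hb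
    rw [e]
    have := hd a ha
    have e' : ((a.1, a.2) : Ps M) = a := rfl
    rw [e']
    tauto
  refine ⟨ω, ?_, e1, e2, ?_, ?_⟩
  · have h3 : (SS M).U n ω⁻¹ := by
      intro x a ha
      by_cases h4 : a.1 < k₁
      · rw [e1 x a h4]
        have h5 : ¬ a ∈ δ := fun h5 => absurd (hδ2 a h5) (not_le.2 ha)
        tauto
      · exact e2 x a (not_lt.1 h4) ha
    have h4 := (SS M).inv _ _ h3
    rwa [inv_inv] at h4
  · intro x a ha hb hb'
    rw [hω', H.mem_f]
    have e : (H.Pi a.1 x).1.1 a.2 = (n, J (l a.1 x) (Jq a.2)) := by
      change (Pg n m d hmd k₁ l l' a.1 x).1.1 a.2 = _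
      rw [Pg_pos ha]
      exact om_near hmd _ _ hb hb'
    rw [e]
    have := hd a ha
    tauto
  · intro x k b hk hne
    rw [hω', H.mem_f]
    have e : (H.Pi k x).1.1 (d, b) = (n, J (l' k x) b) := by
      change (Pg n m d hmd k₁ l l' k x).1.1 (d, b) = _
      rw [Pg_pos hk]
      exact om_d hmd _ _ (hnm.trans hmd) hne b
    dsimp only
    rw [e]
    have := hd (k, (d, b)) hk
    tauto

/-- The properties of the coding automorphisms. -/
structure IsPz (n m k₀ : INat M) (σ : Gm M) (m₁ : INat M) (π : Gm M) : Prop where
  U : (SS M).U n π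
  low : ∀ x a, a.1 < k₀ → (a ∈ rh π⁻¹ x ↔ a ∈ x)
  left : ∀ x a, k₀ ≤ a.1 → a.2.1 < n → (a ∈ rh π⁻¹ x ↔ a ∈ x)
  near : ∀ x a, k₀ ≤ a.1 → n ≤ a.2.1 → a.2.1 < m →
    (a ∈ rh π⁻¹ x ↔ (a.1, (n, J (la σ m₁ a.1 x) (Jq a.2))) ∈ x)

theorem exists_pz {n m : INat M} (hnm : n ≤ m) (k₀ : INat M) (σ : Gm M) (m₁ : INat M) :
    ∃ π, IsPz n m k₀ σ m₁ π := by
  have h1 : IntF M (fun w : ((Gm M × INat M) × INat M) × XX M =>
    la w.1.1.1 w.1.1.2 w.1.2 w.2) := int_la
  have hl : IntF M (fun q : INat M × XX M => la σ m₁ q.1 q.2) :=
    IntF.comp (g := fun w : ((Gm M × INat M) × INat M) × XX M => la w.1.1.1 w.1.1.2 w.1.2 w.2)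
      (f := fun q : INat M × XX M => (((σ, m₁), q.1), q.2)) h1 (by (repeat' (first | with_reducible exact IntF.id | with_reducible exact IntF.fst' | with_reducible exact IntF.snd' | with_reducible exact IntF.const _ | with_reducible exact Int.const _ | assumption | with_reducible apply Int.and | with_reducible apply Int.or | with_reducible apply Int.not | with_reducible apply Int.imp | with_reducible apply Int.iff | with_reducible apply Int.ne | with_reducible apply Int.eq | with_reducible apply Int.mem | with_reducible apply Int.subset | with_reducible apply Int.ltN | with_reducible apply Int.leN | with_reducible_and_instances apply Helper672.ZFA.Int.le | with_reducible_and_instances apply Helper672.ZFA.Int.lt | with_reducible apply Int.all | with_reducible apply Int.ex | with_reducible apply IntF.fst | with_reducible apply IntF.snd | with_reducible apply IntF.app | with_reducible apply IntF.inl | with_reducible apply IntF.inr | with_reducible apply Int.fin | with_reducible apply IntF.sep | with_reducible apply IntF.lam | with_reducible apply IntF.insert | with_reducible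 apply IntF.singleton | with_reducible apply IntF.union | with_reducible apply IntF.iimage | with_reducible apply IntF.ite | with_reducible apply IntF.the | with_reducible apply IntF.irec | with_reducible apply IntF.succ | with_reducible apply IntF.val | (with_reducible refine Int.comp ?_ ?_; assumption) | (with_reducible refine Int.comp₂ ?_ ?_ ?_; assumption) | (with_reducible refine Int.comp₃ ?_ ?_ ?_ ?_; assumption) | (with_reducible refine Int.comp₄ ?_ ?_ ?_ ?_ ?_; assumption) | (with_reducible refine IntF.comp ?_ ?_; assumption) | (with_reducible refine IntF.comp₂ ?_ ?_ ?_; assumption) | (with_reducible refine IntF.comp₃ ?_ ?_ ?_ ?_; assumption) | with_reducible apply IntF.mk | with_reducible apply IntF.pair)))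
  obtain ⟨c, hc⟩ := exists_bd σ
  have hc1 : Bd (max c m₁) σ.1 := hc.mono (le_max_left _ _)
  obtain ⟨ω, h2, h3, h4, h5, -⟩ := exists_ga (n := n) (m := m) (d := m) hnm le_rfl k₀
    (l := fun k x => la σ m₁ k x) (l' := fun k x => (la σ m₁ k x).succ) hl (IntF.succ hl)
    (fun k x y h => la_l h) (fun k x y h => by rw [la_l h]) (c := max c m₁)
    (fun k x y h => la_c hc1 (le_max_right _ _) h)
    (fun k x y h => by rw [la_c hc1 (le_max_right _ _) h]) (δ := ∅)
    (fun a ha => absurd ha (by simp)) (fun a ha => absurd ha (by simp))
    (fun a ha => absurd ha (by simp))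
  refine ⟨ω, h2, fun x a ha => ?_, h4, h5⟩
  rw [h3 x a ha]
  simp

/-- `b` is determined by the condition and the coordinates below `n`. -/
def Sg {α : Type u} [ITy M α] (E : α → Co M → α → Prop) (n : INat M) (b : α) (q : Co M) : Prop :=
  ∀ π π' : Gm M, (SS M).U n π → (SS M).U n π' → ∀ r : Co M, r ≤ π • q → r ≤ π' • q →
    FEq M (og (Γ := Gm M) E) (og E) r (π, b) (π', b)

variable {α : Type u} [ITy M α] {E : α → Co M → α → Prop}

theorem agl_smul_inv {π : Gm M} {q t : Co M} (h : t ≤ π • q) :
    AgL q.1.1 (rh π⁻¹ t.1.2) q.1.2 := by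
  have h1 := (le_smul_iff π).1 h
  have h2 : AgL q.1.1 (π⁻¹ • t).1.2 q.1.2 := h1.2
  have h3 : AgL t.1.1 (π⁻¹ • t).1.2 (rh π⁻¹ t.1.2) := smul_agl π⁻¹ t
  exact (h3.mono h1.1).symm.trans h2

/-- Collisions give singletons. -/
theorem Sg_of_eq (hE : Good (SS M) E) {n m k₀ : INat M} {σ σ' : Gm M} {m₁ m₁' : INat M}
    {π π' : Gm M} (hnm : n ≤ m) (hπ : IsPz n m k₀ σ m₁ π) (hπ' : IsPz n m k₀ σ' m₁' π') {b : α}
    (hb : Sy (SS M) E m b) {s : Co M} (hk : k₀ ≤ s.1.1)
    (hs : FEq M (og (Γ := Gm M) E) (og E) s (π, b) (π', b))
    (hsep : ∀ k x, s.1.1 ≤ k → AgL s.1.1 x s.1.2 → la σ m₁ k x ≠ la σ' m₁' k x) :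
    Sg E n b (π⁻¹ • s) := by
  intro ρ₁ ρ₂ hρ₁ hρ₂ r hr₁ hr₂
  obtain ⟨c₁, hc₁⟩ := exists_bd ρ₁
  obtain ⟨c₂, hc₂⟩ := exists_bd ρ₂
  obtain ⟨c₃, hc₃⟩ := exists_bd π
  obtain ⟨c₄, hc₄⟩ := exists_bd σ
  obtain ⟨c₅, hc₅⟩ := exists_bd σ'
  obtain ⟨d, hmd, hd₁, hd₂⟩ : ∃ d, m ≤ d ∧ c₁ ≤ d ∧ c₂ ≤ d :=
    ⟨max m (max c₁ c₂), le_max_left _ _, (le_max_left _ _).trans (le_max_right _ _),
      (le_max_right _ _).trans (le_max_right _ _)⟩
  obtain ⟨c, h3, h4, h5, h6, h7⟩ : ∃ c, c₃ ≤ c ∧ c₄ ≤ c ∧ c₅ ≤ c ∧ m₁ ≤ c ∧ m₁' ≤ c :=
    ⟨max c₃ (max c₄ (max c₅ (max m₁ m₁'))), by simp, by simp, by simp, by simp, by simp⟩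
  let q := π⁻¹ • s
  let l := s.1.1
  let δ := xd s.1.2 q.1.2
  have hq : AgL l q.1.2 (rh π⁻¹ s.1.2) := smul_agl π⁻¹ s
  have hql : q.1.1 = l := rfl
  have hπi : (SS M).U n π⁻¹ := (SS M).inv _ _ hπ.U
  have hδ1 : ∀ a, a ∈ δ → a.1 < l := by
    intro a ha
    by_contra h1
    exact (mem_xd.1 ha) (iff_of_false (fun h2 => h1 (s.2 a h2)) fun h2 => h1 (q.2 a h2))
  have hδ2 : ∀ a, a ∈ δ → n ≤ a.2.1 := by
    intro a ha
    by_contra h1
    refine (mem_xd.1 ha) ?_
    rw [hq a (hδ1 a ha), hπi s.1.2 a (not_le.1 h1)]
  have hδ3 : ∀ a, a ∈ δ → a.2.1 < c := by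
    intro a ha
    by_contra h1
    refine (mem_xd.1 ha) ?_
    rw [hq a (hδ1 a ha), rh_far (π := π⁻¹) hc₃.inv (h3.trans (not_lt.1 h1))]
  have hla : IntF M (fun w : ((Gm M × INat M) × INat M) × XX M =>
    la w.1.1.1 w.1.1.2 w.1.2 w.2) := int_la
  have hl : ∀ (σ : Gm M) (m₁ : INat M), IntF M (fun q : INat M × XX M => la σ m₁ q.1 q.2) :=
    fun σ m₁ => IntF.comp
      (g := fun w : ((Gm M × INat M) × INat M) × XX M => la w.1.1.1 w.1.1.2 w.1.2 w.2)
      (f := fun q : INat M × XX M => (((σ, m₁), q.1), q.2)) hla (by (repeat' (first | with_reducible exact IntF.id | with_reducible exact IntF.fst' | with_reducible exact IntF.snd' | with_reducible exact IntF.const _ | with_reducible exact Int.const _ | assumption | with_reducible apply Int.and | with_reducible apply Int.or | with_reducible apply Int.not | with_reducible apply Int.imp | with_reducible apply Int.iff | with_reducible apply Int.ne | with_reducible apply Int.eq | with_reducible apply Int.mem | with_reducible apply Int.subset | with_reducible apply Int.ltN | with_reducible apply Int.leN | with_reducible_and_instances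 apply Helper672.ZFA.Int.le | with_reducible_and_instances apply Helper672.ZFA.Int.lt | with_reducible apply Int.all | with_reducible apply Int.ex | with_reducible apply IntF.fst | with_reducible apply IntF.snd | with_reducible apply IntF.app | with_reducible apply IntF.inl | with_reducible apply IntF.inr | with_reducible apply Int.fin | with_reducible apply IntF.sep | with_reducible apply IntF.lam | with_reducible apply IntF.insert | with_reducible apply IntF.singleton | with_reducible apply IntF.union | with_reducible apply IntF.iimage | with_reducible apply IntF.ite | with_reducible apply IntF.the | with_reducible apply IntF.irec | with_reducible apply IntF.succ | with_reducible apply IntF.val | (with_reducible refine Int.comp ?_ ?_; assumption) | (with_reducible refine Int.comp₂ ?_ ?_ ?_; assumption) | (with_reducible refine Int.comp₃ ?_ ?_ ?_ ?_; assumption) | (with_reducible refine Int.comp₄ ?_ ?_ ?_ ?_ ?_; assumption) | (with_reducible refine IntF.comp ?_ ?_; assumption) | (with_reducible refine IntF.comp₂ ?_ ?_ ?_; assumption) | (with_reducible refine IntF.comp₃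 ?_ ?_ ?_ ?_; assumption) | with_reducible apply IntF.mk | with_reducible apply IntF.pair)))
  obtain ⟨ω, w1, w2, w3, w4, w5⟩ := exists_ga (n := n) (m := m) (d := d) hnm hmd l
    (l := fun k x => la σ m₁ k x) (l' := fun k x => la σ' m₁' k x) (hl σ m₁) (hl σ' m₁')
    (fun k x y h => la_l h) (fun k x y h => la_l h) (c := c)
    (fun k x y h => la_c (hc₄.mono h4) h6 h) (fun k x y h => la_c (hc₅.mono h5) h7 h) (δ := δ)
    hδ1 hδ2 hδ3
  let χ := ω⁻¹
  have hχs' : AgL l (rh χ s.1.2) (rh π⁻¹ s.1.2) := by
    intro a ha
    rw [w2 s.1.2 a ha, ← hq a ha, mem_xd]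
    tauto
  have hχs : χ • s = q := by
    rw [smul_def']
    exact co_eq.2 hχs'
  -- the points over the cone of `s`
  have hx : ∀ {ρ : Gm M} {t : Co M}, t ≤ ρ • q → AgL l (rh χ⁻¹ (rh ρ⁻¹ t.1.2)) s.1.2 := by
    intro ρ t ht
    have h1 : AgL l (rh ρ⁻¹ t.1.2) q.1.2 := agl_smul_inv ht
    have h2 := (rh_lv χ⁻¹).2 (h1.trans (hq.trans hχs'.symm))
    rwa [rh_inv_rh] at h2
  have P1 : ∀ x, AgL l x s.1.2 → AgC m (rh π⁻¹ x) (rh χ x) := by
    intro x h a ha
    by_cases h1 : a.1 < l
    · rw [(rh_lv π⁻¹).2 h a h1, (rh_lv χ).2 h a h1, hχs' a h1]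
    · have h2 := not_lt.1 h1
      by_cases h8 : a.2.1 < n
      · rw [hπ.left x a (hk.trans h2) h8]
        exact (w3 x a h2 h8).symm
      · rw [hπ.near x a (hk.trans h2) (not_lt.1 h8) ha]
        exact (w4 x a h2 (not_lt.1 h8) ha).symm
  have hco : ∀ (l' : INat M) (x y : XX M) (m : INat M), (∀ a, a.1 < l' → a.2.1 < m →
      (a ∈ x ↔ a ∈ y)) → AgC m (co l' x).1.2 (co l' y).1.2 := by
    intro l' x y m h a ha
    change a ∈ lv l' x ↔ a ∈ lv l' y
    rw [mem_lv, mem_lv]
    exact and_congr_right fun h1 => h a h1 ha
  have stA : ∀ ρ : Gm M, FEq M (og (Γ := Gm M) E) (og E) (ρ • q) (ρ * χ * π, b) (ρ, b) := by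
    intro ρ
    refine feq_LL hE hb fun t ht => ?_
    rw [smul_def', smul_def', mul_inv_rev, mul_inv_rev, rh_mul, rh_mul]
    refine hco _ _ _ _ fun a _ ha => ?_
    rw [P1 _ (hx ht) a ha, rh_rh_inv]
  have hO := ig_og (Γ := Gm M) hE.int
  have stB : ∀ ρ : Gm M, FEq M (og (Γ := Gm M) E) (og E) (ρ • q) (ρ * χ * π, b)
      (ρ * χ * π', b) := by
    intro ρ
    have h1 := feq_tw (SS M) (ρ * χ) hs
    rw [mul_smul, hχs] at h1
    have h2 : FEq M (tw (ρ * χ) (og E)) (og E) (ρ • q) ((π, b) : Gm M × α)
      (ρ * χ * π, b) := feq_tw_og _ _ _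
    have h3 : FEq M (tw (ρ * χ) (og E)) (og E) (ρ • q) ((π', b) : Gm M × α)
      (ρ * χ * π', b) := feq_tw_og _ _ _
    exact ((h2.symm (hO.tw _) hO).trans hO (hO.tw _) (hO.tw _) h1).trans hO (hO.tw _) hO h3
  have stC : FEq M (og (Γ := Gm M) E) (og E) r (ρ₁ * χ * π', b) (ρ₂ * χ * π', b) := by
    refine feq_LL hE hb fun t ht => ?_
    rw [smul_def', smul_def', mul_inv_rev, mul_inv_rev, rh_mul, rh_mul, mul_inv_rev, mul_inv_rev,
      rh_mul, rh_mul]
    refine hco _ _ _ _ fun a _ ha => ?_
    have ht₁ := hx (ht.trans hr₁)
    have ht₂ := hx (ht.trans hr₂)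
    by_cases h1 : a.1 < l
    · rw [(rh_lv π'⁻¹).2 ht₁ a h1, (rh_lv π'⁻¹).2 ht₂ a h1]
    · have h2 := not_lt.1 h1
      have key : ∀ {ρ : Gm M} (hρ : (SS M).U n ρ) {c' : INat M} (hc' : Bd c' ρ.1) (hd' : c' ≤ d)
          (htx : AgL l (rh χ⁻¹ (rh ρ⁻¹ t.1.2)) s.1.2),
          (a ∈ rh π'⁻¹ (rh χ⁻¹ (rh ρ⁻¹ t.1.2)) ↔ (if a.2.1 < n then a ∈ t.1.2 else
            (a.1, (d, Jq a.2)) ∈ t.1.2)) := by
        intro ρ hρ c' hc' hd' htx
        have hρi : (SS M).U n ρ⁻¹ := (SS M).inv _ _ hρ
        by_cases h8 : a.2.1 < n
        · rw [if_pos h8, hπ'.left _ a (hk.trans h2) h8]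
          have h9 := w3 (rh χ⁻¹ (rh ρ⁻¹ t.1.2)) a h2 h8
          rw [← h9]
          change a ∈ rh χ (rh χ⁻¹ (rh ρ⁻¹ t.1.2)) ↔ _
          rw [rh_rh_inv]
          exact hρi _ a h8
        · rw [if_neg h8, hπ'.near _ a (hk.trans h2) (not_lt.1 h8) ha]
          have h9 := w5 (rh χ⁻¹ (rh ρ⁻¹ t.1.2)) a.1 (Jq a.2) h2 (hsep a.1 _ h2 htx)
          rw [← h9]
          change (a.1, (d, Jq a.2)) ∈ rh χ (rh χ⁻¹ (rh ρ⁻¹ t.1.2)) ↔ _
          rw [rh_rh_inv]
          exact rh_far (π := ρ⁻¹) hc'.inv hd'
      rw [key hρ₁ hc₁ hd₁ ht₁, key hρ₂ hc₂ hd₂ ht₂]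
  have k1 := ((stA ρ₁).mono hr₁).symm hO hO
  have k2 := (stB ρ₁).mono hr₁
  have k3 := ((stB ρ₂).mono hr₂).symm hO hO
  have k4 := (stA ρ₂).mono hr₂
  exact (((k1.trans hO hO hO k2).trans hO hO hO stC).trans hO hO hO k3).trans hO hO hO k4

end Pool.Agent.Y580
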