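import Pool.Agent.Y580.A6

/-!
# Tools for the symmetric extension
-/

set_option maxHeartbeats 400000
set_option linter.all false
set_option synthInstance.maxSize 2000

namespace Pool.Agent.Y580

open FirstOrder FirstOrder.Language
open Pool.Agent.Helper672
open Pool.Agent.Helper672.ZFA
open Pool.Agent.Helper672.ZFA.H635

universe u

variable {M : Type u} [L.Structure M] [hM : IsModel M]
variable {α β ε : Type u} [ITy M α] [ITy M β] [ITy M ε]

theorem int_Sy {E : α → Co M → α → Prop} (hI : IG M E) :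
    ZFA.Int M (fun q : α × INat M => Sy (SS M) E q.2 q.1) := by
  have h1 := (SS M).int_U
  have h2 := int_feq_tw (Γ := Gm M) hI hI
  unfold Sy
  refine ZFA.Int.all (ZFA.Int.imp ?_ (ZFA.Int.all ?_))
  · exact ZFA.Int.comp₂ (p := fun l a => (SS M).U l a) h1 (IntF.snd IntF.fst') IntF.snd'
  · refine ZFA.Int.comp₄ (p := fun (π : Gm M) (p : Co M) (a b : α) =>
      FEq M (tw π E) E p a b) h2 ?_ ?_ ?_ ?_
    · exact IntF.snd IntF.fst'
    · exact IntF.snd'
    · exact IntF.fst (IntF.fst IntF.fst')
    · exact IntF.fst (IntF.fst IntF.fst')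

theorem U_mono {n n' : INat M} (h : n ≤ n') {π : Gm M} (hπ : (SS M).U n' π) : (SS M).U n π :=
  fun x => (hπ x).mono h

theorem sy_mono {E : α → Co M → α → Prop} {n n' : INat M} (h : n ≤ n') {a : α}
    (ha : Sy (SS M) E n a) : Sy (SS M) E n' a := fun π hπ p => ha π (U_mono h hπ) p

section

variable {G : Set (Co M)} (hG : IsGen M G)

/-- Equivariant sets with conditions. -/
theorem exists_setC {act : Gm M → ε → ε} {f : ε → NN (SS M) hG} (hf : EqFam hG act f)
    {Z : ε → Co M → Prop} (hZ : ZFA.Int M (fun q : ε × Co M => Z q.1 q.2)) (l : INat M)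
    (hs : ∀ π, (SS M).U l π → ∀ c p, Z c p → Z (act π c) (π • p)) :
    ∃ (β : Type u) (_ : ITy M β) (E' : β → Co M → β → Prop) (h' : Good (SS M) E') (y : β),
      Sy (SS M) E' l y ∧
        ∀ w, Plain.Mem w (nd hG h' y) ↔ ∃ c p, p ∈ G ∧ Z c p ∧ w = f c := by
  obtain ⟨α, _, E, h, g, hg, h1, h2⟩ := hf
  have hQ : ZFA.Int M (fun q : (α × Co M) × PUnit.{u+1} => ∃ c, Z c q.1.2 ∧ q.1.1 = g c) := by
    (repeat' (first | with_reducible exact IntF.id | with_reducible exact IntF.fst' | with_reducible exact IntF.snd' | with_reducible exact IntF.const _ | with_reducible exact Int.const _ | assumption | with_reducible apply Int.and | with_reducible apply Int.or | with_reducible apply Int.not | with_reducible apply Int.imp | with_reducible apply Int.iff | with_reducible apply Int.ne | with_reducible apply Int.eq | with_reducible apply Int.mem | with_reducible apply Int.subset | with_reducible apply Int.ltN | with_reducible apply Int.leN | with_reducible_and_instances apply Helper672.ZFA.Int.le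 | with_reducible_and_instances apply Helper672.ZFA.Int.lt | with_reducible apply Int.all | with_reducible apply Int.ex | with_reducible apply IntF.fst | with_reducible apply IntF.snd | with_reducible apply IntF.app | with_reducible apply IntF.inl | with_reducible apply IntF.inr | with_reducible apply Int.fin | with_reducible apply IntF.sep | with_reducible apply IntF.lam | with_reducible apply IntF.insert | with_reducible apply IntF.singleton | with_reducible apply IntF.union | with_reducible apply IntF.iimage | with_reducible apply IntF.ite | with_reducible apply IntF.the | with_reducible apply IntF.irec | with_reducible apply IntF.succ | with_reducible apply IntF.val | (with_reducible refine Int.comp ?_ ?_; assumption) | (with_reducible refine Int.comp₂ ?_ ?_ ?_; assumption) | (with_reducible refine Int.comp₃ ?_ ?_ ?_ ?_; assumption) | (with_reducible refine Int.comp₄ ?_ ?_ ?_ ?_ ?_; assumption) | (with_reducible refine IntF.comp ?_ ?_; assumption) | (with_reducible refine IntF.comp₂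 ?_ ?_ ?_; assumption) | (with_reducible refine IntF.comp₃ ?_ ?_ ?_ ?_; assumption) | with_reducible apply IntF.mk | with_reducible apply IntF.pair))
  have hsy : SymQ (SS M) E (fun a p => ∃ c, Z c p ∧ a = g c) l := by
    rintro π hπ _ r ⟨c, hc, rfl⟩ q hq
    exact ⟨q, le_rfl, g (act π c), π • r, ⟨_, hs π hπ c r hc, rfl⟩, hq, h2 π q c⟩
  have h' : Good (SS M) (extG E (fun a p (_ : PUnit.{u+1}) => ∃ c, Z c p ∧ a = g c)) :=
    good_extG h hQ fun _ => ⟨l, hsy⟩
  refine ⟨_, _, _, h', Sum.inr PUnit.unit, ?_, fun w => (mem_nd_inr hG h h' _).trans ?_⟩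
  · have hI := h'.int
    have hE := h.int
    have key : ∀ π, (SS M).U l π → ∀ (x : α ⊕ PUnit.{u+1}) (r q : Co M),
        extG E (fun a p (_ : PUnit.{u+1}) => ∃ c, Z c p ∧ a = g c) x r (Sum.inr PUnit.unit) →
        q ≤ π • r → ∃ q', q' ≤ q ∧ ∃ x' r',
          extG E (fun a p (_ : PUnit.{u+1}) => ∃ c, Z c p ∧ a = g c) x' r'
            (Sum.inr PUnit.unit) ∧ q' ≤ r' ∧
          FEq M (tw π (extG E (fun a p (_ : PUnit.{u+1}) => ∃ c, Z c p ∧ a = g c)))
            (extG E (fun a p (_ : PUnit.{u+1}) => ∃ c, Z c p ∧ a = g c)) q' x x' := by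
      intro π hπ x r q hx hq
      obtain ⟨a, rfl, h3⟩ := (extG_inr E _ x r PUnit.unit).1 hx
      obtain ⟨q', h4, b, r', h5, h6, h7⟩ := hsy π hπ a r h3 q hq
      refine ⟨q', h4, Sum.inl b, r', (extG_inr E _ _ _ _).2 ⟨b, rfl, h5⟩, h6, ?_⟩
      have h8 := feq_inl (M := M) E
        (fun a p (_ : PUnit.{u+1}) => ∃ c, Z c p ∧ a = g c) q' b
      have h9 := feq_tw_inl (M := M) π E
        (fun a p (_ : PUnit.{u+1}) => ∃ c, Z c p ∧ a = g c) q' a
      exact ((h9.symm (hE.tw π) (hI.tw π)).trans (hI.tw π) (hE.tw π) hE h7).trans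
        (hI.tw π) hE hI h8
    intro π hπ p
    refine (feq_iff (hI.tw π) hI).2 ⟨?_, ?_⟩
    · intro x r hx q _ hr q1 hq1
      have h3 : q1 ≤ π • π⁻¹ • r := by
        rw [smul_inv_smul]
        exact hq1.trans hr
      exact key π hπ x (π⁻¹ • r) q1 hx h3
    · intro x r hx q _ hr q1 hq1
      have h3 : π⁻¹ • q1 ≤ π⁻¹ • r := (SS M).smul_le _ (hq1.trans hr)
      obtain ⟨q', h4, x', r', h5, h6, h7⟩ := key π⁻¹ ((SS M).inv _ _ hπ) x r (π⁻¹ • q1) hx h3
      have h7' := feq_tw (SS M) π h7
      rw [tw_tw_inv] at h7'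
      refine ⟨π • q', ?_, x', π • r', ?_, (SS M).smul_le π h6, h7'⟩
      · have := (SS M).smul_le π h4
        rwa [smul_inv_smul] at this
      · rw [tw_smul]
        exact h5
  · constructor
    · rintro ⟨_, s, hs', ⟨c, hc, rfl⟩, rfl⟩
      exact ⟨c, s, hs', hc, (h1 c).symm⟩
    · rintro ⟨c, p, hp, hc, rfl⟩
      exact ⟨g c, p, hp, ⟨c, hc, rfl⟩, h1 c⟩

/-- Elements of the extension have names. -/
theorem exists_nm (z : NN (SS M) hG) : ∃ (β : Type u) (_ : ITy M β) (E' : β → Co M → β → Prop)
    (h' : Good (SS M) E') (y : β) (l : INat M), Sy (SS M) E' l y ∧ z = nd hG h' y := by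
  obtain ⟨x, rfl⟩ := exists_mk hG z
  obtain ⟨l, hl⟩ := x.good.sym x.root
  exact ⟨_, _, _, x.good, x.root, l, hl, mk_eq_nd hG x⟩

section

variable {E : α → Co M → α → Prop} {E' : β → Co M → β → Prop}

theorem fmem_act (hE : IG M E) (hE' : IG M E') {l : INat M} {y : β} (hy : Sy (SS M) E' l y)
    {τ : Gm M} (hτ : (SS M).U l τ) {a a' : α} (ha : ∀ p, FEq M (tw τ E) E p a a') {p : Co M}
    (h : FMem M E E' p a y) : FMem M E E' (τ • p) a' y := by
  have h1 := fmem_tw (SS M) τ h
  have h2 := FMem.congr_right (hE.tw τ) (hE'.tw τ) hE' h1 (hy τ hτ (τ • p))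
  exact FMem.congr_left hE (hE.tw τ) hE' ((ha (τ • p)).symm (hE.tw τ) hE) h2

theorem feq_act_inv (hE : IG M E) {τ : Gm M} {a a' : α}
    (ha : ∀ p, FEq M (tw τ E) E p a a') (p : Co M) : FEq M (tw τ⁻¹ E) E p a' a := by
  have h1 := feq_tw (SS M) τ⁻¹ (ha (τ • p))
  rw [tw_inv_tw, inv_smul_smul] at h1
  exact h1.symm hE (hE.tw τ⁻¹)

end

variable {act : Gm M → ε → ε} {f : ε → NN (SS M) hG} (hf : EqFam hG act f)
  {E' : β → Co M → β → Prop} (h' : Good (SS M) E') {y : β} {l : INat M}
  (hy : Sy (SS M) E' l y)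

include hf hy in
theorem hplus {c : ε} (h : Plain.Mem (f c) (nd hG h' y)) :
    ∃ p, p ∈ G ∧ ∀ τ, (SS M).U l τ → τ • p ∈ G → Plain.Mem (f (act τ c)) (nd hG h' y) := by
  obtain ⟨α, _, E, h0, g, hg, h1, h2⟩ := hf
  rw [h1] at h
  obtain ⟨p, hp, h3⟩ := (mem_nd_nd hG h0 h').1 h
  refine ⟨p, hp, fun τ hτ hτp => ?_⟩
  rw [h1]
  exact (mem_nd_nd hG h0 h').2 ⟨τ • p, hτp,
    fmem_act h0.int h'.int hy hτ (fun q => h2 τ q c) h3⟩

include hf hy in
theorem hminus {c : ε} (h : ¬ Plain.Mem (f c) (nd hG h' y)) :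
    ∃ p, p ∈ G ∧ ∀ τ, (SS M).U l τ → τ • p ∈ G → ¬ Plain.Mem (f (act τ c)) (nd hG h' y) := by
  obtain ⟨α, _, E, h0, g, hg, h1, h2⟩ := hf
  rw [h1] at h
  have hI := h0.int.fmem h'.int
  have hI' : ZFA.Int M (fun p : Co M => FMem M E E' p (g c) y) :=
    ZFA.Int.comp₃ (p := fun (p : Co M) (a : α) (b : β) => FMem M E E' p a b) hI IntF.id
      (IntF.const _) (IntF.const _)
  obtain ⟨p, hp, h3⟩ := hG.dense (fun p => FMem M E E' p (g c) y ∨
    ∀ q, q ≤ p → ¬ FMem M E E' q (g c) y) (by (repeat' (first | with_reducible exact IntF.id | with_reducible exact IntF.fst' | with_reducible exact IntF.snd' | with_reducible exact IntF.const _ | with_reducible exact Int.const _ | assumption | with_reducible apply Int.and | with_reducible apply Int.or | with_reducible apply Int.not | with_reducible apply Int.imp | with_reducible apply Int.iff | with_reducible apply Int.ne | with_reducible apply Int.eq | with_reducible apply Int.mem | with_reducible apply Int.subset | with_reducible apply Int.ltN |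 with_reducible apply Int.leN | with_reducible_and_instances apply Helper672.ZFA.Int.le | with_reducible_and_instances apply Helper672.ZFA.Int.lt | with_reducible apply Int.all | with_reducible apply Int.ex | with_reducible apply IntF.fst | with_reducible apply IntF.snd | with_reducible apply IntF.app | with_reducible apply IntF.inl | with_reducible apply IntF.inr | with_reducible apply Int.fin | with_reducible apply IntF.sep | with_reducible apply IntF.lam | with_reducible apply IntF.insert | with_reducible apply IntF.singleton | with_reducible apply IntF.union | with_reducible apply IntF.iimage | with_reducible apply IntF.ite | with_reducible apply IntF.the | with_reducible apply IntF.irec | with_reducible apply IntF.succ | with_reducible apply IntF.val | (with_reducible refine Int.comp ?_ ?_; assumption) | (with_reducible refine Int.comp₂ ?_ ?_ ?_; assumption) | (with_reducible refine Int.comp₃ ?_ ?_ ?_ ?_; assumption) | (with_reducible refine Int.comp₄ ?_ ?_ ?_ ?_ ?_; assumption)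 | (with_reducible refine IntF.comp ?_ ?_; assumption) | (with_reducible refine IntF.comp₂ ?_ ?_ ?_; assumption) | (with_reducible refine IntF.comp₃ ?_ ?_ ?_ ?_; assumption) | with_reducible apply IntF.mk | with_reducible apply IntF.pair))) fun p => by
      by_cases h3 : ∃ q, q ≤ p ∧ FMem M E E' q (g c) y
      · obtain ⟨q, h4, h5⟩ := h3
        exact ⟨q, h4, Or.inl h5⟩
      · push Not at h3
        exact ⟨p, le_rfl, Or.inr h3⟩
  have h4 : ∀ q, q ≤ p → ¬ FMem M E E' q (g c) y := by
    rcases h3 with h3 | h3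
    · exact absurd ((mem_nd_nd hG h0 h').2 ⟨p, hp, h3⟩) h
    · exact h3
  refine ⟨p, hp, fun τ hτ hτp h5 => ?_⟩
  rw [h1] at h5
  obtain ⟨q, hq, h6⟩ := (mem_nd_nd hG h0 h').1 h5
  obtain ⟨r, hr, h7, h8⟩ := hG.dir q (τ • p) hq hτp
  have h9 := fmem_act h0.int h'.int hy ((SS M).inv _ _ hτ)
    (feq_act_inv h0.int (fun q => h2 τ q c)) (h6.mono h7)
  exact h4 _ ((le_smul_iff τ).1 h8) h9

/-! ### The well-order of the ordinals in the extension -/

theorem iwo_Od (hC : CollL M) {δ : Type u} [ITy M δ] {lt : δ → δ → Prop} (hlt : IWO M δ lt) :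
    IWO (NN (SS M) hG) (El (Od (SS M) hG hlt)) (fun x y => Plain.Mem x.1 y.1) := by
  refine ⟨?_, ?_, ?_⟩
  · exact ZFA.Int.of_D₂ (S := fun v => ZFA.Mem (v 0) (v 1)) (D.memf (DF.var _) (DF.var _))
      fun _ _ => Iff.rfl
  · intro x y
    obtain ⟨a, ha⟩ := (mem_Od hG hlt).1 x.2
    obtain ⟨b, hb⟩ := (mem_Od hG hlt).1 y.2
    rcases hlt.tri a b with h | h | h
    · left
      rw [ha, hb]
      exact (mem_od hG hlt).2 ⟨a, h, rfl⟩
    · right
      left
      exact Subtype.ext (by rw [ha, hb, h])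
    · right
      right
      rw [ha, hb]
      exact (mem_od hG hlt).2 ⟨b, h, rfl⟩
  · intro s hs
    obtain ⟨x, hx⟩ := hs
    have h0 : ∀ z, Plain.Mem z (code (M := NN (SS M) hG) s) ↔
        ∃ a, a ∈ s ∧ code a = z := fun z => mem_code_pow (M := NN (SS M) hG)
    obtain ⟨y, h1, h2⟩ := (nn_zf hG hC).foundation (code (M := NN (SS M) hG) s)
      ⟨x.1, (h0 _).2 ⟨x, hx, rfl⟩⟩
    obtain ⟨a, h3, rfl⟩ := (h0 _).1 h1
    exact ⟨a, h3, fun b hb h4 => h2 b.1 ((h0 _).2 ⟨b, hb, rfl⟩) h4⟩

end

end Pool.Agent.Y580
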