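import Pool.Agent.Y580.B1

/-!
# The generic reals and the sets given by their parts
-/

set_option maxHeartbeats 400000
set_option linter.all false
set_option synthInstance.maxSize 2000

namespace Pool.Agent.Y580

open FirstOrder FirstOrder.Language
open Pool.Agent.Helper672
open Pool.Agent.Helper672.ZFA
open Pool.Agent.Helper672.ZFA.H635

universe u

variable {M : Type u} [L.Structure M] [hM : IsModel M]
variable {α β ε : Type u} [ITy M α] [ITy M β] [ITy M ε]

theorem exists_longer (p : Co M) (l : INat M) : ∃ q : Co M, q ≤ p ∧ l ≤ q.1.1 :=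
  ⟨⟨(max p.1.1 l, p.1.2), fun a ha => (p.2 a ha).trans_le (le_max_left _ _)⟩,
    ⟨le_max_left _ _, AgL.refl _ _⟩, le_max_right _ _⟩

section

variable {G : Set (Co M)} (hG : IsGen M G)

include hG in
theorem exists_len {p₀ : Co M} (hp₀ : p₀ ∈ G) (l : INat M) :
    ∃ p, p ∈ G ∧ p ≤ p₀ ∧ l ≤ p.1.1 :=
  hG.dense_below (s := fun p => l ≤ p.1.1) (by (repeat' (first | with_reducible exact IntF.id | with_reducible exact IntF.fst' | with_reducible exact IntF.snd' | with_reducible exact IntF.const _ | with_reducible exact Int.const _ | assumption | with_reducible apply Int.and | with_reducible apply Int.or | with_reducible apply Int.not | with_reducible apply Int.imp | with_reducible apply Int.iff | with_reducible apply Int.ne | with_reducible apply Int.eq | with_reducible apply Int.mem | with_reducible apply Int.subset | with_reducible apply Int.ltN | with_reducible apply Int.leN | with_reducible_and_instances apply Helper672.ZFA.Int.le | with_reducible_and_instances apply Helper672.ZFA.Int.lt | with_reducible apply Int.all | with_reducible apply Int.ex | with_reducible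 apply IntF.fst | with_reducible apply IntF.snd | with_reducible apply IntF.app | with_reducible apply IntF.inl | with_reducible apply IntF.inr | with_reducible apply Int.fin | with_reducible apply IntF.sep | with_reducible apply IntF.lam | with_reducible apply IntF.insert | with_reducible apply IntF.singleton | with_reducible apply IntF.union | with_reducible apply IntF.iimage | with_reducible apply IntF.ite | with_reducible apply IntF.the | with_reducible apply IntF.irec | with_reducible apply IntF.succ | with_reducible apply IntF.val | (with_reducible refine Int.comp ?_ ?_; assumption) | (with_reducible refine Int.comp₂ ?_ ?_ ?_; assumption) | (with_reducible refine Int.comp₃ ?_ ?_ ?_ ?_; assumption) | (with_reducible refine Int.comp₄ ?_ ?_ ?_ ?_ ?_; assumption) | (with_reducible refine IntF.comp ?_ ?_; assumption) | (with_reducible refine IntF.comp₂ ?_ ?_ ?_; assumption) | (with_reducible refine IntF.comp₃ ?_ ?_ ?_ ?_; assumption) | with_reducible apply IntF.mk | with_reducible apply IntF.pair))) hp₀ fun p _ => exists_longer p l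

include hG in
theorem gen_le {p q : Co M} (hp : p ∈ G) (hq : q ∈ G) (h : q.1.1 ≤ p.1.1) : p ≤ q := by
  obtain ⟨r, _, h1, h2⟩ := hG.dir p q hp hq
  exact ⟨h, (h1.2.mono h).symm.trans h2.2⟩

include hG in
theorem gen_unique {p q : Co M} (hp : p ∈ G) (hq : q ∈ G) (h : p.1.1 = q.1.1) : p = q :=
  Co.ext' h (h ▸ (gen_le hG hp hq h.symm.le).2)

/-- The coordinates below `m` of the reals given by `π` and `σ` are the same. -/
def EqM (G : Set (Co M)) (m : INat M) (π σ : Gm M) : Prop :=
  ∀ p, p ∈ G → AgC m (π⁻¹ • p).1.2 (σ⁻¹ • p).1.2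

theorem smul_low (π : Gm M) {p q : Co M} (h : p ≤ q) : AgL q.1.1 (π • p).1.2 (π • q).1.2 :=
  (smul_le_smul' π h).2

include hG in
theorem eqM_of {m : INat M} {π σ : Gm M} {p : Co M} (hp : p ∈ G)
    (h : ∀ t : Co M, t ≤ p → AgC m (π⁻¹ • t).1.2 (σ⁻¹ • t).1.2) : EqM G m π σ := by
  intro q hq a ha
  obtain ⟨r, _, h1, h2⟩ := hG.dir p q hp hq
  by_cases h3 : a.1 < q.1.1
  · rw [← smul_low π⁻¹ h2 a h3, ← smul_low σ⁻¹ h2 a h3]
    exact h r h1 a ha
  · exact iff_of_false (fun h4 => h3 ((π⁻¹ • q).2 a h4)) fun h4 => h3 ((σ⁻¹ • q).2 a h4)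

theorem int_agc (m : INat M) (π σ : Gm M) :
    ZFA.Int M (fun t : Co M => AgC m (π⁻¹ • t).1.2 (σ⁻¹ • t).1.2) := by
  have h1 : IntF M (fun t : Co M => π⁻¹ • t) := IntF.smul (IntF.const _) IntF.id
  have h2 : IntF M (fun t : Co M => σ⁻¹ • t) := IntF.smul (IntF.const _) IntF.id
  unfold AgC
  (repeat' (first | with_reducible exact IntF.id | with_reducible exact IntF.fst' | with_reducible exact IntF.snd' | with_reducible exact IntF.const _ | with_reducible exact Int.const _ | assumption | with_reducible apply Int.and | with_reducible apply Int.or | with_reducible apply Int.not | with_reducible apply Int.imp | with_reducible apply Int.iff | with_reducible apply Int.ne | with_reducible apply Int.eq | with_reducible apply Int.mem | with_reducible apply Int.subset | with_reducible apply Int.ltN | with_reducible apply Int.leN | with_reducible_and_instances apply Helper672.ZFA.Int.le | with_reducible_and_instances apply Helper672.ZFA.Int.lt | with_reducible apply Int.all | with_reducible apply Int.ex | with_reducible apply IntF.fst | with_reducible apply IntF.snd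 | with_reducible apply IntF.app | with_reducible apply IntF.inl | with_reducible apply IntF.inr | with_reducible apply Int.fin | with_reducible apply IntF.sep | with_reducible apply IntF.lam | with_reducible apply IntF.insert | with_reducible apply IntF.singleton | with_reducible apply IntF.union | with_reducible apply IntF.iimage | with_reducible apply IntF.ite | with_reducible apply IntF.the | with_reducible apply IntF.irec | with_reducible apply IntF.succ | with_reducible apply IntF.val | (with_reducible refine Int.comp ?_ ?_; assumption) | (with_reducible refine Int.comp₂ ?_ ?_ ?_; assumption) | (with_reducible refine Int.comp₃ ?_ ?_ ?_ ?_; assumption) | (with_reducible refine Int.comp₄ ?_ ?_ ?_ ?_ ?_; assumption) | (with_reducible refine IntF.comp ?_ ?_; assumption) | (with_reducible refine IntF.comp₂ ?_ ?_ ?_; assumption) | (with_reducible refine IntF.comp₃ ?_ ?_ ?_ ?_; assumption) | with_reducible apply IntF.mk | with_reducible apply IntF.pair))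

include hG in
theorem eqM_force {m : INat M} {π σ : Gm M} (h : EqM G m π σ) :
    ∃ p, p ∈ G ∧ ∀ t : Co M, t ≤ p → AgC m (π⁻¹ • t).1.2 (σ⁻¹ • t).1.2 := by
  have h0 := int_agc m π σ
  obtain ⟨p, hp, h1⟩ := hG.dense (fun p => (∀ t : Co M, t ≤ p →
    AgC m (π⁻¹ • t).1.2 (σ⁻¹ • t).1.2) ∨ ¬ AgC m (π⁻¹ • p).1.2 (σ⁻¹ • p).1.2)
    (ZFA.Int.or (ZFA.Int.all (ZFA.Int.imp (ZFA.Int.le IntF.snd' IntF.fst')
      (ZFA.Int.comp h0 IntF.snd'))) (ZFA.Int.not h0)) fun p => by
      by_cases h2 : ∀ t : Co M, t ≤ p → AgC m (π⁻¹ • t).1.2 (σ⁻¹ • t).1.2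
      · exact ⟨p, le_rfl, Or.inl h2⟩
      · push Not at h2
        obtain ⟨t, h3, h4⟩ := h2
        exact ⟨t, h3, Or.inr h4⟩
  rcases h1 with h1 | h1
  · exact ⟨p, hp, h1⟩
  · exact absurd (h p hp) h1

/-- Elements given by names depend on the coordinates in the support only. -/
theorem nd_LL {E : α → Co M → α → Prop} (hE : Good (SS M) E) {b : α} {m : INat M}
    (hb : Sy (SS M) E m b) {π σ : Gm M} (h : EqM G m π σ) :
    nd hG (good_og (Γ := Gm M) hE) (π, b) = nd hG (good_og hE) (σ, b) := by
  obtain ⟨p, hp, h1⟩ := eqM_force hG h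
  exact (nd_eq hG _ _).2 ⟨p, hp, feq_LL hE hb h1⟩

/-! ### The sets given by parts of reals -/

/-- The coordinates below `m`. -/
noncomputable def cm (m : INat M) (x : XX M) : XX M := sep M fun a => a.2.1 < m ∧ a ∈ x

theorem mem_cm {m : INat M} {x : XX M} {a : Ps M} : a ∈ cm m x ↔ a.2.1 < m ∧ a ∈ x :=
  mem_sep (p := fun a : Ps M => a.2.1 < m ∧ a ∈ x) (by (repeat' (first | with_reducible exact IntF.id | with_reducible exact IntF.fst' | with_reducible exact IntF.snd' | with_reducible exact IntF.const _ | with_reducible exact Int.const _ | assumption | with_reducible apply Int.and | with_reducible apply Int.or | with_reducible apply Int.not | with_reducible apply Int.imp | with_reducible apply Int.iff | with_reducible apply Int.ne | with_reducible apply Int.eq | with_reducible apply Int.mem | with_reducible apply Int.subset | with_reducible apply Int.ltN | with_reducible apply Int.leN | with_reducible_and_instances apply Helper672.ZFA.Int.le | with_reducible_and_instances apply Helper672.ZFA.Int.lt | with_reducible apply Int.all | with_reducible apply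 Int.ex | with_reducible apply IntF.fst | with_reducible apply IntF.snd | with_reducible apply IntF.app | with_reducible apply IntF.inl | with_reducible apply IntF.inr | with_reducible apply Int.fin | with_reducible apply IntF.sep | with_reducible apply IntF.lam | with_reducible apply IntF.insert | with_reducible apply IntF.singleton | with_reducible apply IntF.union | with_reducible apply IntF.iimage | with_reducible apply IntF.ite | with_reducible apply IntF.the | with_reducible apply IntF.irec | with_reducible apply IntF.succ | with_reducible apply IntF.val | (with_reducible refine Int.comp ?_ ?_; assumption) | (with_reducible refine Int.comp₂ ?_ ?_ ?_; assumption) | (with_reducible refine Int.comp₃ ?_ ?_ ?_ ?_; assumption) | (with_reducible refine Int.comp₄ ?_ ?_ ?_ ?_ ?_; assumption) | (with_reducible refine IntF.comp ?_ ?_; assumption) | (with_reducible refine IntF.comp₂ ?_ ?_ ?_; assumption) | (with_reducible refine IntF.comp₃ ?_ ?_ ?_ ?_; assumption) | with_reducible apply IntF.mk | with_reducible apply IntF.pair)))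

theorem int_cm : IntF M (fun q : INat M × XX M => cm q.1 q.2) := by
  unfold cm
  (repeat' (first | with_reducible exact IntF.id | with_reducible exact IntF.fst' | with_reducible exact IntF.snd' | with_reducible exact IntF.const _ | with_reducible exact Int.const _ | assumption | with_reducible apply Int.and | with_reducible apply Int.or | with_reducible apply Int.not | with_reducible apply Int.imp | with_reducible apply Int.iff | with_reducible apply Int.ne | with_reducible apply Int.eq | with_reducible apply Int.mem | with_reducible apply Int.subset | with_reducible apply Int.ltN | with_reducible apply Int.leN | with_reducible_and_instances apply Helper672.ZFA.Int.le | with_reducible_and_instances apply Helper672.ZFA.Int.lt | with_reducible apply Int.all | with_reducible apply Int.ex | with_reducible apply IntF.fst | with_reducible apply IntF.snd | with_reducible apply IntF.app | with_reducible apply IntF.inl | with_reducible apply IntF.inr | with_reducible apply Int.fin | with_reducible apply IntF.sep | with_reducible apply IntF.lam | with_reducible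 apply IntF.insert | with_reducible apply IntF.singleton | with_reducible apply IntF.union | with_reducible apply IntF.iimage | with_reducible apply IntF.ite | with_reducible apply IntF.the | with_reducible apply IntF.irec | with_reducible apply IntF.succ | with_reducible apply IntF.val | (with_reducible refine Int.comp ?_ ?_; assumption) | (with_reducible refine Int.comp₂ ?_ ?_ ?_; assumption) | (with_reducible refine Int.comp₃ ?_ ?_ ?_ ?_; assumption) | (with_reducible refine Int.comp₄ ?_ ?_ ?_ ?_ ?_; assumption) | (with_reducible refine IntF.comp ?_ ?_; assumption) | (with_reducible refine IntF.comp₂ ?_ ?_ ?_; assumption) | (with_reducible refine IntF.comp₃ ?_ ?_ ?_ ?_; assumption) | with_reducible apply IntF.mk | with_reducible apply IntF.pair))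

theorem cm_eq {m : INat M} {x y : XX M} : cm m x = cm m y ↔ AgC m x y := by
  constructor
  · intro h a ha
    have h1 : a ∈ cm m x ↔ a ∈ cm m y := by rw [h]
    rw [mem_cm, mem_cm] at h1
    exact ⟨fun h2 => (h1.1 ⟨ha, h2⟩).2, fun h2 => (h1.2 ⟨ha, h2⟩).2⟩
  · intro h
    refine IPow.ext' fun a => ?_
    rw [mem_cm, mem_cm]
    exact and_congr_right fun h1 => h a h1

variable (M) in
/-- Codes of parts of reals. -/
abbrev Tu : Type u := INat M × (INat M × XX M)

/-- The elements of the sets given by parts of reals. -/
def Qu (a : Tu M) (r : Co M) (c : Gm M × INat M) : Prop :=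
  a = (c.2, (r.1.1, cm c.2 (c.1⁻¹ • r).1.2))

theorem int_Qu : ZFA.Int M (fun q : (Tu M × Co M) × (Gm M × INat M) => Qu q.1.1 q.1.2 q.2) := by
  have h1 : IntF M (fun q : (Tu M × Co M) × (Gm M × INat M) => q.2.1⁻¹ • q.1.2) :=
    IntF.smul (IntF.inv (IntF.fst IntF.snd')) (IntF.snd IntF.fst')
  have h2 : IntF M (fun q : INat M × XX M => cm q.1 q.2) := int_cm
  have h3 : IntF M (fun q : (Tu M × Co M) × (Gm M × INat M) =>
      cm q.2.2 (q.2.1⁻¹ • q.1.2).1.2) :=
    IntF.comp₂ (p := fun (m : INat M) (x : XX M) => cm m x) h2 (IntF.snd IntF.snd')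
      (IntF.snd (IntF.val h1))
  unfold Qu
  refine ZFA.Int.eq (IntF.fst IntF.fst') (IntF.pair (IntF.snd IntF.snd') (IntF.pair ?_ h3))
  (repeat' (first | with_reducible exact IntF.id | with_reducible exact IntF.fst' | with_reducible exact IntF.snd' | with_reducible exact IntF.const _ | with_reducible exact Int.const _ | assumption | with_reducible apply Int.and | with_reducible apply Int.or | with_reducible apply Int.not | with_reducible apply Int.imp | with_reducible apply Int.iff | with_reducible apply Int.ne | with_reducible apply Int.eq | with_reducible apply Int.mem | with_reducible apply Int.subset | with_reducible apply Int.ltN | with_reducible apply Int.leN | with_reducible_and_instances apply Helper672.ZFA.Int.le | with_reducible_and_instances apply Helper672.ZFA.Int.lt | with_reducible apply Int.all | with_reducible apply Int.ex | with_reducible apply IntF.fst | with_reducible apply IntF.snd | with_reducible apply IntF.app | with_reducible apply IntF.inl | with_reducible apply IntF.inr | with_reducible apply Int.fin | with_reducible apply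 IntF.sep | with_reducible apply IntF.lam | with_reducible apply IntF.insert | with_reducible apply IntF.singleton | with_reducible apply IntF.union | with_reducible apply IntF.iimage | with_reducible apply IntF.ite | with_reducible apply IntF.the | with_reducible apply IntF.irec | with_reducible apply IntF.succ | with_reducible apply IntF.val | (with_reducible refine Int.comp ?_ ?_; assumption) | (with_reducible refine Int.comp₂ ?_ ?_ ?_; assumption) | (with_reducible refine Int.comp₃ ?_ ?_ ?_ ?_; assumption) | (with_reducible refine Int.comp₄ ?_ ?_ ?_ ?_ ?_; assumption) | (with_reducible refine IntF.comp ?_ ?_; assumption) | (with_reducible refine IntF.comp₂ ?_ ?_ ?_; assumption) | (with_reducible refine IntF.comp₃ ?_ ?_ ?_ ?_; assumption) | with_reducible apply IntF.mk | with_reducible apply IntF.pair))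

theorem Qu_smul {a : Tu M} {r : Co M} {c : Gm M × INat M} (h : Qu a r c) (σ : Gm M) :
    Qu a (σ • r) (σ * c.1, c.2) := by
  unfold Qu at h ⊢
  rw [mul_inv_rev, mul_smul, inv_smul_smul]
  exact h

variable {lt : Tu M → Tu M → Prop} (hlt : IWO M (Tu M) lt)

include hlt in
theorem good_u : Good (SS M) (extG (oe (Co M) lt) Qu) := by
  refine good_extG (good_oe (SS M) hlt) int_Qu fun c => ?_
  obtain ⟨l, hl⟩ := (SS M).conj c.1 c.2
  refine ⟨l, fun τ hτ a r ha q hq => ⟨q, le_rfl, a, τ • r, ?_, hq, FEq.refl q a⟩⟩
  unfold Qu at ha ⊢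
  rw [ha]
  refine Prod.ext rfl (Prod.ext rfl ?_)
  rw [cm_eq]
  have h1 := hl τ hτ
  have h2 : c.1⁻¹ • τ • r = (c.1⁻¹ * τ * c.1) • c.1⁻¹ • r := by
    rw [← mul_smul, ← mul_smul, mul_inv_cancel_right]
  rw [h2]
  intro b hb
  by_cases h3 : b.1 < r.1.1
  · have h4 : b ∈ ((c.1⁻¹ * τ * c.1) • c.1⁻¹ • r).1.2 ↔
        b ∈ rh (c.1⁻¹ * τ * c.1) (c.1⁻¹ • r).1.2 := smul_agl _ _ b h3
    rw [h4]
    exact (h1 _ b hb).symm
  · exact iff_of_false (fun h4 => h3 ((c.1⁻¹ • r).2 b h4)) fun h4 => h3
      (((c.1⁻¹ * τ * c.1) • c.1⁻¹ • r).2 b h4)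

/-- The sets given by parts of reals. -/
noncomputable def uu (c : Gm M × INat M) : NN (SS M) hG := nd hG (good_u hlt) (Sum.inr c)

theorem mem_uu {c : Gm M × INat M} {w : NN (SS M) hG} : Plain.Mem w (uu hG hlt c) ↔
    ∃ r, r ∈ G ∧ w = od (SS M) hG hlt (c.2, (r.1.1, cm c.2 (c.1⁻¹ • r).1.2)) := by
  unfold uu
  rw [mem_nd_inr hG (good_oe (SS M) hlt) (good_u hlt)]
  constructor
  · rintro ⟨a, s, hs, rfl, rfl⟩
    exact ⟨s, hs, rfl⟩
  · rintro ⟨r, hr, rfl⟩
    exact ⟨_, r, hr, rfl, rfl⟩

theorem uu_eq (hC : CollL M) {π σ : Gm M} {m m' : INat M} :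
    uu hG hlt (π, m) = uu hG hlt (σ, m') ↔ m = m' ∧ EqM G m π σ := by
  constructor
  · intro h
    have key : ∀ p, p ∈ G → m = m' ∧ AgC m (π⁻¹ • p).1.2 (σ⁻¹ • p).1.2 := by
      intro p hp
      have h1 : Plain.Mem (od (SS M) hG hlt (m, (p.1.1, cm m (π⁻¹ • p).1.2)))
        (uu hG hlt (π, m)) := (mem_uu hG hlt).2 ⟨p, hp, rfl⟩
      rw [h] at h1
      obtain ⟨r, hr, h2⟩ := (mem_uu hG hlt).1 h1
      have h3 := od_inj hG hlt hC h2
      have h4 : m = m' := congrArg Prod.fst h3
      have h5 : p.1.1 = r.1.1 := congrArg (fun a : Tu M => a.2.1) h3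
      have h6 : cm m (π⁻¹ • p).1.2 = cm m' (σ⁻¹ • r).1.2 :=
        congrArg (fun a : Tu M => a.2.2) h3
      obtain rfl := gen_unique hG hp hr h5
      subst h4
      exact ⟨rfl, cm_eq.1 h6⟩
    obtain ⟨p, hp⟩ := hG.ne
    exact ⟨(key p hp).1, fun q hq => (key q hq).2⟩
  · rintro ⟨rfl, h⟩
    refine nn_ext hG fun w => ?_
    rw [mem_uu, mem_uu]
    refine exists_congr fun r => and_congr_right fun hr => ?_
    have h1 : cm m (π⁻¹ • r).1.2 = cm m (σ⁻¹ • r).1.2 := cm_eq.2 (h r hr)
    dsimp only
    rw [h1]

theorem uu_fam : EqFam hG (fun (σ : Gm M) (c : Gm M × INat M) => (σ * c.1, c.2))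
    (fun c => uu hG hlt c) := by
  refine ⟨_, _, _, good_u hlt, fun c => Sum.inr c, IntF.inr IntF.id, fun _ => rfl,
    fun π p c => ?_⟩
  refine feq_equivQ (S := SS M) (good_oe (SS M) hlt).int int_Qu
    (act := fun (σ : Gm M) (c : Gm M × INat M) => (σ * c.1, c.2)) (fun π b => ?_) ?_ π p c
  · dsimp only
    rw [inv_mul_cancel_left]
  · intro σ c a r ha q hq
    exact ⟨q, le_rfl, a, σ • r, Qu_smul ha σ, hq, FEq.refl q a⟩

theorem exists_Us : ∃ z : NN (SS M) hG, ∀ w, Plain.Mem w z ↔ ∃ c, w = uu hG hlt c := by
  obtain ⟨z, hz⟩ := EqFam.set (uu_fam hG hlt) (Z := fun _ => True) (ZFA.Int.const _)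
    ⟨0, fun _ _ _ _ => trivial⟩
  exact ⟨z, fun w => (hz w).trans ⟨fun ⟨a, _, h⟩ => ⟨a, h⟩, fun ⟨a, h⟩ => ⟨a, trivial, h⟩⟩⟩

/-- The set of all sets given by parts of reals. -/
noncomputable def Us : NN (SS M) hG := (exists_Us hG hlt).choose

theorem mem_Us {w : NN (SS M) hG} : Plain.Mem w (Us hG hlt) ↔ ∃ c, w = uu hG hlt c :=
  (exists_Us hG hlt).choose_spec w

end

end Pool.Agent.Y580
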