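import Pool.Agent.Y580.B2

/-!
# The sets that code coverings and injections
-/

set_option maxHeartbeats 400000
set_option linter.all false
set_option synthInstance.maxSize 2000

namespace Pool.Agent.Y580

open FirstOrder FirstOrder.Language
open Pool.Agent.Helper672
open Pool.Agent.Helper672.ZFA
open Pool.Agent.Helper672.ZFA.H635

universe u

variable {M : Type u} [L.Structure M] [hM : IsModel M]
variable {α : Type u} [ITy M α] {E : α → Co M → α → Prop}

theorem int_Sg (hI : IG M E) (n : INat M) :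
    ZFA.Int M (fun q : α × Co M => Sg E n q.1 q.2) := by
  have h1 := (SS M).int_U
  have h2 : ZFA.Int M (fun q : (Co M × (Gm M × α)) × (Gm M × α) =>
    FEq M (og (Γ := Gm M) E) (og E) q.1.1 q.1.2 q.2) := (ig_og hI).feq (ig_og hI)
  unfold Sg
  refine ZFA.Int.all (ZFA.Int.all (ZFA.Int.imp ?_ (ZFA.Int.imp ?_ (ZFA.Int.all
    (ZFA.Int.imp ?_ (ZFA.Int.imp ?_ ?_))))))
  · exact ZFA.Int.comp₂ (p := fun l a => (SS M).U l a) h1 (IntF.const n) (IntF.snd IntF.fst')
  · exact ZFA.Int.comp₂ (p := fun l a => (SS M).U l a) h1 (IntF.const n) IntF.snd'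
  · exact ZFA.Int.le IntF.snd' (IntF.smul (IntF.snd (IntF.fst IntF.fst'))
      (IntF.snd (IntF.fst (IntF.fst IntF.fst'))))
  · exact ZFA.Int.le IntF.snd' (IntF.smul (IntF.snd IntF.fst')
      (IntF.snd (IntF.fst (IntF.fst IntF.fst'))))
  · refine ZFA.Int.comp₃ (p := fun (r : Co M) (x y : Gm M × α) =>
      FEq M (og (Γ := Gm M) E) (og E) r x y) h2 IntF.snd' (IntF.pair ?_ ?_) (IntF.pair ?_ ?_)
    · exact IntF.snd (IntF.fst IntF.fst')
    · exact IntF.fst (IntF.fst (IntF.fst IntF.fst'))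
    · exact IntF.snd IntF.fst'
    · exact IntF.fst (IntF.fst (IntF.fst IntF.fst'))

section

variable {G : Set (Co M)} (hG : IsGen M G)
variable {lt : Tu M → Tu M → Prop} (hlt : IWO M (Tu M) lt) (hE : Good (SS M) E)

/-- The covering. -/
theorem exists_F {lt1 : α × INat M → α × INat M → Prop} (h1 : IWO M (α × INat M) lt1) :
    ∃ z : NN (SS M) hG, ∀ w, Plain.Mem w z ↔ ∃ c : (α × INat M) × Gm M,
      Sy (SS M) E c.1.2 c.1.1 ∧ w = ZFA.op (M := NN (SS M) hG)
        (ZFA.op (M := NN (SS M) hG) (od (SS M) hG h1 c.1) (uu hG hlt (c.2, c.1.2)))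
        (nd hG (good_og (Γ := Gm M) hE) (c.2, c.1.1)) := by
  let act : Gm M → (α × INat M) × Gm M → (α × INat M) × Gm M := fun σ c => (c.1, σ * c.2)
  have hact : ∀ π b, act π⁻¹ (act π b) = b := fun π b => by
    change (b.1, π⁻¹ * (π * b.2)) = b
    rw [inv_mul_cancel_left]
  have f1 : EqFam hG act (fun c => od (SS M) hG h1 c.1) :=
    (od_fam hG h1).comp (φ := fun c : (α × INat M) × Gm M => c.1) IntF.fst' fun _ _ => rfl
  have f2 : EqFam hG act (fun c => uu hG hlt (c.2, c.1.2)) :=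
    (uu_fam hG hlt).comp (φ := fun c : (α × INat M) × Gm M => (c.2, c.1.2))
      (IntF.pair IntF.snd' (IntF.snd IntF.fst')) fun _ _ => rfl
  have f3 : EqFam hG act (fun c => nd hG (good_og (Γ := Gm M) hE) (c.2, c.1.1)) :=
    (og_fam hG hE).comp (φ := fun c : (α × INat M) × Gm M => (c.2, c.1.1))
      (IntF.pair IntF.snd' (IntF.fst IntF.fst')) fun _ _ => rfl
  have hZ : ZFA.Int M (fun c : (α × INat M) × Gm M => Sy (SS M) E c.1.2 c.1.1) :=
    ZFA.Int.comp₂ (p := fun (a : α) (l : INat M) => Sy (SS M) E l a) (int_Sy hE.int)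
      (IntF.fst IntF.fst') (IntF.snd IntF.fst')
  exact ((f1.op hact f2).op hact f3).set hZ ⟨0, fun _ _ _ h => h⟩

/-- The elements determined by a condition. -/
theorem exists_W (n : INat M) :
    ∃ (β : Type u) (_ : ITy M β) (E' : β → Co M → β → Prop) (h' : Good (SS M) E') (y : β),
      Sy (SS M) E' n y ∧ ∀ w, Plain.Mem w (nd hG h' y) ↔ ∃ (c : Gm M × α) (p : Co M), p ∈ G ∧
        ((SS M).U n c.1 ∧ Sg E n c.2 (c.1⁻¹ • p)) ∧ w = nd hG (good_og (Γ := Gm M) hE) c := by
  have h1 := (SS M).int_U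
  have h2 := int_Sg hE.int n
  refine exists_setC hG (og_fam hG hE)
    (Z := fun (c : Gm M × α) (p : Co M) => (SS M).U n c.1 ∧ Sg E n c.2 (c.1⁻¹ • p)) ?_ n ?_
  · refine ZFA.Int.and ?_ ?_
    · exact ZFA.Int.comp₂ (p := fun l a => (SS M).U l a) h1 (IntF.const n) (IntF.fst IntF.fst')
    · exact ZFA.Int.comp₂ (p := fun (b : α) (q : Co M) => Sg E n b q) h2 (IntF.snd IntF.fst')
        (IntF.smul (IntF.inv (IntF.fst IntF.fst')) IntF.snd')
  · rintro π hπ c p ⟨h3, h4⟩
    refine ⟨(SS M).mul _ _ _ hπ h3, ?_⟩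
    change Sg E n c.2 ((π * c.1)⁻¹ • π • p)
    rw [mul_inv_rev, mul_smul, inv_smul_smul]
    exact h4

/-- The indexing of the elements determined by a condition. -/
theorem exists_Om (n : INat M) {lt2 : α × Co M → α × Co M → Prop} (h2 : IWO M (α × Co M) lt2) :
    ∃ z : NN (SS M) hG, ∀ w, Plain.Mem w z ↔ ∃ c : (α × Co M) × Gm M,
      (SS M).U n c.2 ∧ Sg E n c.1.1 c.1.2 ∧ c.2 • c.1.2 ∈ G ∧ w = ZFA.op (M := NN (SS M) hG)
        (od (SS M) hG h2 c.1) (nd hG (good_og (Γ := Gm M) hE) (c.2, c.1.1)) := by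
  have hU := (SS M).int_U
  have hS := int_Sg hE.int n
  let act : Gm M → (α × Co M) × Gm M → (α × Co M) × Gm M := fun σ c => (c.1, σ * c.2)
  have hact : ∀ π b, act π⁻¹ (act π b) = b := fun π b => by
    change (b.1, π⁻¹ * (π * b.2)) = b
    rw [inv_mul_cancel_left]
  have f1 : EqFam hG act (fun c => od (SS M) hG h2 c.1) :=
    (od_fam hG h2).comp (φ := fun c : (α × Co M) × Gm M => c.1) IntF.fst' fun _ _ => rfl
  have f3 : EqFam hG act (fun c => nd hG (good_og (Γ := Gm M) hE) (c.2, c.1.1)) :=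
    (og_fam hG hE).comp (φ := fun c : (α × Co M) × Gm M => (c.2, c.1.1))
      (IntF.pair IntF.snd' (IntF.fst IntF.fst')) fun _ _ => rfl
  obtain ⟨β, _, E', h', y, -, h3⟩ := exists_setC hG (f1.op hact f3)
    (Z := fun (c : (α × Co M) × Gm M) (p : Co M) =>
      (SS M).U n c.2 ∧ Sg E n c.1.1 c.1.2 ∧ c.2 • c.1.2 = p) (by
        refine ZFA.Int.and ?_ (ZFA.Int.and ?_ ?_)
        · exact ZFA.Int.comp₂ (p := fun l a => (SS M).U l a) hU (IntF.const n)
            (IntF.snd IntF.fst')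
        · exact ZFA.Int.comp₂ (p := fun (b : α) (q : Co M) => Sg E n b q) hS
            (IntF.fst (IntF.fst IntF.fst')) (IntF.snd (IntF.fst IntF.fst'))
        · exact ZFA.Int.eq (IntF.smul (IntF.snd IntF.fst')
            (IntF.snd (IntF.fst IntF.fst'))) IntF.snd') n (by
        rintro π hπ c p ⟨h3, h4, rfl⟩
        refine ⟨(SS M).mul _ _ _ hπ h3, h4, ?_⟩
        exact mul_smul _ _ _)
  refine ⟨_, fun w => (h3 w).trans ⟨?_, ?_⟩⟩
  · rintro ⟨c, p, hp, ⟨h4, h5, rfl⟩, rfl⟩
    exact ⟨c, h4, h5, hp, rfl⟩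
  · rintro ⟨c, h4, h5, h6, rfl⟩
    exact ⟨c, _, h6, ⟨h4, h5, rfl⟩, rfl⟩

end

/-! ### The coded automorphisms -/

/-- The position `a` of the coded real. -/
def Lx (n : INat M) (σ : Gm M) (m₁ k₀ : INat M) (t x : XX M) (a : Ps M) : Prop :=
  (a.1 < k₀ ∧ a ∈ t) ∨ (k₀ ≤ a.1 ∧ ((a.2.1 < n ∧ a ∈ x) ∨
    (n ≤ a.2.1 ∧ (a.1, (n, J (la σ m₁ a.1 x) (Jq a.2))) ∈ x)))

/-- Over `r`, the inverse of `π` maps a real to the coded real. -/
def Zp (n m : INat M) (p : Co M) (σ : Gm M) (m₁ : INat M) (π : Gm M) (r : Co M) : Prop :=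
  r.1.1 = p.1.1 ∧ ∀ x, AgL p.1.1 x r.1.2 → ∀ a, a.2.1 < m →
    (a ∈ rh π⁻¹ x ↔ Lx n σ m₁ p.1.1 p.1.2 x a)

variable (α) in
/-- The indices for the coded automorphisms. -/
abbrev Ez : Type u := (α × (INat M × Co M)) × ((Gm M × INat M) × Gm M)

theorem int_Zp (n : INat M) : ZFA.Int M (fun q : Ez (M := M) α × Co M =>
    Zp n q.1.1.2.1 q.1.1.2.2 q.1.2.1.1 q.1.2.1.2 q.1.2.2 q.2) := by
  have h1 : IntF M (fun q : Gm M × XX M => rh q.1 q.2) := int_rh
  have h2 : IntF M (fun w : ((Gm M × INat M) × INat M) × XX M =>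
    la w.1.1.1 w.1.1.2 w.1.2 w.2) := int_la
  have h3 : IntF M (Jq (M := M)) := int_Jq
  have h4 : IntF M (fun q : INat M × INat M => J q.1 q.2) := int_J
  have h5 : IntF M (fun q : ((Ez (M := M) α × Co M) × XX M) × Ps M =>
      rh q.1.1.1.2.2⁻¹ q.1.2) :=
    IntF.comp₂ (p := fun (π : Gm M) (x : XX M) => rh π x) h1
      (IntF.inv (IntF.snd (IntF.snd (IntF.fst (IntF.fst IntF.fst'))))) (IntF.snd IntF.fst')
  have h6 : IntF M (fun q : ((Ez (M := M) α × Co M) × XX M) × Ps M =>
      la q.1.1.1.2.1.1 q.1.1.1.2.1.2 q.2.1 q.1.2) := by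
    refine IntF.comp (g := fun w : ((Gm M × INat M) × INat M) × XX M =>
      la w.1.1.1 w.1.1.2 w.1.2 w.2) (f := fun q : ((Ez (M := M) α × Co M) × XX M) × Ps M =>
        (((q.1.1.1.2.1.1, q.1.1.1.2.1.2), q.2.1), q.1.2)) h2 ?_
    (repeat' (first | with_reducible exact IntF.id | with_reducible exact IntF.fst' | with_reducible exact IntF.snd' | with_reducible exact IntF.const _ | with_reducible exact Int.const _ | assumption | with_reducible apply Int.and | with_reducible apply Int.or | with_reducible apply Int.not | with_reducible apply Int.imp | with_reducible apply Int.iff | with_reducible apply Int.ne | with_reducible apply Int.eq | with_reducible apply Int.mem | with_reducible apply Int.subset | with_reducible apply Int.ltN | with_reducible apply Int.leN | with_reducible_and_instances apply Helper672.ZFA.Int.le | with_reducible_and_instances apply Helper672.ZFA.Int.lt | with_reducible apply Int.all | with_reducible apply Int.ex | with_reducible apply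 IntF.fst | with_reducible apply IntF.snd | with_reducible apply IntF.app | with_reducible apply IntF.inl | with_reducible apply IntF.inr | with_reducible apply Int.fin | with_reducible apply IntF.sep | with_reducible apply IntF.lam | with_reducible apply IntF.insert | with_reducible apply IntF.singleton | with_reducible apply IntF.union | with_reducible apply IntF.iimage | with_reducible apply IntF.ite | with_reducible apply IntF.the | with_reducible apply IntF.irec | with_reducible apply IntF.succ | with_reducible apply IntF.val | (with_reducible refine Int.comp ?_ ?_; assumption) | (with_reducible refine Int.comp₂ ?_ ?_ ?_; assumption) | (with_reducible refine Int.comp₃ ?_ ?_ ?_ ?_; assumption) | (with_reducible refine Int.comp₄ ?_ ?_ ?_ ?_ ?_; assumption) | (with_reducible refine IntF.comp ?_ ?_; assumption) | (with_reducible refine IntF.comp₂ ?_ ?_ ?_; assumption) | (with_reducible refine IntF.comp₃ ?_ ?_ ?_ ?_; assumption) | with_reducible apply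 IntF.mk | with_reducible apply IntF.pair))
  have h7 : IntF M (fun q : ((Ez (M := M) α × Co M) × XX M) × Ps M =>
      J (la q.1.1.1.2.1.1 q.1.1.1.2.1.2 q.2.1 q.1.2) (Jq q.2.2)) :=
    IntF.comp₂ (p := fun (a b : INat M) => J a b) h4 h6 (IntF.comp h3 (IntF.snd IntF.snd'))
  unfold Zp Lx AgL
  (repeat' (first | with_reducible exact IntF.id | with_reducible exact IntF.fst' | with_reducible exact IntF.snd' | with_reducible exact IntF.const _ | with_reducible exact Int.const _ | assumption | with_reducible apply Int.and | with_reducible apply Int.or | with_reducible apply Int.not | with_reducible apply Int.imp | with_reducible apply Int.iff | with_reducible apply Int.ne | with_reducible apply Int.eq | with_reducible apply Int.mem | with_reducible apply Int.subset | with_reducible apply Int.ltN | with_reducible apply Int.leN | with_reducible_and_instances apply Helper672.ZFA.Int.le | with_reducible_and_instances apply Helper672.ZFA.Int.lt | with_reducible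 apply Int.all | with_reducible apply Int.ex | with_reducible apply IntF.fst | with_reducible apply IntF.snd | with_reducible apply IntF.app | with_reducible apply IntF.inl | with_reducible apply IntF.inr | with_reducible apply Int.fin | with_reducible apply IntF.sep | with_reducible apply IntF.lam | with_reducible apply IntF.insert | with_reducible apply IntF.singleton | with_reducible apply IntF.union | with_reducible apply IntF.iimage | with_reducible apply IntF.ite | with_reducible apply IntF.the | with_reducible apply IntF.irec | with_reducible apply IntF.succ | with_reducible apply IntF.val | (with_reducible refine Int.comp ?_ ?_; assumption) | (with_reducible refine Int.comp₂ ?_ ?_ ?_; assumption) | (with_reducible refine Int.comp₃ ?_ ?_ ?_ ?_; assumption) | (with_reducible refine Int.comp₄ ?_ ?_ ?_ ?_ ?_; assumption) | (with_reducible refine IntF.comp ?_ ?_; assumption) | (with_reducible refine IntF.comp₂ ?_ ?_ ?_; assumption) | (with_reducible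 refine IntF.comp₃ ?_ ?_ ?_ ?_; assumption) | with_reducible apply IntF.mk | with_reducible apply IntF.pair))

theorem Zp_smul {n m : INat M} {p : Co M} {σ : Gm M} {m₁ : INat M} {π : Gm M} {r : Co M}
    {τ : Gm M} (hτ : (SS M).U n.succ τ) (h : Zp n m p σ m₁ π r) :
    Zp n m p (τ * σ) m₁ (τ * π) (τ • r) := by
  have hτi : (SS M).U n.succ τ⁻¹ := (SS M).inv _ _ hτ
  obtain ⟨h1, h2⟩ := h
  refine ⟨h1, fun x hx a ha => ?_⟩
  have h3 : AgL p.1.1 (rh τ⁻¹ x) r.1.2 := by
    have h4 := (rh_lv τ⁻¹).2 hx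
    have h5 := (rh_lv τ⁻¹).2 ((smul_agl τ r).mono h1.symm.le)
    rw [rh_inv_rh] at h5
    exact h4.trans h5
  rw [mul_inv_rev, rh_mul, h2 _ h3 a ha]
  unfold Lx
  rw [la_tau]
  have e1 : a.2.1 < n → (a ∈ rh τ⁻¹ x ↔ a ∈ x) := fun h4 =>
    hτi x a (h4.trans (INat.lt_succ_self n))
  have e2 : ((a.1, (n, J (la (τ * σ) m₁ a.1 x) (Jq a.2))) : Ps M) ∈ rh τ⁻¹ x ↔
      ((a.1, (n, J (la (τ * σ) m₁ a.1 x) (Jq a.2))) : Ps M) ∈ x :=
    hτi x _ (INat.lt_succ_self n)
  rw [e2]
  refine or_congr Iff.rfl (and_congr_right fun _ => or_congr (and_congr_right e1) Iff.rfl)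

theorem Zp_of_pz {n m : INat M} {p : Co M} {σ : Gm M} {m₁ : INat M} {π : Gm M}
    (h : IsPz n m p.1.1 σ m₁ π) : Zp n m p σ m₁ π p := by
  refine ⟨rfl, fun x hx a ha => ?_⟩
  unfold Lx
  by_cases h1 : a.1 < p.1.1
  · rw [h.low x a h1, hx a h1]
    have h2 : ¬ p.1.1 ≤ a.1 := not_le.2 h1
    tauto
  · have h1' := not_lt.1 h1
    by_cases h2 : a.2.1 < n
    · rw [h.left x a h1' h2]
      have h3 : ¬ n ≤ a.2.1 := not_le.2 h2
      tauto
    · rw [h.near x a h1' (not_lt.1 h2) ha]
      have h3 := not_lt.1 h2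
      tauto

theorem pz_smul {n m : INat M} {p : Co M} {σ : Gm M} {m₁ : INat M} {π : Gm M}
    (h : IsPz n m p.1.1 σ m₁ π) : π • p = p := by
  have h1 : π⁻¹ • p = p := by
    rw [smul_def']
    conv_rhs => rw [← co_self p]
    exact co_eq.2 fun a ha => h.low _ a ha
  calc π • p = π • π⁻¹ • p := by rw [h1]
    _ = p := smul_inv_smul _ _

section

variable {G : Set (Co M)} (hG : IsGen M G)

include hG in
theorem Zp_eqM {n m : INat M} {p : Co M} (hp : p ∈ G) {σ : Gm M} {m₁ : INat M} {π π' : Gm M}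
    (h : Zp n m p σ m₁ π p) (h' : Zp n m p σ m₁ π' p) : EqM G m π π' := by
  refine eqM_of hG hp fun t ht a ha => ?_
  by_cases h1 : a.1 < t.1.1
  · have e1 : a ∈ (π⁻¹ • t).1.2 ↔ a ∈ rh π⁻¹ t.1.2 := smul_agl _ _ a h1
    have e2 : a ∈ (π'⁻¹ • t).1.2 ↔ a ∈ rh π'⁻¹ t.1.2 := smul_agl _ _ a h1
    rw [e1, e2, h.2 _ ht.2 a ha, h'.2 _ ht.2 a ha]
  · exact iff_of_false (fun h4 => h1 ((π⁻¹ • t).2 a h4)) fun h4 => h1 ((π'⁻¹ • t).2 a h4)

variable {lt : Tu M → Tu M → Prop} (hlt : IWO M (Tu M) lt) (hE : Good (SS M) E)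

/-- The injections. -/
theorem exists_Ph (n : INat M) {lt3 : α × (INat M × Co M) → α × (INat M × Co M) → Prop}
    (h3 : IWO M (α × (INat M × Co M)) lt3) :
    ∃ z : NN (SS M) hG, ∀ w, Plain.Mem w z ↔ ∃ c : Ez (M := M) α, ∃ r : Co M, r ∈ G ∧
      (Sy (SS M) E c.1.2.1 c.1.1 ∧ Zp n c.1.2.1 c.1.2.2 c.2.1.1 c.2.1.2 c.2.2 r) ∧
      w = ZFA.op (M := NN (SS M) hG) (ZFA.op (M := NN (SS M) hG) (od (SS M) hG h3 c.1)
        (uu hG hlt c.2.1)) (nd hG (good_og (Γ := Gm M) hE) (c.2.2, c.1.1)) := by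
  let act : Gm M → Ez (M := M) α → Ez (M := M) α := fun σ c =>
    (c.1, ((σ * c.2.1.1, c.2.1.2), σ * c.2.2))
  have hact : ∀ π b, act π⁻¹ (act π b) = b := fun π b => by
    change (b.1, ((π⁻¹ * (π * b.2.1.1), b.2.1.2), π⁻¹ * (π * b.2.2))) = b
    rw [inv_mul_cancel_left, inv_mul_cancel_left]
  have f1 : EqFam hG act (fun c => od (SS M) hG h3 c.1) :=
    (od_fam hG h3).comp (φ := fun c : Ez (M := M) α => c.1) IntF.fst' fun _ _ => rfl
  have f2 : EqFam hG act (fun c => uu hG hlt c.2.1) :=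
    (uu_fam hG hlt).comp (φ := fun c : Ez (M := M) α => c.2.1) (IntF.fst IntF.snd')
      fun _ _ => rfl
  have f3 : EqFam hG act (fun c => nd hG (good_og (Γ := Gm M) hE) (c.2.2, c.1.1)) :=
    (og_fam hG hE).comp (φ := fun c : Ez (M := M) α => (c.2.2, c.1.1))
      (IntF.pair (IntF.snd IntF.snd') (IntF.fst IntF.fst')) fun _ _ => rfl
  obtain ⟨β, _, E', h', y, -, h4⟩ := exists_setC hG ((f1.op hact f2).op hact f3)
    (Z := fun (c : Ez (M := M) α) (r : Co M) =>
      Sy (SS M) E c.1.2.1 c.1.1 ∧ Zp n c.1.2.1 c.1.2.2 c.2.1.1 c.2.1.2 c.2.2 r)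
    (ZFA.Int.and (ZFA.Int.comp₂ (p := fun (a : α) (l : INat M) => Sy (SS M) E l a)
      (int_Sy hE.int) (IntF.fst (IntF.fst IntF.fst'))
      (IntF.fst (IntF.snd (IntF.fst IntF.fst')))) (int_Zp n)) n.succ
    (fun π hπ c r h4 => ⟨h4.1, Zp_smul hπ h4.2⟩)
  exact ⟨_, h4⟩

end

end Pool.Agent.Y580
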