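import Pool.Agent.H310R3.NADefs

/-!
# A well-foundedness principle for cardinals in a structure for the language of set theory

`LSet` and `Mem` are from `Pool.Agent.Helper672.SIK.Plain`, and `IsOmega`, `App`, `IsFun` and
`IsInj` from `Pool.Agent.H310R3.Cards`.
-/

namespace Pool.Agent.Y580S

open FirstOrder FirstOrder.Language
open Pool.Agent.Helper672.Plain (LSet Mem)
open Pool.Agent.H310Cards

universe u

section

variable {M : Type u} [LSet.Structure M]

/-- `s` is `n ∪ {n}`. -/
def IsSucc (s n : M) : Prop := ∀ z, Mem z s ↔ Mem z n ∨ z = n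

/-- `f` is a surjection from `a` onto `b`. -/
def IsSurj (f a b : M) : Prop := IsFun f a b ∧ ∀ y, Mem y b → ∃ x, App f x y

/-- `|x| ≤* |y|`: the set `x` is empty or there is a surjection from `y` onto `x`. -/
def LeStar (x y : M) : Prop := (∀ z, ¬ Mem z x) ∨ ∃ f, IsSurj f y x

end

/-- The principle WF^i_{s4}. Let `w` be the set of the natural numbers, `A` a function with domain
`w` (a sequence of sets `A_n`) and `F` a function with domain `w` whose value at `n` is an
injection from `A_{n+1}` to `A_n`, for every `n` in `w`. Then for some `n` in `w`, `A_n` is empty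
or there is a surjection from `A_{n+1}` onto `A_n`. -/
def WFis4 (N : Type u) [LSet.Structure N] : Prop :=
  ∀ w A b F c : N, IsOmega w → IsFun A w b → IsFun F w c →
    (∀ n s x y f, Mem n w → IsSucc s n → App A n x → App A s y → App F n f → IsInj f y x) →
    ∃ n s x y, Mem n w ∧ IsSucc s n ∧ App A n x ∧ App A s y ∧ LeStar x y

/-- The axiom of choice: every set `x` of nonempty sets has a choice function. -/
def AC (N : Type u) [LSet.Structure N] : Prop :=
  ∀ x : N, (∀ y, Mem y x → ∃ z, Mem z y) →
    ∃ u f, IsFun f x u ∧ ∀ y z, App f y z → Mem z y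

end Pool.Agent.Y580S
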