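import Pool.Agent.Y580.C2
import Pool.Agent.Y580.Defs
import Pool.Agent.H310R3.W8

/-!
# The principle and decreasing sequences of subsets
-/

set_option maxHeartbeats 400000
set_option linter.all false
set_option synthInstance.maxSize 2000

namespace Pool.Agent.Y580

open FirstOrder FirstOrder.Language
open Pool.Agent.Helper672.ZFA
open Pool.Agent.Helper672.ZFA.H635 (IWO)

universe u

section

variable {M : Type u} [L.Structure M] [hM : IsModel M]

variable (M) in
/-- `R` is a partial surjection from `B` onto `A`. -/
def PS {δ : Type u} [ITy M δ] (A B : δ → Prop) : Prop :=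
  ∃ R : IPow M (δ × δ), (∀ v v' v'', (v', v) ∈ R → (v', v'') ∈ R → v = v'') ∧
    (∀ v v', (v', v) ∈ R → A v) ∧ ∀ v, A v → ∃ v', B v' ∧ (v', v) ∈ R

variable (M) in
/-- The principle for decreasing sequences of subsets of a type. -/
def DecP (δ : Type u) [ITy M δ] : Prop :=
  ∀ B : INat M → δ → Prop, Int M (fun q : INat M × δ => B q.1 q.2) →
    (∀ r v, B r.succ v → B r v) → ∃ r, (∀ v, ¬ B r v) ∨ PS M (B r) (B r.succ)

theorem decP_inj {δ : Type u} [ITy M δ] (H : DecP M δ) {T : INat M → δ → Prop}
    (hT : Int M (fun q : INat M × δ => T q.1 q.2)) {φ : INat M → δ → δ}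
    (hφ : IntF M (fun q : INat M × δ => φ q.1 q.2)) (h1 : ∀ n y, T n.succ y → T n (φ n y))
    (h2 : ∀ n y y', T n.succ y → T n.succ y' → φ n y = φ n y' → y = y') :
    ∃ r, (∀ v, ¬ T r v) ∨ PS M (T r) (T r.succ) := by
  have hs : IntF M (fun q : INat M × IFun M δ δ => lam M (fun y => q.2 (φ q.1 y))) := by (repeat' (first | with_reducible exact IntF.id | with_reducible exact IntF.fst' | with_reducible exact IntF.snd' | with_reducible exact IntF.const _ | with_reducible exact Int.const _ | assumption | with_reducible apply Int.and | with_reducible apply Int.or | with_reducible apply Int.not | with_reducible apply Int.imp | with_reducible apply Int.iff | with_reducible apply Int.ne | with_reducible apply Int.eq | with_reducible apply Int.mem | with_reducible apply Int.subset | with_reducible apply Int.ltN | with_reducible apply Int.leN | with_reducible_and_instances apply Helper672.ZFA.Int.le | with_reducible_and_instances apply Helper672.ZFA.Int.lt | with_reducible apply Int.all | with_reducible apply Int.ex | with_reducible apply IntF.fst | with_reducible apply IntF.snd | with_reducible apply IntF.app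 | with_reducible apply IntF.inl | with_reducible apply IntF.inr | with_reducible apply Int.fin | with_reducible apply IntF.sep | with_reducible apply IntF.lam | with_reducible apply IntF.insert | with_reducible apply IntF.singleton | with_reducible apply IntF.union | with_reducible apply IntF.iimage | with_reducible apply IntF.ite | with_reducible apply IntF.the | with_reducible apply IntF.irec | with_reducible apply IntF.succ | with_reducible apply IntF.val | (with_reducible refine Int.comp ?_ ?_; assumption) | (with_reducible refine Int.comp₂ ?_ ?_ ?_; assumption) | (with_reducible refine Int.comp₃ ?_ ?_ ?_ ?_; assumption) | (with_reducible refine Int.comp₄ ?_ ?_ ?_ ?_ ?_; assumption) | (with_reducible refine IntF.comp ?_ ?_; assumption) | (with_reducible refine IntF.comp₂ ?_ ?_ ?_; assumption) | (with_reducible refine IntF.comp₃ ?_ ?_ ?_ ?_; assumption) | with_reducible apply IntF.mk | with_reducible apply IntF.pair))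
  let g : INat M → IFun M δ δ := irec (lam M (fun y => y)) (fun n h => lam M (fun y => h (φ n y)))
  have hg : IntF M g := by
    have h3 : IntF M (fun q : (INat M × INat M) × IFun M δ δ =>
      lam M (fun y => q.2 (φ q.1.2 y))) := by (repeat' (first | with_reducible exact IntF.id | with_reducible exact IntF.fst' | with_reducible exact IntF.snd' | with_reducible exact IntF.const _ | with_reducible exact Int.const _ | assumption | with_reducible apply Int.and | with_reducible apply Int.or | with_reducible apply Int.not | with_reducible apply Int.imp | with_reducible apply Int.iff | with_reducible apply Int.ne | with_reducible apply Int.eq | with_reducible apply Int.mem | with_reducible apply Int.subset | with_reducible apply Int.ltN | with_reducible apply Int.leN | with_reducible_and_instances apply Helper672.ZFA.Int.le | with_reducible_and_instances apply Helper672.ZFA.Int.lt | with_reducible apply Int.all | with_reducible apply Int.ex | with_reducible apply IntF.fst | with_reducible apply IntF.snd | with_reducible apply IntF.app | with_reducible apply IntF.inl | with_reducible apply IntF.inr | with_reducible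 apply Int.fin | with_reducible apply IntF.sep | with_reducible apply IntF.lam | with_reducible apply IntF.insert | with_reducible apply IntF.singleton | with_reducible apply IntF.union | with_reducible apply IntF.iimage | with_reducible apply IntF.ite | with_reducible apply IntF.the | with_reducible apply IntF.irec | with_reducible apply IntF.succ | with_reducible apply IntF.val | (with_reducible refine Int.comp ?_ ?_; assumption) | (with_reducible refine Int.comp₂ ?_ ?_ ?_; assumption) | (with_reducible refine Int.comp₃ ?_ ?_ ?_ ?_; assumption) | (with_reducible refine Int.comp₄ ?_ ?_ ?_ ?_ ?_; assumption) | (with_reducible refine IntF.comp ?_ ?_; assumption) | (with_reducible refine IntF.comp₂ ?_ ?_ ?_; assumption) | (with_reducible refine IntF.comp₃ ?_ ?_ ?_ ?_; assumption) | with_reducible apply IntF.mk | with_reducible apply IntF.pair))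
    exact IntF.irec (a := fun _ : INat M => lam M (fun y : δ => y))
      (f := fun _ n h => lam M (fun y => h (φ n y))) (n := fun n => n) (IntF.const _) h3 IntF.id
  have g0 : ∀ y, g 0 y = y := by
    intro y
    change irec (lam M (fun y : δ => y)) (fun n h => lam M (fun y => h (φ n y))) 0 y = y
    rw [irec_zero hs, lam_apply IntF.id]
  have gs : ∀ n y, g n.succ y = g n (φ n y) := by
    intro n y
    change irec (lam M (fun y : δ => y)) (fun n h => lam M (fun y => h (φ n y))) n.succ y = _
    have h4 : IntF M (fun y => (g n) (φ n y)) := by
      have h5 : IntF M (φ n) := hφ.slice n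
      (repeat' (first | with_reducible exact IntF.id | with_reducible exact IntF.fst' | with_reducible exact IntF.snd' | with_reducible exact IntF.const _ | with_reducible exact Int.const _ | assumption | with_reducible apply Int.and | with_reducible apply Int.or | with_reducible apply Int.not | with_reducible apply Int.imp | with_reducible apply Int.iff | with_reducible apply Int.ne | with_reducible apply Int.eq | with_reducible apply Int.mem | with_reducible apply Int.subset | with_reducible apply Int.ltN | with_reducible apply Int.leN | with_reducible_and_instances apply Helper672.ZFA.Int.le | with_reducible_and_instances apply Helper672.ZFA.Int.lt | with_reducible apply Int.all | with_reducible apply Int.ex | with_reducible apply IntF.fst | with_reducible apply IntF.snd | with_reducible apply IntF.app | with_reducible apply IntF.inl | with_reducible apply IntF.inr | with_reducible apply Int.fin | with_reducible apply IntF.sep | with_reducible apply IntF.lam | with_reducible apply IntF.insert | with_reducible apply IntF.singleton | with_reducible apply IntF.union | with_reducible apply IntF.iimage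 | with_reducible apply IntF.ite | with_reducible apply IntF.the | with_reducible apply IntF.irec | with_reducible apply IntF.succ | with_reducible apply IntF.val | (with_reducible refine Int.comp ?_ ?_; assumption) | (with_reducible refine Int.comp₂ ?_ ?_ ?_; assumption) | (with_reducible refine Int.comp₃ ?_ ?_ ?_ ?_; assumption) | (with_reducible refine Int.comp₄ ?_ ?_ ?_ ?_ ?_; assumption) | (with_reducible refine IntF.comp ?_ ?_; assumption) | (with_reducible refine IntF.comp₂ ?_ ?_ ?_; assumption) | (with_reducible refine IntF.comp₃ ?_ ?_ ?_ ?_; assumption) | with_reducible apply IntF.mk | with_reducible apply IntF.pair))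
    rw [irec_succ hs, lam_apply h4]
  have hinj : ∀ n y y', T n y → T n y' → g n y = g n y' → y = y' := by
    refine INat.ind (by (repeat' (first | with_reducible exact IntF.id | with_reducible exact IntF.fst' | with_reducible exact IntF.snd' | with_reducible exact IntF.const _ | with_reducible exact Int.const _ | assumption | with_reducible apply Int.and | with_reducible apply Int.or | with_reducible apply Int.not | with_reducible apply Int.imp | with_reducible apply Int.iff | with_reducible apply Int.ne | with_reducible apply Int.eq | with_reducible apply Int.mem | with_reducible apply Int.subset | with_reducible apply Int.ltN | with_reducible apply Int.leN | with_reducible_and_instances apply Helper672.ZFA.Int.le | with_reducible_and_instances apply Helper672.ZFA.Int.lt | with_reducible apply Int.all | with_reducible apply Int.ex | with_reducible apply IntF.fst | with_reducible apply IntF.snd | with_reducible apply IntF.app | with_reducible apply IntF.inl | with_reducible apply IntF.inr | with_reducible apply Int.fin | with_reducible apply IntF.sep | with_reducible apply IntF.lam | with_reducible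 apply IntF.insert | with_reducible apply IntF.singleton | with_reducible apply IntF.union | with_reducible apply IntF.iimage | with_reducible apply IntF.ite | with_reducible apply IntF.the | with_reducible apply IntF.irec | with_reducible apply IntF.succ | with_reducible apply IntF.val | (with_reducible refine Int.comp ?_ ?_; assumption) | (with_reducible refine Int.comp₂ ?_ ?_ ?_; assumption) | (with_reducible refine Int.comp₃ ?_ ?_ ?_ ?_; assumption) | (with_reducible refine Int.comp₄ ?_ ?_ ?_ ?_ ?_; assumption) | (with_reducible refine IntF.comp ?_ ?_; assumption) | (with_reducible refine IntF.comp₂ ?_ ?_ ?_; assumption) | (with_reducible refine IntF.comp₃ ?_ ?_ ?_ ?_; assumption) | with_reducible apply IntF.mk | with_reducible apply IntF.pair))) ?_ ?_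
    · intro y y' _ _ h3
      rwa [g0, g0] at h3
    · intro n ih y y' h3 h4 h5
      rw [gs, gs] at h5
      exact h2 n y y' h3 h4 (ih _ _ (h1 n y h3) (h1 n y' h4) h5)
  obtain ⟨r, h3⟩ := H (fun r x => ∃ y, T r y ∧ g r y = x) (by (repeat' (first | with_reducible exact IntF.id | with_reducible exact IntF.fst' | with_reducible exact IntF.snd' | with_reducible exact IntF.const _ | with_reducible exact Int.const _ | assumption | with_reducible apply Int.and | with_reducible apply Int.or | with_reducible apply Int.not | with_reducible apply Int.imp | with_reducible apply Int.iff | with_reducible apply Int.ne | with_reducible apply Int.eq | with_reducible apply Int.mem | with_reducible apply Int.subset | with_reducible apply Int.ltN | with_reducible apply Int.leN | with_reducible_and_instances apply Helper672.ZFA.Int.le | with_reducible_and_instances apply Helper672.ZFA.Int.lt | with_reducible apply Int.all | with_reducible apply Int.ex | with_reducible apply IntF.fst | with_reducible apply IntF.snd | with_reducible apply IntF.app | with_reducible apply IntF.inl | with_reducible apply IntF.inr | with_reducible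 apply Int.fin | with_reducible apply IntF.sep | with_reducible apply IntF.lam | with_reducible apply IntF.insert | with_reducible apply IntF.singleton | with_reducible apply IntF.union | with_reducible apply IntF.iimage | with_reducible apply IntF.ite | with_reducible apply IntF.the | with_reducible apply IntF.irec | with_reducible apply IntF.succ | with_reducible apply IntF.val | (with_reducible refine Int.comp ?_ ?_; assumption) | (with_reducible refine Int.comp₂ ?_ ?_ ?_; assumption) | (with_reducible refine Int.comp₃ ?_ ?_ ?_ ?_; assumption) | (with_reducible refine Int.comp₄ ?_ ?_ ?_ ?_ ?_; assumption) | (with_reducible refine IntF.comp ?_ ?_; assumption) | (with_reducible refine IntF.comp₂ ?_ ?_ ?_; assumption) | (with_reducible refine IntF.comp₃ ?_ ?_ ?_ ?_; assumption) | with_reducible apply IntF.mk | with_reducible apply IntF.pair))) (by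
    rintro r x ⟨y, h3, rfl⟩
    exact ⟨φ r y, h1 r y h3, (gs r y).symm⟩)
  refine ⟨r, ?_⟩
  rcases h3 with h3 | ⟨R, h3, h4, h5⟩
  · left
    intro v hv
    exact h3 (g r v) ⟨v, hv, rfl⟩
  · right
    have hi : Int M (fun q : δ × δ => T r.succ q.1 ∧ T r q.2 ∧ (g r.succ q.1, g r q.2) ∈ R) := by
      (repeat' (first | with_reducible exact IntF.id | with_reducible exact IntF.fst' | with_reducible exact IntF.snd' | with_reducible exact IntF.const _ | with_reducible exact Int.const _ | assumption | with_reducible apply Int.and | with_reducible apply Int.or | with_reducible apply Int.not | with_reducible apply Int.imp | with_reducible apply Int.iff | with_reducible apply Int.ne | with_reducible apply Int.eq | with_reducible apply Int.mem | with_reducible apply Int.subset | with_reducible apply Int.ltN | with_reducible apply Int.leN | with_reducible_and_instances apply Helper672.ZFA.Int.le | with_reducible_and_instances apply Helper672.ZFA.Int.lt | with_reducible apply Int.all | with_reducible apply Int.ex | with_reducible apply IntF.fst | with_reducible apply IntF.snd | with_reducible apply IntF.app | with_reducible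 apply IntF.inl | with_reducible apply IntF.inr | with_reducible apply Int.fin | with_reducible apply IntF.sep | with_reducible apply IntF.lam | with_reducible apply IntF.insert | with_reducible apply IntF.singleton | with_reducible apply IntF.union | with_reducible apply IntF.iimage | with_reducible apply IntF.ite | with_reducible apply IntF.the | with_reducible apply IntF.irec | with_reducible apply IntF.succ | with_reducible apply IntF.val | (with_reducible refine Int.comp ?_ ?_; assumption) | (with_reducible refine Int.comp₂ ?_ ?_ ?_; assumption) | (with_reducible refine Int.comp₃ ?_ ?_ ?_ ?_; assumption) | (with_reducible refine Int.comp₄ ?_ ?_ ?_ ?_ ?_; assumption) | (with_reducible refine IntF.comp ?_ ?_; assumption) | (with_reducible refine IntF.comp₂ ?_ ?_ ?_; assumption) | (with_reducible refine IntF.comp₃ ?_ ?_ ?_ ?_; assumption) | with_reducible apply IntF.mk | with_reducible apply IntF.pair))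
    refine ⟨sep M (fun q : δ × δ => T r.succ q.1 ∧ T r q.2 ∧ (g r.succ q.1, g r q.2) ∈ R),
      fun v v' v'' h6 h7 => ?_, fun v v' h6 => ?_, fun v hv => ?_⟩
    · obtain ⟨a1, a2, a3⟩ := (mem_sep hi).1 h6
      obtain ⟨b1, b2, b3⟩ := (mem_sep hi).1 h7
      exact hinj r v v'' a2 b2 (h3 _ _ _ a3 b3)
    · exact ((mem_sep hi).1 h6).2.1
    · obtain ⟨x', ⟨y', h6, rfl⟩, h7⟩ := h5 (g r v) ⟨v, hv, rfl⟩
      exact ⟨y', h6, (mem_sep hi).2 ⟨h6, hv, h7⟩⟩

end

section

attribute [local instance] Helper672.Plain.toL

variable {M : Type u} [Helper672.Plain.LSet.Structure M] [hZ : Helper672.Plain.Zermelo M]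

local instance instModelY : IsModel M := Helper672.Plain.isModel_toL

open Pool.Agent.H310 Pool.Agent.H310Cards Pool.Agent.Y580S

theorem wfis4_of (hU : ∀ b : M, ∃ d : M, ∀ z, Mem z d ↔ ∃ y, Mem y b ∧ Mem z y)
    (H : ∀ d : M, DecP M (El d)) : WFis4 M := by
  intro w A b F c hw hA hF hinj
  obtain ⟨d, hd⟩ := hU b
  have hn : ∀ n : INat M, Mem (code (M := M) n) w := fun n => (mem_omega hw).2 ⟨n, rfl⟩
  have hs : ∀ n : INat M, IsSucc (code (M := M) n.succ) (code n) := fun n z =>
    (INat.mem_succ (n := n) (z := z) : Mem z n.succ.val ↔ Mem z n.val ∨ z = n.val)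
  have hX : ∀ n : INat M, ∃ x, App A (code n) x ∧ ∀ y, App A (code n) y → y = x := by
    intro n
    obtain ⟨x, h1, h2⟩ := hA.2 _ (hn n)
    exact ⟨x, h1, h2⟩
  choose X hX1 hX2 using hX
  have hf : ∀ n : INat M, ∃ f, App F (code n) f ∧ ∀ y, App F (code n) y → y = f := by
    intro n
    obtain ⟨x, h1, h2⟩ := hF.2 _ (hn n)
    exact ⟨x, h1, h2⟩
  choose f hf1 hf2 using hf
  have hfi : ∀ n, IsInj (f n) (X n.succ) (X n) := fun n =>
    hinj _ _ _ _ _ (hn n) (hs n) (hX1 n) (hX1 n.succ) (hf1 n)
  have hXd : ∀ n z, Mem z (X n) → Mem z d := fun n z h =>
    (hd z).2 ⟨X n, (app_mem hA (hX1 n)).2, h⟩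
  -- the sets
  let T : INat M → El d → Prop := fun n z => ∃ u, App A (code n) u ∧ Mem (code z) u
  have hT : ∀ n z, T n z ↔ Mem z.1 (X n) := by
    intro n z
    constructor
    · rintro ⟨u, h1, h2⟩
      rw [hX2 n u h1] at h2
      exact h2
    · intro h
      exact ⟨_, hX1 n, h⟩
  have iT : Int M (fun q : INat M × El d => T q.1 q.2) := int_appMem A
  -- the maps
  have iP : Int M (fun q : (INat M × El d) × El d =>
      ∃ g, App F (code q.1.1) g ∧ App g (code q.1.2) (code q.2)) := by
    refine Int.of_D₂ (S := fun v => ∃ n y g, v 0 = op n y ∧ Mem (op n g) F ∧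
      Mem (op y (v 1)) g) ?_ fun a b => ?_
    · exact D.ex (D.ex (D.ex (D.and (D.eqf (DF.var _) (DF.op (DF.var _) (DF.var _))) (D.and
        (D.memf (DF.op (DF.var _) (DF.var _)) (DF.const _))
        (D.memf (DF.op (DF.var _) (DF.var _)) (DF.var _))))))
    · obtain ⟨n, y⟩ := a
      constructor
      · rintro ⟨n', y', g, h1, h2, h3⟩
        obtain ⟨rfl, rfl⟩ := op_inj (h1 : op (code n) (code y) = op n' y')
        exact ⟨g, app_iff.2 h2, app_iff.2 h3⟩
      · rintro ⟨g, h2, h3⟩
        exact ⟨code n, code y, g, rfl, app_iff.1 h2, app_iff.1 h3⟩
  let φ : INat M → El d → El d := fun n y =>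
    the (fun z => ∃ g, App F (code n) g ∧ App g (code y) (code z)) y
  have iφ : IntF M (fun q : INat M × El d => φ q.1 q.2) :=
    IntF.the (p := fun (q : INat M × El d) (z : El d) =>
      ∃ g, App F (code q.1) g ∧ App g (code q.2) (code z)) iP IntF.snd'
  have hφ : ∀ n y, T n.succ y → App (f n) (code y) (code (φ n y)) := by
    intro n y hy
    obtain ⟨z, h1, h2⟩ := (hfi n).1.2 y.1 ((hT _ _).1 hy)
    have h3 : Mem z (X n) := (app_mem (hfi n).1 h1).2
    have h4 : φ n y = ⟨z, hXd n z h3⟩ := by
      refine the_eq ⟨⟨z, hXd n z h3⟩, ⟨f n, hf1 n, h1⟩, ?_⟩ ⟨f n, hf1 n, h1⟩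
      rintro z' ⟨g, h5, h6⟩
      rw [hf2 n g h5] at h6
      exact Subtype.ext (h2 _ h6)
    rw [h4]
    exact h1
  obtain ⟨r, hr⟩ := decP_inj (H d) iT iφ (fun n y hy => by
      rw [hT]
      exact (app_mem (hfi n).1 (hφ n y hy)).2)
    (fun n y y' hy hy' h => by
      have h1 := hφ n y hy
      have h2 := hφ n y' hy'
      rw [h] at h1
      exact Subtype.ext ((hfi n).2 _ _ _ h1 h2))
  refine ⟨_, _, _, _, hn r, hs r, hX1 r, hX1 r.succ, ?_⟩
  by_cases h0 : ∀ z, ¬ Mem z (X r)
  · exact Or.inl h0
  push Not at h0
  obtain ⟨z₀, hz₀⟩ := h0
  rcases hr with hr | ⟨R, h1, h2, h3⟩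
  · exact absurd ((hT r ⟨z₀, hXd r z₀ hz₀⟩).2 hz₀) (hr _)
  right
  have iR : Int M (fun q : El (X r.succ) × El (X r) => Mem (op (code q.1) (code q.2))
    (code (M := M) R)) := ⟨code (M := M) R, fun q => Iff.rfl⟩
  have hR : ∀ (a : El (X r.succ)) (b : El (X r)), Mem (op (code a) (code b)) (code (M := M) R) ↔
      ((⟨a.1, hXd _ _ a.2⟩, ⟨b.1, hXd _ _ b.2⟩) : El d × El d) ∈ R := by
    intro a b
    exact mem_code_iff (s := R) (a := ((⟨a.1, hXd _ _ a.2⟩, ⟨b.1, hXd _ _ b.2⟩) : El d × El d))
  let ψ : IFun M (El (X r.succ)) (El (X r)) :=
    ⟨fun a => the (fun b => Mem (op (code a) (code b)) (code (M := M) R)) ⟨z₀, hz₀⟩,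
      IntF.the iR (IntF.const _)⟩
  refine ⟨code ψ, isFun_code ψ (fun z => mem_El) (fun a => (ψ a).2), fun y hy => ?_⟩
  obtain ⟨v', h4, h5⟩ := h3 ⟨y, hXd r y hy⟩ ((hT r _).2 hy)
  have h6 : Mem v'.1 (X r.succ) := (hT _ _).1 h4
  refine ⟨v'.1, app_code.2 ⟨⟨v'.1, h6⟩, rfl, ?_⟩⟩
  have h7 : ψ ⟨v'.1, h6⟩ = ⟨y, hy⟩ := by
    change the (fun b : El (X r) => Mem (op v'.1 b.1) (code (M := M) R)) _ = _
    have h10 := (hR ⟨v'.1, h6⟩ ⟨y, hy⟩).2 h5
    refine the_eq ⟨⟨y, hy⟩, h10, fun b hb => ?_⟩ h10
    have h8 := h1 _ _ _ ((hR ⟨v'.1, h6⟩ b).1 hb) h5
    have h9 : b.1 = y := congrArg Subtype.val h8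
    exact Subtype.ext h9
  rw [h7]
  rfl

end

end Pool.Agent.Y580
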