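import Pool.Agent.Y580.B3
import Pool.Agent.Y580.C3

/-!
# Decreasing sequences in the symmetric extension
-/

set_option maxHeartbeats 400000
set_option linter.all false
set_option synthInstance.maxSize 2000

namespace Pool.Agent.Y580

open FirstOrder FirstOrder.Language
open Pool.Agent.Helper672
open Pool.Agent.Helper672.ZFA
open Pool.Agent.Helper672.ZFA.H635

universe u

variable {M : Type u} [L.Structure M] [hM : IsModel M]

theorem iwo_nat : IWO M (INat M) (fun a b => a < b) := by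
  refine ⟨ZFA.Int.ltN IntF.fst' IntF.snd', fun a b => lt_trichotomy a b, fun s hs => ?_⟩
  obtain ⟨a, ha, h⟩ := INat.exists_least (p := fun a => a ∈ s) s.int_mem hs
  exact ⟨a, ha, fun b hb => not_lt.2 (h b hb)⟩

section

variable {G : Set (Co M)} (hG : IsGen M G)

theorem nat_od (r : INat (NN (SS M) hG)) :
    ∃ k : INat M, r.val = od (SS M) hG (iwo_nat (M := M)) k := by
  have h1 : ZFA.Mem r.val (Od (SS M) hG (iwo_nat (M := M))) := by
    refine r.prop _ ⟨⟨od (SS M) hG (iwo_nat (M := M)) 0, ?_, trivial, fun z hz => ?_⟩,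
      fun n hn => ?_⟩
    · exact (mem_Od hG iwo_nat).2 ⟨0, rfl⟩
    · obtain ⟨b, hb, -⟩ := (mem_od hG iwo_nat).1 hz
      exact INat.not_lt_zero hb
    · obtain ⟨k, rfl⟩ := (mem_Od hG iwo_nat).1 hn
      refine ⟨od (SS M) hG (iwo_nat (M := M)) k.succ, (mem_Od hG iwo_nat).2 ⟨_, rfl⟩, trivial,
        fun z => (mem_od hG iwo_nat).trans ?_⟩
      refine Iff.trans ?_ (or_congr (mem_od hG (iwo_nat (M := M)) (w := z) (a := k)).symm Iff.rfl)
      constructor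
      · rintro ⟨b, hb, rfl⟩
        rcases (INat.lt_succ_iff.1 hb).lt_or_eq with h1 | h1
        · exact Or.inl ⟨b, h1, rfl⟩
        · exact Or.inr (by rw [h1])
      · rintro (⟨b, hb, rfl⟩ | rfl)
        · exact ⟨b, hb.trans (INat.lt_succ_self k), rfl⟩
        · exact ⟨k, INat.lt_succ_self k, rfl⟩
  exact (mem_Od hG iwo_nat).1 h1

include hG in
/-- Separation of two parts of reals by a condition. -/
theorem exists_sepa {s : Co M} (hs : s ∈ G) (k₀ : INat M) {σ σ' : Gm M} {m₁ m₁' : INat M}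
    (h : ¬ (m₁ = m₁' ∧ EqM G m₁ σ σ')) : ∃ s', s' ∈ G ∧ s' ≤ s ∧ k₀ ≤ s'.1.1 ∧
      ∀ k x, s'.1.1 ≤ k → AgL s'.1.1 x s'.1.2 → la σ m₁ k x ≠ la σ' m₁' k x := by
  by_cases hm : m₁ = m₁'
  · subst hm
    have h1 : ∃ g a, g ∈ G ∧ a.2.1 < m₁ ∧ ¬ (a ∈ (σ⁻¹ • g).1.2 ↔ a ∈ (σ'⁻¹ • g).1.2) := by
      by_contra h2
      push Not at h2
      refine h ⟨rfl, fun g hg a ha => ?_⟩
      have := h2 g a hg ha
      tauto
    obtain ⟨g, a, hg, ha, hne⟩ := h1
    have hag : a.1 < g.1.1 := by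
      by_contra h2
      exact hne (iff_of_false (fun h4 => h2 ((σ⁻¹ • g).2 a h4)) fun h4 => h2 ((σ'⁻¹ • g).2 a h4))
    obtain ⟨r, hr, h2, h3⟩ := hG.dir s g hs hg
    obtain ⟨s', hs', h4, h5⟩ := exists_len hG hr (max k₀ (Jt a).succ)
    refine ⟨s', hs', h4.trans h2, (le_max_left _ _).trans h5, fun k x hk hx he => hne ?_⟩
    have h6 : Jt a < k := (INat.lt_succ_self _).trans_le (((le_max_right _ _).trans h5).trans hk)
    have h7 : a.1 < s'.1.1 := hag.trans_le (h4.trans h3).1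
    have h8 := (la_sep he).2 a h6 (h7.trans_le hk) ha
    have h9 : AgL g.1.1 x g.1.2 := (hx.mono (h4.trans h3).1).trans (h4.trans h3).2
    have key : ∀ ρ : Gm M, (a ∈ (ρ • g).1.2 ↔ a ∈ rh ρ x) := fun ρ =>
      (smul_agl ρ g a hag).trans ((rh_lv ρ).2 h9 a hag).symm
    rw [key, key]
    exact h8
  · obtain ⟨s', hs', h4, h5⟩ := exists_len hG hs k₀
    exact ⟨s', hs', h4, h5, fun k x _ _ he => hm (la_sep he).1⟩

variable {lt : Tu M → Tu M → Prop} (hlt : IWO M (Tu M) lt)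

theorem decP (hC : CollL M)
    (hWO : ∀ (δ : Type u) [ITy M δ], ∃ lt : δ → δ → Prop, IWO M δ lt) (d : NN (SS M) hG) :
    DecP (NN (SS M) hG) (El d) := by
  obtain ⟨α, _, E, hE, a₀, l₀, -, rfl⟩ := exists_nm hG d
  intro B hB hd
  obtain ⟨lt0, h0⟩ := hWO (Tu M)
  obtain ⟨lt1, h1⟩ := hWO (α × INat M)
  obtain ⟨lt2, h2⟩ := hWO (α × Co M)
  obtain ⟨lt3, h3⟩ := hWO (α × (INat M × Co M))
  obtain ⟨zF, hzF⟩ := exists_F hG h0 hE h1
  have hlN : IWO M (INat M) (fun a b => a < b) := iwo_nat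
  -- the covering
  let F : El (Od (SS M) hG h1) → El (Us hG h0) → El (nd hG hE a₀) → Prop := fun i u v =>
    ZFA.Mem (ZFA.op (ZFA.op i.1 u.1) v.1) zF
  have hFi : ZFA.Int (NN (SS M) hG) (fun q : (El (Od (SS M) hG h1) × El (Us hG h0)) ×
    El (nd hG hE a₀) => F q.1.1 q.1.2 q.2) := ⟨zF, fun q => Iff.rfl⟩
  have hF : ∀ i u v, F i u v ↔ ∃ c : (α × INat M) × Gm M, Sy (SS M) E c.1.2 c.1.1 ∧
      i.1 = od (SS M) hG h1 c.1 ∧ u.1 = uu hG h0 (c.2, c.1.2) ∧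
      v.1 = nd hG (good_og (Γ := Gm M) hE) (c.2, c.1.1) := by
    intro i u v
    refine (hzF _).trans (exists_congr fun c => and_congr_right fun _ => ⟨fun h => ?_, ?_⟩)
    · obtain ⟨h4, h5⟩ := ZFA.op_inj h
      obtain ⟨h6, h7⟩ := ZFA.op_inj h4
      exact ⟨h6, h7, h5⟩
    · rintro ⟨h4, h5, h6⟩
      rw [h4, h5, h6]
  -- the names
  have hB1 : ∀ (r : INat (NN (SS M) hG)) (v : El (nd hG hE a₀)), ZFA.Mem (ZFA.op r.val v.1)
      (code (M := NN (SS M) hG) (sep (NN (SS M) hG) fun q : INat (NN (SS M) hG) ×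
        El (nd hG hE a₀) => B q.1 q.2)) ↔ B r v := by
    intro r v
    refine Iff.trans (mem_code_iff (M := NN (SS M) hG) (a := (r, v))) ?_
    exact mem_sep hB
  have hF1i : ZFA.Int (NN (SS M) hG) (fun q : El (Od (SS M) hG h1) × El (nd hG hE a₀) =>
      ∃ u, F q.1 u q.2) := by (repeat' (first | with_reducible exact IntF.id | with_reducible exact IntF.fst' | with_reducible exact IntF.snd' | with_reducible exact IntF.const _ | with_reducible exact Int.const _ | assumption | with_reducible apply Int.and | with_reducible apply Int.or | with_reducible apply Int.not | with_reducible apply Int.imp | with_reducible apply Int.iff | with_reducible apply Int.ne | with_reducible apply Int.eq | with_reducible apply Int.mem | with_reducible apply Int.subset | with_reducible apply Int.ltN | with_reducible apply Int.leN | with_reducible_and_instances apply Helper672.ZFA.Int.le | with_reducible_and_instances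 apply Helper672.ZFA.Int.lt | with_reducible apply Int.all | with_reducible apply Int.ex | with_reducible apply IntF.fst | with_reducible apply IntF.snd | with_reducible apply IntF.app | with_reducible apply IntF.inl | with_reducible apply IntF.inr | with_reducible apply Int.fin | with_reducible apply IntF.sep | with_reducible apply IntF.lam | with_reducible apply IntF.insert | with_reducible apply IntF.singleton | with_reducible apply IntF.union | with_reducible apply IntF.iimage | with_reducible apply IntF.ite | with_reducible apply IntF.the | with_reducible apply IntF.irec | with_reducible apply IntF.succ | with_reducible apply IntF.val | (with_reducible refine Int.comp ?_ ?_; assumption) | (with_reducible refine Int.comp₂ ?_ ?_ ?_; assumption) | (with_reducible refine Int.comp₃ ?_ ?_ ?_ ?_; assumption) | (with_reducible refine Int.comp₄ ?_ ?_ ?_ ?_ ?_; assumption) | (with_reducible refine IntF.comp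 ?_ ?_; assumption) | (with_reducible refine IntF.comp₂ ?_ ?_ ?_; assumption) | (with_reducible refine IntF.comp₃ ?_ ?_ ?_ ?_; assumption) | with_reducible apply IntF.mk | with_reducible apply IntF.pair))
  have hltO := (iwo_Od hG hC h1).int
  have hF2i : ZFA.Int (NN (SS M) hG) (fun q : El (Od (SS M) hG h1) × El (nd hG hE a₀) =>
      ∃ i' : El (Od (SS M) hG h1), Plain.Mem i'.1 q.1.1 ∧ ∃ u, F i' u q.2) := by
    refine ZFA.Int.ex (ZFA.Int.and ?_ ?_)
    · exact ZFA.Int.comp₂ (p := fun x y : El (Od (SS M) hG h1) => Plain.Mem x.1 y.1) hltO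
        IntF.snd' (IntF.fst IntF.fst')
    · exact ZFA.Int.comp₂ (p := fun (i : El (Od (SS M) hG h1)) (v : El (nd hG hE a₀)) =>
        ∃ u, F i u v) hF1i IntF.snd' (IntF.snd IntF.fst')
  have hF1 : ∀ (i : El (Od (SS M) hG h1)) (v : El (nd hG hE a₀)), ZFA.Mem (ZFA.op i.1 v.1)
      (code (M := NN (SS M) hG) (sep (NN (SS M) hG) fun q : El (Od (SS M) hG h1) ×
        El (nd hG hE a₀) => ∃ u, F q.1 u q.2)) ↔ ∃ u, F i u v := by
    intro i v
    refine Iff.trans (mem_code_iff (M := NN (SS M) hG) (a := (i, v))) ?_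
    exact mem_sep hF1i
  have hF2 : ∀ (i : El (Od (SS M) hG h1)) (v : El (nd hG hE a₀)), ZFA.Mem (ZFA.op i.1 v.1)
      (code (M := NN (SS M) hG) (sep (NN (SS M) hG) fun q : El (Od (SS M) hG h1) ×
        El (nd hG hE a₀) => ∃ i' : El (Od (SS M) hG h1), Plain.Mem i'.1 q.1.1 ∧
          ∃ u, F i' u q.2)) ↔
        ∃ i' : El (Od (SS M) hG h1), Plain.Mem i'.1 i.1 ∧ ∃ u, F i' u v := by
    intro i v
    refine Iff.trans (mem_code_iff (M := NN (SS M) hG) (a := (i, v))) ?_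
    exact mem_sep hF2i
  have hBd : ∀ z w, ZFA.Mem (ZFA.op z w)
      (code (M := NN (SS M) hG) (sep (NN (SS M) hG) fun q : INat (NN (SS M) hG) ×
        El (nd hG hE a₀) => B q.1 q.2)) → Plain.Mem w (nd hG hE a₀) := by
    intro z w h
    obtain ⟨q, -, hq⟩ := (mem_code_pow (M := NN (SS M) hG)).1 h
    have h4 := (ZFA.op_inj (hq : ZFA.op q.1.val q.2.1 = ZFA.op z w)).2
    rw [← h4]
    exact q.2.2
  generalize code (M := NN (SS M) hG) (sep (NN (SS M) hG) fun q : INat (NN (SS M) hG) ×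
    El (nd hG hE a₀) => B q.1 q.2) = Bv at hB1 hBd
  generalize code (M := NN (SS M) hG) (sep (NN (SS M) hG) fun q : El (Od (SS M) hG h1) ×
    El (nd hG hE a₀) => ∃ u, F q.1 u q.2) = F1 at hF1
  generalize code (M := NN (SS M) hG) (sep (NN (SS M) hG) fun q : El (Od (SS M) hG h1) ×
    El (nd hG hE a₀) => ∃ i' : El (Od (SS M) hG h1), Plain.Mem i'.1 q.1.1 ∧
      ∃ u, F i' u q.2) = F2 at hF2
  obtain ⟨_, _, EB, hEB, yB, lB, hyB, rfl⟩ := exists_nm hG Bv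
  obtain ⟨_, _, E1, hE1, y1, l1, hy1, rfl⟩ := exists_nm hG F1
  obtain ⟨_, _, E2, hE2, y2, l2, hy2, rfl⟩ := exists_nm hG F2
  obtain ⟨n, hnB, hn1, hn2⟩ : ∃ n, lB ≤ n ∧ l1 ≤ n ∧ l2 ≤ n :=
    ⟨max lB (max l1 l2), le_max_left _ _, (le_max_left _ _).trans (le_max_right _ _),
      (le_max_right _ _).trans (le_max_right _ _)⟩
  replace hyB := sy_mono hnB hyB
  replace hy1 := sy_mono hn1 hy1
  replace hy2 := sy_mono hn2 hy2
  obtain ⟨_, _, EW, hEW, yW, hyW, hzW⟩ := exists_W hG hE n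
  obtain ⟨zO, hzO⟩ := exists_Om hG hE n h2
  obtain ⟨zP, hzP⟩ := exists_Ph hG h0 hE n h3
  -- the elements determined by conditions
  let W : El (Od (SS M) hG h2) → El (nd hG hE a₀) → Prop := fun j v =>
    ZFA.Mem (ZFA.op j.1 v.1) zO
  have hWi : ZFA.Int (NN (SS M) hG) (fun q : El (Od (SS M) hG h2) × El (nd hG hE a₀) =>
    W q.1 q.2) := ⟨zO, fun q => Iff.rfl⟩
  have hW : ∀ j v, W j v ↔ ∃ c : (α × Co M) × Gm M, (SS M).U n c.2 ∧ Sg E n c.1.1 c.1.2 ∧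
      c.2 • c.1.2 ∈ G ∧ j.1 = od (SS M) hG h2 c.1 ∧
      v.1 = nd hG (good_og (Γ := Gm M) hE) (c.2, c.1.1) := by
    intro i v
    refine (hzO _).trans (exists_congr fun c => and_congr_right fun _ =>
      and_congr_right fun _ => and_congr_right fun _ => ⟨fun h => ?_, ?_⟩)
    · exact ZFA.op_inj h
    · rintro ⟨h4, h5⟩
      rw [h4, h5]
  have hWW : ∀ v : El (nd hG hE a₀), (∃ j, W j v) ↔ Plain.Mem v.1 (nd hG hEW yW) := by
    intro v
    rw [hzW]
    constructor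
    · rintro ⟨j, hj⟩
      obtain ⟨c, h4, h5, h6, -, h7⟩ := (hW j v).1 hj
      refine ⟨(c.2, c.1.1), _, h6, ⟨h4, ?_⟩, h7⟩
      rw [inv_smul_smul]
      exact h5
    · rintro ⟨c, p, hp, ⟨h4, h5⟩, h6⟩
      refine ⟨⟨od (SS M) hG h2 (c.2, c.1⁻¹ • p), (mem_Od hG h2).2 ⟨_, rfl⟩⟩,
        (hW _ _).2 ⟨((c.2, c.1⁻¹ • p), c.1), h4, h5, ?_, rfl, h6⟩⟩
      rw [smul_inv_smul]
      exact hp
  -- the injections
  let Φ : El (Od (SS M) hG h3) → El (Us hG h0) → El (nd hG hE a₀) → Prop := fun i u v =>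
    ZFA.Mem (ZFA.op (ZFA.op i.1 u.1) v.1) zP
  have hΦi : ZFA.Int (NN (SS M) hG) (fun q : (El (Od (SS M) hG h3) × El (Us hG h0)) ×
    El (nd hG hE a₀) => Φ q.1.1 q.1.2 q.2) := ⟨zP, fun q => Iff.rfl⟩
  have hΦ : ∀ i u v, Φ i u v ↔ ∃ c : Ez (M := M) α, ∃ r : Co M, r ∈ G ∧
      (Sy (SS M) E c.1.2.1 c.1.1 ∧ Zp n c.1.2.1 c.1.2.2 c.2.1.1 c.2.1.2 c.2.2 r) ∧
      i.1 = od (SS M) hG h3 c.1 ∧ u.1 = uu hG h0 c.2.1 ∧
      v.1 = nd hG (good_og (Γ := Gm M) hE) (c.2.2, c.1.1) := by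
    intro i u v
    refine (hzP _).trans (exists_congr fun c => exists_congr fun r => and_congr_right fun _ =>
      and_congr_right fun _ => ⟨fun h => ?_, ?_⟩)
    · obtain ⟨h4, h5⟩ := ZFA.op_inj h
      obtain ⟨h6, h7⟩ := ZFA.op_inj h4
      exact ⟨h6, h7, h5⟩
    · rintro ⟨h4, h5, h6⟩
      rw [h4, h5, h6]
  refine exists_step (M := NN (SS M) hG) (iwo_Od hG hC h1) (iwo_Od hG hC h3)
    (iwo_Od hG hC h2) hB hd (F := F) hFi ?_ ?_ (W := W) hWi ?_ (Φ := Φ) hΦi ?_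
  · intro i u v v' h4 h5
    obtain ⟨c, a1, a2, a3, a4⟩ := (hF _ _ _).1 h4
    obtain ⟨c', b1, b2, b3, b4⟩ := (hF _ _ _).1 h5
    have h6 : c.1 = c'.1 := od_inj hG h1 hC (a2.symm.trans b2)
    have h7 := (uu_eq hG h0 hC).1 (a3.symm.trans b3)
    refine Subtype.ext ?_
    rw [a4, b4, ← h6]
    exact nd_LL hG hE a1 h7.2
  · intro v _
    obtain ⟨b, _, _, _, hb⟩ := (mem_nd hG hE).1 v.2
    obtain ⟨m, hm⟩ := hE.sym b
    refine ⟨⟨od (SS M) hG h1 (b, m), (mem_Od hG h1).2 ⟨_, rfl⟩⟩,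
      ⟨uu hG h0 (1, m), (mem_Us hG h0).2 ⟨_, rfl⟩⟩, (hF _ _ _).2 ⟨((b, m), 1), hm, rfl, rfl, ?_⟩⟩
    rw [hb]
    exact (nd_og_one hG hE b).symm
  · intro j v v' h4 h5
    obtain ⟨c, a1, a2, a3, a4, a5⟩ := (hW _ _).1 h4
    obtain ⟨c', b1, b2, b3, b4, b5⟩ := (hW _ _).1 h5
    have h6 : c.1 = c'.1 := od_inj hG h2 hC (a4.symm.trans b4)
    refine Subtype.ext ?_
    rw [a5, b5, ← h6]
    rw [← h6] at b3
    obtain ⟨r, hr, h7, h8⟩ := hG.dir _ _ a3 b3
    exact (nd_eq hG _ _).2 ⟨r, hr, a2 _ _ a1 b1 r h7 h8⟩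
  · intro r i v hv hnW hrk
    obtain ⟨b, _, _, _, hb⟩ := (mem_nd hG hE).1 v.2
    obtain ⟨mb, hmb⟩ := hE.sym b
    obtain ⟨m, hnm, hbm⟩ : ∃ m, n ≤ m ∧ mb ≤ m := ⟨max n mb, le_max_left _ _, le_max_right _ _⟩
    replace hmb := sy_mono hbm hmb
    have hv1 : v.1 = nd hG (good_og (Γ := Gm M) hE) (1, b) :=
      hb.trans (nd_og_one hG hE b).symm
    obtain ⟨i₀, hi₀⟩ := (mem_Od hG h1).1 i.2
    obtain ⟨k, hk⟩ := nat_od hG r
    let act0 : Gm M → Gm M × α → Gm M × α := fun σ q => (σ * q.1, q.2)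
    have hact : ∀ π b, act0 π⁻¹ (act0 π b) = b := fun π b => by
      change (π⁻¹ * (π * b.1), b.2) = b
      rw [inv_mul_cancel_left]
    have f0 : EqFam hG act0 (fun q => nd hG (good_og (Γ := Gm M) hE) q) := og_fam hG hE
    have f1 : EqFam hG act0 (fun q => ZFA.op (od (SS M) hG hlN k)
        (nd hG (good_og (Γ := Gm M) hE) q)) :=
      ((od_fam hG hlN).comp (φ := fun _ : Gm M × α => k) (IntF.const _)
        fun _ _ => rfl).op hact f0
    have f2 : EqFam hG act0 (fun q => ZFA.op (od (SS M) hG h1 i₀)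
        (nd hG (good_og (Γ := Gm M) hE) q)) :=
      ((od_fam hG h1).comp (φ := fun _ : Gm M × α => i₀) (IntF.const _)
        fun _ _ => rfl).op hact f0
    obtain ⟨p1, hp1, q1⟩ := hplus hG f1 hEB hyB (c := ((1, b) : Gm M × α)) (by
      have h4 := (hB1 r v).2 hv
      rw [hk, hv1] at h4
      exact h4)
    obtain ⟨p2, hp2, q2⟩ := hminus hG f0 hEW hyW (c := ((1, b) : Gm M × α)) (by
      intro h4
      rw [← hv1, ← hWW] at h4
      obtain ⟨j, hj⟩ := h4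
      exact hnW j hj)
    obtain ⟨p3, hp3, q3⟩ := hplus hG f2 hE1 hy1 (c := ((1, b) : Gm M × α)) (by
      have h4 := (hF1 i v).2 hrk.1
      rw [hi₀, hv1] at h4
      exact h4)
    obtain ⟨p4, hp4, q4⟩ := hminus hG f2 hE2 hy2 (c := ((1, b) : Gm M × α)) (by
      intro h4
      have h5 : ZFA.Mem (ZFA.op i.1 v.1) (nd hG hE2 y2) := by
        rw [hi₀, hv1]
        exact h4
      obtain ⟨i', h6, h7⟩ := (hF2 i v).1 h5
      exact hrk.2 i' h7 h6)
    obtain ⟨p, hp, hp1', hp2', hp3', hp4'⟩ : ∃ p, p ∈ G ∧ p ≤ p1 ∧ p ≤ p2 ∧ p ≤ p3 ∧ p ≤ p4 := by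
      obtain ⟨r1, hr1, c1, c2⟩ := hG.dir p1 p2 hp1 hp2
      obtain ⟨r2, hr2, c3, c4⟩ := hG.dir p3 p4 hp3 hp4
      obtain ⟨r3, hr3, c5, c6⟩ := hG.dir r1 r2 hr1 hr2
      exact ⟨r3, hr3, c5.trans c1, c5.trans c2, c6.trans c3, c6.trans c4⟩
    have key : ∀ τ, (SS M).U n τ → τ • p ∈ G →
        ∃ hv' : Plain.Mem (nd hG (good_og (Γ := Gm M) hE) (τ, b)) (nd hG hE a₀),
          B r ⟨_, hv'⟩ ∧ (∀ j, ¬ W j ⟨_, hv'⟩) ∧
            Rk (fun x y : El (Od (SS M) hG h1) => Plain.Mem x.1 y.1) F ⟨_, hv'⟩ i := by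
      intro τ hτ hτp
      have e1 := q1 τ hτ (hG.up _ _ hτp (smul_le_smul' τ hp1'))
      have e2 := q2 τ hτ (hG.up _ _ hτp (smul_le_smul' τ hp2'))
      have e3 := q3 τ hτ (hG.up _ _ hτp (smul_le_smul' τ hp3'))
      have e4 := q4 τ hτ (hG.up _ _ hτp (smul_le_smul' τ hp4'))
      have e0 : act0 τ (1, b) = (τ, b) := by
        change (τ * 1, b) = (τ, b)
        rw [mul_one]
      rw [e0] at e1 e2 e3 e4
      have hv' := hBd _ _ e1
      refine ⟨hv', ?_, ?_, ?_, ?_⟩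
      · rw [← hB1, hk]
        exact e1
      · intro j hj
        exact e2 ((hWW ⟨_, hv'⟩).1 ⟨j, hj⟩)
      · rw [← hF1, hi₀]
        exact e3
      · intro i' h6 h7
        refine e4 ?_
        rw [← hi₀]
        exact (hF2 i ⟨_, hv'⟩).2 ⟨i', h7, h6⟩
    have hphi : ∀ u v', Φ ⟨od (SS M) hG h3 (b, (m, p)), (mem_Od hG h3).2 ⟨_, rfl⟩⟩ u v' →
        ∃ σ m₁ π, u.1 = uu hG h0 (σ, m₁) ∧ IsPz n m p.1.1 σ m₁ π ∧
          v'.1 = nd hG (good_og (Γ := Gm M) hE) (π, b) := by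
      intro u v' h4
      obtain ⟨⟨⟨b', m', p'⟩, ⟨σ, m₁⟩, π₀⟩, r', hr', ⟨h5, h6⟩, h7, h8, h9⟩ := (hΦ _ _ _).1 h4
      dsimp only at h5 h6 h7 h8 h9
      have h10 := od_inj hG h3 hC h7
      obtain ⟨rfl, h11⟩ := Prod.mk.inj h10
      obtain ⟨rfl, rfl⟩ := Prod.mk.inj h11
      obtain rfl := gen_unique hG hr' hp h6.1
      obtain ⟨π, hπ⟩ := exists_pz hnm r'.1.1 σ m₁
      refine ⟨σ, m₁, π, h8, hπ, ?_⟩
      rw [h9]
      exact nd_LL hG hE h5 (Zp_eqM hG hp h6 (Zp_of_pz hπ))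
    refine ⟨⟨od (SS M) hG h3 (b, (m, p)), (mem_Od hG h3).2 ⟨_, rfl⟩⟩, ?_, ?_, ?_⟩
    · intro u
      obtain ⟨⟨σ, m₁⟩, hu⟩ := (mem_Us hG h0).1 u.2
      obtain ⟨π, hπ⟩ := exists_pz hnm p.1.1 σ m₁
      obtain ⟨hv', -⟩ := key π hπ.U (by rw [pz_smul hπ]; exact hp)
      exact ⟨⟨_, hv'⟩, (hΦ _ _ _).2 ⟨((b, (m, p)), ((σ, m₁), π)), p, hp,
        ⟨hmb, Zp_of_pz hπ⟩, rfl, hu, rfl⟩⟩
    · intro u u' v' h4 h5
      obtain ⟨σ, m₁, π, h6, h7, h8⟩ := hphi u v' h4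
      obtain ⟨σ', m₁', π', h6', h7', h8'⟩ := hphi u' v' h5
      by_contra hne
      have hne' : ¬ (m₁ = m₁' ∧ EqM G m₁ σ σ') := by
        intro h9
        refine hne (Subtype.ext ?_)
        rw [h6, h6']
        exact (uu_eq hG h0 hC).2 h9
      obtain ⟨s, hs, h9⟩ := (nd_eq hG _ _).1 (h8.symm.trans h8')
      obtain ⟨s', hs', h10, h11, h12⟩ := exists_sepa hG hs p.1.1 hne'
      have h13 := Sg_of_eq hE hnm h7 h7' hmb h11 (h9.mono h10) h12
      obtain ⟨hv', -, h14, -⟩ := key π h7.U (by rw [pz_smul h7]; exact hp)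
      obtain ⟨j, hj⟩ := (hWW ⟨_, hv'⟩).2 ((hzW _).2 ⟨(π, b), s', hs', ⟨h7.U, h13⟩, rfl⟩)
      exact h14 j hj
    · intro u v' h4
      obtain ⟨σ, m₁, π, h6, h7, h8⟩ := hphi u v' h4
      obtain ⟨hv', h9, h10, h11⟩ := key π h7.U (by rw [pz_smul h7]; exact hp)
      have h12 : v' = ⟨_, hv'⟩ := Subtype.ext h8
      rw [h12]
      exact ⟨h9, h10, h11⟩

end

end Pool.Agent.Y580
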