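import Pool.Agent.Y580.B4
import Pool.Agent.H635R2.Ext

/-!
# The axiom of choice fails in the symmetric extension
-/

set_option maxHeartbeats 400000
set_option linter.all false
set_option synthInstance.maxSize 2000

namespace Pool.Agent.Y580

open FirstOrder FirstOrder.Language
open Pool.Agent.Helper672
open Pool.Agent.Helper672.ZFA
open Pool.Agent.Helper672.ZFA.H635
open Pool.Agent.Y580S (WFis4)

universe u

section

attribute [local instance] Helper672.Plain.toL

variable {M : Type u} [Helper672.Plain.LSet.Structure M] [hZ : Helper672.Plain.Zermelo M]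

local instance instModelY5 : IsModel M := Helper672.Plain.isModel_toL

open Pool.Agent.H310 Pool.Agent.H310Cards

theorem choice_of (hAC : Y580S.AC M) (U : M) : ∃ f : M, ∀ Y : M, (∀ z, Plain.Mem z Y → Plain.Mem z U) →
    (∃ z, Plain.Mem z Y) → ∃ z, Plain.Mem z Y ∧ ZFA.Mem (ZFA.op Y z) f ∧
      ∀ z', ZFA.Mem (ZFA.op Y z') f → z' = z := by
  have hi : ZFA.Int M (fun Y : IPow M (El U) => ∃ a, a ∈ Y) := by (repeat' (first | with_reducible exact IntF.id | with_reducible exact IntF.fst' | with_reducible exact IntF.snd' | with_reducible exact IntF.const _ | with_reducible exact Int.const _ | assumption | with_reducible apply Int.and | with_reducible apply Int.or | with_reducible apply Int.not | with_reducible apply Int.imp | with_reducible apply Int.iff | with_reducible apply Int.ne | with_reducible apply Int.eq | with_reducible apply Int.mem | with_reducible apply Int.subset | with_reducible apply Int.ltN | with_reducible apply Int.leN | with_reducible_and_instances apply Helper672.ZFA.Int.le | with_reducible_and_instances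 apply Helper672.ZFA.Int.lt | with_reducible apply Int.all | with_reducible apply Int.ex | with_reducible apply IntF.fst | with_reducible apply IntF.snd | with_reducible apply IntF.app | with_reducible apply IntF.inl | with_reducible apply IntF.inr | with_reducible apply Int.fin | with_reducible apply IntF.sep | with_reducible apply IntF.lam | with_reducible apply IntF.insert | with_reducible apply IntF.singleton | with_reducible apply IntF.union | with_reducible apply IntF.iimage | with_reducible apply IntF.ite | with_reducible apply IntF.the | with_reducible apply IntF.irec | with_reducible apply IntF.succ | with_reducible apply IntF.val | (with_reducible refine Int.comp ?_ ?_; assumption) | (with_reducible refine Int.comp₂ ?_ ?_ ?_; assumption) | (with_reducible refine Int.comp₃ ?_ ?_ ?_ ?_; assumption) | (with_reducible refine Int.comp₄ ?_ ?_ ?_ ?_ ?_; assumption) | (with_reducible refine IntF.comp ?_ ?_; assumption) | (with_reducible refine IntF.comp₂ ?_ ?_ ?_; assumption) | (with_reducible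 refine IntF.comp₃ ?_ ?_ ?_ ?_; assumption) | with_reducible apply IntF.mk | with_reducible apply IntF.pair))
  have hx : ∀ y, Plain.Mem y (code (M := M) (sep M fun Y : IPow M (El U) => ∃ a, a ∈ Y)) ↔
      ∃ Y : IPow M (El U), (∃ a, a ∈ Y) ∧ code Y = y := by
    intro y
    refine mem_codeU.trans (exists_congr fun Y => and_congr_left fun _ => ?_)
    exact mem_sep hi
  obtain ⟨u, f, hf, hf2⟩ := hAC (code (M := M) (sep M fun Y : IPow M (El U) => ∃ a, a ∈ Y))
    (fun y hy => by
      obtain ⟨Y, ⟨a, ha⟩, rfl⟩ := (hx y).1 hy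
      exact ⟨code a, mem_codeU.2 ⟨a, ha, rfl⟩⟩)
  refine ⟨f, fun Y hY hne => ?_⟩
  obtain ⟨Yp, rfl⟩ := exists_code_of (α := El U) (u := Y) fun z hz => ⟨⟨z, hY z hz⟩, rfl⟩
  obtain ⟨z, hz⟩ := hne
  obtain ⟨a, ha, rfl⟩ := mem_codeU.1 hz
  obtain ⟨z, hz1, hz2⟩ := hf.2 (code Yp) ((hx _).2 ⟨Yp, ⟨a, ha⟩, rfl⟩)
  exact ⟨z, hf2 _ _ hz1, app_iff.1 hz1, fun z' hz' => hz2 z' (app_iff.2 hz')⟩

end

variable {M : Type u} [L.Structure M] [hM : IsModel M]

section

variable {G : Set (Co M)} (hG : IsGen M G)
variable {lt : Tu M → Tu M → Prop} (hlt : IWO M (Tu M) lt)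

theorem not_choice (hC : CollL M) (f : NN (SS M) hG) : ¬ ∀ Y : NN (SS M) hG,
    (∀ z, Plain.Mem z Y → Plain.Mem z (Us hG hlt)) → (∃ z, Plain.Mem z Y) →
      ∃ z, Plain.Mem z Y ∧ ZFA.Mem (ZFA.op Y z) f ∧ ∀ z', ZFA.Mem (ZFA.op Y z') f → z' = z := by
  intro hf
  obtain ⟨_, _, Ef, hEf, yf, n, hyf, rfl⟩ := exists_nm hG f
  have hU := (SS M).int_U
  obtain ⟨β, _, E', h', y, hy, hY⟩ := exists_setC hG (uu_fam hG hlt)
    (Z := fun (c : Gm M × INat M) (p : Co M) => c.2 = n.succ ∧ (SS M).U n c.1) (by
      refine ZFA.Int.and ?_ ?_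
      · exact ZFA.Int.eq (IntF.snd IntF.fst') (IntF.const _)
      · exact ZFA.Int.comp₂ (p := fun l a => (SS M).U l a) hU (IntF.const n)
          (IntF.fst IntF.fst')) n
    (fun π hπ c p h => ⟨h.1, (SS M).mul _ _ _ hπ h.2⟩)
  obtain ⟨p₀, hp₀⟩ := hG.ne
  obtain ⟨z, h1, h2, h3⟩ := hf (nd hG h' y) (fun z hz => by
      obtain ⟨c, _, _, _, rfl⟩ := (hY z).1 hz
      exact (mem_Us hG hlt).2 ⟨c, rfl⟩)
    ⟨uu hG hlt (1, n.succ), (hY _).2 ⟨(1, n.succ), p₀, hp₀, ⟨rfl, (SS M).one n⟩, rfl⟩⟩
  obtain ⟨⟨π, m⟩, _, _, ⟨hm, hπ⟩, rfl⟩ := (hY z).1 h1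
  dsimp only at hm hπ
  subst hm
  let act : Gm M → Gm M × (Gm M × INat M) → Gm M × (Gm M × INat M) := fun σ c =>
    (σ * c.1, (σ * c.2.1, c.2.2))
  have hact : ∀ π b, act π⁻¹ (act π b) = b := fun π b => by
    change (π⁻¹ * (π * b.1), (π⁻¹ * (π * b.2.1), b.2.2)) = b
    rw [inv_mul_cancel_left, inv_mul_cancel_left]
  have f1 : EqFam hG act (fun c => nd hG (good_og (Γ := Gm M) h') (c.1, y)) :=
    (og_fam hG h').comp (φ := fun c : Gm M × (Gm M × INat M) => (c.1, y))
      (IntF.pair IntF.fst' (IntF.const _)) fun _ _ => rfl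
  have f2 : EqFam hG act (fun c => uu hG hlt c.2) :=
    (uu_fam hG hlt).comp (φ := fun c : Gm M × (Gm M × INat M) => c.2) IntF.snd' fun _ _ => rfl
  obtain ⟨p, hp, h4⟩ := hplus hG (f1.op hact f2) hEf hyf (c := (1, (π, n.succ))) (by
    change Plain.Mem (ZFA.op (nd hG (good_og (Γ := Gm M) h') (1, y)) (uu hG hlt (π, n.succ)))
      (nd hG hEf yf)
    rw [nd_og_one hG h' y]
    exact h2)
  -- the translation
  have hd : ∀ a : Ps M, a ∈ sep M (fun a : Ps M => a = (p.1.1, (n, 0))) ↔
      a = (p.1.1, (n, 0)) := fun a => mem_sep (p := fun a : Ps M => a = (p.1.1, (n, 0))) (by (repeat' (first | with_reducible exact IntF.id | with_reducible exact IntF.fst' | with_reducible exact IntF.snd' | with_reducible exact IntF.const _ | with_reducible exact Int.const _ | assumption | with_reducible apply Int.and | with_reducible apply Int.or | with_reducible apply Int.not | with_reducible apply Int.imp | with_reducible apply Int.iff | with_reducible apply Int.ne | with_reducible apply Int.eq | with_reducible apply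 Int.mem | with_reducible apply Int.subset | with_reducible apply Int.ltN | with_reducible apply Int.leN | with_reducible_and_instances apply Helper672.ZFA.Int.le | with_reducible_and_instances apply Helper672.ZFA.Int.lt | with_reducible apply Int.all | with_reducible apply Int.ex | with_reducible apply IntF.fst | with_reducible apply IntF.snd | with_reducible apply IntF.app | with_reducible apply IntF.inl | with_reducible apply IntF.inr | with_reducible apply Int.fin | with_reducible apply IntF.sep | with_reducible apply IntF.lam | with_reducible apply IntF.insert | with_reducible apply IntF.singleton | with_reducible apply IntF.union | with_reducible apply IntF.iimage | with_reducible apply IntF.ite | with_reducible apply IntF.the | with_reducible apply IntF.irec | with_reducible apply IntF.succ | with_reducible apply IntF.val | (with_reducible refine Int.comp ?_ ?_; assumption) | (with_reducible refine Int.comp₂ ?_ ?_ ?_; assumption) | (with_reducible refine Int.comp₃ ?_ ?_ ?_ ?_; assumption)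 | (with_reducible refine Int.comp₄ ?_ ?_ ?_ ?_ ?_; assumption) | (with_reducible refine IntF.comp ?_ ?_; assumption) | (with_reducible refine IntF.comp₂ ?_ ?_ ?_; assumption) | (with_reducible refine IntF.comp₃ ?_ ?_ ?_ ?_; assumption) | with_reducible apply IntF.mk | with_reducible apply IntF.pair)))
  obtain ⟨τ₀, -, h5, h6⟩ := exists_tr (m := n.succ)
    (d := sep M fun a : Ps M => a = (p.1.1, (n, 0))) (fun a ha => by
      rw [(hd a).1 ha]
      exact INat.lt_succ_self n)
  have h7 : (SS M).U n τ₀ := by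
    intro x a ha
    rw [h5, mem_xd, hd]
    have h8 : ¬ a = (p.1.1, (n, 0)) := by
      rintro rfl
      exact lt_irrefl n ha
    tauto
  have hπi : (SS M).U n π⁻¹ := (SS M).inv _ _ hπ
  have h8 : (SS M).U n (π * τ₀ * π⁻¹) := (SS M).mul _ _ _ ((SS M).mul _ _ _ hπ h7) hπi
  have h9 : (π * τ₀ * π⁻¹) • p = p := by
    rw [smul_def']
    conv_rhs => rw [← co_self p]
    refine co_eq.2 ?_
    rw [rh_mul, rh_mul]
    have h10 : AgL p.1.1 (rh τ₀ (rh π⁻¹ p.1.2)) (rh π⁻¹ p.1.2) := by
      intro a ha
      rw [h5, mem_xd, hd]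
      have h11 : ¬ a = (p.1.1, (n, 0)) := by
        rintro rfl
        exact lt_irrefl _ ha
      tauto
    have h11 := (rh_lv π).2 h10
    rwa [rh_rh_inv] at h11
  have h10 := h4 _ h8 (by rw [h9]; exact hp)
  change Plain.Mem (ZFA.op (nd hG (good_og (Γ := Gm M) h') (π * τ₀ * π⁻¹ * 1, y))
    (uu hG hlt (π * τ₀ * π⁻¹ * π, n.succ))) (nd hG hEf yf) at h10
  rw [nd_og_eq hG h' hy (l' := n) (π := 1) (fun a ha => by simpa using ha) h8,
    nd_og_one hG h' y, inv_mul_cancel_right] at h10
  have h11 := ((uu_eq hG hlt hC).1 (h3 _ h10)).2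
  obtain ⟨g, hg, -, h12⟩ := exists_len hG hp p.1.1.succ
  have h13 := h11 g hg (p.1.1, (n, 0)) (INat.lt_succ_self n)
  have h14 : p.1.1 < g.1.1 := INat.succ_le_iff.1 h12
  have e1 : ((p.1.1, (n, 0)) : Ps M) ∈ ((π * τ₀)⁻¹ • g).1.2 ↔
      ((p.1.1, (n, 0)) : Ps M) ∈ rh (π * τ₀)⁻¹ g.1.2 := smul_agl _ _ _ h14
  have e2 : ((p.1.1, (n, 0)) : Ps M) ∈ (π⁻¹ • g).1.2 ↔
      ((p.1.1, (n, 0)) : Ps M) ∈ rh π⁻¹ g.1.2 := smul_agl _ _ _ h14
  rw [e1, e2, mul_inv_rev, rh_mul, h6, mem_xd, hd] at h13
  have h15 : ((p.1.1, (n, 0)) : Ps M) = (p.1.1, (n, 0)) := rfl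
  tauto

include hlt in
theorem not_ac (hC : CollL M) : ¬ Y580S.AC (NN (SS M) hG) := by
  intro hAC
  haveI := nn_zermelo (S := SS M) hG
  obtain ⟨f, hf⟩ := choice_of hAC (Us hG hlt)
  exact not_choice hG hlt hC f hf

theorem wfis4_NN (hC : CollL M)
    (hWO : ∀ (δ : Type u) [ITy M δ], ∃ lt : δ → δ → Prop, IWO M δ lt) :
    WFis4 (NN (SS M) hG) := by
  haveI := nn_zermelo (S := SS M) hG
  exact wfis4_of (fun b => (nn_zermelo (S := SS M) hG).union b) fun d => decP hG hC hWO d

end

end Pool.Agent.Y580
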