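import Pool.Agent.Y580.B5

/-!
# A model of ZF with the well-foundedness principle and without choice
-/

set_option maxHeartbeats 400000
set_option linter.all false
set_option synthInstance.maxSize 2000

namespace Pool.Agent.Y580

open FirstOrder FirstOrder.Language
open Pool.Agent.Helper672.ZFA
open Pool.Agent.Helper672.ZFA.H635 (IPerm IsGen NN EqFam CollL IWO nn_zf isModel_of_zermelo
  coll_of_zf exists_countable_sub toL)
open Pool.Agent.Helper672.Plain (LSet)
open Pool.Agent.H635Amen (ZF)
open Pool.Agent.H310NAS (WO)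
open Pool.Agent.Y580S (WFis4)

universe u

theorem exists_model' (M : Type u) [L.Structure M] [IsModel M] [Countable M] (hC : CollL M)
    (hWO : ∀ x : M, ∃ lt : El x → El x → Prop, IWO M (El x) lt) :
    ∃ (N : Type u) (_ : LSet.Structure N), ZF N ∧ WFis4 N ∧ ¬ Y580S.AC N := by
  have hWO' : ∀ (δ : Type u) [ITy M δ], ∃ lt : δ → δ → Prop, IWO M δ lt :=
    fun δ _ => Pool.Agent.H310.NA.exists_iwo hWO δ
  obtain ⟨G, hG⟩ := H635.exists_gen (M := M) (co (0 : INat M) (sep M fun _ => False))
  obtain ⟨lt, hlt⟩ := hWO' (Tu M)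
  exact ⟨NN (SS M) hG, inferInstance, nn_zf hG hC, wfis4_NN hG hC hWO', not_ac hG hlt hC⟩

section

attribute [local instance] toL

theorem exists_model_c (M : Type u) [LSet.Structure M] [Countable M] (h : ZF M) (hW : WO M) :
    ∃ (N : Type u) (_ : LSet.Structure N), ZF N ∧ WFis4 N ∧ ¬ Y580S.AC N := by
  have hM : IsModel M := isModel_of_zermelo h.toZermelo
  exact exists_model' M (coll_of_zf h) (Pool.Agent.H310.NA.iwo_of hW)

end

/-- The theorem for all models of ZF with a well-order on every set. -/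
theorem exists_model (M : Type u) [LSet.Structure M] (h : ZF M) (hW : WO M) :
    ∃ (N : Type u) (_ : LSet.Structure N), ZF N ∧ WFis4 N ∧ ¬ Y580S.AC N := by
  obtain ⟨M₀, h1, h2⟩ := exists_countable_sub M h
  exact exists_model_c M₀ h2 (Pool.Agent.H310.NA.wo_substructure M₀ hW)

/-- There is a model. -/
theorem exists_model_zs :
    ∃ (N : Type 1) (_ : LSet.Structure N), ZF N ∧ WFis4 N ∧ ¬ Y580S.AC N :=
  letI := Pool.Agent.H310.NA.zs.{0}
  exists_model ZFSet.{0} Pool.Agent.H310.NA.zf_zs Pool.Agent.H310.NA.wo_zs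

end Pool.Agent.Y580
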