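import Pool.Agent.H310R3.NA12

/-!
# Decreasing sequences of subsets of a well-ordered type
-/

set_option maxHeartbeats 400000
set_option linter.all false
set_option synthInstance.maxSize 2000

namespace Pool.Agent.Y580

open FirstOrder FirstOrder.Language
open Pool.Agent.Helper672.ZFA
open Pool.Agent.Helper672.ZFA.H635 (IWO)

universe u

section

variable {M : Type u} [L.Structure M] [hM : IsModel M]
variable {δ : Type u} [ITy M δ] {lt : δ → δ → Prop} (h : IWO M δ lt)

include h in
theorem iwo_least {p : δ → Prop} (hp : Int M p) (hne : ∃ a, p a) :
    ∃ a, p a ∧ ∀ b, p b → ¬ lt b a := by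
  obtain ⟨a, ha⟩ := hne
  obtain ⟨b, hb, h1⟩ := h.wf (sep M p) ⟨a, (mem_sep hp).2 ha⟩
  exact ⟨b, (mem_sep hp).1 hb, fun c hc => h1 c ((mem_sep hp).2 hc)⟩

include h in
theorem iwo_irrefl (a : δ) : ¬ lt a a := by
  obtain ⟨b, hb, h1⟩ := iwo_least h (p := fun x => x = a) (by (repeat' (first | with_reducible exact IntF.id | with_reducible exact IntF.fst' | with_reducible exact IntF.snd' | with_reducible exact IntF.const _ | with_reducible exact Int.const _ | assumption | with_reducible apply Int.and | with_reducible apply Int.or | with_reducible apply Int.not | with_reducible apply Int.imp | with_reducible apply Int.iff | with_reducible apply Int.ne | with_reducible apply Int.eq | with_reducible apply Int.mem | with_reducible apply Int.subset | with_reducible apply Int.ltN | with_reducible apply Int.leN | with_reducible_and_instances apply Helper672.ZFA.Int.le | with_reducible_and_instances apply Helper672.ZFA.Int.lt | with_reducible apply Int.all | with_reducible apply Int.ex | with_reducible apply IntF.fst | with_reducible apply IntF.snd | with_reducible apply IntF.app | with_reducible apply IntF.inl | with_reducible apply IntF.inr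 | with_reducible apply Int.fin | with_reducible apply IntF.sep | with_reducible apply IntF.lam | with_reducible apply IntF.insert | with_reducible apply IntF.singleton | with_reducible apply IntF.union | with_reducible apply IntF.iimage | with_reducible apply IntF.ite | with_reducible apply IntF.the | with_reducible apply IntF.irec | with_reducible apply IntF.succ | with_reducible apply IntF.val | (with_reducible refine Int.comp ?_ ?_; assumption) | (with_reducible refine Int.comp₂ ?_ ?_ ?_; assumption) | (with_reducible refine Int.comp₃ ?_ ?_ ?_ ?_; assumption) | (with_reducible refine Int.comp₄ ?_ ?_ ?_ ?_ ?_; assumption) | (with_reducible refine IntF.comp ?_ ?_; assumption) | (with_reducible refine IntF.comp₂ ?_ ?_ ?_; assumption) | (with_reducible refine IntF.comp₃ ?_ ?_ ?_ ?_; assumption) | with_reducible apply IntF.mk | with_reducible apply IntF.pair))) ⟨a, rfl⟩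
  subst hb
  exact h1 _ rfl

include h in
theorem iwo_asymm {a b : δ} (h1 : lt a b) (h2 : lt b a) : False := by
  obtain ⟨c, hc, h3⟩ := iwo_least h (p := fun x => x = a ∨ x = b) (by (repeat' (first | with_reducible exact IntF.id | with_reducible exact IntF.fst' | with_reducible exact IntF.snd' | with_reducible exact IntF.const _ | with_reducible exact Int.const _ | assumption | with_reducible apply Int.and | with_reducible apply Int.or | with_reducible apply Int.not | with_reducible apply Int.imp | with_reducible apply Int.iff | with_reducible apply Int.ne | with_reducible apply Int.eq | with_reducible apply Int.mem | with_reducible apply Int.subset | with_reducible apply Int.ltN | with_reducible apply Int.leN | with_reducible_and_instances apply Helper672.ZFA.Int.le | with_reducible_and_instances apply Helper672.ZFA.Int.lt | with_reducible apply Int.all | with_reducible apply Int.ex | with_reducible apply IntF.fst | with_reducible apply IntF.snd | with_reducible apply IntF.app | with_reducible apply IntF.inl | with_reducible apply IntF.inr | with_reducible apply Int.fin | with_reducible apply IntF.sep | with_reducible apply IntF.lam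 | with_reducible apply IntF.insert | with_reducible apply IntF.singleton | with_reducible apply IntF.union | with_reducible apply IntF.iimage | with_reducible apply IntF.ite | with_reducible apply IntF.the | with_reducible apply IntF.irec | with_reducible apply IntF.succ | with_reducible apply IntF.val | (with_reducible refine Int.comp ?_ ?_; assumption) | (with_reducible refine Int.comp₂ ?_ ?_ ?_; assumption) | (with_reducible refine Int.comp₃ ?_ ?_ ?_ ?_; assumption) | (with_reducible refine Int.comp₄ ?_ ?_ ?_ ?_ ?_; assumption) | (with_reducible refine IntF.comp ?_ ?_; assumption) | (with_reducible refine IntF.comp₂ ?_ ?_ ?_; assumption) | (with_reducible refine IntF.comp₃ ?_ ?_ ?_ ?_; assumption) | with_reducible apply IntF.mk | with_reducible apply IntF.pair))) ⟨a, Or.inl rfl⟩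
  rcases hc with rfl | rfl
  · exact h3 b (Or.inr rfl) h2
  · exact h3 a (Or.inl rfl) h1

include h in
theorem iwo_trans {a b c : δ} (h1 : lt a b) (h2 : lt b c) : lt a c := by
  rcases h.tri a c with h3 | h3 | h3
  · exact h3
  · subst h3
    exact (iwo_asymm h h1 h2).elim
  · obtain ⟨d, hd, h4⟩ := iwo_least h (p := fun x => x = a ∨ x = b ∨ x = c) (by (repeat' (first | with_reducible exact IntF.id | with_reducible exact IntF.fst' | with_reducible exact IntF.snd' | with_reducible exact IntF.const _ | with_reducible exact Int.const _ | assumption | with_reducible apply Int.and | with_reducible apply Int.or | with_reducible apply Int.not | with_reducible apply Int.imp | with_reducible apply Int.iff | with_reducible apply Int.ne | with_reducible apply Int.eq | with_reducible apply Int.mem | with_reducible apply Int.subset | with_reducible apply Int.ltN | with_reducible apply Int.leN | with_reducible_and_instances apply Helper672.ZFA.Int.le | with_reducible_and_instances apply Helper672.ZFA.Int.lt | with_reducible apply Int.all | with_reducible apply Int.ex | with_reducible apply IntF.fst | with_reducible apply IntF.snd | with_reducible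 apply IntF.app | with_reducible apply IntF.inl | with_reducible apply IntF.inr | with_reducible apply Int.fin | with_reducible apply IntF.sep | with_reducible apply IntF.lam | with_reducible apply IntF.insert | with_reducible apply IntF.singleton | with_reducible apply IntF.union | with_reducible apply IntF.iimage | with_reducible apply IntF.ite | with_reducible apply IntF.the | with_reducible apply IntF.irec | with_reducible apply IntF.succ | with_reducible apply IntF.val | (with_reducible refine Int.comp ?_ ?_; assumption) | (with_reducible refine Int.comp₂ ?_ ?_ ?_; assumption) | (with_reducible refine Int.comp₃ ?_ ?_ ?_ ?_; assumption) | (with_reducible refine Int.comp₄ ?_ ?_ ?_ ?_ ?_; assumption) | (with_reducible refine IntF.comp ?_ ?_; assumption) | (with_reducible refine IntF.comp₂ ?_ ?_ ?_; assumption) | (with_reducible refine IntF.comp₃ ?_ ?_ ?_ ?_; assumption) | with_reducible apply IntF.mk | with_reducible apply IntF.pair)))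
      ⟨a, Or.inl rfl⟩
    rcases hd with rfl | rfl | rfl
    · exact absurd h3 (h4 _ (Or.inr (Or.inr rfl)))
    · exact absurd h1 (h4 _ (Or.inl rfl))
    · exact absurd h2 (h4 _ (Or.inr (Or.inl rfl)))

include h in
theorem iwo_ind {p : δ → Prop} (hp : Int M p) (hs : ∀ a, (∀ b, lt b a → p b) → p a) :
    ∀ a, p a := by
  by_contra hc
  push Not at hc
  obtain ⟨a, h1, h2⟩ := iwo_least h (p := fun a => ¬ p a) (Helper672.ZFA.Int.not hp) hc
  exact h1 (hs a fun b hb => by
    by_contra h3
    exact h2 b h3 hb)

include h in
theorem iwo_unique {p : δ → Prop} {a b : δ} (ha : p a) (ha' : ∀ c, p c → ¬ lt c a) (hb : p b)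
    (hb' : ∀ c, p c → ¬ lt c b) : a = b := by
  rcases h.tri a b with h1 | h1 | h1
  · exact absurd h1 (hb' a ha)
  · exact h1
  · exact absurd h1 (ha' b hb)

/-! ### Injections -/

variable (M) in
/-- There is an internal injection from `p` to `q`. -/
def Emb {ε : Type u} [ITy M ε] (p q : ε → Prop) : Prop :=
  ∃ R : IPow M (ε × ε), (∀ a, p a → ∃ b, q b ∧ (a, b) ∈ R) ∧
    (∀ a b b', (a, b) ∈ R → (a, b') ∈ R → b = b') ∧
    ∀ a a' b, (a, b) ∈ R → (a', b) ∈ R → a = a'

theorem Emb.mono {p q p' q' : δ → Prop} (h : Emb M p q) (h1 : ∀ a, p' a → p a)
    (h2 : ∀ a, q a → q' a) : Emb M p' q' := by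
  obtain ⟨R, h3, h4, h5⟩ := h
  refine ⟨R, fun a ha => ?_, h4, h5⟩
  obtain ⟨b, hb, h6⟩ := h3 a (h1 a ha)
  exact ⟨b, h2 b hb, h6⟩

theorem Emb.of_sub {p q : δ → Prop} (h : ∀ a, p a → q a) : Emb M p q := by
  have hi : Int M (fun w : δ × δ => w.1 = w.2) := by (repeat' (first | with_reducible exact IntF.id | with_reducible exact IntF.fst' | with_reducible exact IntF.snd' | with_reducible exact IntF.const _ | with_reducible exact Int.const _ | assumption | with_reducible apply Int.and | with_reducible apply Int.or | with_reducible apply Int.not | with_reducible apply Int.imp | with_reducible apply Int.iff | with_reducible apply Int.ne | with_reducible apply Int.eq | with_reducible apply Int.mem | with_reducible apply Int.subset | with_reducible apply Int.ltN | with_reducible apply Int.leN | with_reducible_and_instances apply Helper672.ZFA.Int.le | with_reducible_and_instances apply Helper672.ZFA.Int.lt | with_reducible apply Int.all | with_reducible apply Int.ex | with_reducible apply IntF.fst | with_reducible apply IntF.snd | with_reducible apply IntF.app | with_reducible apply IntF.inl | with_reducible apply IntF.inr | with_reducible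 apply Int.fin | with_reducible apply IntF.sep | with_reducible apply IntF.lam | with_reducible apply IntF.insert | with_reducible apply IntF.singleton | with_reducible apply IntF.union | with_reducible apply IntF.iimage | with_reducible apply IntF.ite | with_reducible apply IntF.the | with_reducible apply IntF.irec | with_reducible apply IntF.succ | with_reducible apply IntF.val | (with_reducible refine Int.comp ?_ ?_; assumption) | (with_reducible refine Int.comp₂ ?_ ?_ ?_; assumption) | (with_reducible refine Int.comp₃ ?_ ?_ ?_ ?_; assumption) | (with_reducible refine Int.comp₄ ?_ ?_ ?_ ?_ ?_; assumption) | (with_reducible refine IntF.comp ?_ ?_; assumption) | (with_reducible refine IntF.comp₂ ?_ ?_ ?_; assumption) | (with_reducible refine IntF.comp₃ ?_ ?_ ?_ ?_; assumption) | with_reducible apply IntF.mk | with_reducible apply IntF.pair))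
  refine ⟨sep M fun w : δ × δ => w.1 = w.2, fun a ha => ⟨a, h a ha, (mem_sep hi).2 rfl⟩, ?_, ?_⟩
  · intro a b b' h1 h2
    exact ((mem_sep hi).1 h1).symm.trans ((mem_sep hi).1 h2)
  · intro a a' b h1 h2
    exact ((mem_sep hi).1 h1).trans ((mem_sep hi).1 h2).symm

theorem Emb.trans {p q r : δ → Prop} (h : Emb M p q) (h' : Emb M q r) : Emb M p r := by
  obtain ⟨R, h1, h2, h3⟩ := h
  obtain ⟨R', h1', h2', h3'⟩ := h'
  have hi : Int M (fun w : δ × δ => ∃ c, (w.1, c) ∈ R ∧ (c, w.2) ∈ R') := by (repeat' (first | with_reducible exact IntF.id | with_reducible exact IntF.fst' | with_reducible exact IntF.snd' | with_reducible exact IntF.const _ | with_reducible exact Int.const _ | assumption | with_reducible apply Int.and | with_reducible apply Int.or | with_reducible apply Int.not | with_reducible apply Int.imp | with_reducible apply Int.iff | with_reducible apply Int.ne | with_reducible apply Int.eq | with_reducible apply Int.mem | with_reducible apply Int.subset | with_reducible apply Int.ltN | with_reducible apply Int.leN | with_reducible_and_instances apply Helper672.ZFA.Int.le | with_reducible_and_instances apply Helper672.ZFA.Int.lt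 | with_reducible apply Int.all | with_reducible apply Int.ex | with_reducible apply IntF.fst | with_reducible apply IntF.snd | with_reducible apply IntF.app | with_reducible apply IntF.inl | with_reducible apply IntF.inr | with_reducible apply Int.fin | with_reducible apply IntF.sep | with_reducible apply IntF.lam | with_reducible apply IntF.insert | with_reducible apply IntF.singleton | with_reducible apply IntF.union | with_reducible apply IntF.iimage | with_reducible apply IntF.ite | with_reducible apply IntF.the | with_reducible apply IntF.irec | with_reducible apply IntF.succ | with_reducible apply IntF.val | (with_reducible refine Int.comp ?_ ?_; assumption) | (with_reducible refine Int.comp₂ ?_ ?_ ?_; assumption) | (with_reducible refine Int.comp₃ ?_ ?_ ?_ ?_; assumption) | (with_reducible refine Int.comp₄ ?_ ?_ ?_ ?_ ?_; assumption) | (with_reducible refine IntF.comp ?_ ?_; assumption) | (with_reducible refine IntF.comp₂ ?_ ?_ ?_; assumption) | (with_reducible refine IntF.comp₃ ?_ ?_ ?_ ?_; assumption) | with_reducible apply IntF.mk | with_reducible apply IntF.pair))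
  refine ⟨sep M fun w : δ × δ => ∃ c, (w.1, c) ∈ R ∧ (c, w.2) ∈ R', fun a ha => ?_, ?_, ?_⟩
  · obtain ⟨b, hb, h4⟩ := h1 a ha
    obtain ⟨c, hc, h5⟩ := h1' b hb
    exact ⟨c, hc, (mem_sep hi).2 ⟨b, h4, h5⟩⟩
  · intro a b b' h4 h5
    obtain ⟨c, h6, h7⟩ := (mem_sep hi).1 h4
    obtain ⟨c', h8, h9⟩ := (mem_sep hi).1 h5
    obtain rfl := h2 _ _ _ h6 h8
    exact h2' _ _ _ h7 h9
  · intro a a' b h4 h5
    obtain ⟨c, h6, h7⟩ := (mem_sep hi).1 h4
    obtain ⟨c', h8, h9⟩ := (mem_sep hi).1 h5
    obtain rfl := h3' _ _ _ h7 h9
    exact h3 _ _ _ h6 h8

/-! ### The collapse -/

/-- The attempts. -/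
def Att (lt : δ → δ → Prop) (Y : IPow M δ) (t : IPow M (δ × δ)) : Prop :=
  ∀ i y, (i, y) ∈ t → (∀ i', lt i' i → ∃ y', (i', y') ∈ t) ∧ y ∈ Y ∧
    (∀ i', lt i' i → ¬ (i', y) ∈ t) ∧ ∀ y', y' ∈ Y → lt y' y → ∃ i', lt i' i ∧ (i', y') ∈ t

include h in
theorem int_att (Y : IPow M δ) : Int M (fun t : IPow M (δ × δ) => Att lt Y t) := by
  have hl := h.int
  unfold Att
  (repeat' (first | with_reducible exact IntF.id | with_reducible exact IntF.fst' | with_reducible exact IntF.snd' | with_reducible exact IntF.const _ | with_reducible exact Int.const _ | assumption | with_reducible apply Int.and | with_reducible apply Int.or | with_reducible apply Int.not | with_reducible apply Int.imp | with_reducible apply Int.iff | with_reducible apply Int.ne | with_reducible apply Int.eq | with_reducible apply Int.mem | with_reducible apply Int.subset | with_reducible apply Int.ltN | with_reducible apply Int.leN | with_reducible_and_instances apply Helper672.ZFA.Int.le | with_reducible_and_instances apply Helper672.ZFA.Int.lt | with_reducible apply Int.all | with_reducible apply Int.ex | with_reducible apply IntF.fst | with_reducible apply IntF.snd | with_reducible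 apply IntF.app | with_reducible apply IntF.inl | with_reducible apply IntF.inr | with_reducible apply Int.fin | with_reducible apply IntF.sep | with_reducible apply IntF.lam | with_reducible apply IntF.insert | with_reducible apply IntF.singleton | with_reducible apply IntF.union | with_reducible apply IntF.iimage | with_reducible apply IntF.ite | with_reducible apply IntF.the | with_reducible apply IntF.irec | with_reducible apply IntF.succ | with_reducible apply IntF.val | (with_reducible refine Int.comp ?_ ?_; assumption) | (with_reducible refine Int.comp₂ ?_ ?_ ?_; assumption) | (with_reducible refine Int.comp₃ ?_ ?_ ?_ ?_; assumption) | (with_reducible refine Int.comp₄ ?_ ?_ ?_ ?_ ?_; assumption) | (with_reducible refine IntF.comp ?_ ?_; assumption) | (with_reducible refine IntF.comp₂ ?_ ?_ ?_; assumption) | (with_reducible refine IntF.comp₃ ?_ ?_ ?_ ?_; assumption) | with_reducible apply IntF.mk | with_reducible apply IntF.pair))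

include h in
theorem att_unique {Y : IPow M δ} {t t' : IPow M (δ × δ)} (ht : Att lt Y t) (ht' : Att lt Y t') :
    ∀ i y y', (i, y) ∈ t → (i, y') ∈ t' → y = y' := by
  refine iwo_ind h (by (repeat' (first | with_reducible exact IntF.id | with_reducible exact IntF.fst' | with_reducible exact IntF.snd' | with_reducible exact IntF.const _ | with_reducible exact Int.const _ | assumption | with_reducible apply Int.and | with_reducible apply Int.or | with_reducible apply Int.not | with_reducible apply Int.imp | with_reducible apply Int.iff | with_reducible apply Int.ne | with_reducible apply Int.eq | with_reducible apply Int.mem | with_reducible apply Int.subset | with_reducible apply Int.ltN | with_reducible apply Int.leN | with_reducible_and_instances apply Helper672.ZFA.Int.le | with_reducible_and_instances apply Helper672.ZFA.Int.lt | with_reducible apply Int.all | with_reducible apply Int.ex | with_reducible apply IntF.fst | with_reducible apply IntF.snd | with_reducible apply IntF.app | with_reducible apply IntF.inl | with_reducible apply IntF.inr | with_reducible apply Int.fin | with_reducible apply IntF.sep | with_reducible apply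 IntF.lam | with_reducible apply IntF.insert | with_reducible apply IntF.singleton | with_reducible apply IntF.union | with_reducible apply IntF.iimage | with_reducible apply IntF.ite | with_reducible apply IntF.the | with_reducible apply IntF.irec | with_reducible apply IntF.succ | with_reducible apply IntF.val | (with_reducible refine Int.comp ?_ ?_; assumption) | (with_reducible refine Int.comp₂ ?_ ?_ ?_; assumption) | (with_reducible refine Int.comp₃ ?_ ?_ ?_ ?_; assumption) | (with_reducible refine Int.comp₄ ?_ ?_ ?_ ?_ ?_; assumption) | (with_reducible refine IntF.comp ?_ ?_; assumption) | (with_reducible refine IntF.comp₂ ?_ ?_ ?_; assumption) | (with_reducible refine IntF.comp₃ ?_ ?_ ?_ ?_; assumption) | with_reducible apply IntF.mk | with_reducible apply IntF.pair))) fun i ih y y' h1 h2 => ?_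
  obtain ⟨a1, a2, a3, a4⟩ := ht i y h1
  obtain ⟨b1, b2, b3, b4⟩ := ht' i y' h2
  rcases h.tri y y' with h3 | h3 | h3
  · obtain ⟨i', h4, h5⟩ := b4 y a2 h3
    obtain ⟨z, hz⟩ := a1 i' h4
    obtain rfl := ih i' h4 z y hz h5
    exact absurd hz (a3 i' h4)
  · exact h3
  · obtain ⟨i', h4, h5⟩ := a4 y' b2 h3
    obtain ⟨z, hz⟩ := b1 i' h4
    obtain rfl := ih i' h4 y' z h5 hz
    exact absurd hz (b3 i' h4)

include h in
theorem exists_collapse (Y : IPow M δ) : ∃ R : IPow M (δ × δ),
    (∀ i y y', (i, y) ∈ R → (i, y') ∈ R → y = y') ∧
    (∀ i i' y, (i, y) ∈ R → (i', y) ∈ R → i = i') ∧ (∀ i y, (i, y) ∈ R → y ∈ Y) ∧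
    ((∀ i, ∃ y, (i, y) ∈ R) ∨ ∃ a, (∀ i y, (i, y) ∈ R → lt i a) ∧
      (∀ i, lt i a → ∃ y, (i, y) ∈ R) ∧ ∀ y, y ∈ Y → ∃ i, (i, y) ∈ R) := by
  have hl := h.int
  have hA : Int M (fun t : IPow M (δ × δ) => Att lt Y t) := int_att h Y
  have hi : Int M (fun q : δ × δ => ∃ t : IPow M (δ × δ), Att lt Y t ∧ q ∈ t) := by (repeat' (first | with_reducible exact IntF.id | with_reducible exact IntF.fst' | with_reducible exact IntF.snd' | with_reducible exact IntF.const _ | with_reducible exact Int.const _ | assumption | with_reducible apply Int.and | with_reducible apply Int.or | with_reducible apply Int.not | with_reducible apply Int.imp | with_reducible apply Int.iff | with_reducible apply Int.ne | with_reducible apply Int.eq | with_reducible apply Int.mem | with_reducible apply Int.subset | with_reducible apply Int.ltN | with_reducible apply Int.leN | with_reducible_and_instances apply Helper672.ZFA.Int.le | with_reducible_and_instances apply Helper672.ZFA.Int.lt | with_reducible apply Int.all | with_reducible apply Int.ex | with_reducible apply IntF.fst | with_reducible apply IntF.snd | with_reducible apply IntF.app | with_reducible apply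 IntF.inl | with_reducible apply IntF.inr | with_reducible apply Int.fin | with_reducible apply IntF.sep | with_reducible apply IntF.lam | with_reducible apply IntF.insert | with_reducible apply IntF.singleton | with_reducible apply IntF.union | with_reducible apply IntF.iimage | with_reducible apply IntF.ite | with_reducible apply IntF.the | with_reducible apply IntF.irec | with_reducible apply IntF.succ | with_reducible apply IntF.val | (with_reducible refine Int.comp ?_ ?_; assumption) | (with_reducible refine Int.comp₂ ?_ ?_ ?_; assumption) | (with_reducible refine Int.comp₃ ?_ ?_ ?_ ?_; assumption) | (with_reducible refine Int.comp₄ ?_ ?_ ?_ ?_ ?_; assumption) | (with_reducible refine IntF.comp ?_ ?_; assumption) | (with_reducible refine IntF.comp₂ ?_ ?_ ?_; assumption) | (with_reducible refine IntF.comp₃ ?_ ?_ ?_ ?_; assumption) | with_reducible apply IntF.mk | with_reducible apply IntF.pair))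
  let R : IPow M (δ × δ) := sep M fun q => ∃ t : IPow M (δ × δ), Att lt Y t ∧ q ∈ t
  have hR : ∀ {q}, q ∈ R ↔ ∃ t : IPow M (δ × δ), Att lt Y t ∧ q ∈ t := fun {q} => mem_sep hi
  have hAR : Att lt Y R := by
    intro i y h1
    obtain ⟨t, ht, h2⟩ := hR.1 h1
    obtain ⟨a1, a2, a3, a4⟩ := ht i y h2
    refine ⟨fun i' h3 => ?_, a2, fun i' h3 h4 => ?_, fun y' h3 h4 => ?_⟩
    · obtain ⟨y', h4⟩ := a1 i' h3
      exact ⟨y', hR.2 ⟨t, ht, h4⟩⟩
    · obtain ⟨t', ht', h5⟩ := hR.1 h4
      obtain ⟨z, hz⟩ := a1 i' h3
      obtain rfl := att_unique h ht ht' i' z y hz h5
      exact a3 i' h3 hz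
    · obtain ⟨i', h5, h6⟩ := a4 y' h3 h4
      exact ⟨i', h5, hR.2 ⟨t, ht, h6⟩⟩
  refine ⟨R, att_unique h hAR hAR, ?_, fun i y h1 => (hAR i y h1).2.1, ?_⟩
  · intro i i' y h1 h2
    rcases h.tri i i' with h3 | h3 | h3
    · exact absurd h1 ((hAR i' y h2).2.2.1 i h3)
    · exact h3
    · exact absurd h2 ((hAR i y h1).2.2.1 i' h3)
  by_cases hall : ∀ i, ∃ y, (i, y) ∈ R
  · exact Or.inl hall
  push Not at hall
  obtain ⟨a, h1, h2⟩ := iwo_least h (p := fun i => ∀ y, ¬ (i, y) ∈ R) (by (repeat' (first | with_reducible exact IntF.id | with_reducible exact IntF.fst' | with_reducible exact IntF.snd' | with_reducible exact IntF.const _ | with_reducible exact Int.const _ | assumption | with_reducible apply Int.and | with_reducible apply Int.or | with_reducible apply Int.not | with_reducible apply Int.imp | with_reducible apply Int.iff | with_reducible apply Int.ne | with_reducible apply Int.eq | with_reducible apply Int.mem | with_reducible apply Int.subset | with_reducible apply Int.ltN | with_reducible apply Int.leN | with_reducible_and_instances apply Helper672.ZFA.Int.le | with_reducible_and_instances apply Helper672.ZFA.Int.lt | with_reducible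 apply Int.all | with_reducible apply Int.ex | with_reducible apply IntF.fst | with_reducible apply IntF.snd | with_reducible apply IntF.app | with_reducible apply IntF.inl | with_reducible apply IntF.inr | with_reducible apply Int.fin | with_reducible apply IntF.sep | with_reducible apply IntF.lam | with_reducible apply IntF.insert | with_reducible apply IntF.singleton | with_reducible apply IntF.union | with_reducible apply IntF.iimage | with_reducible apply IntF.ite | with_reducible apply IntF.the | with_reducible apply IntF.irec | with_reducible apply IntF.succ | with_reducible apply IntF.val | (with_reducible refine Int.comp ?_ ?_; assumption) | (with_reducible refine Int.comp₂ ?_ ?_ ?_; assumption) | (with_reducible refine Int.comp₃ ?_ ?_ ?_ ?_; assumption) | (with_reducible refine Int.comp₄ ?_ ?_ ?_ ?_ ?_; assumption) | (with_reducible refine IntF.comp ?_ ?_; assumption) | (with_reducible refine IntF.comp₂ ?_ ?_ ?_; assumption) | (with_reducible refine IntF.comp₃ ?_ ?_ ?_ ?_; assumption) | with_reducible apply IntF.mk | with_reducible apply IntF.pair))) hall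
  have h3 : ∀ i, lt i a → ∃ y, (i, y) ∈ R := by
    intro i hi'
    by_contra h4
    push Not at h4
    exact h2 i h4 hi'
  have h4 : ∀ i y, (i, y) ∈ R → lt i a := by
    intro i y h5
    rcases h.tri i a with h6 | h6 | h6
    · exact h6
    · subst h6
      exact absurd h5 (h1 y)
    · obtain ⟨z, hz⟩ := (hAR i y h5).1 a h6
      exact absurd hz (h1 z)
  refine Or.inr ⟨a, h4, h3, ?_⟩
  by_contra h5
  push Not at h5
  obtain ⟨y, ⟨h6, h7⟩, h8⟩ := iwo_least h (p := fun y => y ∈ Y ∧ ∀ i, ¬ (i, y) ∈ R) (by (repeat' (first | with_reducible exact IntF.id | with_reducible exact IntF.fst' | with_reducible exact IntF.snd' | with_reducible exact IntF.const _ | with_reducible exact Int.const _ | assumption | with_reducible apply Int.and | with_reducible apply Int.or | with_reducible apply Int.not | with_reducible apply Int.imp | with_reducible apply Int.iff | with_reducible apply Int.ne | with_reducible apply Int.eq | with_reducible apply Int.mem | with_reducible apply Int.subset | with_reducible apply Int.ltN | with_reducible apply Int.leN | with_reducible_and_instances apply Helper672.ZFA.Int.le | with_reducible_and_instances apply Helper672.ZFA.Int.lt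 | with_reducible apply Int.all | with_reducible apply Int.ex | with_reducible apply IntF.fst | with_reducible apply IntF.snd | with_reducible apply IntF.app | with_reducible apply IntF.inl | with_reducible apply IntF.inr | with_reducible apply Int.fin | with_reducible apply IntF.sep | with_reducible apply IntF.lam | with_reducible apply IntF.insert | with_reducible apply IntF.singleton | with_reducible apply IntF.union | with_reducible apply IntF.iimage | with_reducible apply IntF.ite | with_reducible apply IntF.the | with_reducible apply IntF.irec | with_reducible apply IntF.succ | with_reducible apply IntF.val | (with_reducible refine Int.comp ?_ ?_; assumption) | (with_reducible refine Int.comp₂ ?_ ?_ ?_; assumption) | (with_reducible refine Int.comp₃ ?_ ?_ ?_ ?_; assumption) | (with_reducible refine Int.comp₄ ?_ ?_ ?_ ?_ ?_; assumption) | (with_reducible refine IntF.comp ?_ ?_; assumption) | (with_reducible refine IntF.comp₂ ?_ ?_ ?_; assumption) | (with_reducible refine IntF.comp₃ ?_ ?_ ?_ ?_; assumption) | with_reducible apply IntF.mk | with_reducible apply IntF.pair))) h5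
  have hj : Int M (fun q : δ × δ => q ∈ R ∨ q = (a, y)) := by (repeat' (first | with_reducible exact IntF.id | with_reducible exact IntF.fst' | with_reducible exact IntF.snd' | with_reducible exact IntF.const _ | with_reducible exact Int.const _ | assumption | with_reducible apply Int.and | with_reducible apply Int.or | with_reducible apply Int.not | with_reducible apply Int.imp | with_reducible apply Int.iff | with_reducible apply Int.ne | with_reducible apply Int.eq | with_reducible apply Int.mem | with_reducible apply Int.subset | with_reducible apply Int.ltN | with_reducible apply Int.leN | with_reducible_and_instances apply Helper672.ZFA.Int.le | with_reducible_and_instances apply Helper672.ZFA.Int.lt | with_reducible apply Int.all | with_reducible apply Int.ex | with_reducible apply IntF.fst | with_reducible apply IntF.snd | with_reducible apply IntF.app | with_reducible apply IntF.inl | with_reducible apply IntF.inr | with_reducible apply Int.fin | with_reducible apply IntF.sep | with_reducible apply IntF.lam | with_reducible apply IntF.insert | with_reducible apply IntF.singleton | with_reducible apply IntF.union | with_reducible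 apply IntF.iimage | with_reducible apply IntF.ite | with_reducible apply IntF.the | with_reducible apply IntF.irec | with_reducible apply IntF.succ | with_reducible apply IntF.val | (with_reducible refine Int.comp ?_ ?_; assumption) | (with_reducible refine Int.comp₂ ?_ ?_ ?_; assumption) | (with_reducible refine Int.comp₃ ?_ ?_ ?_ ?_; assumption) | (with_reducible refine Int.comp₄ ?_ ?_ ?_ ?_ ?_; assumption) | (with_reducible refine IntF.comp ?_ ?_; assumption) | (with_reducible refine IntF.comp₂ ?_ ?_ ?_; assumption) | (with_reducible refine IntF.comp₃ ?_ ?_ ?_ ?_; assumption) | with_reducible apply IntF.mk | with_reducible apply IntF.pair))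
  have hmem : ∀ {q}, q ∈ sep M (fun q : δ × δ => q ∈ R ∨ q = (a, y)) ↔ (q ∈ R ∨ q = (a, y)) :=
    fun {q} => mem_sep hj
  have hAt : Att lt Y (sep M fun q : δ × δ => q ∈ R ∨ q = (a, y)) := by
    intro i z h9
    rcases hmem.1 h9 with h10 | h10
    · obtain ⟨a1, a2, a3, a4⟩ := hAR i z h10
      refine ⟨fun i' h3 => ?_, a2, fun i' h11 h12 => ?_, fun y' h11 h12 => ?_⟩
      · obtain ⟨y', h4⟩ := a1 i' h3
        exact ⟨y', hmem.2 (Or.inl h4)⟩
      · rcases hmem.1 h12 with h13 | h13
        · exact a3 i' h11 h13
        · obtain ⟨rfl, rfl⟩ := Prod.mk.inj h13
          exact iwo_asymm h h11 (h4 i z h10)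
      · obtain ⟨i', h13, h14⟩ := a4 y' h11 h12
        exact ⟨i', h13, hmem.2 (Or.inl h14)⟩
    · obtain ⟨rfl, rfl⟩ := Prod.mk.inj h10
      refine ⟨fun i' h11 => ?_, h6, fun i' h11 h12 => ?_, fun y' h11 h12 => ?_⟩
      · obtain ⟨y', h12⟩ := h3 i' h11
        exact ⟨y', hmem.2 (Or.inl h12)⟩
      · rcases hmem.1 h12 with h13 | h13
        · exact h7 i' h13
        · obtain ⟨h14, -⟩ := Prod.mk.inj h13
          rw [h14] at h11
          exact iwo_irrefl h _ h11
      · have h13 : ∃ i', (i', y') ∈ R := by
          by_contra h13
          push Not at h13
          exact h8 y' ⟨h11, h13⟩ h12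
        obtain ⟨i', h14⟩ := h13
        exact ⟨i', h4 i' y' h14, hmem.2 (Or.inl h14)⟩
  exact h1 y (hR.2 ⟨_, hAt, hmem.2 (Or.inr rfl)⟩)

include h in
/-- A decreasing sequence of subsets stabilizes up to injections. -/
theorem exists_stab {X : INat M → δ → Prop} (hX : Int M (fun q : INat M × δ => X q.1 q.2))
    (hd : ∀ r i, X r.succ i → X r i) : ∃ r₀, ∀ r, r₀ ≤ r → Emb M (X r₀) (X r) := by
  have hl := h.int
  have hdec : ∀ r r', r ≤ r' → ∀ i, X r' i → X r i := by
    intro r
    refine INat.ind (by (repeat' (first | with_reducible exact IntF.id | with_reducible exact IntF.fst' | with_reducible exact IntF.snd' | with_reducible exact IntF.const _ | with_reducible exact Int.const _ | assumption | with_reducible apply Int.and | with_reducible apply Int.or | with_reducible apply Int.not | with_reducible apply Int.imp | with_reducible apply Int.iff | with_reducible apply Int.ne | with_reducible apply Int.eq | with_reducible apply Int.mem | with_reducible apply Int.subset | with_reducible apply Int.ltN | with_reducible apply Int.leN | with_reducible_and_instances apply Helper672.ZFA.Int.le | with_reducible_and_instances apply Helper672.ZFA.Int.lt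 | with_reducible apply Int.all | with_reducible apply Int.ex | with_reducible apply IntF.fst | with_reducible apply IntF.snd | with_reducible apply IntF.app | with_reducible apply IntF.inl | with_reducible apply IntF.inr | with_reducible apply Int.fin | with_reducible apply IntF.sep | with_reducible apply IntF.lam | with_reducible apply IntF.insert | with_reducible apply IntF.singleton | with_reducible apply IntF.union | with_reducible apply IntF.iimage | with_reducible apply IntF.ite | with_reducible apply IntF.the | with_reducible apply IntF.irec | with_reducible apply IntF.succ | with_reducible apply IntF.val | (with_reducible refine Int.comp ?_ ?_; assumption) | (with_reducible refine Int.comp₂ ?_ ?_ ?_; assumption) | (with_reducible refine Int.comp₃ ?_ ?_ ?_ ?_; assumption) | (with_reducible refine Int.comp₄ ?_ ?_ ?_ ?_ ?_; assumption) | (with_reducible refine IntF.comp ?_ ?_; assumption) | (with_reducible refine IntF.comp₂ ?_ ?_ ?_; assumption) | (with_reducible refine IntF.comp₃ ?_ ?_ ?_ ?_; assumption) | with_reducible apply IntF.mk | with_reducible apply IntF.pair))) ?_ ?_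
    · intro h1 i hi
      have h2 : r = 0 := le_antisymm h1 (INat.zero_le r)
      rw [h2]
      exact hi
    · intro r' ih h1 i hi
      rcases eq_or_lt_of_le h1 with h2 | h2
      · rw [h2]
        exact hi
      · exact ih (INat.lt_succ_iff.1 h2) i (hd r' i hi)
  have hcol : ∀ r, Emb M (fun _ => True) (X r) ∨ ∃ a, Emb M (X r) (fun i => lt i a) ∧
      Emb M (fun i => lt i a) (X r) := by
    intro r
    have hXr : Int M (X r) := hX.slice r
    obtain ⟨R, h1, h2, h3, h4⟩ := exists_collapse h (sep M (X r))
    rcases h4 with h4 | ⟨a, h5, h6, h7⟩
    · left
      refine ⟨R, fun i _ => ?_, h1, h2⟩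
      obtain ⟨y, hy⟩ := h4 i
      exact ⟨y, (mem_sep hXr).1 (h3 i y hy), hy⟩
    · right
      refine ⟨a, ?_, ?_⟩
      · have hi : Int M (fun q : δ × δ => (q.2, q.1) ∈ R) := by (repeat' (first | with_reducible exact IntF.id | with_reducible exact IntF.fst' | with_reducible exact IntF.snd' | with_reducible exact IntF.const _ | with_reducible exact Int.const _ | assumption | with_reducible apply Int.and | with_reducible apply Int.or | with_reducible apply Int.not | with_reducible apply Int.imp | with_reducible apply Int.iff | with_reducible apply Int.ne | with_reducible apply Int.eq | with_reducible apply Int.mem | with_reducible apply Int.subset | with_reducible apply Int.ltN | with_reducible apply Int.leN | with_reducible_and_instances apply Helper672.ZFA.Int.le | with_reducible_and_instances apply Helper672.ZFA.Int.lt | with_reducible apply Int.all | with_reducible apply Int.ex | with_reducible apply IntF.fst | with_reducible apply IntF.snd | with_reducible apply IntF.app | with_reducible apply IntF.inl | with_reducible apply IntF.inr | with_reducible apply Int.fin | with_reducible apply IntF.sep | with_reducible apply IntF.lam |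 with_reducible apply IntF.insert | with_reducible apply IntF.singleton | with_reducible apply IntF.union | with_reducible apply IntF.iimage | with_reducible apply IntF.ite | with_reducible apply IntF.the | with_reducible apply IntF.irec | with_reducible apply IntF.succ | with_reducible apply IntF.val | (with_reducible refine Int.comp ?_ ?_; assumption) | (with_reducible refine Int.comp₂ ?_ ?_ ?_; assumption) | (with_reducible refine Int.comp₃ ?_ ?_ ?_ ?_; assumption) | (with_reducible refine Int.comp₄ ?_ ?_ ?_ ?_ ?_; assumption) | (with_reducible refine IntF.comp ?_ ?_; assumption) | (with_reducible refine IntF.comp₂ ?_ ?_ ?_; assumption) | (with_reducible refine IntF.comp₃ ?_ ?_ ?_ ?_; assumption) | with_reducible apply IntF.mk | with_reducible apply IntF.pair))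
        refine ⟨sep M fun q : δ × δ => (q.2, q.1) ∈ R, fun y hy => ?_, ?_, ?_⟩
        · obtain ⟨i, h8⟩ := h7 y ((mem_sep hXr).2 hy)
          exact ⟨i, h5 i y h8, (mem_sep hi).2 h8⟩
        · intro y i i' h8 h9
          exact h2 _ _ _ ((mem_sep hi).1 h8) ((mem_sep hi).1 h9)
        · intro y i i' h8 h9
          exact h1 _ _ _ ((mem_sep hi).1 h8) ((mem_sep hi).1 h9)
      · refine ⟨R, fun i hi => ?_, h1, h2⟩
        obtain ⟨y, hy⟩ := h6 i hi
        exact ⟨y, (mem_sep hXr).1 (h3 i y hy), hy⟩
  by_cases hall : ∀ r, Emb M (fun _ => True) (X r)
  · exact ⟨0, fun r _ => (hall r).mono (fun _ _ => trivial) fun _ hi => hi⟩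
  push Not at hall
  obtain ⟨r₁, hr₁⟩ := hall
  obtain ⟨a₁, ha₁, -⟩ := (hcol r₁).resolve_left hr₁
  obtain ⟨a, ⟨r₀, h1⟩, h2⟩ := iwo_least h (p := fun a => ∃ r, Emb M (X r) (fun i => lt i a))
    (by
      unfold Emb
      (repeat' (first | with_reducible exact IntF.id | with_reducible exact IntF.fst' | with_reducible exact IntF.snd' | with_reducible exact IntF.const _ | with_reducible exact Int.const _ | assumption | with_reducible apply Int.and | with_reducible apply Int.or | with_reducible apply Int.not | with_reducible apply Int.imp | with_reducible apply Int.iff | with_reducible apply Int.ne | with_reducible apply Int.eq | with_reducible apply Int.mem | with_reducible apply Int.subset | with_reducible apply Int.ltN | with_reducible apply Int.leN | with_reducible_and_instances apply Helper672.ZFA.Int.le | with_reducible_and_instances apply Helper672.ZFA.Int.lt | with_reducible apply Int.all | with_reducible apply Int.ex | with_reducible apply IntF.fst | with_reducible apply IntF.snd | with_reducible apply IntF.app | with_reducible apply IntF.inl | with_reducible apply IntF.inr | with_reducible apply Int.fin | with_reducible apply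 IntF.sep | with_reducible apply IntF.lam | with_reducible apply IntF.insert | with_reducible apply IntF.singleton | with_reducible apply IntF.union | with_reducible apply IntF.iimage | with_reducible apply IntF.ite | with_reducible apply IntF.the | with_reducible apply IntF.irec | with_reducible apply IntF.succ | with_reducible apply IntF.val | (with_reducible refine Int.comp ?_ ?_; assumption) | (with_reducible refine Int.comp₂ ?_ ?_ ?_; assumption) | (with_reducible refine Int.comp₃ ?_ ?_ ?_ ?_; assumption) | (with_reducible refine Int.comp₄ ?_ ?_ ?_ ?_ ?_; assumption) | (with_reducible refine IntF.comp ?_ ?_; assumption) | (with_reducible refine IntF.comp₂ ?_ ?_ ?_; assumption) | (with_reducible refine IntF.comp₃ ?_ ?_ ?_ ?_; assumption) | with_reducible apply IntF.mk | with_reducible apply IntF.pair))) ⟨a₁, r₁, ha₁⟩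
  refine ⟨r₀, fun r hr => ?_⟩
  rcases hcol r with h3 | ⟨a', h3, h4⟩
  · exact h3.mono (fun _ _ => trivial) fun _ hi => hi
  · have h5 : ¬ lt a' a := h2 a' ⟨r, h3⟩
    refine (h1.mono (fun _ hi => hi) (fun i hi => ?_)).trans h4
    rcases h.tri a' a with h6 | h6 | h6
    · exact absurd h6 h5
    · rw [h6]
      exact hi
    · exact iwo_trans h hi h6

include h in
theorem exists_stab' {X : INat M → δ → Prop} (hX : Int M (fun q : INat M × δ => X q.1 q.2))
    (hd : ∀ r i, X r.succ i → X r i) : ∃ r₀, ∀ r, r₀ ≤ r → Emb M (X r) (X r.succ) := by
  obtain ⟨r₀, h1⟩ := exists_stab h hX hd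
  have hdec : ∀ r, r₀ ≤ r → ∀ i, X r i → X r₀ i := by
    refine INat.ind (by (repeat' (first | with_reducible exact IntF.id | with_reducible exact IntF.fst' | with_reducible exact IntF.snd' | with_reducible exact IntF.const _ | with_reducible exact Int.const _ | assumption | with_reducible apply Int.and | with_reducible apply Int.or | with_reducible apply Int.not | with_reducible apply Int.imp | with_reducible apply Int.iff | with_reducible apply Int.ne | with_reducible apply Int.eq | with_reducible apply Int.mem | with_reducible apply Int.subset | with_reducible apply Int.ltN | with_reducible apply Int.leN | with_reducible_and_instances apply Helper672.ZFA.Int.le | with_reducible_and_instances apply Helper672.ZFA.Int.lt | with_reducible apply Int.all | with_reducible apply Int.ex | with_reducible apply IntF.fst | with_reducible apply IntF.snd | with_reducible apply IntF.app | with_reducible apply IntF.inl | with_reducible apply IntF.inr | with_reducible apply Int.fin | with_reducible apply IntF.sep | with_reducible apply IntF.lam | with_reducible apply IntF.insert | with_reducible apply IntF.singleton | with_reducible apply IntF.union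 | with_reducible apply IntF.iimage | with_reducible apply IntF.ite | with_reducible apply IntF.the | with_reducible apply IntF.irec | with_reducible apply IntF.succ | with_reducible apply IntF.val | (with_reducible refine Int.comp ?_ ?_; assumption) | (with_reducible refine Int.comp₂ ?_ ?_ ?_; assumption) | (with_reducible refine Int.comp₃ ?_ ?_ ?_ ?_; assumption) | (with_reducible refine Int.comp₄ ?_ ?_ ?_ ?_ ?_; assumption) | (with_reducible refine IntF.comp ?_ ?_; assumption) | (with_reducible refine IntF.comp₂ ?_ ?_ ?_; assumption) | (with_reducible refine IntF.comp₃ ?_ ?_ ?_ ?_; assumption) | with_reducible apply IntF.mk | with_reducible apply IntF.pair))) ?_ ?_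
    · intro h1 i hi
      have h2 : r₀ = 0 := le_antisymm h1 (INat.zero_le r₀)
      rw [h2]
      exact hi
    · intro r' ih h1 i hi
      rcases eq_or_lt_of_le h1 with h2 | h2
      · rw [h2]
        exact hi
      · exact ih (INat.lt_succ_iff.1 h2) i (hd r' i hi)
  exact ⟨r₀, fun r hr => (h1 r.succ (hr.trans (INat.le_succ_self r))).mono (hdec r hr)
    fun _ hi => hi⟩

end

end Pool.Agent.Y580
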