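import Pool.Agent.Y580.C1

/-!
# A decreasing sequence of sets with a step that is a surjection
-/

set_option maxHeartbeats 400000
set_option linter.all false
set_option synthInstance.maxSize 2000

namespace Pool.Agent.Y580

open FirstOrder FirstOrder.Language
open Pool.Agent.Helper672.ZFA
open Pool.Agent.Helper672.ZFA.H635 (IWO)

universe u

section

variable {M : Type u} [L.Structure M] [hM : IsModel M]
variable {U V I I' I'' : Type u} [ITy M U] [ITy M V] [ITy M I] [ITy M I'] [ITy M I'']
  {lt : I → I → Prop} (hI : IWO M I lt) {lt' : I' → I' → Prop} (hI' : IWO M I' lt')
  {lt'' : I'' → I'' → Prop} (hI'' : IWO M I'' lt'')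

/-- The rank of `v` is `i`. -/
def Rk (lt : I → I → Prop) (F : I → U → V → Prop) (v : V) (i : I) : Prop :=
  (∃ u, F i u v) ∧ ∀ i', (∃ u, F i' u v) → ¬ lt i' i

/-- `j` is the least index of `v`. -/
def Rw (lt'' : I'' → I'' → Prop) (W : I'' → V → Prop) (v : V) (j : I'') : Prop :=
  W j v ∧ ∀ j', W j' v → ¬ lt'' j' j

/-- `ι` is a good index for `i`. -/
def Gi (lt : I → I → Prop) (F : I → U → V → Prop) (W : I'' → V → Prop) (Φ : I' → U → V → Prop)
    (B : V → Prop) (i : I) (ι : I') : Prop :=
  (∀ u, ∃ v', Φ ι u v') ∧ (∀ u u' v', Φ ι u v' → Φ ι u' v' → u = u') ∧
    ∀ u v', Φ ι u v' → B v' ∧ (∀ j, ¬ W j v') ∧ Rk lt F v' i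

include hI hI' hI'' in
theorem exists_step {A : INat M → V → Prop} (hA : Int M (fun q : INat M × V => A q.1 q.2))
    (hd : ∀ r v, A r.succ v → A r v) {F : I → U → V → Prop}
    (hF : Int M (fun q : (I × U) × V => F q.1.1 q.1.2 q.2))
    (hFf : ∀ i u v v', F i u v → F i u v' → v = v') (hFc : ∀ v, A 0 v → ∃ i u, F i u v)
    {W : I'' → V → Prop} (hW : Int M (fun q : I'' × V => W q.1 q.2))
    (hWf : ∀ j v v', W j v → W j v' → v = v') {Φ : I' → U → V → Prop}
    (hΦ : Int M (fun q : (I' × U) × V => Φ q.1.1 q.1.2 q.2))
    (h3 : ∀ r i v, A r v → (∀ j, ¬ W j v) → Rk lt F v i → ∃ ι, Gi lt F W Φ (A r) i ι) :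
    ∃ r, (∀ v, ¬ A r v) ∨ ∃ R : IPow M (V × V),
      (∀ v v' v'', (v', v) ∈ R → (v', v'') ∈ R → v = v'') ∧ (∀ v v', (v', v) ∈ R → A r v) ∧
      ∀ v, A r v → ∃ v', A r.succ v' ∧ (v', v) ∈ R := by
  have hl := hI.int
  have hl' := hI'.int
  have hl'' := hI''.int
  have hRk : Int M (fun q : V × I => Rk lt F q.1 q.2) := by
    unfold Rk
    (repeat' (first | with_reducible exact IntF.id | with_reducible exact IntF.fst' | with_reducible exact IntF.snd' | with_reducible exact IntF.const _ | with_reducible exact Int.const _ | assumption | with_reducible apply Int.and | with_reducible apply Int.or | with_reducible apply Int.not | with_reducible apply Int.imp | with_reducible apply Int.iff | with_reducible apply Int.ne | with_reducible apply Int.eq | with_reducible apply Int.mem | with_reducible apply Int.subset | with_reducible apply Int.ltN | with_reducible apply Int.leN | with_reducible_and_instances apply Helper672.ZFA.Int.le | with_reducible_and_instances apply Helper672.ZFA.Int.lt | with_reducible apply Int.all | with_reducible apply Int.ex | with_reducible apply IntF.fst | with_reducible apply IntF.snd | with_reducible apply IntF.app | with_reducible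 apply IntF.inl | with_reducible apply IntF.inr | with_reducible apply Int.fin | with_reducible apply IntF.sep | with_reducible apply IntF.lam | with_reducible apply IntF.insert | with_reducible apply IntF.singleton | with_reducible apply IntF.union | with_reducible apply IntF.iimage | with_reducible apply IntF.ite | with_reducible apply IntF.the | with_reducible apply IntF.irec | with_reducible apply IntF.succ | with_reducible apply IntF.val | (with_reducible refine Int.comp ?_ ?_; assumption) | (with_reducible refine Int.comp₂ ?_ ?_ ?_; assumption) | (with_reducible refine Int.comp₃ ?_ ?_ ?_ ?_; assumption) | (with_reducible refine Int.comp₄ ?_ ?_ ?_ ?_ ?_; assumption) | (with_reducible refine IntF.comp ?_ ?_; assumption) | (with_reducible refine IntF.comp₂ ?_ ?_ ?_; assumption) | (with_reducible refine IntF.comp₃ ?_ ?_ ?_ ?_; assumption) | with_reducible apply IntF.mk | with_reducible apply IntF.pair))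
  have hRw : Int M (fun q : V × I'' => Rw lt'' W q.1 q.2) := by
    unfold Rw
    (repeat' (first | with_reducible exact IntF.id | with_reducible exact IntF.fst' | with_reducible exact IntF.snd' | with_reducible exact IntF.const _ | with_reducible exact Int.const _ | assumption | with_reducible apply Int.and | with_reducible apply Int.or | with_reducible apply Int.not | with_reducible apply Int.imp | with_reducible apply Int.iff | with_reducible apply Int.ne | with_reducible apply Int.eq | with_reducible apply Int.mem | with_reducible apply Int.subset | with_reducible apply Int.ltN | with_reducible apply Int.leN | with_reducible_and_instances apply Helper672.ZFA.Int.le | with_reducible_and_instances apply Helper672.ZFA.Int.lt | with_reducible apply Int.all | with_reducible apply Int.ex | with_reducible apply IntF.fst | with_reducible apply IntF.snd | with_reducible apply IntF.app | with_reducible apply IntF.inl | with_reducible apply IntF.inr | with_reducible apply Int.fin | with_reducible apply IntF.sep | with_reducible apply IntF.lam | with_reducible apply IntF.insert | with_reducible apply IntF.singleton | with_reducible apply IntF.union | with_reducible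 apply IntF.iimage | with_reducible apply IntF.ite | with_reducible apply IntF.the | with_reducible apply IntF.irec | with_reducible apply IntF.succ | with_reducible apply IntF.val | (with_reducible refine Int.comp ?_ ?_; assumption) | (with_reducible refine Int.comp₂ ?_ ?_ ?_; assumption) | (with_reducible refine Int.comp₃ ?_ ?_ ?_ ?_; assumption) | (with_reducible refine Int.comp₄ ?_ ?_ ?_ ?_ ?_; assumption) | (with_reducible refine IntF.comp ?_ ?_; assumption) | (with_reducible refine IntF.comp₂ ?_ ?_ ?_; assumption) | (with_reducible refine IntF.comp₃ ?_ ?_ ?_ ?_; assumption) | with_reducible apply IntF.mk | with_reducible apply IntF.pair))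
  have hRk1 : ∀ v, A 0 v → ∃ i, Rk lt F v i := by
    intro v hv
    have h4 : Int M (fun i => ∃ u, F i u v) := by (repeat' (first | with_reducible exact IntF.id | with_reducible exact IntF.fst' | with_reducible exact IntF.snd' | with_reducible exact IntF.const _ | with_reducible exact Int.const _ | assumption | with_reducible apply Int.and | with_reducible apply Int.or | with_reducible apply Int.not | with_reducible apply Int.imp | with_reducible apply Int.iff | with_reducible apply Int.ne | with_reducible apply Int.eq | with_reducible apply Int.mem | with_reducible apply Int.subset | with_reducible apply Int.ltN | with_reducible apply Int.leN | with_reducible_and_instances apply Helper672.ZFA.Int.le | with_reducible_and_instances apply Helper672.ZFA.Int.lt | with_reducible apply Int.all | with_reducible apply Int.ex | with_reducible apply IntF.fst | with_reducible apply IntF.snd | with_reducible apply IntF.app | with_reducible apply IntF.inl | with_reducible apply IntF.inr | with_reducible apply Int.fin | with_reducible apply IntF.sep | with_reducible apply IntF.lam | with_reducible apply IntF.insert | with_reducible apply IntF.singleton | with_reducible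 apply IntF.union | with_reducible apply IntF.iimage | with_reducible apply IntF.ite | with_reducible apply IntF.the | with_reducible apply IntF.irec | with_reducible apply IntF.succ | with_reducible apply IntF.val | (with_reducible refine Int.comp ?_ ?_; assumption) | (with_reducible refine Int.comp₂ ?_ ?_ ?_; assumption) | (with_reducible refine Int.comp₃ ?_ ?_ ?_ ?_; assumption) | (with_reducible refine Int.comp₄ ?_ ?_ ?_ ?_ ?_; assumption) | (with_reducible refine IntF.comp ?_ ?_; assumption) | (with_reducible refine IntF.comp₂ ?_ ?_ ?_; assumption) | (with_reducible refine IntF.comp₃ ?_ ?_ ?_ ?_; assumption) | with_reducible apply IntF.mk | with_reducible apply IntF.pair))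
    exact iwo_least hI (p := fun i => ∃ u, F i u v) h4 (hFc v hv)
  have hRk2 : ∀ {v i i'}, Rk lt F v i → Rk lt F v i' → i = i' := by
    intro v i i' h4 h5
    exact iwo_unique hI (p := fun i => ∃ u, F i u v) h4.1 h4.2 h5.1 h5.2
  have hRw1 : ∀ v, (∃ j, W j v) → ∃ j, Rw lt'' W v j := by
    intro v hv
    have h4 : Int M (fun i => W i v) := by (repeat' (first | with_reducible exact IntF.id | with_reducible exact IntF.fst' | with_reducible exact IntF.snd' | with_reducible exact IntF.const _ | with_reducible exact Int.const _ | assumption | with_reducible apply Int.and | with_reducible apply Int.or | with_reducible apply Int.not | with_reducible apply Int.imp | with_reducible apply Int.iff | with_reducible apply Int.ne | with_reducible apply Int.eq | with_reducible apply Int.mem | with_reducible apply Int.subset | with_reducible apply Int.ltN | with_reducible apply Int.leN | with_reducible_and_instances apply Helper672.ZFA.Int.le | with_reducible_and_instances apply Helper672.ZFA.Int.lt | with_reducible apply Int.all | with_reducible apply Int.ex | with_reducible apply IntF.fst | with_reducible apply IntF.snd | with_reducible apply IntF.app | with_reducible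 apply IntF.inl | with_reducible apply IntF.inr | with_reducible apply Int.fin | with_reducible apply IntF.sep | with_reducible apply IntF.lam | with_reducible apply IntF.insert | with_reducible apply IntF.singleton | with_reducible apply IntF.union | with_reducible apply IntF.iimage | with_reducible apply IntF.ite | with_reducible apply IntF.the | with_reducible apply IntF.irec | with_reducible apply IntF.succ | with_reducible apply IntF.val | (with_reducible refine Int.comp ?_ ?_; assumption) | (with_reducible refine Int.comp₂ ?_ ?_ ?_; assumption) | (with_reducible refine Int.comp₃ ?_ ?_ ?_ ?_; assumption) | (with_reducible refine Int.comp₄ ?_ ?_ ?_ ?_ ?_; assumption) | (with_reducible refine IntF.comp ?_ ?_; assumption) | (with_reducible refine IntF.comp₂ ?_ ?_ ?_; assumption) | (with_reducible refine IntF.comp₃ ?_ ?_ ?_ ?_; assumption) | with_reducible apply IntF.mk | with_reducible apply IntF.pair))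
    exact iwo_least hI'' (p := fun j => W j v) h4 hv
  have hRw2 : ∀ {v i i'}, Rw lt'' W v i → Rw lt'' W v i' → i = i' := by
    intro v i i' h4 h5
    exact iwo_unique hI'' (p := fun i => W i v) h4.1 h4.2 h5.1 h5.2
  have hdec : ∀ r v, A r v → A 0 v := by
    refine INat.ind (by (repeat' (first | with_reducible exact IntF.id | with_reducible exact IntF.fst' | with_reducible exact IntF.snd' | with_reducible exact IntF.const _ | with_reducible exact Int.const _ | assumption | with_reducible apply Int.and | with_reducible apply Int.or | with_reducible apply Int.not | with_reducible apply Int.imp | with_reducible apply Int.iff | with_reducible apply Int.ne | with_reducible apply Int.eq | with_reducible apply Int.mem | with_reducible apply Int.subset | with_reducible apply Int.ltN | with_reducible apply Int.leN | with_reducible_and_instances apply Helper672.ZFA.Int.le | with_reducible_and_instances apply Helper672.ZFA.Int.lt | with_reducible apply Int.all | with_reducible apply Int.ex | with_reducible apply IntF.fst | with_reducible apply IntF.snd | with_reducible apply IntF.app | with_reducible apply IntF.inl | with_reducible apply IntF.inr | with_reducible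 apply Int.fin | with_reducible apply IntF.sep | with_reducible apply IntF.lam | with_reducible apply IntF.insert | with_reducible apply IntF.singleton | with_reducible apply IntF.union | with_reducible apply IntF.iimage | with_reducible apply IntF.ite | with_reducible apply IntF.the | with_reducible apply IntF.irec | with_reducible apply IntF.succ | with_reducible apply IntF.val | (with_reducible refine Int.comp ?_ ?_; assumption) | (with_reducible refine Int.comp₂ ?_ ?_ ?_; assumption) | (with_reducible refine Int.comp₃ ?_ ?_ ?_ ?_; assumption) | (with_reducible refine Int.comp₄ ?_ ?_ ?_ ?_ ?_; assumption) | (with_reducible refine IntF.comp ?_ ?_; assumption) | (with_reducible refine IntF.comp₂ ?_ ?_ ?_; assumption) | (with_reducible refine IntF.comp₃ ?_ ?_ ?_ ?_; assumption) | with_reducible apply IntF.mk | with_reducible apply IntF.pair))) (fun v h => h) fun r ih v h => ih v (hd r v h)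
  have hZ : Int M (fun q : INat M × I => ∃ v, A q.1 v ∧ (∀ j, ¬ W j v) ∧ Rk lt F v q.2) := by (repeat' (first | with_reducible exact IntF.id | with_reducible exact IntF.fst' | with_reducible exact IntF.snd' | with_reducible exact IntF.const _ | with_reducible exact Int.const _ | assumption | with_reducible apply Int.and | with_reducible apply Int.or | with_reducible apply Int.not | with_reducible apply Int.imp | with_reducible apply Int.iff | with_reducible apply Int.ne | with_reducible apply Int.eq | with_reducible apply Int.mem | with_reducible apply Int.subset | with_reducible apply Int.ltN | with_reducible apply Int.leN | with_reducible_and_instances apply Helper672.ZFA.Int.le | with_reducible_and_instances apply Helper672.ZFA.Int.lt | with_reducible apply Int.all | with_reducible apply Int.ex | with_reducible apply IntF.fst | with_reducible apply IntF.snd | with_reducible apply IntF.app | with_reducible apply IntF.inl | with_reducible apply IntF.inr | with_reducible apply Int.fin | with_reducible apply IntF.sep | with_reducible apply IntF.lam | with_reducible apply IntF.insert | with_reducible apply IntF.singleton | with_reducible apply IntF.union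 | with_reducible apply IntF.iimage | with_reducible apply IntF.ite | with_reducible apply IntF.the | with_reducible apply IntF.irec | with_reducible apply IntF.succ | with_reducible apply IntF.val | (with_reducible refine Int.comp ?_ ?_; assumption) | (with_reducible refine Int.comp₂ ?_ ?_ ?_; assumption) | (with_reducible refine Int.comp₃ ?_ ?_ ?_ ?_; assumption) | (with_reducible refine Int.comp₄ ?_ ?_ ?_ ?_ ?_; assumption) | (with_reducible refine IntF.comp ?_ ?_; assumption) | (with_reducible refine IntF.comp₂ ?_ ?_ ?_; assumption) | (with_reducible refine IntF.comp₃ ?_ ?_ ?_ ?_; assumption) | with_reducible apply IntF.mk | with_reducible apply IntF.pair))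
  have hY : Int M (fun q : INat M × I'' => ∃ v, A q.1 v ∧ Rw lt'' W v q.2) := by (repeat' (first | with_reducible exact IntF.id | with_reducible exact IntF.fst' | with_reducible exact IntF.snd' | with_reducible exact IntF.const _ | with_reducible exact Int.const _ | assumption | with_reducible apply Int.and | with_reducible apply Int.or | with_reducible apply Int.not | with_reducible apply Int.imp | with_reducible apply Int.iff | with_reducible apply Int.ne | with_reducible apply Int.eq | with_reducible apply Int.mem | with_reducible apply Int.subset | with_reducible apply Int.ltN | with_reducible apply Int.leN | with_reducible_and_instances apply Helper672.ZFA.Int.le | with_reducible_and_instances apply Helper672.ZFA.Int.lt | with_reducible apply Int.all | with_reducible apply Int.ex | with_reducible apply IntF.fst | with_reducible apply IntF.snd | with_reducible apply IntF.app | with_reducible apply IntF.inl | with_reducible apply IntF.inr | with_reducible apply Int.fin | with_reducible apply IntF.sep | with_reducible apply IntF.lam | with_reducible apply IntF.insert | with_reducible apply IntF.singleton | with_reducible apply IntF.union | with_reducible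 apply IntF.iimage | with_reducible apply IntF.ite | with_reducible apply IntF.the | with_reducible apply IntF.irec | with_reducible apply IntF.succ | with_reducible apply IntF.val | (with_reducible refine Int.comp ?_ ?_; assumption) | (with_reducible refine Int.comp₂ ?_ ?_ ?_; assumption) | (with_reducible refine Int.comp₃ ?_ ?_ ?_ ?_; assumption) | (with_reducible refine Int.comp₄ ?_ ?_ ?_ ?_ ?_; assumption) | (with_reducible refine IntF.comp ?_ ?_; assumption) | (with_reducible refine IntF.comp₂ ?_ ?_ ?_; assumption) | (with_reducible refine IntF.comp₃ ?_ ?_ ?_ ?_; assumption) | with_reducible apply IntF.mk | with_reducible apply IntF.pair))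
  obtain ⟨r₁, hr₁⟩ := exists_stab' hI (X := fun r i => ∃ v, A r v ∧ (∀ j, ¬ W j v) ∧
    Rk lt F v i) hZ (by
      rintro r i ⟨v, h4, h5⟩
      exact ⟨v, hd r v h4, h5⟩)
  obtain ⟨r₂, hr₂⟩ := exists_stab' hI'' (X := fun r i => ∃ v, A r v ∧ Rw lt'' W v i) hY (by
      rintro r i ⟨v, h4, h5⟩
      exact ⟨v, hd r v h4, h5⟩)
  obtain ⟨g, g1, g2, g3⟩ := hr₁ (max r₁ r₂) (le_max_left _ _)
  obtain ⟨k, k1, k2, k3⟩ := hr₂ (max r₁ r₂) (le_max_right _ _)
  generalize max r₁ r₂ = r at g1 k1
  refine ⟨r, Or.inr ?_⟩
  have hGi : Int M (fun q : I × I' => Gi lt F W Φ (A r.succ) q.1 q.2) := by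
    have h4 : Int M (A r.succ) := hA.slice _
    unfold Gi
    (repeat' (first | with_reducible exact IntF.id | with_reducible exact IntF.fst' | with_reducible exact IntF.snd' | with_reducible exact IntF.const _ | with_reducible exact Int.const _ | assumption | with_reducible apply Int.and | with_reducible apply Int.or | with_reducible apply Int.not | with_reducible apply Int.imp | with_reducible apply Int.iff | with_reducible apply Int.ne | with_reducible apply Int.eq | with_reducible apply Int.mem | with_reducible apply Int.subset | with_reducible apply Int.ltN | with_reducible apply Int.leN | with_reducible_and_instances apply Helper672.ZFA.Int.le | with_reducible_and_instances apply Helper672.ZFA.Int.lt | with_reducible apply Int.all | with_reducible apply Int.ex | with_reducible apply IntF.fst | with_reducible apply IntF.snd | with_reducible apply IntF.app | with_reducible apply IntF.inl | with_reducible apply IntF.inr | with_reducible apply Int.fin | with_reducible apply IntF.sep | with_reducible apply IntF.lam | with_reducible apply IntF.insert | with_reducible apply IntF.singleton | with_reducible apply IntF.union | with_reducible apply IntF.iimage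 | with_reducible apply IntF.ite | with_reducible apply IntF.the | with_reducible apply IntF.irec | with_reducible apply IntF.succ | with_reducible apply IntF.val | (with_reducible refine Int.comp ?_ ?_; assumption) | (with_reducible refine Int.comp₂ ?_ ?_ ?_; assumption) | (with_reducible refine Int.comp₃ ?_ ?_ ?_ ?_; assumption) | (with_reducible refine Int.comp₄ ?_ ?_ ?_ ?_ ?_; assumption) | (with_reducible refine IntF.comp ?_ ?_; assumption) | (with_reducible refine IntF.comp₂ ?_ ?_ ?_; assumption) | (with_reducible refine IntF.comp₃ ?_ ?_ ?_ ?_; assumption) | with_reducible apply IntF.mk | with_reducible apply IntF.pair))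
  have hL : Int M (fun q : I × I' => Gi lt F W Φ (A r.succ) q.1 q.2 ∧
    ∀ ι', Gi lt F W Φ (A r.succ) q.1 ι' → ¬ lt' ι' q.2) := by (repeat' (first | with_reducible exact IntF.id | with_reducible exact IntF.fst' | with_reducible exact IntF.snd' | with_reducible exact IntF.const _ | with_reducible exact Int.const _ | assumption | with_reducible apply Int.and | with_reducible apply Int.or | with_reducible apply Int.not | with_reducible apply Int.imp | with_reducible apply Int.iff | with_reducible apply Int.ne | with_reducible apply Int.eq | with_reducible apply Int.mem | with_reducible apply Int.subset | with_reducible apply Int.ltN | with_reducible apply Int.leN | with_reducible_and_instances apply Helper672.ZFA.Int.le | with_reducible_and_instances apply Helper672.ZFA.Int.lt | with_reducible apply Int.all | with_reducible apply Int.ex | with_reducible apply IntF.fst | with_reducible apply IntF.snd | with_reducible apply IntF.app | with_reducible apply IntF.inl | with_reducible apply IntF.inr | with_reducible apply Int.fin | with_reducible apply IntF.sep | with_reducible apply IntF.lam | with_reducible apply IntF.insert | with_reducible apply IntF.singleton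 | with_reducible apply IntF.union | with_reducible apply IntF.iimage | with_reducible apply IntF.ite | with_reducible apply IntF.the | with_reducible apply IntF.irec | with_reducible apply IntF.succ | with_reducible apply IntF.val | (with_reducible refine Int.comp ?_ ?_; assumption) | (with_reducible refine Int.comp₂ ?_ ?_ ?_; assumption) | (with_reducible refine Int.comp₃ ?_ ?_ ?_ ?_; assumption) | (with_reducible refine Int.comp₄ ?_ ?_ ?_ ?_ ?_; assumption) | (with_reducible refine IntF.comp ?_ ?_; assumption) | (with_reducible refine IntF.comp₂ ?_ ?_ ?_; assumption) | (with_reducible refine IntF.comp₃ ?_ ?_ ?_ ?_; assumption) | with_reducible apply IntF.mk | with_reducible apply IntF.pair))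
  have hT : Int M (fun q : V × V => A r q.2 ∧
      ((∃ j j', Rw lt'' W q.1 j' ∧ Rw lt'' W q.2 j ∧ (j, j') ∈ k) ∨
      ((∀ j, ¬ W j q.1) ∧ ∃ i i' ι u, Rk lt F q.1 i' ∧ (i, i') ∈ g ∧
        (Gi lt F W Φ (A r.succ) i' ι ∧ ∀ ι', Gi lt F W Φ (A r.succ) i' ι' → ¬ lt' ι' ι) ∧
        Φ ι u q.1 ∧ F i u q.2))) := by
    have h4 : Int M (A r) := hA.slice _
    (repeat' (first | with_reducible exact IntF.id | with_reducible exact IntF.fst' | with_reducible exact IntF.snd' | with_reducible exact IntF.const _ | with_reducible exact Int.const _ | assumption | with_reducible apply Int.and | with_reducible apply Int.or | with_reducible apply Int.not | with_reducible apply Int.imp | with_reducible apply Int.iff | with_reducible apply Int.ne | with_reducible apply Int.eq | with_reducible apply Int.mem | with_reducible apply Int.subset | with_reducible apply Int.ltN | with_reducible apply Int.leN | with_reducible_and_instances apply Helper672.ZFA.Int.le | with_reducible_and_instances apply Helper672.ZFA.Int.lt | with_reducible apply Int.all | with_reducible apply Int.ex | with_reducible apply IntF.fst | with_reducible apply IntF.snd | with_reducible apply IntF.app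 | with_reducible apply IntF.inl | with_reducible apply IntF.inr | with_reducible apply Int.fin | with_reducible apply IntF.sep | with_reducible apply IntF.lam | with_reducible apply IntF.insert | with_reducible apply IntF.singleton | with_reducible apply IntF.union | with_reducible apply IntF.iimage | with_reducible apply IntF.ite | with_reducible apply IntF.the | with_reducible apply IntF.irec | with_reducible apply IntF.succ | with_reducible apply IntF.val | (with_reducible refine Int.comp ?_ ?_; assumption) | (with_reducible refine Int.comp₂ ?_ ?_ ?_; assumption) | (with_reducible refine Int.comp₃ ?_ ?_ ?_ ?_; assumption) | (with_reducible refine Int.comp₄ ?_ ?_ ?_ ?_ ?_; assumption) | (with_reducible refine IntF.comp ?_ ?_; assumption) | (with_reducible refine IntF.comp₂ ?_ ?_ ?_; assumption) | (with_reducible refine IntF.comp₃ ?_ ?_ ?_ ?_; assumption) | with_reducible apply IntF.mk | with_reducible apply IntF.pair))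
  refine ⟨sep M fun q : V × V => A r q.2 ∧
      ((∃ j j', Rw lt'' W q.1 j' ∧ Rw lt'' W q.2 j ∧ (j, j') ∈ k) ∨
      ((∀ j, ¬ W j q.1) ∧ ∃ i i' ι u, Rk lt F q.1 i' ∧ (i, i') ∈ g ∧
        (Gi lt F W Φ (A r.succ) i' ι ∧ ∀ ι', Gi lt F W Φ (A r.succ) i' ι' → ¬ lt' ι' ι) ∧
        Φ ι u q.1 ∧ F i u q.2)), ?_, ?_, ?_⟩
  · intro v v' v'' h4 h5
    obtain ⟨h6, h7⟩ := (mem_sep hT).1 h4
    obtain ⟨h8, h9⟩ := (mem_sep hT).1 h5
    rcases h7 with ⟨j, j', a1, a2, a3⟩ | ⟨a0, i, i', ι, u, a1, a2, a3, a4, a5⟩
    · rcases h9 with ⟨l, l', b1, b2, b3⟩ | ⟨b0, -⟩
      · dsimp only at a1 a2 a3 b1 b2 b3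
        obtain rfl := hRw2 a1 b1
        obtain rfl := k3 _ _ _ a3 b3
        exact hWf _ _ _ a2.1 b2.1
      · exact absurd a1.1 (b0 j')
    · rcases h9 with ⟨l, l', b1, b2, b3⟩ | ⟨b0, l, l', κ, w, b1, b2, b3, b4, b5⟩
      · exact absurd b1.1 (a0 l')
      · dsimp only at a1 a2 a3 a4 a5 b1 b2 b3 b4 b5
        obtain rfl := hRk2 a1 b1
        obtain rfl := g3 _ _ _ a2 b2
        obtain rfl := iwo_unique hI' (p := fun ι => Gi lt F W Φ (A r.succ) i' ι) a3.1 a3.2
          b3.1 b3.2
        obtain rfl := a3.1.2.1 _ _ _ a4 b4
        exact hFf _ _ _ _ a5 b5
  · intro v v' h4
    exact ((mem_sep hT).1 h4).1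
  · intro v hv
    by_cases h4 : ∃ j, W j v
    · obtain ⟨j, hj⟩ := hRw1 v h4
      obtain ⟨j', ⟨v', h5, h6⟩, h7⟩ := k1 j ⟨v, hv, hj⟩
      exact ⟨v', h5, (mem_sep hT).2 ⟨hv, Or.inl ⟨j, j', h6, hj, h7⟩⟩⟩
    · push Not at h4
      obtain ⟨i, hi⟩ := hRk1 v (hdec r v hv)
      obtain ⟨u, hu⟩ := hi.1
      obtain ⟨i', ⟨v'', h5, h6, h6'⟩, h7⟩ := g1 i ⟨v, hv, h4, hi⟩
      obtain ⟨ι, hι, hι'⟩ := iwo_least hI' (p := fun ι => Gi lt F W Φ (A r.succ) i' ι) (by (repeat' (first | with_reducible exact IntF.id | with_reducible exact IntF.fst' | with_reducible exact IntF.snd' | with_reducible exact IntF.const _ | with_reducible exact Int.const _ | assumption | with_reducible apply Int.and | with_reducible apply Int.or | with_reducible apply Int.not | with_reducible apply Int.imp | with_reducible apply Int.iff | with_reducible apply Int.ne | with_reducible apply Int.eq | with_reducible apply Int.mem | with_reducible apply Int.subset | with_reducible apply Int.ltN | with_reducible apply Int.leN | with_reducible_and_instances apply Helper672.ZFA.Int.le | with_reducible_and_instances apply Helper672.ZFA.Int.lt | with_reducible apply Int.all | with_reducible apply Int.ex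 | with_reducible apply IntF.fst | with_reducible apply IntF.snd | with_reducible apply IntF.app | with_reducible apply IntF.inl | with_reducible apply IntF.inr | with_reducible apply Int.fin | with_reducible apply IntF.sep | with_reducible apply IntF.lam | with_reducible apply IntF.insert | with_reducible apply IntF.singleton | with_reducible apply IntF.union | with_reducible apply IntF.iimage | with_reducible apply IntF.ite | with_reducible apply IntF.the | with_reducible apply IntF.irec | with_reducible apply IntF.succ | with_reducible apply IntF.val | (with_reducible refine Int.comp ?_ ?_; assumption) | (with_reducible refine Int.comp₂ ?_ ?_ ?_; assumption) | (with_reducible refine Int.comp₃ ?_ ?_ ?_ ?_; assumption) | (with_reducible refine Int.comp₄ ?_ ?_ ?_ ?_ ?_; assumption) | (with_reducible refine IntF.comp ?_ ?_; assumption) | (with_reducible refine IntF.comp₂ ?_ ?_ ?_; assumption) | (with_reducible refine IntF.comp₃ ?_ ?_ ?_ ?_; assumption) | with_reducible apply IntF.mk | with_reducible apply IntF.pair)))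
        (h3 r.succ i' v'' h5 h6 h6')
      obtain ⟨v', h8⟩ := hι.1 u
      obtain ⟨h9, h10, h11⟩ := hι.2.2 u v' h8
      exact ⟨v', h9, (mem_sep hT).2 ⟨hv, Or.inr ⟨h10, i, i', ι, u, h11, h7, ⟨hι, hι'⟩, h8,
        hu⟩⟩⟩

end

end Pool.Agent.Y580
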