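import Pool.Agent.Y580.C3

/-!
# Sets that are given by two well-ordered sets up to surjections
-/

set_option maxHeartbeats 400000
set_option linter.all false
set_option synthInstance.maxSize 2000

namespace Pool.Agent.Y580

open FirstOrder FirstOrder.Language
open Pool.Agent.Helper672
open Pool.Agent.Helper672.ZFA
open Pool.Agent.Helper672.ZFA.H635 (IWO)

universe u

section

variable {M : Type u} [L.Structure M] [hM : IsModel M]

variable (M) in
/-- There is an internal partial surjection from `p` onto `q`. -/
def PSu {γ ε : Type u} [ITy M γ] [ITy M ε] (p : γ → Prop) (q : ε → Prop) : Prop :=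
  ∃ R : IPow M (γ × ε), (∀ a b b', (a, b) ∈ R → (a, b') ∈ R → b = b') ∧
    ∀ b, q b → ∃ a, p a ∧ (a, b) ∈ R

theorem PSu.trans {γ ε ζ : Type u} [ITy M γ] [ITy M ε] [ITy M ζ] {p : γ → Prop} {q : ε → Prop}
    {r : ζ → Prop} (h : PSu M p q) (h' : PSu M q r) : PSu M p r := by
  obtain ⟨R, h1, h2⟩ := h
  obtain ⟨R', h1', h2'⟩ := h'
  have hi : ZFA.Int M (fun w : γ × ζ => ∃ c, (w.1, c) ∈ R ∧ (c, w.2) ∈ R') := by (repeat' (first | with_reducible exact IntF.id | with_reducible exact IntF.fst' | with_reducible exact IntF.snd' | with_reducible exact IntF.const _ | with_reducible exact Int.const _ | assumption | with_reducible apply Int.and | with_reducible apply Int.or | with_reducible apply Int.not | with_reducible apply Int.imp | with_reducible apply Int.iff | with_reducible apply Int.ne | with_reducible apply Int.eq | with_reducible apply Int.mem | with_reducible apply Int.subset | with_reducible apply Int.ltN | with_reducible apply Int.leN | with_reducible_and_instances apply Helper672.ZFA.Int.le | with_reducible_and_instances apply Helper672.ZFA.Int.lt | with_reducible apply Int.all | with_reducible apply Int.ex | with_reducible apply IntF.fst | with_reducible apply IntF.snd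 | with_reducible apply IntF.app | with_reducible apply IntF.inl | with_reducible apply IntF.inr | with_reducible apply Int.fin | with_reducible apply IntF.sep | with_reducible apply IntF.lam | with_reducible apply IntF.insert | with_reducible apply IntF.singleton | with_reducible apply IntF.union | with_reducible apply IntF.iimage | with_reducible apply IntF.ite | with_reducible apply IntF.the | with_reducible apply IntF.irec | with_reducible apply IntF.succ | with_reducible apply IntF.val | (with_reducible refine Int.comp ?_ ?_; assumption) | (with_reducible refine Int.comp₂ ?_ ?_ ?_; assumption) | (with_reducible refine Int.comp₃ ?_ ?_ ?_ ?_; assumption) | (with_reducible refine Int.comp₄ ?_ ?_ ?_ ?_ ?_; assumption) | (with_reducible refine IntF.comp ?_ ?_; assumption) | (with_reducible refine IntF.comp₂ ?_ ?_ ?_; assumption) | (with_reducible refine IntF.comp₃ ?_ ?_ ?_ ?_; assumption) | with_reducible apply IntF.mk | with_reducible apply IntF.pair))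
  refine ⟨sep M fun w : γ × ζ => ∃ c, (w.1, c) ∈ R ∧ (c, w.2) ∈ R', fun a b b' h3 h4 => ?_,
    fun c hc => ?_⟩
  · obtain ⟨c, h5, h6⟩ := (mem_sep hi).1 h3
    obtain ⟨c', h7, h8⟩ := (mem_sep hi).1 h4
    dsimp only at h5 h6 h7 h8
    obtain rfl := h1 _ _ _ h5 h7
    exact h1' _ _ _ h6 h8
  · obtain ⟨b, hb, h3⟩ := h2' c hc
    obtain ⟨a, ha, h4⟩ := h2 b hb
    exact ⟨a, ha, (mem_sep hi).2 ⟨b, h4, h3⟩⟩

theorem PSu.refl {γ : Type u} [ITy M γ] (p : γ → Prop) : PSu M p p := by
  have hi : ZFA.Int M (fun w : γ × γ => w.1 = w.2) := by (repeat' (first | with_reducible exact IntF.id | with_reducible exact IntF.fst' | with_reducible exact IntF.snd' | with_reducible exact IntF.const _ | with_reducible exact Int.const _ | assumption | with_reducible apply Int.and | with_reducible apply Int.or | with_reducible apply Int.not | with_reducible apply Int.imp | with_reducible apply Int.iff | with_reducible apply Int.ne | with_reducible apply Int.eq | with_reducible apply Int.mem | with_reducible apply Int.subset | with_reducible apply Int.ltN | with_reducible apply Int.leN | with_reducible_and_instances apply Helper672.ZFA.Int.le | with_reducible_and_instances apply Helper672.ZFA.Int.lt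 | with_reducible apply Int.all | with_reducible apply Int.ex | with_reducible apply IntF.fst | with_reducible apply IntF.snd | with_reducible apply IntF.app | with_reducible apply IntF.inl | with_reducible apply IntF.inr | with_reducible apply Int.fin | with_reducible apply IntF.sep | with_reducible apply IntF.lam | with_reducible apply IntF.insert | with_reducible apply IntF.singleton | with_reducible apply IntF.union | with_reducible apply IntF.iimage | with_reducible apply IntF.ite | with_reducible apply IntF.the | with_reducible apply IntF.irec | with_reducible apply IntF.succ | with_reducible apply IntF.val | (with_reducible refine Int.comp ?_ ?_; assumption) | (with_reducible refine Int.comp₂ ?_ ?_ ?_; assumption) | (with_reducible refine Int.comp₃ ?_ ?_ ?_ ?_; assumption) | (with_reducible refine Int.comp₄ ?_ ?_ ?_ ?_ ?_; assumption) | (with_reducible refine IntF.comp ?_ ?_; assumption) | (with_reducible refine IntF.comp₂ ?_ ?_ ?_; assumption) | (with_reducible refine IntF.comp₃ ?_ ?_ ?_ ?_; assumption) | with_reducible apply IntF.mk | with_reducible apply IntF.pair))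
  exact ⟨sep M fun w : γ × γ => w.1 = w.2, fun a b b' h3 h4 =>
    ((mem_sep hi).1 h3).symm.trans ((mem_sep hi).1 h4), fun b hb => ⟨b, hb, (mem_sep hi).2 rfl⟩⟩

variable {V U I I' I'' : Type u} [ITy M V] [ITy M U] [ITy M I] [ITy M I'] [ITy M I'']

variable (M U) in
/-- `X` is the union of `Y` and `Z × U` up to surjections. -/
def Dec (X : V → Prop) (Z : I → Prop) (Y : I'' → Prop) : Prop :=
  (∃ (R₁ : IPow M (I'' × V)) (R₂ : IPow M ((I × U) × V)),
    (∀ j v v', (j, v) ∈ R₁ → (j, v') ∈ R₁ → v = v') ∧
    (∀ w v v', (w, v) ∈ R₂ → (w, v') ∈ R₂ → v = v') ∧
    ∀ v, X v → (∃ j, Y j ∧ (j, v) ∈ R₁) ∨ ∃ i u, Z i ∧ ((i, u), v) ∈ R₂) ∧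
  ∃ (S₁ : IPow M (V × I'')) (S₂ : IPow M (V × (I × U))),
    (∀ v j j', (v, j) ∈ S₁ → (v, j') ∈ S₁ → j = j') ∧
    (∀ v w w', (v, w) ∈ S₂ → (v, w') ∈ S₂ → w = w') ∧
    (∀ v j w, (v, j) ∈ S₁ → ¬ (v, w) ∈ S₂) ∧
    (∀ j, Y j → ∃ v, X v ∧ (v, j) ∈ S₁) ∧ ∀ i u, Z i → ∃ v, X v ∧ (v, (i, u)) ∈ S₂

theorem dec_mono {X X' : V → Prop} {Z Z' : I → Prop} {Y Y' : I'' → Prop}
    (h : Dec M U X Z Y) (h' : Dec M U X' Z' Y') (hZ : Emb M Z Z') (hY : Emb M Y Y') :
    PSu M X' X := by
  obtain ⟨⟨R₁, R₂, a1, a2, a3⟩, -⟩ := h
  obtain ⟨-, S₁, S₂, b1, b2, b3, b4, b5⟩ := h'
  obtain ⟨e, e1, e2, e3⟩ := hZ
  obtain ⟨k, k1, k2, k3⟩ := hY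
  have hi : ZFA.Int M (fun w : V × V =>
      (∃ j' j, (w.1, j') ∈ S₁ ∧ (j, j') ∈ k ∧ (j, w.2) ∈ R₁) ∨
        ∃ i' i u, (w.1, (i', u)) ∈ S₂ ∧ (i, i') ∈ e ∧ ((i, u), w.2) ∈ R₂) := by (repeat' (first | with_reducible exact IntF.id | with_reducible exact IntF.fst' | with_reducible exact IntF.snd' | with_reducible exact IntF.const _ | with_reducible exact Int.const _ | assumption | with_reducible apply Int.and | with_reducible apply Int.or | with_reducible apply Int.not | with_reducible apply Int.imp | with_reducible apply Int.iff | with_reducible apply Int.ne | with_reducible apply Int.eq | with_reducible apply Int.mem | with_reducible apply Int.subset | with_reducible apply Int.ltN | with_reducible apply Int.leN | with_reducible_and_instances apply Helper672.ZFA.Int.le | with_reducible_and_instances apply Helper672.ZFA.Int.lt | with_reducible apply Int.all | with_reducible apply Int.ex | with_reducible apply IntF.fst | with_reducible apply IntF.snd | with_reducible apply IntF.app | with_reducible apply IntF.inl | with_reducible apply IntF.inr | with_reducible apply Int.fin | with_reducible apply IntF.sep | with_reducible apply IntF.lam | with_reducible apply IntF.insert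 | with_reducible apply IntF.singleton | with_reducible apply IntF.union | with_reducible apply IntF.iimage | with_reducible apply IntF.ite | with_reducible apply IntF.the | with_reducible apply IntF.irec | with_reducible apply IntF.succ | with_reducible apply IntF.val | (with_reducible refine Int.comp ?_ ?_; assumption) | (with_reducible refine Int.comp₂ ?_ ?_ ?_; assumption) | (with_reducible refine Int.comp₃ ?_ ?_ ?_ ?_; assumption) | (with_reducible refine Int.comp₄ ?_ ?_ ?_ ?_ ?_; assumption) | (with_reducible refine IntF.comp ?_ ?_; assumption) | (with_reducible refine IntF.comp₂ ?_ ?_ ?_; assumption) | (with_reducible refine IntF.comp₃ ?_ ?_ ?_ ?_; assumption) | with_reducible apply IntF.mk | with_reducible apply IntF.pair))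
  refine ⟨sep M fun w : V × V =>
      (∃ j' j, (w.1, j') ∈ S₁ ∧ (j, j') ∈ k ∧ (j, w.2) ∈ R₁) ∨
        ∃ i' i u, (w.1, (i', u)) ∈ S₂ ∧ (i, i') ∈ e ∧ ((i, u), w.2) ∈ R₂,
    fun v x x' h3 h4 => ?_, fun x hx => ?_⟩
  · rcases (mem_sep hi).1 h3 with ⟨j', j, c1, c2, c3⟩ | ⟨i', i, u, c1, c2, c3⟩
    · rcases (mem_sep hi).1 h4 with ⟨l', l, d1, d2, d3⟩ | ⟨l', l, w, d1, d2, d3⟩
      · dsimp only at c1 c2 c3 d1 d2 d3
        obtain rfl := b1 _ _ _ c1 d1
        obtain rfl := k3 _ _ _ c2 d2
        exact a1 _ _ _ c3 d3
      · exact absurd d1 (b3 _ _ _ c1)
    · rcases (mem_sep hi).1 h4 with ⟨l', l, d1, d2, d3⟩ | ⟨l', l, w, d1, d2, d3⟩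
      · exact absurd c1 (b3 _ _ _ d1)
      · dsimp only at c1 c2 c3 d1 d2 d3
        obtain ⟨rfl, rfl⟩ := Prod.mk.inj (b2 _ _ _ c1 d1)
        obtain rfl := e3 _ _ _ c2 d2
        exact a2 _ _ _ c3 d3
  · rcases a3 x hx with ⟨j, hj, c1⟩ | ⟨i, u, hi', c1⟩
    · obtain ⟨j', hj', c2⟩ := k1 j hj
      obtain ⟨v, hv, c3⟩ := b4 j' hj'
      exact ⟨v, hv, (mem_sep hi).2 (Or.inl ⟨j', j, c3, c2, c1⟩)⟩
    · obtain ⟨i', hi'', c2⟩ := e1 i hi'
      obtain ⟨v, hv, c3⟩ := b5 i' u hi''
      exact ⟨v, hv, (mem_sep hi).2 (Or.inr ⟨i', i, u, c3, c2, c1⟩)⟩

/-! ### The comparison of subsets of a well-ordered type -/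

section

variable {δ : Type u} [ITy M δ] {lt : δ → δ → Prop} (h : IWO M δ lt)

include h in
theorem emb_least {A : IPow M δ → Prop} (hA : ZFA.Int M A) (hne : ∃ p, A p) :
    ∃ p, A p ∧ ∀ q, A q → Emb M (fun a => a ∈ p) (fun a => a ∈ q) := by
  have hl := h.int
  have hcol : ∀ q : IPow M δ, Emb M (fun _ => True) (fun a => a ∈ q) ∨
      ∃ a, Emb M (fun a => a ∈ q) (fun i => lt i a) ∧
        Emb M (fun i => lt i a) (fun a => a ∈ q) := by
    intro q
    obtain ⟨R, h1, h2, h3, h4⟩ := exists_collapse h q
    rcases h4 with h4 | ⟨a, h5, h6, h7⟩
    · left
      refine ⟨R, fun i _ => ?_, h1, h2⟩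
      obtain ⟨y, hy⟩ := h4 i
      exact ⟨y, h3 i y hy, hy⟩
    · right
      refine ⟨a, ?_, ?_⟩
      · have hi : ZFA.Int M (fun q : δ × δ => (q.2, q.1) ∈ R) := by (repeat' (first | with_reducible exact IntF.id | with_reducible exact IntF.fst' | with_reducible exact IntF.snd' | with_reducible exact IntF.const _ | with_reducible exact Int.const _ | assumption | with_reducible apply Int.and | with_reducible apply Int.or | with_reducible apply Int.not | with_reducible apply Int.imp | with_reducible apply Int.iff | with_reducible apply Int.ne | with_reducible apply Int.eq | with_reducible apply Int.mem | with_reducible apply Int.subset | with_reducible apply Int.ltN | with_reducible apply Int.leN | with_reducible_and_instances apply Helper672.ZFA.Int.le | with_reducible_and_instances apply Helper672.ZFA.Int.lt | with_reducible apply Int.all | with_reducible apply Int.ex | with_reducible apply IntF.fst | with_reducible apply IntF.snd | with_reducible apply IntF.app | with_reducible apply IntF.inl | with_reducible apply IntF.inr | with_reducible apply Int.fin | with_reducible apply IntF.sep | with_reducible apply IntF.lam | with_reducible apply IntF.insert | with_reducible apply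 IntF.singleton | with_reducible apply IntF.union | with_reducible apply IntF.iimage | with_reducible apply IntF.ite | with_reducible apply IntF.the | with_reducible apply IntF.irec | with_reducible apply IntF.succ | with_reducible apply IntF.val | (with_reducible refine Int.comp ?_ ?_; assumption) | (with_reducible refine Int.comp₂ ?_ ?_ ?_; assumption) | (with_reducible refine Int.comp₃ ?_ ?_ ?_ ?_; assumption) | (with_reducible refine Int.comp₄ ?_ ?_ ?_ ?_ ?_; assumption) | (with_reducible refine IntF.comp ?_ ?_; assumption) | (with_reducible refine IntF.comp₂ ?_ ?_ ?_; assumption) | (with_reducible refine IntF.comp₃ ?_ ?_ ?_ ?_; assumption) | with_reducible apply IntF.mk | with_reducible apply IntF.pair))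
        refine ⟨sep M fun q : δ × δ => (q.2, q.1) ∈ R, fun y hy => ?_, ?_, ?_⟩
        · obtain ⟨i, h8⟩ := h7 y hy
          exact ⟨i, h5 i y h8, (mem_sep hi).2 h8⟩
        · intro y i i' h8 h9
          exact h2 _ _ _ ((mem_sep hi).1 h8) ((mem_sep hi).1 h9)
        · intro y i i' h8 h9
          exact h1 _ _ _ ((mem_sep hi).1 h8) ((mem_sep hi).1 h9)
      · refine ⟨R, fun i hi => ?_, h1, h2⟩
        obtain ⟨y, hy⟩ := h6 i hi
        exact ⟨y, h3 i y hy, hy⟩
  by_cases hall : ∀ q, A q → Emb M (fun _ => True) (fun a => a ∈ q)
  · obtain ⟨p, hp⟩ := hne
    exact ⟨p, hp, fun q hq => (hall q hq).mono (fun _ _ => trivial) fun _ hi => hi⟩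
  push Not at hall
  obtain ⟨q₁, hq₁, hr₁⟩ := hall
  obtain ⟨a₁, ha₁, -⟩ := (hcol q₁).resolve_left hr₁
  have hi : ZFA.Int M (fun a => ∃ q, A q ∧ Emb M (fun a => a ∈ q) (fun i => lt i a)) := by
    unfold Emb
    (repeat' (first | with_reducible exact IntF.id | with_reducible exact IntF.fst' | with_reducible exact IntF.snd' | with_reducible exact IntF.const _ | with_reducible exact Int.const _ | assumption | with_reducible apply Int.and | with_reducible apply Int.or | with_reducible apply Int.not | with_reducible apply Int.imp | with_reducible apply Int.iff | with_reducible apply Int.ne | with_reducible apply Int.eq | with_reducible apply Int.mem | with_reducible apply Int.subset | with_reducible apply Int.ltN | with_reducible apply Int.leN | with_reducible_and_instances apply Helper672.ZFA.Int.le | with_reducible_and_instances apply Helper672.ZFA.Int.lt | with_reducible apply Int.all | with_reducible apply Int.ex | with_reducible apply IntF.fst | with_reducible apply IntF.snd | with_reducible apply IntF.app | with_reducible apply IntF.inl | with_reducible apply IntF.inr | with_reducible apply Int.fin | with_reducible apply IntF.sep | with_reducible apply IntF.lam | with_reducible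 apply IntF.insert | with_reducible apply IntF.singleton | with_reducible apply IntF.union | with_reducible apply IntF.iimage | with_reducible apply IntF.ite | with_reducible apply IntF.the | with_reducible apply IntF.irec | with_reducible apply IntF.succ | with_reducible apply IntF.val | (with_reducible refine Int.comp ?_ ?_; assumption) | (with_reducible refine Int.comp₂ ?_ ?_ ?_; assumption) | (with_reducible refine Int.comp₃ ?_ ?_ ?_ ?_; assumption) | (with_reducible refine Int.comp₄ ?_ ?_ ?_ ?_ ?_; assumption) | (with_reducible refine IntF.comp ?_ ?_; assumption) | (with_reducible refine IntF.comp₂ ?_ ?_ ?_; assumption) | (with_reducible refine IntF.comp₃ ?_ ?_ ?_ ?_; assumption) | with_reducible apply IntF.mk | with_reducible apply IntF.pair))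
  obtain ⟨a, ⟨p, hp, h1⟩, h2⟩ := iwo_least h hi ⟨a₁, q₁, hq₁, ha₁⟩
  refine ⟨p, hp, fun q hq => ?_⟩
  rcases hcol q with h3 | ⟨a', h3, h4⟩
  · exact h3.mono (fun _ _ => trivial) fun _ hi => hi
  · have h5 : ¬ lt a' a := h2 a' ⟨q, hq, h3⟩
    refine (h1.mono (fun _ hi => hi) (fun i hi => ?_)).trans h4
    rcases h.tri a' a with h6 | h6 | h6
    · exact absurd h6 h5
    · rw [h6]
      exact hi
    · exact iwo_trans h hi h6

include h in
theorem emb_ind {A : IPow M δ → Prop} (hA : ZFA.Int M A)
    (hs : ∀ p, (∀ q, ¬ Emb M (fun a => a ∈ p) (fun a => a ∈ q) → A q) → A p) : ∀ p, A p := by
  by_contra hc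
  push Not at hc
  obtain ⟨p, h1, h2⟩ := emb_least h (A := fun p => ¬ A p) (ZFA.Int.not hA) hc
  refine h1 (hs p fun q hq => ?_)
  by_contra h3
  exact hq (h2 q h3)

end

variable {lt : I → I → Prop} (hI : IWO M I lt) {lt'' : I'' → I'' → Prop} (hI'' : IWO M I'' lt'')

include hI hI'' in
/-- Sets of subsets have minimal elements. -/
theorem exists_min (H : ∀ X : IPow M V, ∃ (Z : IPow M I) (Y : IPow M I''),
    Dec M U (fun v => v ∈ X) (fun i => i ∈ Z) (fun j => j ∈ Y)) (S : IPow M (IPow M V))
    (hS : ∃ X, X ∈ S) : ∃ X, X ∈ S ∧ ∀ X', X' ∈ S →
      PSu M (fun v => v ∈ X) (fun v => v ∈ X') → PSu M (fun v => v ∈ X') (fun v => v ∈ X) := by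
  have hD : ZFA.Int M (fun q : (IPow M V × IPow M I) × IPow M I'' =>
      Dec M U (fun v => v ∈ q.1.1) (fun i => i ∈ q.1.2) (fun j => j ∈ q.2)) := by
    unfold Dec
    (repeat' (first | with_reducible exact IntF.id | with_reducible exact IntF.fst' | with_reducible exact IntF.snd' | with_reducible exact IntF.const _ | with_reducible exact Int.const _ | assumption | with_reducible apply Int.and | with_reducible apply Int.or | with_reducible apply Int.not | with_reducible apply Int.imp | with_reducible apply Int.iff | with_reducible apply Int.ne | with_reducible apply Int.eq | with_reducible apply Int.mem | with_reducible apply Int.subset | with_reducible apply Int.ltN | with_reducible apply Int.leN | with_reducible_and_instances apply Helper672.ZFA.Int.le | with_reducible_and_instances apply Helper672.ZFA.Int.lt | with_reducible apply Int.all | with_reducible apply Int.ex | with_reducible apply IntF.fst | with_reducible apply IntF.snd | with_reducible apply IntF.app | with_reducible apply IntF.inl | with_reducible apply IntF.inr | with_reducible apply Int.fin | with_reducible apply IntF.sep | with_reducible apply IntF.lam | with_reducible apply IntF.insert | with_reducible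 apply IntF.singleton | with_reducible apply IntF.union | with_reducible apply IntF.iimage | with_reducible apply IntF.ite | with_reducible apply IntF.the | with_reducible apply IntF.irec | with_reducible apply IntF.succ | with_reducible apply IntF.val | (with_reducible refine Int.comp ?_ ?_; assumption) | (with_reducible refine Int.comp₂ ?_ ?_ ?_; assumption) | (with_reducible refine Int.comp₃ ?_ ?_ ?_ ?_; assumption) | (with_reducible refine Int.comp₄ ?_ ?_ ?_ ?_ ?_; assumption) | (with_reducible refine IntF.comp ?_ ?_; assumption) | (with_reducible refine IntF.comp₂ ?_ ?_ ?_; assumption) | (with_reducible refine IntF.comp₃ ?_ ?_ ?_ ?_; assumption) | with_reducible apply IntF.mk | with_reducible apply IntF.pair))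
  have hP : ZFA.Int M (fun q : IPow M V × IPow M V =>
      PSu M (fun v => v ∈ q.1) (fun v => v ∈ q.2)) := by
    unfold PSu
    (repeat' (first | with_reducible exact IntF.id | with_reducible exact IntF.fst' | with_reducible exact IntF.snd' | with_reducible exact IntF.const _ | with_reducible exact Int.const _ | assumption | with_reducible apply Int.and | with_reducible apply Int.or | with_reducible apply Int.not | with_reducible apply Int.imp | with_reducible apply Int.iff | with_reducible apply Int.ne | with_reducible apply Int.eq | with_reducible apply Int.mem | with_reducible apply Int.subset | with_reducible apply Int.ltN | with_reducible apply Int.leN | with_reducible_and_instances apply Helper672.ZFA.Int.le | with_reducible_and_instances apply Helper672.ZFA.Int.lt | with_reducible apply Int.all | with_reducible apply Int.ex | with_reducible apply IntF.fst | with_reducible apply IntF.snd | with_reducible apply IntF.app | with_reducible apply IntF.inl | with_reducible apply IntF.inr | with_reducible apply Int.fin | with_reducible apply IntF.sep | with_reducible apply IntF.lam | with_reducible apply IntF.insert | with_reducible apply IntF.singleton | with_reducible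 apply IntF.union | with_reducible apply IntF.iimage | with_reducible apply IntF.ite | with_reducible apply IntF.the | with_reducible apply IntF.irec | with_reducible apply IntF.succ | with_reducible apply IntF.val | (with_reducible refine Int.comp ?_ ?_; assumption) | (with_reducible refine Int.comp₂ ?_ ?_ ?_; assumption) | (with_reducible refine Int.comp₃ ?_ ?_ ?_ ?_; assumption) | (with_reducible refine Int.comp₄ ?_ ?_ ?_ ?_ ?_; assumption) | (with_reducible refine IntF.comp ?_ ?_; assumption) | (with_reducible refine IntF.comp₂ ?_ ?_ ?_; assumption) | (with_reducible refine IntF.comp₃ ?_ ?_ ?_ ?_; assumption) | with_reducible apply IntF.mk | with_reducible apply IntF.pair))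
  have hE : ZFA.Int M (fun q : IPow M I'' × IPow M I'' =>
      Emb M (fun v => v ∈ q.1) (fun v => v ∈ q.2)) := by
    unfold Emb
    (repeat' (first | with_reducible exact IntF.id | with_reducible exact IntF.fst' | with_reducible exact IntF.snd' | with_reducible exact IntF.const _ | with_reducible exact Int.const _ | assumption | with_reducible apply Int.and | with_reducible apply Int.or | with_reducible apply Int.not | with_reducible apply Int.imp | with_reducible apply Int.iff | with_reducible apply Int.ne | with_reducible apply Int.eq | with_reducible apply Int.mem | with_reducible apply Int.subset | with_reducible apply Int.ltN | with_reducible apply Int.leN | with_reducible_and_instances apply Helper672.ZFA.Int.le | with_reducible_and_instances apply Helper672.ZFA.Int.lt | with_reducible apply Int.all | with_reducible apply Int.ex | with_reducible apply IntF.fst | with_reducible apply IntF.snd | with_reducible apply IntF.app | with_reducible apply IntF.inl | with_reducible apply IntF.inr | with_reducible apply Int.fin | with_reducible apply IntF.sep | with_reducible apply IntF.lam | with_reducible apply IntF.insert | with_reducible apply IntF.singleton | with_reducible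 apply IntF.union | with_reducible apply IntF.iimage | with_reducible apply IntF.ite | with_reducible apply IntF.the | with_reducible apply IntF.irec | with_reducible apply IntF.succ | with_reducible apply IntF.val | (with_reducible refine Int.comp ?_ ?_; assumption) | (with_reducible refine Int.comp₂ ?_ ?_ ?_; assumption) | (with_reducible refine Int.comp₃ ?_ ?_ ?_ ?_; assumption) | (with_reducible refine Int.comp₄ ?_ ?_ ?_ ?_ ?_; assumption) | (with_reducible refine IntF.comp ?_ ?_; assumption) | (with_reducible refine IntF.comp₂ ?_ ?_ ?_; assumption) | (with_reducible refine IntF.comp₃ ?_ ?_ ?_ ?_; assumption) | with_reducible apply IntF.mk | with_reducible apply IntF.pair))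
  have hD' : ZFA.Int M (fun q : (IPow M V × IPow M I) × IPow M I'' =>
      (fun (X : IPow M V) (Z : IPow M I) (Y : IPow M I'') =>
        Dec M U (fun v => v ∈ X) (fun i => i ∈ Z) (fun j => j ∈ Y)) q.1.1 q.1.2 q.2) := hD
  -- one step
  have step : ∀ S : IPow M (IPow M V), (∃ X, X ∈ S) → ∃ X₁ Z₁ Y₁, X₁ ∈ S ∧
      Dec M U (fun v => v ∈ X₁) (fun i => i ∈ (Z₁ : IPow M I)) (fun j => j ∈ (Y₁ : IPow M I'')) ∧
      ∀ X', X' ∈ S → PSu M (fun v => v ∈ X₁) (fun v => v ∈ X') →
        ¬ PSu M (fun v => v ∈ X') (fun v => v ∈ X₁) → ∀ (Z' : IPow M I) (Y' : IPow M I''),
        Dec M U (fun v => v ∈ X') (fun i => i ∈ Z') (fun j => j ∈ Y') →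
        ¬ Emb M (fun v => v ∈ Y₁) (fun v => v ∈ Y') := by
    intro S hS
    obtain ⟨X, hX⟩ := hS
    obtain ⟨Z, Y, h1⟩ := H X
    obtain ⟨Z₁, ⟨X₂, Y₂, h2, h3⟩, h4⟩ := emb_least hI
      (A := fun Z : IPow M I => ∃ (X : IPow M V) (Y : IPow M I''), X ∈ S ∧
        Dec M U (fun v => v ∈ X) (fun i => i ∈ Z) (fun j => j ∈ Y))
      (ZFA.Int.ex (ZFA.Int.ex (ZFA.Int.and (by (repeat' (first | with_reducible exact IntF.id | with_reducible exact IntF.fst' | with_reducible exact IntF.snd' | with_reducible exact IntF.const _ | with_reducible exact Int.const _ | assumption | with_reducible apply Int.and | with_reducible apply Int.or | with_reducible apply Int.not | with_reducible apply Int.imp | with_reducible apply Int.iff | with_reducible apply Int.ne | with_reducible apply Int.eq | with_reducible apply Int.mem | with_reducible apply Int.subset | with_reducible apply Int.ltN | with_reducible apply Int.leN | with_reducible_and_instances apply Helper672.ZFA.Int.le | with_reducible_and_instances apply Helper672.ZFA.Int.lt | with_reducible apply Int.all | with_reducible apply Int.ex | with_reducible apply IntF.fst | with_reducible apply IntF.snd | with_reducible apply IntF.app | with_reducible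 apply IntF.inl | with_reducible apply IntF.inr | with_reducible apply Int.fin | with_reducible apply IntF.sep | with_reducible apply IntF.lam | with_reducible apply IntF.insert | with_reducible apply IntF.singleton | with_reducible apply IntF.union | with_reducible apply IntF.iimage | with_reducible apply IntF.ite | with_reducible apply IntF.the | with_reducible apply IntF.irec | with_reducible apply IntF.succ | with_reducible apply IntF.val | (with_reducible refine Int.comp ?_ ?_; assumption) | (with_reducible refine Int.comp₂ ?_ ?_ ?_; assumption) | (with_reducible refine Int.comp₃ ?_ ?_ ?_ ?_; assumption) | (with_reducible refine Int.comp₄ ?_ ?_ ?_ ?_ ?_; assumption) | (with_reducible refine IntF.comp ?_ ?_; assumption) | (with_reducible refine IntF.comp₂ ?_ ?_ ?_; assumption) | (with_reducible refine IntF.comp₃ ?_ ?_ ?_ ?_; assumption) | with_reducible apply IntF.mk | with_reducible apply IntF.pair)))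
        (ZFA.Int.comp₃ (p := fun (X : IPow M V) (Z : IPow M I) (Y : IPow M I'') =>
          Dec M U (fun v => v ∈ X) (fun i => i ∈ Z) (fun j => j ∈ Y)) hD'
          (by (repeat' (first | with_reducible exact IntF.id | with_reducible exact IntF.fst' | with_reducible exact IntF.snd' | with_reducible exact IntF.const _ | with_reducible exact Int.const _ | assumption | with_reducible apply Int.and | with_reducible apply Int.or | with_reducible apply Int.not | with_reducible apply Int.imp | with_reducible apply Int.iff | with_reducible apply Int.ne | with_reducible apply Int.eq | with_reducible apply Int.mem | with_reducible apply Int.subset | with_reducible apply Int.ltN | with_reducible apply Int.leN | with_reducible_and_instances apply Helper672.ZFA.Int.le | with_reducible_and_instances apply Helper672.ZFA.Int.lt | with_reducible apply Int.all | with_reducible apply Int.ex | with_reducible apply IntF.fst | with_reducible apply IntF.snd | with_reducible apply IntF.app | with_reducible apply IntF.inl | with_reducible apply IntF.inr | with_reducible apply Int.fin | with_reducible apply IntF.sep | with_reducible apply IntF.lam | with_reducible apply IntF.insert | with_reducible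 apply IntF.singleton | with_reducible apply IntF.union | with_reducible apply IntF.iimage | with_reducible apply IntF.ite | with_reducible apply IntF.the | with_reducible apply IntF.irec | with_reducible apply IntF.succ | with_reducible apply IntF.val | (with_reducible refine Int.comp ?_ ?_; assumption) | (with_reducible refine Int.comp₂ ?_ ?_ ?_; assumption) | (with_reducible refine Int.comp₃ ?_ ?_ ?_ ?_; assumption) | (with_reducible refine Int.comp₄ ?_ ?_ ?_ ?_ ?_; assumption) | (with_reducible refine IntF.comp ?_ ?_; assumption) | (with_reducible refine IntF.comp₂ ?_ ?_ ?_; assumption) | (with_reducible refine IntF.comp₃ ?_ ?_ ?_ ?_; assumption) | with_reducible apply IntF.mk | with_reducible apply IntF.pair))) (by (repeat' (first | with_reducible exact IntF.id | with_reducible exact IntF.fst' | with_reducible exact IntF.snd' | with_reducible exact IntF.const _ | with_reducible exact Int.const _ | assumption | with_reducible apply Int.and | with_reducible apply Int.or | with_reducible apply Int.not | with_reducible apply Int.imp | with_reducible apply Int.iff | with_reducible apply Int.ne | with_reducible apply Int.eq | with_reducible apply Int.mem | with_reducible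 apply Int.subset | with_reducible apply Int.ltN | with_reducible apply Int.leN | with_reducible_and_instances apply Helper672.ZFA.Int.le | with_reducible_and_instances apply Helper672.ZFA.Int.lt | with_reducible apply Int.all | with_reducible apply Int.ex | with_reducible apply IntF.fst | with_reducible apply IntF.snd | with_reducible apply IntF.app | with_reducible apply IntF.inl | with_reducible apply IntF.inr | with_reducible apply Int.fin | with_reducible apply IntF.sep | with_reducible apply IntF.lam | with_reducible apply IntF.insert | with_reducible apply IntF.singleton | with_reducible apply IntF.union | with_reducible apply IntF.iimage | with_reducible apply IntF.ite | with_reducible apply IntF.the | with_reducible apply IntF.irec | with_reducible apply IntF.succ | with_reducible apply IntF.val | (with_reducible refine Int.comp ?_ ?_; assumption) | (with_reducible refine Int.comp₂ ?_ ?_ ?_; assumption) | (with_reducible refine Int.comp₃ ?_ ?_ ?_ ?_; assumption) | (with_reducible refine Int.comp₄ ?_ ?_ ?_ ?_ ?_; assumption) | (with_reducible refine IntF.comp ?_ ?_; assumption) | (with_reducible refine IntF.comp₂ ?_ ?_ ?_; assumption) | (with_reducible refine IntF.comp₃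 ?_ ?_ ?_ ?_; assumption) | with_reducible apply IntF.mk | with_reducible apply IntF.pair))) (by (repeat' (first | with_reducible exact IntF.id | with_reducible exact IntF.fst' | with_reducible exact IntF.snd' | with_reducible exact IntF.const _ | with_reducible exact Int.const _ | assumption | with_reducible apply Int.and | with_reducible apply Int.or | with_reducible apply Int.not | with_reducible apply Int.imp | with_reducible apply Int.iff | with_reducible apply Int.ne | with_reducible apply Int.eq | with_reducible apply Int.mem | with_reducible apply Int.subset | with_reducible apply Int.ltN | with_reducible apply Int.leN | with_reducible_and_instances apply Helper672.ZFA.Int.le | with_reducible_and_instances apply Helper672.ZFA.Int.lt | with_reducible apply Int.all | with_reducible apply Int.ex | with_reducible apply IntF.fst | with_reducible apply IntF.snd | with_reducible apply IntF.app | with_reducible apply IntF.inl | with_reducible apply IntF.inr | with_reducible apply Int.fin | with_reducible apply IntF.sep | with_reducible apply IntF.lam | with_reducible apply IntF.insert | with_reducible apply IntF.singleton | with_reducible apply IntF.union | with_reducible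 apply IntF.iimage | with_reducible apply IntF.ite | with_reducible apply IntF.the | with_reducible apply IntF.irec | with_reducible apply IntF.succ | with_reducible apply IntF.val | (with_reducible refine Int.comp ?_ ?_; assumption) | (with_reducible refine Int.comp₂ ?_ ?_ ?_; assumption) | (with_reducible refine Int.comp₃ ?_ ?_ ?_ ?_; assumption) | (with_reducible refine Int.comp₄ ?_ ?_ ?_ ?_ ?_; assumption) | (with_reducible refine IntF.comp ?_ ?_; assumption) | (with_reducible refine IntF.comp₂ ?_ ?_ ?_; assumption) | (with_reducible refine IntF.comp₃ ?_ ?_ ?_ ?_; assumption) | with_reducible apply IntF.mk | with_reducible apply IntF.pair))))))) ⟨Z, X, Y, hX, h1⟩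
    obtain ⟨Y₁, ⟨X₁, h5, h6⟩, h7⟩ := emb_least hI''
      (A := fun Y : IPow M I'' => ∃ (X : IPow M V), X ∈ S ∧
        Dec M U (fun v => v ∈ X) (fun i => i ∈ Z₁) (fun j => j ∈ Y))
      (ZFA.Int.ex (ZFA.Int.and (by (repeat' (first | with_reducible exact IntF.id | with_reducible exact IntF.fst' | with_reducible exact IntF.snd' | with_reducible exact IntF.const _ | with_reducible exact Int.const _ | assumption | with_reducible apply Int.and | with_reducible apply Int.or | with_reducible apply Int.not | with_reducible apply Int.imp | with_reducible apply Int.iff | with_reducible apply Int.ne | with_reducible apply Int.eq | with_reducible apply Int.mem | with_reducible apply Int.subset | with_reducible apply Int.ltN | with_reducible apply Int.leN | with_reducible_and_instances apply Helper672.ZFA.Int.le | with_reducible_and_instances apply Helper672.ZFA.Int.lt | with_reducible apply Int.all | with_reducible apply Int.ex | with_reducible apply IntF.fst | with_reducible apply IntF.snd | with_reducible apply IntF.app | with_reducible apply IntF.inl | with_reducible apply IntF.inr | with_reducible apply Int.fin | with_reducible apply IntF.sep | with_reducible apply IntF.lam |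 with_reducible apply IntF.insert | with_reducible apply IntF.singleton | with_reducible apply IntF.union | with_reducible apply IntF.iimage | with_reducible apply IntF.ite | with_reducible apply IntF.the | with_reducible apply IntF.irec | with_reducible apply IntF.succ | with_reducible apply IntF.val | (with_reducible refine Int.comp ?_ ?_; assumption) | (with_reducible refine Int.comp₂ ?_ ?_ ?_; assumption) | (with_reducible refine Int.comp₃ ?_ ?_ ?_ ?_; assumption) | (with_reducible refine Int.comp₄ ?_ ?_ ?_ ?_ ?_; assumption) | (with_reducible refine IntF.comp ?_ ?_; assumption) | (with_reducible refine IntF.comp₂ ?_ ?_ ?_; assumption) | (with_reducible refine IntF.comp₃ ?_ ?_ ?_ ?_; assumption) | with_reducible apply IntF.mk | with_reducible apply IntF.pair)))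
        (ZFA.Int.comp₃ (p := fun (X : IPow M V) (Z : IPow M I) (Y : IPow M I'') =>
          Dec M U (fun v => v ∈ X) (fun i => i ∈ Z) (fun j => j ∈ Y)) hD'
          (by (repeat' (first | with_reducible exact IntF.id | with_reducible exact IntF.fst' | with_reducible exact IntF.snd' | with_reducible exact IntF.const _ | with_reducible exact Int.const _ | assumption | with_reducible apply Int.and | with_reducible apply Int.or | with_reducible apply Int.not | with_reducible apply Int.imp | with_reducible apply Int.iff | with_reducible apply Int.ne | with_reducible apply Int.eq | with_reducible apply Int.mem | with_reducible apply Int.subset | with_reducible apply Int.ltN | with_reducible apply Int.leN | with_reducible_and_instances apply Helper672.ZFA.Int.le | with_reducible_and_instances apply Helper672.ZFA.Int.lt | with_reducible apply Int.all | with_reducible apply Int.ex | with_reducible apply IntF.fst | with_reducible apply IntF.snd | with_reducible apply IntF.app | with_reducible apply IntF.inl | with_reducible apply IntF.inr | with_reducible apply Int.fin | with_reducible apply IntF.sep | with_reducible apply IntF.lam | with_reducible apply IntF.insert | with_reducible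 apply IntF.singleton | with_reducible apply IntF.union | with_reducible apply IntF.iimage | with_reducible apply IntF.ite | with_reducible apply IntF.the | with_reducible apply IntF.irec | with_reducible apply IntF.succ | with_reducible apply IntF.val | (with_reducible refine Int.comp ?_ ?_; assumption) | (with_reducible refine Int.comp₂ ?_ ?_ ?_; assumption) | (with_reducible refine Int.comp₃ ?_ ?_ ?_ ?_; assumption) | (with_reducible refine Int.comp₄ ?_ ?_ ?_ ?_ ?_; assumption) | (with_reducible refine IntF.comp ?_ ?_; assumption) | (with_reducible refine IntF.comp₂ ?_ ?_ ?_; assumption) | (with_reducible refine IntF.comp₃ ?_ ?_ ?_ ?_; assumption) | with_reducible apply IntF.mk | with_reducible apply IntF.pair))) (by (repeat' (first | with_reducible exact IntF.id | with_reducible exact IntF.fst' | with_reducible exact IntF.snd' | with_reducible exact IntF.const _ | with_reducible exact Int.const _ | assumption | with_reducible apply Int.and | with_reducible apply Int.or | with_reducible apply Int.not | with_reducible apply Int.imp | with_reducible apply Int.iff | with_reducible apply Int.ne | with_reducible apply Int.eq | with_reducible apply Int.mem | with_reducible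 apply Int.subset | with_reducible apply Int.ltN | with_reducible apply Int.leN | with_reducible_and_instances apply Helper672.ZFA.Int.le | with_reducible_and_instances apply Helper672.ZFA.Int.lt | with_reducible apply Int.all | with_reducible apply Int.ex | with_reducible apply IntF.fst | with_reducible apply IntF.snd | with_reducible apply IntF.app | with_reducible apply IntF.inl | with_reducible apply IntF.inr | with_reducible apply Int.fin | with_reducible apply IntF.sep | with_reducible apply IntF.lam | with_reducible apply IntF.insert | with_reducible apply IntF.singleton | with_reducible apply IntF.union | with_reducible apply IntF.iimage | with_reducible apply IntF.ite | with_reducible apply IntF.the | with_reducible apply IntF.irec | with_reducible apply IntF.succ | with_reducible apply IntF.val | (with_reducible refine Int.comp ?_ ?_; assumption) | (with_reducible refine Int.comp₂ ?_ ?_ ?_; assumption) | (with_reducible refine Int.comp₃ ?_ ?_ ?_ ?_; assumption) | (with_reducible refine Int.comp₄ ?_ ?_ ?_ ?_ ?_; assumption) | (with_reducible refine IntF.comp ?_ ?_; assumption) | (with_reducible refine IntF.comp₂ ?_ ?_ ?_; assumption) | (with_reducible refine IntF.comp₃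 ?_ ?_ ?_ ?_; assumption) | with_reducible apply IntF.mk | with_reducible apply IntF.pair))) (by (repeat' (first | with_reducible exact IntF.id | with_reducible exact IntF.fst' | with_reducible exact IntF.snd' | with_reducible exact IntF.const _ | with_reducible exact Int.const _ | assumption | with_reducible apply Int.and | with_reducible apply Int.or | with_reducible apply Int.not | with_reducible apply Int.imp | with_reducible apply Int.iff | with_reducible apply Int.ne | with_reducible apply Int.eq | with_reducible apply Int.mem | with_reducible apply Int.subset | with_reducible apply Int.ltN | with_reducible apply Int.leN | with_reducible_and_instances apply Helper672.ZFA.Int.le | with_reducible_and_instances apply Helper672.ZFA.Int.lt | with_reducible apply Int.all | with_reducible apply Int.ex | with_reducible apply IntF.fst | with_reducible apply IntF.snd | with_reducible apply IntF.app | with_reducible apply IntF.inl | with_reducible apply IntF.inr | with_reducible apply Int.fin | with_reducible apply IntF.sep | with_reducible apply IntF.lam | with_reducible apply IntF.insert | with_reducible apply IntF.singleton | with_reducible apply IntF.union | with_reducible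 apply IntF.iimage | with_reducible apply IntF.ite | with_reducible apply IntF.the | with_reducible apply IntF.irec | with_reducible apply IntF.succ | with_reducible apply IntF.val | (with_reducible refine Int.comp ?_ ?_; assumption) | (with_reducible refine Int.comp₂ ?_ ?_ ?_; assumption) | (with_reducible refine Int.comp₃ ?_ ?_ ?_ ?_; assumption) | (with_reducible refine Int.comp₄ ?_ ?_ ?_ ?_ ?_; assumption) | (with_reducible refine IntF.comp ?_ ?_; assumption) | (with_reducible refine IntF.comp₂ ?_ ?_ ?_; assumption) | (with_reducible refine IntF.comp₃ ?_ ?_ ?_ ?_; assumption) | with_reducible apply IntF.mk | with_reducible apply IntF.pair)))))) ⟨Y₂, X₂, h2, h3⟩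
    refine ⟨X₁, Z₁, Y₁, h5, h6, fun X' hX' _ h9 Z' Y' h10 h11 => h9 ?_⟩
    exact dec_mono h6 h10 (h4 Z' ⟨X', Y', hX', h10⟩) h11
  have hS' : ∀ (S : IPow M (IPow M V)) (X₁ : IPow M V), ZFA.Int M (fun X' : IPow M V =>
      X' ∈ S ∧ PSu M (fun v => v ∈ X₁) (fun v => v ∈ X') ∧
        ¬ PSu M (fun v => v ∈ X') (fun v => v ∈ X₁)) := by
    intro S X₁
    refine ZFA.Int.and (by (repeat' (first | with_reducible exact IntF.id | with_reducible exact IntF.fst' | with_reducible exact IntF.snd' | with_reducible exact IntF.const _ | with_reducible exact Int.const _ | assumption | with_reducible apply Int.and | with_reducible apply Int.or | with_reducible apply Int.not | with_reducible apply Int.imp | with_reducible apply Int.iff | with_reducible apply Int.ne | with_reducible apply Int.eq | with_reducible apply Int.mem | with_reducible apply Int.subset | with_reducible apply Int.ltN | with_reducible apply Int.leN | with_reducible_and_instances apply Helper672.ZFA.Int.le | with_reducible_and_instances apply Helper672.ZFA.Int.lt | with_reducible apply Int.all | with_reducible apply Int.ex | with_reducible apply IntF.fst | with_reducible apply IntF.snd | with_reducible apply IntF.app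 | with_reducible apply IntF.inl | with_reducible apply IntF.inr | with_reducible apply Int.fin | with_reducible apply IntF.sep | with_reducible apply IntF.lam | with_reducible apply IntF.insert | with_reducible apply IntF.singleton | with_reducible apply IntF.union | with_reducible apply IntF.iimage | with_reducible apply IntF.ite | with_reducible apply IntF.the | with_reducible apply IntF.irec | with_reducible apply IntF.succ | with_reducible apply IntF.val | (with_reducible refine Int.comp ?_ ?_; assumption) | (with_reducible refine Int.comp₂ ?_ ?_ ?_; assumption) | (with_reducible refine Int.comp₃ ?_ ?_ ?_ ?_; assumption) | (with_reducible refine Int.comp₄ ?_ ?_ ?_ ?_ ?_; assumption) | (with_reducible refine IntF.comp ?_ ?_; assumption) | (with_reducible refine IntF.comp₂ ?_ ?_ ?_; assumption) | (with_reducible refine IntF.comp₃ ?_ ?_ ?_ ?_; assumption) | with_reducible apply IntF.mk | with_reducible apply IntF.pair))) (ZFA.Int.and ?_ (ZFA.Int.not ?_))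
    · exact ZFA.Int.comp₂ (p := fun (X X' : IPow M V) =>
        PSu M (fun v => v ∈ X) (fun v => v ∈ X')) hP (IntF.const _) IntF.id
    · exact ZFA.Int.comp₂ (p := fun (X X' : IPow M V) =>
        PSu M (fun v => v ∈ X) (fun v => v ∈ X')) hP IntF.id (IntF.const _)
  -- a minimal element of the part below is minimal
  have fin : ∀ (S : IPow M (IPow M V)) (X₁ : IPow M V), X₁ ∈ S →
      ((∃ X, X ∈ sep M (fun X' : IPow M V => X' ∈ S ∧
        PSu M (fun v => v ∈ X₁) (fun v => v ∈ X') ∧
          ¬ PSu M (fun v => v ∈ X') (fun v => v ∈ X₁))) →
        ∃ X, X ∈ sep M (fun X' : IPow M V => X' ∈ S ∧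
          PSu M (fun v => v ∈ X₁) (fun v => v ∈ X') ∧
            ¬ PSu M (fun v => v ∈ X') (fun v => v ∈ X₁)) ∧
          ∀ X', X' ∈ sep M (fun X' : IPow M V => X' ∈ S ∧
            PSu M (fun v => v ∈ X₁) (fun v => v ∈ X') ∧
              ¬ PSu M (fun v => v ∈ X') (fun v => v ∈ X₁)) →
            PSu M (fun v => v ∈ X) (fun v => v ∈ X') →
              PSu M (fun v => v ∈ X') (fun v => v ∈ X)) →
      ∃ X, X ∈ S ∧ ∀ X', X' ∈ S → PSu M (fun v => v ∈ X) (fun v => v ∈ X') →
        PSu M (fun v => v ∈ X') (fun v => v ∈ X) := by
    intro S X₁ h1 h2
    have hi := hS' S X₁
    by_cases h3 : ∃ X', X' ∈ S ∧ PSu M (fun v => v ∈ X₁) (fun v => v ∈ X') ∧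
        ¬ PSu M (fun v => v ∈ X') (fun v => v ∈ X₁)
    · obtain ⟨X', h4⟩ := h3
      obtain ⟨X, h5, h6⟩ := h2 ⟨X', (mem_sep hi).2 h4⟩
      obtain ⟨h7, h8, h9⟩ := (mem_sep hi).1 h5
      refine ⟨X, h7, fun X'' h10 h11 => ?_⟩
      refine h6 X'' ((mem_sep hi).2 ⟨h10, h8.trans h11, fun h12 => h9 ?_⟩) h11
      exact h11.trans h12
    · push Not at h3
      exact ⟨X₁, h1, h3⟩
  -- induction
  have claim : ∀ Y : IPow M I'', ∀ S : IPow M (IPow M V), (∀ X, X ∈ S →
      ∀ (Z' : IPow M I) (Y' : IPow M I''),
        Dec M U (fun v => v ∈ X) (fun i => i ∈ Z') (fun j => j ∈ Y') →
          ¬ Emb M (fun v => v ∈ Y) (fun v => v ∈ Y')) → (∃ X, X ∈ S) →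
      ∃ X, X ∈ S ∧ ∀ X', X' ∈ S → PSu M (fun v => v ∈ X) (fun v => v ∈ X') →
        PSu M (fun v => v ∈ X') (fun v => v ∈ X) := by
    refine emb_ind hI'' ?_ ?_
    · refine ZFA.Int.all (ZFA.Int.imp (ZFA.Int.all (ZFA.Int.imp (by (repeat' (first | with_reducible exact IntF.id | with_reducible exact IntF.fst' | with_reducible exact IntF.snd' | with_reducible exact IntF.const _ | with_reducible exact Int.const _ | assumption | with_reducible apply Int.and | with_reducible apply Int.or | with_reducible apply Int.not | with_reducible apply Int.imp | with_reducible apply Int.iff | with_reducible apply Int.ne | with_reducible apply Int.eq | with_reducible apply Int.mem | with_reducible apply Int.subset | with_reducible apply Int.ltN | with_reducible apply Int.leN | with_reducible_and_instances apply Helper672.ZFA.Int.le | with_reducible_and_instances apply Helper672.ZFA.Int.lt | with_reducible apply Int.all | with_reducible apply Int.ex | with_reducible apply IntF.fst | with_reducible apply IntF.snd | with_reducible apply IntF.app | with_reducible apply IntF.inl | with_reducible apply IntF.inr | with_reducible apply Int.fin | with_reducible apply IntF.sep | with_reducible apply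 IntF.lam | with_reducible apply IntF.insert | with_reducible apply IntF.singleton | with_reducible apply IntF.union | with_reducible apply IntF.iimage | with_reducible apply IntF.ite | with_reducible apply IntF.the | with_reducible apply IntF.irec | with_reducible apply IntF.succ | with_reducible apply IntF.val | (with_reducible refine Int.comp ?_ ?_; assumption) | (with_reducible refine Int.comp₂ ?_ ?_ ?_; assumption) | (with_reducible refine Int.comp₃ ?_ ?_ ?_ ?_; assumption) | (with_reducible refine Int.comp₄ ?_ ?_ ?_ ?_ ?_; assumption) | (with_reducible refine IntF.comp ?_ ?_; assumption) | (with_reducible refine IntF.comp₂ ?_ ?_ ?_; assumption) | (with_reducible refine IntF.comp₃ ?_ ?_ ?_ ?_; assumption) | with_reducible apply IntF.mk | with_reducible apply IntF.pair))) (ZFA.Int.all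
        (ZFA.Int.all (ZFA.Int.imp ?_ (ZFA.Int.not ?_)))))) (ZFA.Int.imp (by (repeat' (first | with_reducible exact IntF.id | with_reducible exact IntF.fst' | with_reducible exact IntF.snd' | with_reducible exact IntF.const _ | with_reducible exact Int.const _ | assumption | with_reducible apply Int.and | with_reducible apply Int.or | with_reducible apply Int.not | with_reducible apply Int.imp | with_reducible apply Int.iff | with_reducible apply Int.ne | with_reducible apply Int.eq | with_reducible apply Int.mem | with_reducible apply Int.subset | with_reducible apply Int.ltN | with_reducible apply Int.leN | with_reducible_and_instances apply Helper672.ZFA.Int.le | with_reducible_and_instances apply Helper672.ZFA.Int.lt | with_reducible apply Int.all | with_reducible apply Int.ex | with_reducible apply IntF.fst | with_reducible apply IntF.snd | with_reducible apply IntF.app | with_reducible apply IntF.inl | with_reducible apply IntF.inr | with_reducible apply Int.fin | with_reducible apply IntF.sep | with_reducible apply IntF.lam | with_reducible apply IntF.insert | with_reducible apply IntF.singleton | with_reducible apply IntF.union | with_reducible apply IntF.iimage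 | with_reducible apply IntF.ite | with_reducible apply IntF.the | with_reducible apply IntF.irec | with_reducible apply IntF.succ | with_reducible apply IntF.val | (with_reducible refine Int.comp ?_ ?_; assumption) | (with_reducible refine Int.comp₂ ?_ ?_ ?_; assumption) | (with_reducible refine Int.comp₃ ?_ ?_ ?_ ?_; assumption) | (with_reducible refine Int.comp₄ ?_ ?_ ?_ ?_ ?_; assumption) | (with_reducible refine IntF.comp ?_ ?_; assumption) | (with_reducible refine IntF.comp₂ ?_ ?_ ?_; assumption) | (with_reducible refine IntF.comp₃ ?_ ?_ ?_ ?_; assumption) | with_reducible apply IntF.mk | with_reducible apply IntF.pair)))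
        (ZFA.Int.ex (ZFA.Int.and (by (repeat' (first | with_reducible exact IntF.id | with_reducible exact IntF.fst' | with_reducible exact IntF.snd' | with_reducible exact IntF.const _ | with_reducible exact Int.const _ | assumption | with_reducible apply Int.and | with_reducible apply Int.or | with_reducible apply Int.not | with_reducible apply Int.imp | with_reducible apply Int.iff | with_reducible apply Int.ne | with_reducible apply Int.eq | with_reducible apply Int.mem | with_reducible apply Int.subset | with_reducible apply Int.ltN | with_reducible apply Int.leN | with_reducible_and_instances apply Helper672.ZFA.Int.le | with_reducible_and_instances apply Helper672.ZFA.Int.lt | with_reducible apply Int.all | with_reducible apply Int.ex | with_reducible apply IntF.fst | with_reducible apply IntF.snd | with_reducible apply IntF.app | with_reducible apply IntF.inl | with_reducible apply IntF.inr | with_reducible apply Int.fin | with_reducible apply IntF.sep | with_reducible apply IntF.lam | with_reducible apply IntF.insert | with_reducible apply IntF.singleton | with_reducible apply IntF.union | with_reducible apply IntF.iimage | with_reducible apply IntF.ite | with_reducible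 apply IntF.the | with_reducible apply IntF.irec | with_reducible apply IntF.succ | with_reducible apply IntF.val | (with_reducible refine Int.comp ?_ ?_; assumption) | (with_reducible refine Int.comp₂ ?_ ?_ ?_; assumption) | (with_reducible refine Int.comp₃ ?_ ?_ ?_ ?_; assumption) | (with_reducible refine Int.comp₄ ?_ ?_ ?_ ?_ ?_; assumption) | (with_reducible refine IntF.comp ?_ ?_; assumption) | (with_reducible refine IntF.comp₂ ?_ ?_ ?_; assumption) | (with_reducible refine IntF.comp₃ ?_ ?_ ?_ ?_; assumption) | with_reducible apply IntF.mk | with_reducible apply IntF.pair))) (ZFA.Int.all (ZFA.Int.imp (by (repeat' (first | with_reducible exact IntF.id | with_reducible exact IntF.fst' | with_reducible exact IntF.snd' | with_reducible exact IntF.const _ | with_reducible exact Int.const _ | assumption | with_reducible apply Int.and | with_reducible apply Int.or | with_reducible apply Int.not | with_reducible apply Int.imp | with_reducible apply Int.iff | with_reducible apply Int.ne | with_reducible apply Int.eq | with_reducible apply Int.mem | with_reducible apply Int.subset | with_reducible apply Int.ltN | with_reducible apply Int.leN | with_reducible_and_instances apply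 Helper672.ZFA.Int.le | with_reducible_and_instances apply Helper672.ZFA.Int.lt | with_reducible apply Int.all | with_reducible apply Int.ex | with_reducible apply IntF.fst | with_reducible apply IntF.snd | with_reducible apply IntF.app | with_reducible apply IntF.inl | with_reducible apply IntF.inr | with_reducible apply Int.fin | with_reducible apply IntF.sep | with_reducible apply IntF.lam | with_reducible apply IntF.insert | with_reducible apply IntF.singleton | with_reducible apply IntF.union | with_reducible apply IntF.iimage | with_reducible apply IntF.ite | with_reducible apply IntF.the | with_reducible apply IntF.irec | with_reducible apply IntF.succ | with_reducible apply IntF.val | (with_reducible refine Int.comp ?_ ?_; assumption) | (with_reducible refine Int.comp₂ ?_ ?_ ?_; assumption) | (with_reducible refine Int.comp₃ ?_ ?_ ?_ ?_; assumption) | (with_reducible refine Int.comp₄ ?_ ?_ ?_ ?_ ?_; assumption) | (with_reducible refine IntF.comp ?_ ?_; assumption) | (with_reducible refine IntF.comp₂ ?_ ?_ ?_; assumption) | (with_reducible refine IntF.comp₃ ?_ ?_ ?_ ?_; assumption) | with_reducible apply IntF.mk | with_reducible apply IntF.pair)))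
          (ZFA.Int.imp ?_ ?_)))))))
      · exact ZFA.Int.comp₃ (p := fun (X : IPow M V) (Z : IPow M I) (Y : IPow M I'') =>
          Dec M U (fun v => v ∈ X) (fun i => i ∈ Z) (fun j => j ∈ Y)) hD'
          (by (repeat' (first | with_reducible exact IntF.id | with_reducible exact IntF.fst' | with_reducible exact IntF.snd' | with_reducible exact IntF.const _ | with_reducible exact Int.const _ | assumption | with_reducible apply Int.and | with_reducible apply Int.or | with_reducible apply Int.not | with_reducible apply Int.imp | with_reducible apply Int.iff | with_reducible apply Int.ne | with_reducible apply Int.eq | with_reducible apply Int.mem | with_reducible apply Int.subset | with_reducible apply Int.ltN | with_reducible apply Int.leN | with_reducible_and_instances apply Helper672.ZFA.Int.le | with_reducible_and_instances apply Helper672.ZFA.Int.lt | with_reducible apply Int.all | with_reducible apply Int.ex | with_reducible apply IntF.fst | with_reducible apply IntF.snd | with_reducible apply IntF.app | with_reducible apply IntF.inl | with_reducible apply IntF.inr | with_reducible apply Int.fin | with_reducible apply IntF.sep | with_reducible apply IntF.lam | with_reducible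 apply IntF.insert | with_reducible apply IntF.singleton | with_reducible apply IntF.union | with_reducible apply IntF.iimage | with_reducible apply IntF.ite | with_reducible apply IntF.the | with_reducible apply IntF.irec | with_reducible apply IntF.succ | with_reducible apply IntF.val | (with_reducible refine Int.comp ?_ ?_; assumption) | (with_reducible refine Int.comp₂ ?_ ?_ ?_; assumption) | (with_reducible refine Int.comp₃ ?_ ?_ ?_ ?_; assumption) | (with_reducible refine Int.comp₄ ?_ ?_ ?_ ?_ ?_; assumption) | (with_reducible refine IntF.comp ?_ ?_; assumption) | (with_reducible refine IntF.comp₂ ?_ ?_ ?_; assumption) | (with_reducible refine IntF.comp₃ ?_ ?_ ?_ ?_; assumption) | with_reducible apply IntF.mk | with_reducible apply IntF.pair))) (by (repeat' (first | with_reducible exact IntF.id | with_reducible exact IntF.fst' | with_reducible exact IntF.snd' | with_reducible exact IntF.const _ | with_reducible exact Int.const _ | assumption | with_reducible apply Int.and | with_reducible apply Int.or | with_reducible apply Int.not | with_reducible apply Int.imp | with_reducible apply Int.iff | with_reducible apply Int.ne | with_reducible apply Int.eq | with_reducible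 apply Int.mem | with_reducible apply Int.subset | with_reducible apply Int.ltN | with_reducible apply Int.leN | with_reducible_and_instances apply Helper672.ZFA.Int.le | with_reducible_and_instances apply Helper672.ZFA.Int.lt | with_reducible apply Int.all | with_reducible apply Int.ex | with_reducible apply IntF.fst | with_reducible apply IntF.snd | with_reducible apply IntF.app | with_reducible apply IntF.inl | with_reducible apply IntF.inr | with_reducible apply Int.fin | with_reducible apply IntF.sep | with_reducible apply IntF.lam | with_reducible apply IntF.insert | with_reducible apply IntF.singleton | with_reducible apply IntF.union | with_reducible apply IntF.iimage | with_reducible apply IntF.ite | with_reducible apply IntF.the | with_reducible apply IntF.irec | with_reducible apply IntF.succ | with_reducible apply IntF.val | (with_reducible refine Int.comp ?_ ?_; assumption) | (with_reducible refine Int.comp₂ ?_ ?_ ?_; assumption) | (with_reducible refine Int.comp₃ ?_ ?_ ?_ ?_; assumption) | (with_reducible refine Int.comp₄ ?_ ?_ ?_ ?_ ?_; assumption) | (with_reducible refine IntF.comp ?_ ?_; assumption) | (with_reducible refine IntF.comp₂ ?_ ?_ ?_; assumption)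 | (with_reducible refine IntF.comp₃ ?_ ?_ ?_ ?_; assumption) | with_reducible apply IntF.mk | with_reducible apply IntF.pair))) (by (repeat' (first | with_reducible exact IntF.id | with_reducible exact IntF.fst' | with_reducible exact IntF.snd' | with_reducible exact IntF.const _ | with_reducible exact Int.const _ | assumption | with_reducible apply Int.and | with_reducible apply Int.or | with_reducible apply Int.not | with_reducible apply Int.imp | with_reducible apply Int.iff | with_reducible apply Int.ne | with_reducible apply Int.eq | with_reducible apply Int.mem | with_reducible apply Int.subset | with_reducible apply Int.ltN | with_reducible apply Int.leN | with_reducible_and_instances apply Helper672.ZFA.Int.le | with_reducible_and_instances apply Helper672.ZFA.Int.lt | with_reducible apply Int.all | with_reducible apply Int.ex | with_reducible apply IntF.fst | with_reducible apply IntF.snd | with_reducible apply IntF.app | with_reducible apply IntF.inl | with_reducible apply IntF.inr | with_reducible apply Int.fin | with_reducible apply IntF.sep | with_reducible apply IntF.lam | with_reducible apply IntF.insert | with_reducible apply IntF.singleton | with_reducible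 apply IntF.union | with_reducible apply IntF.iimage | with_reducible apply IntF.ite | with_reducible apply IntF.the | with_reducible apply IntF.irec | with_reducible apply IntF.succ | with_reducible apply IntF.val | (with_reducible refine Int.comp ?_ ?_; assumption) | (with_reducible refine Int.comp₂ ?_ ?_ ?_; assumption) | (with_reducible refine Int.comp₃ ?_ ?_ ?_ ?_; assumption) | (with_reducible refine Int.comp₄ ?_ ?_ ?_ ?_ ?_; assumption) | (with_reducible refine IntF.comp ?_ ?_; assumption) | (with_reducible refine IntF.comp₂ ?_ ?_ ?_; assumption) | (with_reducible refine IntF.comp₃ ?_ ?_ ?_ ?_; assumption) | with_reducible apply IntF.mk | with_reducible apply IntF.pair)))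
      · exact ZFA.Int.comp₂ (p := fun (X X' : IPow M I'') =>
          Emb M (fun v => v ∈ X) (fun v => v ∈ X')) hE (by (repeat' (first | with_reducible exact IntF.id | with_reducible exact IntF.fst' | with_reducible exact IntF.snd' | with_reducible exact IntF.const _ | with_reducible exact Int.const _ | assumption | with_reducible apply Int.and | with_reducible apply Int.or | with_reducible apply Int.not | with_reducible apply Int.imp | with_reducible apply Int.iff | with_reducible apply Int.ne | with_reducible apply Int.eq | with_reducible apply Int.mem | with_reducible apply Int.subset | with_reducible apply Int.ltN | with_reducible apply Int.leN | with_reducible_and_instances apply Helper672.ZFA.Int.le | with_reducible_and_instances apply Helper672.ZFA.Int.lt | with_reducible apply Int.all | with_reducible apply Int.ex | with_reducible apply IntF.fst | with_reducible apply IntF.snd | with_reducible apply IntF.app | with_reducible apply IntF.inl | with_reducible apply IntF.inr | with_reducible apply Int.fin | with_reducible apply IntF.sep | with_reducible apply IntF.lam | with_reducible apply IntF.insert | with_reducible apply IntF.singleton | with_reducible apply IntF.union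 | with_reducible apply IntF.iimage | with_reducible apply IntF.ite | with_reducible apply IntF.the | with_reducible apply IntF.irec | with_reducible apply IntF.succ | with_reducible apply IntF.val | (with_reducible refine Int.comp ?_ ?_; assumption) | (with_reducible refine Int.comp₂ ?_ ?_ ?_; assumption) | (with_reducible refine Int.comp₃ ?_ ?_ ?_ ?_; assumption) | (with_reducible refine Int.comp₄ ?_ ?_ ?_ ?_ ?_; assumption) | (with_reducible refine IntF.comp ?_ ?_; assumption) | (with_reducible refine IntF.comp₂ ?_ ?_ ?_; assumption) | (with_reducible refine IntF.comp₃ ?_ ?_ ?_ ?_; assumption) | with_reducible apply IntF.mk | with_reducible apply IntF.pair))) (by (repeat' (first | with_reducible exact IntF.id | with_reducible exact IntF.fst' | with_reducible exact IntF.snd' | with_reducible exact IntF.const _ | with_reducible exact Int.const _ | assumption | with_reducible apply Int.and | with_reducible apply Int.or | with_reducible apply Int.not | with_reducible apply Int.imp | with_reducible apply Int.iff | with_reducible apply Int.ne | with_reducible apply Int.eq | with_reducible apply Int.mem | with_reducible apply Int.subset | with_reducible apply Int.ltN | with_reducible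 apply Int.leN | with_reducible_and_instances apply Helper672.ZFA.Int.le | with_reducible_and_instances apply Helper672.ZFA.Int.lt | with_reducible apply Int.all | with_reducible apply Int.ex | with_reducible apply IntF.fst | with_reducible apply IntF.snd | with_reducible apply IntF.app | with_reducible apply IntF.inl | with_reducible apply IntF.inr | with_reducible apply Int.fin | with_reducible apply IntF.sep | with_reducible apply IntF.lam | with_reducible apply IntF.insert | with_reducible apply IntF.singleton | with_reducible apply IntF.union | with_reducible apply IntF.iimage | with_reducible apply IntF.ite | with_reducible apply IntF.the | with_reducible apply IntF.irec | with_reducible apply IntF.succ | with_reducible apply IntF.val | (with_reducible refine Int.comp ?_ ?_; assumption) | (with_reducible refine Int.comp₂ ?_ ?_ ?_; assumption) | (with_reducible refine Int.comp₃ ?_ ?_ ?_ ?_; assumption) | (with_reducible refine Int.comp₄ ?_ ?_ ?_ ?_ ?_; assumption) | (with_reducible refine IntF.comp ?_ ?_; assumption) | (with_reducible refine IntF.comp₂ ?_ ?_ ?_; assumption) | (with_reducible refine IntF.comp₃ ?_ ?_ ?_ ?_; assumption) | with_reducible apply IntF.mk |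 with_reducible apply IntF.pair)))
      · exact ZFA.Int.comp₂ (p := fun (X X' : IPow M V) =>
          PSu M (fun v => v ∈ X) (fun v => v ∈ X')) hP (by (repeat' (first | with_reducible exact IntF.id | with_reducible exact IntF.fst' | with_reducible exact IntF.snd' | with_reducible exact IntF.const _ | with_reducible exact Int.const _ | assumption | with_reducible apply Int.and | with_reducible apply Int.or | with_reducible apply Int.not | with_reducible apply Int.imp | with_reducible apply Int.iff | with_reducible apply Int.ne | with_reducible apply Int.eq | with_reducible apply Int.mem | with_reducible apply Int.subset | with_reducible apply Int.ltN | with_reducible apply Int.leN | with_reducible_and_instances apply Helper672.ZFA.Int.le | with_reducible_and_instances apply Helper672.ZFA.Int.lt | with_reducible apply Int.all | with_reducible apply Int.ex | with_reducible apply IntF.fst | with_reducible apply IntF.snd | with_reducible apply IntF.app | with_reducible apply IntF.inl | with_reducible apply IntF.inr | with_reducible apply Int.fin | with_reducible apply IntF.sep | with_reducible apply IntF.lam | with_reducible apply IntF.insert | with_reducible apply IntF.singleton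 | with_reducible apply IntF.union | with_reducible apply IntF.iimage | with_reducible apply IntF.ite | with_reducible apply IntF.the | with_reducible apply IntF.irec | with_reducible apply IntF.succ | with_reducible apply IntF.val | (with_reducible refine Int.comp ?_ ?_; assumption) | (with_reducible refine Int.comp₂ ?_ ?_ ?_; assumption) | (with_reducible refine Int.comp₃ ?_ ?_ ?_ ?_; assumption) | (with_reducible refine Int.comp₄ ?_ ?_ ?_ ?_ ?_; assumption) | (with_reducible refine IntF.comp ?_ ?_; assumption) | (with_reducible refine IntF.comp₂ ?_ ?_ ?_; assumption) | (with_reducible refine IntF.comp₃ ?_ ?_ ?_ ?_; assumption) | with_reducible apply IntF.mk | with_reducible apply IntF.pair))) (by (repeat' (first | with_reducible exact IntF.id | with_reducible exact IntF.fst' | with_reducible exact IntF.snd' | with_reducible exact IntF.const _ | with_reducible exact Int.const _ | assumption | with_reducible apply Int.and | with_reducible apply Int.or | with_reducible apply Int.not | with_reducible apply Int.imp | with_reducible apply Int.iff | with_reducible apply Int.ne | with_reducible apply Int.eq | with_reducible apply Int.mem | with_reducible apply Int.subset | with_reducible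 apply Int.ltN | with_reducible apply Int.leN | with_reducible_and_instances apply Helper672.ZFA.Int.le | with_reducible_and_instances apply Helper672.ZFA.Int.lt | with_reducible apply Int.all | with_reducible apply Int.ex | with_reducible apply IntF.fst | with_reducible apply IntF.snd | with_reducible apply IntF.app | with_reducible apply IntF.inl | with_reducible apply IntF.inr | with_reducible apply Int.fin | with_reducible apply IntF.sep | with_reducible apply IntF.lam | with_reducible apply IntF.insert | with_reducible apply IntF.singleton | with_reducible apply IntF.union | with_reducible apply IntF.iimage | with_reducible apply IntF.ite | with_reducible apply IntF.the | with_reducible apply IntF.irec | with_reducible apply IntF.succ | with_reducible apply IntF.val | (with_reducible refine Int.comp ?_ ?_; assumption) | (with_reducible refine Int.comp₂ ?_ ?_ ?_; assumption) | (with_reducible refine Int.comp₃ ?_ ?_ ?_ ?_; assumption) | (with_reducible refine Int.comp₄ ?_ ?_ ?_ ?_ ?_; assumption) | (with_reducible refine IntF.comp ?_ ?_; assumption) | (with_reducible refine IntF.comp₂ ?_ ?_ ?_; assumption) | (with_reducible refine IntF.comp₃ ?_ ?_ ?_ ?_; assumption) |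 with_reducible apply IntF.mk | with_reducible apply IntF.pair)))
      · exact ZFA.Int.comp₂ (p := fun (X X' : IPow M V) =>
          PSu M (fun v => v ∈ X) (fun v => v ∈ X')) hP (by (repeat' (first | with_reducible exact IntF.id | with_reducible exact IntF.fst' | with_reducible exact IntF.snd' | with_reducible exact IntF.const _ | with_reducible exact Int.const _ | assumption | with_reducible apply Int.and | with_reducible apply Int.or | with_reducible apply Int.not | with_reducible apply Int.imp | with_reducible apply Int.iff | with_reducible apply Int.ne | with_reducible apply Int.eq | with_reducible apply Int.mem | with_reducible apply Int.subset | with_reducible apply Int.ltN | with_reducible apply Int.leN | with_reducible_and_instances apply Helper672.ZFA.Int.le | with_reducible_and_instances apply Helper672.ZFA.Int.lt | with_reducible apply Int.all | with_reducible apply Int.ex | with_reducible apply IntF.fst | with_reducible apply IntF.snd | with_reducible apply IntF.app | with_reducible apply IntF.inl | with_reducible apply IntF.inr | with_reducible apply Int.fin | with_reducible apply IntF.sep | with_reducible apply IntF.lam | with_reducible apply IntF.insert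 | with_reducible apply IntF.singleton | with_reducible apply IntF.union | with_reducible apply IntF.iimage | with_reducible apply IntF.ite | with_reducible apply IntF.the | with_reducible apply IntF.irec | with_reducible apply IntF.succ | with_reducible apply IntF.val | (with_reducible refine Int.comp ?_ ?_; assumption) | (with_reducible refine Int.comp₂ ?_ ?_ ?_; assumption) | (with_reducible refine Int.comp₃ ?_ ?_ ?_ ?_; assumption) | (with_reducible refine Int.comp₄ ?_ ?_ ?_ ?_ ?_; assumption) | (with_reducible refine IntF.comp ?_ ?_; assumption) | (with_reducible refine IntF.comp₂ ?_ ?_ ?_; assumption) | (with_reducible refine IntF.comp₃ ?_ ?_ ?_ ?_; assumption) | with_reducible apply IntF.mk | with_reducible apply IntF.pair))) (by (repeat' (first | with_reducible exact IntF.id | with_reducible exact IntF.fst' | with_reducible exact IntF.snd' | with_reducible exact IntF.const _ | with_reducible exact Int.const _ | assumption | with_reducible apply Int.and | with_reducible apply Int.or | with_reducible apply Int.not | with_reducible apply Int.imp | with_reducible apply Int.iff | with_reducible apply Int.ne | with_reducible apply Int.eq | with_reducible apply Int.mem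 | with_reducible apply Int.subset | with_reducible apply Int.ltN | with_reducible apply Int.leN | with_reducible_and_instances apply Helper672.ZFA.Int.le | with_reducible_and_instances apply Helper672.ZFA.Int.lt | with_reducible apply Int.all | with_reducible apply Int.ex | with_reducible apply IntF.fst | with_reducible apply IntF.snd | with_reducible apply IntF.app | with_reducible apply IntF.inl | with_reducible apply IntF.inr | with_reducible apply Int.fin | with_reducible apply IntF.sep | with_reducible apply IntF.lam | with_reducible apply IntF.insert | with_reducible apply IntF.singleton | with_reducible apply IntF.union | with_reducible apply IntF.iimage | with_reducible apply IntF.ite | with_reducible apply IntF.the | with_reducible apply IntF.irec | with_reducible apply IntF.succ | with_reducible apply IntF.val | (with_reducible refine Int.comp ?_ ?_; assumption) | (with_reducible refine Int.comp₂ ?_ ?_ ?_; assumption) | (with_reducible refine Int.comp₃ ?_ ?_ ?_ ?_; assumption) | (with_reducible refine Int.comp₄ ?_ ?_ ?_ ?_ ?_; assumption) | (with_reducible refine IntF.comp ?_ ?_; assumption) | (with_reducible refine IntF.comp₂ ?_ ?_ ?_; assumption) | (with_reducible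 refine IntF.comp₃ ?_ ?_ ?_ ?_; assumption) | with_reducible apply IntF.mk | with_reducible apply IntF.pair)))
    · intro Y ih S h1 h2
      obtain ⟨X₁, Z₁, Y₁, h3, h4, h5⟩ := step S h2
      refine fin S X₁ h3 fun h6 => ih Y₁ (h1 X₁ h3 Z₁ Y₁ h4) _ (fun X hX => ?_) h6
      obtain ⟨h7, h8, h9⟩ := (mem_sep (hS' S X₁)).1 hX
      exact h5 X h7 h8 h9
  obtain ⟨X₁, Z₁, Y₁, h3, h4, h5⟩ := step S hS
  refine fin S X₁ h3 fun h6 => claim Y₁ _ (fun X hX => ?_) h6
  obtain ⟨h7, h8, h9⟩ := (mem_sep (hS' S X₁)).1 hX
  exact h5 X h7 h8 h9

end

end Pool.Agent.Y580
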