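import Pool.Agent.Y580.D1

/-!
# The decomposition of a set
-/

set_option maxHeartbeats 400000
set_option linter.all false
set_option synthInstance.maxSize 2000

namespace Pool.Agent.Y580

open FirstOrder FirstOrder.Language
open Pool.Agent.Helper672
open Pool.Agent.Helper672.ZFA
open Pool.Agent.Helper672.ZFA.H635 (IWO)

universe u

section

variable {M : Type u} [L.Structure M] [hM : IsModel M]
variable {U V I I' I'' : Type u} [ITy M U] [ITy M V] [ITy M I] [ITy M I'] [ITy M I'']
  {lt : I → I → Prop} (hI : IWO M I lt) {lt' : I' → I' → Prop} (hI' : IWO M I' lt')
  {lt'' : I'' → I'' → Prop} (hI'' : IWO M I'' lt'')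

include hI hI' hI'' in
theorem dec_of {B : V → Prop} (hB : ZFA.Int M B) {F : I → U → V → Prop}
    (hF : ZFA.Int M (fun q : (I × U) × V => F q.1.1 q.1.2 q.2))
    (hFf : ∀ i u v v', F i u v → F i u v' → v = v') (hFc : ∀ v, B v → ∃ i u, F i u v)
    {W : I'' → V → Prop} (hW : ZFA.Int M (fun q : I'' × V => W q.1 q.2))
    (hWf : ∀ j v v', W j v → W j v' → v = v') {Φ : I' → U → V → Prop}
    (hΦ : ZFA.Int M (fun q : (I' × U) × V => Φ q.1.1 q.1.2 q.2))
    (h3 : ∀ i v, B v → (∀ j, ¬ W j v) → Rk lt F v i → ∃ ι, Gi lt F W Φ B i ι) :
    ∃ (Z : IPow M I) (Y : IPow M I''), Dec M U B (fun i => i ∈ Z) (fun j => j ∈ Y) := by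
  have hl := hI.int
  have hl' := hI'.int
  have hl'' := hI''.int
  have hRk : ZFA.Int M (fun q : V × I => Rk lt F q.1 q.2) := by
    unfold Rk
    (repeat' (first | with_reducible exact IntF.id | with_reducible exact IntF.fst' | with_reducible exact IntF.snd' | with_reducible exact IntF.const _ | with_reducible exact Int.const _ | assumption | with_reducible apply Int.and | with_reducible apply Int.or | with_reducible apply Int.not | with_reducible apply Int.imp | with_reducible apply Int.iff | with_reducible apply Int.ne | with_reducible apply Int.eq | with_reducible apply Int.mem | with_reducible apply Int.subset | with_reducible apply Int.ltN | with_reducible apply Int.leN | with_reducible_and_instances apply Helper672.ZFA.Int.le | with_reducible_and_instances apply Helper672.ZFA.Int.lt | with_reducible apply Int.all | with_reducible apply Int.ex | with_reducible apply IntF.fst | with_reducible apply IntF.snd | with_reducible apply IntF.app | with_reducible apply IntF.inl | with_reducible apply IntF.inr | with_reducible apply Int.fin | with_reducible apply IntF.sep | with_reducible apply IntF.lam | with_reducible apply IntF.insert | with_reducible apply IntF.singleton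 | with_reducible apply IntF.union | with_reducible apply IntF.iimage | with_reducible apply IntF.ite | with_reducible apply IntF.the | with_reducible apply IntF.irec | with_reducible apply IntF.succ | with_reducible apply IntF.val | (with_reducible refine Int.comp ?_ ?_; assumption) | (with_reducible refine Int.comp₂ ?_ ?_ ?_; assumption) | (with_reducible refine Int.comp₃ ?_ ?_ ?_ ?_; assumption) | (with_reducible refine Int.comp₄ ?_ ?_ ?_ ?_ ?_; assumption) | (with_reducible refine IntF.comp ?_ ?_; assumption) | (with_reducible refine IntF.comp₂ ?_ ?_ ?_; assumption) | (with_reducible refine IntF.comp₃ ?_ ?_ ?_ ?_; assumption) | with_reducible apply IntF.mk | with_reducible apply IntF.pair))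
  have hRw : ZFA.Int M (fun q : V × I'' => Rw lt'' W q.1 q.2) := by
    unfold Rw
    (repeat' (first | with_reducible exact IntF.id | with_reducible exact IntF.fst' | with_reducible exact IntF.snd' | with_reducible exact IntF.const _ | with_reducible exact Int.const _ | assumption | with_reducible apply Int.and | with_reducible apply Int.or | with_reducible apply Int.not | with_reducible apply Int.imp | with_reducible apply Int.iff | with_reducible apply Int.ne | with_reducible apply Int.eq | with_reducible apply Int.mem | with_reducible apply Int.subset | with_reducible apply Int.ltN | with_reducible apply Int.leN | with_reducible_and_instances apply Helper672.ZFA.Int.le | with_reducible_and_instances apply Helper672.ZFA.Int.lt | with_reducible apply Int.all | with_reducible apply Int.ex | with_reducible apply IntF.fst | with_reducible apply IntF.snd | with_reducible apply IntF.app | with_reducible apply IntF.inl | with_reducible apply IntF.inr | with_reducible apply Int.fin | with_reducible apply IntF.sep | with_reducible apply IntF.lam | with_reducible apply IntF.insert | with_reducible apply IntF.singleton | with_reducible apply IntF.union | with_reducible apply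 IntF.iimage | with_reducible apply IntF.ite | with_reducible apply IntF.the | with_reducible apply IntF.irec | with_reducible apply IntF.succ | with_reducible apply IntF.val | (with_reducible refine Int.comp ?_ ?_; assumption) | (with_reducible refine Int.comp₂ ?_ ?_ ?_; assumption) | (with_reducible refine Int.comp₃ ?_ ?_ ?_ ?_; assumption) | (with_reducible refine Int.comp₄ ?_ ?_ ?_ ?_ ?_; assumption) | (with_reducible refine IntF.comp ?_ ?_; assumption) | (with_reducible refine IntF.comp₂ ?_ ?_ ?_; assumption) | (with_reducible refine IntF.comp₃ ?_ ?_ ?_ ?_; assumption) | with_reducible apply IntF.mk | with_reducible apply IntF.pair))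
  have hRk1 : ∀ v, B v → ∃ i, Rk lt F v i := by
    intro v hv
    have h4 : ZFA.Int M (fun i => ∃ u, F i u v) := by (repeat' (first | with_reducible exact IntF.id | with_reducible exact IntF.fst' | with_reducible exact IntF.snd' | with_reducible exact IntF.const _ | with_reducible exact Int.const _ | assumption | with_reducible apply Int.and | with_reducible apply Int.or | with_reducible apply Int.not | with_reducible apply Int.imp | with_reducible apply Int.iff | with_reducible apply Int.ne | with_reducible apply Int.eq | with_reducible apply Int.mem | with_reducible apply Int.subset | with_reducible apply Int.ltN | with_reducible apply Int.leN | with_reducible_and_instances apply Helper672.ZFA.Int.le | with_reducible_and_instances apply Helper672.ZFA.Int.lt | with_reducible apply Int.all | with_reducible apply Int.ex | with_reducible apply IntF.fst | with_reducible apply IntF.snd | with_reducible apply IntF.app | with_reducible apply IntF.inl | with_reducible apply IntF.inr | with_reducible apply Int.fin | with_reducible apply IntF.sep | with_reducible apply IntF.lam | with_reducible apply IntF.insert | with_reducible apply IntF.singleton | with_reducible apply IntF.union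 | with_reducible apply IntF.iimage | with_reducible apply IntF.ite | with_reducible apply IntF.the | with_reducible apply IntF.irec | with_reducible apply IntF.succ | with_reducible apply IntF.val | (with_reducible refine Int.comp ?_ ?_; assumption) | (with_reducible refine Int.comp₂ ?_ ?_ ?_; assumption) | (with_reducible refine Int.comp₃ ?_ ?_ ?_ ?_; assumption) | (with_reducible refine Int.comp₄ ?_ ?_ ?_ ?_ ?_; assumption) | (with_reducible refine IntF.comp ?_ ?_; assumption) | (with_reducible refine IntF.comp₂ ?_ ?_ ?_; assumption) | (with_reducible refine IntF.comp₃ ?_ ?_ ?_ ?_; assumption) | with_reducible apply IntF.mk | with_reducible apply IntF.pair))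
    exact iwo_least hI (p := fun i => ∃ u, F i u v) h4 (hFc v hv)
  have hRk2 : ∀ {v i i'}, Rk lt F v i → Rk lt F v i' → i = i' := by
    intro v i i' h4 h5
    exact iwo_unique hI (p := fun i => ∃ u, F i u v) h4.1 h4.2 h5.1 h5.2
  have hRw1 : ∀ v, (∃ j, W j v) → ∃ j, Rw lt'' W v j := by
    intro v hv
    have h4 : ZFA.Int M (fun i => W i v) := by (repeat' (first | with_reducible exact IntF.id | with_reducible exact IntF.fst' | with_reducible exact IntF.snd' | with_reducible exact IntF.const _ | with_reducible exact Int.const _ | assumption | with_reducible apply Int.and | with_reducible apply Int.or | with_reducible apply Int.not | with_reducible apply Int.imp | with_reducible apply Int.iff | with_reducible apply Int.ne | with_reducible apply Int.eq | with_reducible apply Int.mem | with_reducible apply Int.subset | with_reducible apply Int.ltN | with_reducible apply Int.leN | with_reducible_and_instances apply Helper672.ZFA.Int.le | with_reducible_and_instances apply Helper672.ZFA.Int.lt | with_reducible apply Int.all | with_reducible apply Int.ex | with_reducible apply IntF.fst | with_reducible apply IntF.snd | with_reducible apply IntF.app | with_reducible apply IntF.inl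 | with_reducible apply IntF.inr | with_reducible apply Int.fin | with_reducible apply IntF.sep | with_reducible apply IntF.lam | with_reducible apply IntF.insert | with_reducible apply IntF.singleton | with_reducible apply IntF.union | with_reducible apply IntF.iimage | with_reducible apply IntF.ite | with_reducible apply IntF.the | with_reducible apply IntF.irec | with_reducible apply IntF.succ | with_reducible apply IntF.val | (with_reducible refine Int.comp ?_ ?_; assumption) | (with_reducible refine Int.comp₂ ?_ ?_ ?_; assumption) | (with_reducible refine Int.comp₃ ?_ ?_ ?_ ?_; assumption) | (with_reducible refine Int.comp₄ ?_ ?_ ?_ ?_ ?_; assumption) | (with_reducible refine IntF.comp ?_ ?_; assumption) | (with_reducible refine IntF.comp₂ ?_ ?_ ?_; assumption) | (with_reducible refine IntF.comp₃ ?_ ?_ ?_ ?_; assumption) | with_reducible apply IntF.mk | with_reducible apply IntF.pair))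
    exact iwo_least hI'' (p := fun j => W j v) h4 hv
  have hRw2 : ∀ {v i i'}, Rw lt'' W v i → Rw lt'' W v i' → i = i' := by
    intro v i i' h4 h5
    exact iwo_unique hI'' (p := fun i => W i v) h4.1 h4.2 h5.1 h5.2
  have hZ : ZFA.Int M (fun i : I => ∃ v, B v ∧ (∀ j, ¬ W j v) ∧ Rk lt F v i) := by (repeat' (first | with_reducible exact IntF.id | with_reducible exact IntF.fst' | with_reducible exact IntF.snd' | with_reducible exact IntF.const _ | with_reducible exact Int.const _ | assumption | with_reducible apply Int.and | with_reducible apply Int.or | with_reducible apply Int.not | with_reducible apply Int.imp | with_reducible apply Int.iff | with_reducible apply Int.ne | with_reducible apply Int.eq | with_reducible apply Int.mem | with_reducible apply Int.subset | with_reducible apply Int.ltN | with_reducible apply Int.leN | with_reducible_and_instances apply Helper672.ZFA.Int.le | with_reducible_and_instances apply Helper672.ZFA.Int.lt | with_reducible apply Int.all | with_reducible apply Int.ex | with_reducible apply IntF.fst | with_reducible apply IntF.snd | with_reducible apply IntF.app | with_reducible apply IntF.inl | with_reducible apply IntF.inr | with_reducible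 apply Int.fin | with_reducible apply IntF.sep | with_reducible apply IntF.lam | with_reducible apply IntF.insert | with_reducible apply IntF.singleton | with_reducible apply IntF.union | with_reducible apply IntF.iimage | with_reducible apply IntF.ite | with_reducible apply IntF.the | with_reducible apply IntF.irec | with_reducible apply IntF.succ | with_reducible apply IntF.val | (with_reducible refine Int.comp ?_ ?_; assumption) | (with_reducible refine Int.comp₂ ?_ ?_ ?_; assumption) | (with_reducible refine Int.comp₃ ?_ ?_ ?_ ?_; assumption) | (with_reducible refine Int.comp₄ ?_ ?_ ?_ ?_ ?_; assumption) | (with_reducible refine IntF.comp ?_ ?_; assumption) | (with_reducible refine IntF.comp₂ ?_ ?_ ?_; assumption) | (with_reducible refine IntF.comp₃ ?_ ?_ ?_ ?_; assumption) | with_reducible apply IntF.mk | with_reducible apply IntF.pair))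
  have hY : ZFA.Int M (fun j : I'' => ∃ v, B v ∧ Rw lt'' W v j) := by (repeat' (first | with_reducible exact IntF.id | with_reducible exact IntF.fst' | with_reducible exact IntF.snd' | with_reducible exact IntF.const _ | with_reducible exact Int.const _ | assumption | with_reducible apply Int.and | with_reducible apply Int.or | with_reducible apply Int.not | with_reducible apply Int.imp | with_reducible apply Int.iff | with_reducible apply Int.ne | with_reducible apply Int.eq | with_reducible apply Int.mem | with_reducible apply Int.subset | with_reducible apply Int.ltN | with_reducible apply Int.leN | with_reducible_and_instances apply Helper672.ZFA.Int.le | with_reducible_and_instances apply Helper672.ZFA.Int.lt | with_reducible apply Int.all | with_reducible apply Int.ex | with_reducible apply IntF.fst | with_reducible apply IntF.snd | with_reducible apply IntF.app | with_reducible apply IntF.inl | with_reducible apply IntF.inr | with_reducible apply Int.fin | with_reducible apply IntF.sep | with_reducible apply IntF.lam | with_reducible apply IntF.insert | with_reducible apply IntF.singleton | with_reducible apply IntF.union | with_reducible apply IntF.iimage | with_reducible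 apply IntF.ite | with_reducible apply IntF.the | with_reducible apply IntF.irec | with_reducible apply IntF.succ | with_reducible apply IntF.val | (with_reducible refine Int.comp ?_ ?_; assumption) | (with_reducible refine Int.comp₂ ?_ ?_ ?_; assumption) | (with_reducible refine Int.comp₃ ?_ ?_ ?_ ?_; assumption) | (with_reducible refine Int.comp₄ ?_ ?_ ?_ ?_ ?_; assumption) | (with_reducible refine IntF.comp ?_ ?_; assumption) | (with_reducible refine IntF.comp₂ ?_ ?_ ?_; assumption) | (with_reducible refine IntF.comp₃ ?_ ?_ ?_ ?_; assumption) | with_reducible apply IntF.mk | with_reducible apply IntF.pair))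
  have hGi : ZFA.Int M (fun q : I × I' => Gi lt F W Φ B q.1 q.2) := by
    unfold Gi
    (repeat' (first | with_reducible exact IntF.id | with_reducible exact IntF.fst' | with_reducible exact IntF.snd' | with_reducible exact IntF.const _ | with_reducible exact Int.const _ | assumption | with_reducible apply Int.and | with_reducible apply Int.or | with_reducible apply Int.not | with_reducible apply Int.imp | with_reducible apply Int.iff | with_reducible apply Int.ne | with_reducible apply Int.eq | with_reducible apply Int.mem | with_reducible apply Int.subset | with_reducible apply Int.ltN | with_reducible apply Int.leN | with_reducible_and_instances apply Helper672.ZFA.Int.le | with_reducible_and_instances apply Helper672.ZFA.Int.lt | with_reducible apply Int.all | with_reducible apply Int.ex | with_reducible apply IntF.fst | with_reducible apply IntF.snd | with_reducible apply IntF.app | with_reducible apply IntF.inl | with_reducible apply IntF.inr | with_reducible apply Int.fin | with_reducible apply IntF.sep | with_reducible apply IntF.lam | with_reducible apply IntF.insert | with_reducible apply IntF.singleton | with_reducible apply IntF.union | with_reducible apply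 IntF.iimage | with_reducible apply IntF.ite | with_reducible apply IntF.the | with_reducible apply IntF.irec | with_reducible apply IntF.succ | with_reducible apply IntF.val | (with_reducible refine Int.comp ?_ ?_; assumption) | (with_reducible refine Int.comp₂ ?_ ?_ ?_; assumption) | (with_reducible refine Int.comp₃ ?_ ?_ ?_ ?_; assumption) | (with_reducible refine Int.comp₄ ?_ ?_ ?_ ?_ ?_; assumption) | (with_reducible refine IntF.comp ?_ ?_; assumption) | (with_reducible refine IntF.comp₂ ?_ ?_ ?_; assumption) | (with_reducible refine IntF.comp₃ ?_ ?_ ?_ ?_; assumption) | with_reducible apply IntF.mk | with_reducible apply IntF.pair))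
  have hL : ZFA.Int M (fun q : I × I' => Gi lt F W Φ B q.1 q.2 ∧
    ∀ ι', Gi lt F W Φ B q.1 ι' → ¬ lt' ι' q.2) := by (repeat' (first | with_reducible exact IntF.id | with_reducible exact IntF.fst' | with_reducible exact IntF.snd' | with_reducible exact IntF.const _ | with_reducible exact Int.const _ | assumption | with_reducible apply Int.and | with_reducible apply Int.or | with_reducible apply Int.not | with_reducible apply Int.imp | with_reducible apply Int.iff | with_reducible apply Int.ne | with_reducible apply Int.eq | with_reducible apply Int.mem | with_reducible apply Int.subset | with_reducible apply Int.ltN | with_reducible apply Int.leN | with_reducible_and_instances apply Helper672.ZFA.Int.le | with_reducible_and_instances apply Helper672.ZFA.Int.lt | with_reducible apply Int.all | with_reducible apply Int.ex | with_reducible apply IntF.fst | with_reducible apply IntF.snd | with_reducible apply IntF.app | with_reducible apply IntF.inl | with_reducible apply IntF.inr | with_reducible apply Int.fin | with_reducible apply IntF.sep | with_reducible apply IntF.lam | with_reducible apply IntF.insert | with_reducible apply IntF.singleton | with_reducible apply IntF.union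 | with_reducible apply IntF.iimage | with_reducible apply IntF.ite | with_reducible apply IntF.the | with_reducible apply IntF.irec | with_reducible apply IntF.succ | with_reducible apply IntF.val | (with_reducible refine Int.comp ?_ ?_; assumption) | (with_reducible refine Int.comp₂ ?_ ?_ ?_; assumption) | (with_reducible refine Int.comp₃ ?_ ?_ ?_ ?_; assumption) | (with_reducible refine Int.comp₄ ?_ ?_ ?_ ?_ ?_; assumption) | (with_reducible refine IntF.comp ?_ ?_; assumption) | (with_reducible refine IntF.comp₂ ?_ ?_ ?_; assumption) | (with_reducible refine IntF.comp₃ ?_ ?_ ?_ ?_; assumption) | with_reducible apply IntF.mk | with_reducible apply IntF.pair))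
  have hR1 : ZFA.Int M (fun q : I'' × V => Rw lt'' W q.2 q.1) := by (repeat' (first | with_reducible exact IntF.id | with_reducible exact IntF.fst' | with_reducible exact IntF.snd' | with_reducible exact IntF.const _ | with_reducible exact Int.const _ | assumption | with_reducible apply Int.and | with_reducible apply Int.or | with_reducible apply Int.not | with_reducible apply Int.imp | with_reducible apply Int.iff | with_reducible apply Int.ne | with_reducible apply Int.eq | with_reducible apply Int.mem | with_reducible apply Int.subset | with_reducible apply Int.ltN | with_reducible apply Int.leN | with_reducible_and_instances apply Helper672.ZFA.Int.le | with_reducible_and_instances apply Helper672.ZFA.Int.lt | with_reducible apply Int.all | with_reducible apply Int.ex | with_reducible apply IntF.fst | with_reducible apply IntF.snd | with_reducible apply IntF.app | with_reducible apply IntF.inl | with_reducible apply IntF.inr | with_reducible apply Int.fin | with_reducible apply IntF.sep | with_reducible apply IntF.lam | with_reducible apply IntF.insert | with_reducible apply IntF.singleton | with_reducible apply IntF.union | with_reducible apply IntF.iimage | with_reducible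 apply IntF.ite | with_reducible apply IntF.the | with_reducible apply IntF.irec | with_reducible apply IntF.succ | with_reducible apply IntF.val | (with_reducible refine Int.comp ?_ ?_; assumption) | (with_reducible refine Int.comp₂ ?_ ?_ ?_; assumption) | (with_reducible refine Int.comp₃ ?_ ?_ ?_ ?_; assumption) | (with_reducible refine Int.comp₄ ?_ ?_ ?_ ?_ ?_; assumption) | (with_reducible refine IntF.comp ?_ ?_; assumption) | (with_reducible refine IntF.comp₂ ?_ ?_ ?_; assumption) | (with_reducible refine IntF.comp₃ ?_ ?_ ?_ ?_; assumption) | with_reducible apply IntF.mk | with_reducible apply IntF.pair))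
  have hS2 : ZFA.Int M (fun q : V × (I × U) => (∀ j, ¬ W j q.1) ∧ Rk lt F q.1 q.2.1 ∧
      ∃ ι, (Gi lt F W Φ B q.2.1 ι ∧ ∀ ι', Gi lt F W Φ B q.2.1 ι' → ¬ lt' ι' ι) ∧
        Φ ι q.2.2 q.1) := by (repeat' (first | with_reducible exact IntF.id | with_reducible exact IntF.fst' | with_reducible exact IntF.snd' | with_reducible exact IntF.const _ | with_reducible exact Int.const _ | assumption | with_reducible apply Int.and | with_reducible apply Int.or | with_reducible apply Int.not | with_reducible apply Int.imp | with_reducible apply Int.iff | with_reducible apply Int.ne | with_reducible apply Int.eq | with_reducible apply Int.mem | with_reducible apply Int.subset | with_reducible apply Int.ltN | with_reducible apply Int.leN | with_reducible_and_instances apply Helper672.ZFA.Int.le | with_reducible_and_instances apply Helper672.ZFA.Int.lt | with_reducible apply Int.all | with_reducible apply Int.ex | with_reducible apply IntF.fst | with_reducible apply IntF.snd | with_reducible apply IntF.app | with_reducible apply IntF.inl | with_reducible apply IntF.inr | with_reducible apply Int.fin | with_reducible apply IntF.sep | with_reducible apply IntF.lam | with_reducible apply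 IntF.insert | with_reducible apply IntF.singleton | with_reducible apply IntF.union | with_reducible apply IntF.iimage | with_reducible apply IntF.ite | with_reducible apply IntF.the | with_reducible apply IntF.irec | with_reducible apply IntF.succ | with_reducible apply IntF.val | (with_reducible refine Int.comp ?_ ?_; assumption) | (with_reducible refine Int.comp₂ ?_ ?_ ?_; assumption) | (with_reducible refine Int.comp₃ ?_ ?_ ?_ ?_; assumption) | (with_reducible refine Int.comp₄ ?_ ?_ ?_ ?_ ?_; assumption) | (with_reducible refine IntF.comp ?_ ?_; assumption) | (with_reducible refine IntF.comp₂ ?_ ?_ ?_; assumption) | (with_reducible refine IntF.comp₃ ?_ ?_ ?_ ?_; assumption) | with_reducible apply IntF.mk | with_reducible apply IntF.pair))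
  refine ⟨sep M (fun i : I => ∃ v, B v ∧ (∀ j, ¬ W j v) ∧ Rk lt F v i),
    sep M (fun j : I'' => ∃ v, B v ∧ Rw lt'' W v j),
    ⟨sep M (fun q : I'' × V => Rw lt'' W q.2 q.1),
      sep M (fun q : (I × U) × V => F q.1.1 q.1.2 q.2), ?_, ?_, ?_⟩,
    ⟨sep M (fun q : V × I'' => Rw lt'' W q.1 q.2),
      sep M (fun q : V × (I × U) => (∀ j, ¬ W j q.1) ∧ Rk lt F q.1 q.2.1 ∧
      ∃ ι, (Gi lt F W Φ B q.2.1 ι ∧ ∀ ι', Gi lt F W Φ B q.2.1 ι' → ¬ lt' ι' ι) ∧
        Φ ι q.2.2 q.1), ?_, ?_, ?_, ?_, ?_⟩⟩
  · intro j v v' h4 h5
    exact hWf j _ _ ((mem_sep hR1).1 h4).1 ((mem_sep hR1).1 h5).1
  · rintro ⟨i, u⟩ v v' h4 h5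
    exact hFf i u _ _ ((mem_sep hF).1 h4) ((mem_sep hF).1 h5)
  · intro v hv
    by_cases h4 : ∃ j, W j v
    · obtain ⟨j, hj⟩ := hRw1 v h4
      exact Or.inl ⟨j, (mem_sep hY).2 ⟨v, hv, hj⟩, (mem_sep hR1).2 hj⟩
    · push Not at h4
      obtain ⟨i, hi⟩ := hRk1 v hv
      obtain ⟨u, hu⟩ := hi.1
      exact Or.inr ⟨i, u, (mem_sep hZ).2 ⟨v, hv, h4, hi⟩, (mem_sep hF).2 hu⟩
  · intro v j j' h4 h5
    exact hRw2 ((mem_sep hRw).1 h4) ((mem_sep hRw).1 h5)
  · rintro v ⟨i, u⟩ ⟨i', u'⟩ h4 h5
    obtain ⟨a0, a1, ι, a2, a3⟩ := (mem_sep hS2).1 h4
    obtain ⟨b0, b1, κ, b2, b3⟩ := (mem_sep hS2).1 h5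
    dsimp only at a0 a1 a2 a3 b0 b1 b2 b3
    obtain rfl := hRk2 a1 b1
    obtain rfl := iwo_unique hI' (p := fun ι => Gi lt F W Φ B i ι) a2.1 a2.2 b2.1 b2.2
    obtain rfl := a2.1.2.1 _ _ _ a3 b3
    rfl
  · intro v j w h4 h5
    exact ((mem_sep hS2).1 h5).1 j ((mem_sep hRw).1 h4).1
  · intro j hj
    obtain ⟨v, h4, h5⟩ := (mem_sep hY).1 hj
    exact ⟨v, h4, (mem_sep hRw).2 h5⟩
  · intro i u hi
    obtain ⟨v, h4, h5, h6⟩ := (mem_sep hZ).1 hi
    obtain ⟨ι, hι, hι'⟩ := iwo_least hI' (p := fun ι => Gi lt F W Φ B i ι) (by (repeat' (first | with_reducible exact IntF.id | with_reducible exact IntF.fst' | with_reducible exact IntF.snd' | with_reducible exact IntF.const _ | with_reducible exact Int.const _ | assumption | with_reducible apply Int.and | with_reducible apply Int.or | with_reducible apply Int.not | with_reducible apply Int.imp | with_reducible apply Int.iff | with_reducible apply Int.ne | with_reducible apply Int.eq | with_reducible apply Int.mem | with_reducible apply Int.subset | with_reducible apply Int.ltN | with_reducible apply Int.leN | with_reducible_and_instances apply Helper672.ZFA.Int.le | with_reducible_and_instances apply Helper672.ZFA.Int.lt | with_reducible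 apply Int.all | with_reducible apply Int.ex | with_reducible apply IntF.fst | with_reducible apply IntF.snd | with_reducible apply IntF.app | with_reducible apply IntF.inl | with_reducible apply IntF.inr | with_reducible apply Int.fin | with_reducible apply IntF.sep | with_reducible apply IntF.lam | with_reducible apply IntF.insert | with_reducible apply IntF.singleton | with_reducible apply IntF.union | with_reducible apply IntF.iimage | with_reducible apply IntF.ite | with_reducible apply IntF.the | with_reducible apply IntF.irec | with_reducible apply IntF.succ | with_reducible apply IntF.val | (with_reducible refine Int.comp ?_ ?_; assumption) | (with_reducible refine Int.comp₂ ?_ ?_ ?_; assumption) | (with_reducible refine Int.comp₃ ?_ ?_ ?_ ?_; assumption) | (with_reducible refine Int.comp₄ ?_ ?_ ?_ ?_ ?_; assumption) | (with_reducible refine IntF.comp ?_ ?_; assumption) | (with_reducible refine IntF.comp₂ ?_ ?_ ?_; assumption) | (with_reducible refine IntF.comp₃ ?_ ?_ ?_ ?_; assumption) | with_reducible apply IntF.mk | with_reducible apply IntF.pair)))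
      (h3 i v h4 h5 h6)
    obtain ⟨v', h8⟩ := hι.1 u
    obtain ⟨h9, h10, h11⟩ := hι.2.2 u v' h8
    exact ⟨v', h9, (mem_sep hS2).2 ⟨h10, h11, ι, ⟨hι, hι'⟩, h8⟩⟩

end

end Pool.Agent.Y580
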