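import Pool.Agent.Y580.B4
import Pool.Agent.Y580.D2

/-!
# The decomposition of the sets in the symmetric extension
-/

set_option maxHeartbeats 400000
set_option linter.all false
set_option synthInstance.maxSize 2000

namespace Pool.Agent.Y580

open FirstOrder FirstOrder.Language
open Pool.Agent.Helper672
open Pool.Agent.Helper672.ZFA
open Pool.Agent.Helper672.ZFA.H635

universe u

variable {M : Type u} [L.Structure M] [hM : IsModel M]

section

variable {G : Set (Co M)} (hG : IsGen M G)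

theorem exists_dec (hC : CollL M)
    (hWO : ∀ (δ : Type u) [ITy M δ], ∃ lt : δ → δ → Prop, IWO M δ lt) (d : NN (SS M) hG)
    {lt0 : Tu M → Tu M → Prop} (h0 : IWO M (Tu M) lt0) :
    ∃ (δ δ' : NN (SS M) hG) (lt : El δ → El δ → Prop) (lt' : El δ' → El δ' → Prop),
      IWO (NN (SS M) hG) (El δ) lt ∧ IWO (NN (SS M) hG) (El δ') lt' ∧
      ∀ X : IPow (NN (SS M) hG) (El d), ∃ (Z : IPow (NN (SS M) hG) (El δ))
        (Y : IPow (NN (SS M) hG) (El δ')), Dec (NN (SS M) hG) (El (Us hG h0))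
          (fun v => v ∈ X) (fun i => i ∈ Z) (fun j => j ∈ Y) := by
  obtain ⟨α, _, E, hE, a₀, l₀, -, rfl⟩ := exists_nm hG d
  obtain ⟨lt1, h1⟩ := hWO (α × INat M)
  obtain ⟨lt2, h2⟩ := hWO (α × Co M)
  obtain ⟨lt3, h3⟩ := hWO (α × (INat M × Co M))
  refine ⟨Od (SS M) hG h1, Od (SS M) hG h2, _, _, iwo_Od hG hC h1, iwo_Od hG hC h2,
    fun X => ?_⟩
  obtain ⟨zF, hzF⟩ := exists_F hG h0 hE h1
  -- the covering
  let F : El (Od (SS M) hG h1) → El (Us hG h0) → El (nd hG hE a₀) → Prop := fun i u v =>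
    ZFA.Mem (ZFA.op (ZFA.op i.1 u.1) v.1) zF
  have hFi : ZFA.Int (NN (SS M) hG) (fun q : (El (Od (SS M) hG h1) × El (Us hG h0)) ×
    El (nd hG hE a₀) => F q.1.1 q.1.2 q.2) := ⟨zF, fun q => Iff.rfl⟩
  have hF : ∀ i u v, F i u v ↔ ∃ c : (α × INat M) × Gm M, Sy (SS M) E c.1.2 c.1.1 ∧
      i.1 = od (SS M) hG h1 c.1 ∧ u.1 = uu hG h0 (c.2, c.1.2) ∧
      v.1 = nd hG (good_og (Γ := Gm M) hE) (c.2, c.1.1) := by
    intro i u v
    refine (hzF _).trans (exists_congr fun c => and_congr_right fun _ => ⟨fun h => ?_, ?_⟩)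
    · obtain ⟨h4, h5⟩ := ZFA.op_inj h
      obtain ⟨h6, h7⟩ := ZFA.op_inj h4
      exact ⟨h6, h7, h5⟩
    · rintro ⟨h4, h5, h6⟩
      rw [h4, h5, h6]
  -- the names
  have hB1 : ∀ (v : El (nd hG hE a₀)), ZFA.Mem v.1 (code (M := NN (SS M) hG) X) ↔ v ∈ X := by
    intro v
    exact mem_code_iff (M := NN (SS M) hG) (a := v)
  have hF1i : ZFA.Int (NN (SS M) hG) (fun q : El (Od (SS M) hG h1) × El (nd hG hE a₀) =>
      ∃ u, F q.1 u q.2) := by (repeat' (first | with_reducible exact IntF.id | with_reducible exact IntF.fst' | with_reducible exact IntF.snd' | with_reducible exact IntF.const _ | with_reducible exact Int.const _ | assumption | with_reducible apply Int.and | with_reducible apply Int.or | with_reducible apply Int.not | with_reducible apply Int.imp | with_reducible apply Int.iff | with_reducible apply Int.ne | with_reducible apply Int.eq | with_reducible apply Int.mem | with_reducible apply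 Int.subset | with_reducible apply Int.ltN | with_reducible apply Int.leN | with_reducible_and_instances apply Helper672.ZFA.Int.le | with_reducible_and_instances apply Helper672.ZFA.Int.lt | with_reducible apply Int.all | with_reducible apply Int.ex | with_reducible apply IntF.fst | with_reducible apply IntF.snd | with_reducible apply IntF.app | with_reducible apply IntF.inl | with_reducible apply IntF.inr | with_reducible apply Int.fin | with_reducible apply IntF.sep | with_reducible apply IntF.lam | with_reducible apply IntF.insert | with_reducible apply IntF.singleton | with_reducible apply IntF.union | with_reducible apply IntF.iimage | with_reducible apply IntF.ite | with_reducible apply IntF.the | with_reducible apply IntF.irec | with_reducible apply IntF.succ | with_reducible apply IntF.val | (with_reducible refine Int.comp ?_ ?_; assumption) | (with_reducible refine Int.comp₂ ?_ ?_ ?_;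 assumption) | (with_reducible refine Int.comp₃ ?_ ?_ ?_ ?_; assumption) | (with_reducible refine Int.comp₄ ?_ ?_ ?_ ?_ ?_; assumption) | (with_reducible refine IntF.comp ?_ ?_; assumption) | (with_reducible refine IntF.comp₂ ?_ ?_ ?_; assumption) | (with_reducible refine IntF.comp₃ ?_ ?_ ?_ ?_; assumption) | with_reducible apply IntF.mk | with_reducible apply IntF.pair))
  have hltO := (iwo_Od hG hC h1).int
  have hF2i : ZFA.Int (NN (SS M) hG) (fun q : El (Od (SS M) hG h1) × El (nd hG hE a₀) =>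
      ∃ i' : El (Od (SS M) hG h1), Plain.Mem i'.1 q.1.1 ∧ ∃ u, F i' u q.2) := by
    refine ZFA.Int.ex (ZFA.Int.and ?_ ?_)
    · exact ZFA.Int.comp₂ (p := fun x y : El (Od (SS M) hG h1) => Plain.Mem x.1 y.1) hltO
        IntF.snd' (IntF.fst IntF.fst')
    · exact ZFA.Int.comp₂ (p := fun (i : El (Od (SS M) hG h1)) (v : El (nd hG hE a₀)) =>
        ∃ u, F i u v) hF1i IntF.snd' (IntF.snd IntF.fst')
  have hF1 : ∀ (i : El (Od (SS M) hG h1)) (v : El (nd hG hE a₀)), ZFA.Mem (ZFA.op i.1 v.1)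
      (code (M := NN (SS M) hG) (sep (NN (SS M) hG) fun q : El (Od (SS M) hG h1) ×
        El (nd hG hE a₀) => ∃ u, F q.1 u q.2)) ↔ ∃ u, F i u v := by
    intro i v
    refine Iff.trans (mem_code_iff (M := NN (SS M) hG) (a := (i, v))) ?_
    exact mem_sep hF1i
  have hF2 : ∀ (i : El (Od (SS M) hG h1)) (v : El (nd hG hE a₀)), ZFA.Mem (ZFA.op i.1 v.1)
      (code (M := NN (SS M) hG) (sep (NN (SS M) hG) fun q : El (Od (SS M) hG h1) ×
        El (nd hG hE a₀) => ∃ i' : El (Od (SS M) hG h1), Plain.Mem i'.1 q.1.1 ∧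
          ∃ u, F i' u q.2)) ↔
        ∃ i' : El (Od (SS M) hG h1), Plain.Mem i'.1 i.1 ∧ ∃ u, F i' u v := by
    intro i v
    refine Iff.trans (mem_code_iff (M := NN (SS M) hG) (a := (i, v))) ?_
    exact mem_sep hF2i
  have hBd : ∀ w, ZFA.Mem w (code (M := NN (SS M) hG) X) → Plain.Mem w (nd hG hE a₀) := by
    intro w h
    obtain ⟨q, -, hq⟩ := (mem_code_pow (M := NN (SS M) hG)).1 h
    rw [← hq]
    exact q.2
  generalize code (M := NN (SS M) hG) X = Bv at hB1 hBd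
  generalize code (M := NN (SS M) hG) (sep (NN (SS M) hG) fun q : El (Od (SS M) hG h1) ×
    El (nd hG hE a₀) => ∃ u, F q.1 u q.2) = F1 at hF1
  generalize code (M := NN (SS M) hG) (sep (NN (SS M) hG) fun q : El (Od (SS M) hG h1) ×
    El (nd hG hE a₀) => ∃ i' : El (Od (SS M) hG h1), Plain.Mem i'.1 q.1.1 ∧
      ∃ u, F i' u q.2) = F2 at hF2
  obtain ⟨_, _, EB, hEB, yB, lB, hyB, rfl⟩ := exists_nm hG Bv
  obtain ⟨_, _, E1, hE1, y1, l1, hy1, rfl⟩ := exists_nm hG F1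
  obtain ⟨_, _, E2, hE2, y2, l2, hy2, rfl⟩ := exists_nm hG F2
  obtain ⟨n, hnB, hn1, hn2⟩ : ∃ n, lB ≤ n ∧ l1 ≤ n ∧ l2 ≤ n :=
    ⟨max lB (max l1 l2), le_max_left _ _, (le_max_left _ _).trans (le_max_right _ _),
      (le_max_right _ _).trans (le_max_right _ _)⟩
  replace hyB := sy_mono hnB hyB
  replace hy1 := sy_mono hn1 hy1
  replace hy2 := sy_mono hn2 hy2
  obtain ⟨_, _, EW, hEW, yW, hyW, hzW⟩ := exists_W hG hE n
  obtain ⟨zO, hzO⟩ := exists_Om hG hE n h2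
  obtain ⟨zP, hzP⟩ := exists_Ph hG h0 hE n h3
  -- the elements determined by conditions
  let W : El (Od (SS M) hG h2) → El (nd hG hE a₀) → Prop := fun j v =>
    ZFA.Mem (ZFA.op j.1 v.1) zO
  have hWi : ZFA.Int (NN (SS M) hG) (fun q : El (Od (SS M) hG h2) × El (nd hG hE a₀) =>
    W q.1 q.2) := ⟨zO, fun q => Iff.rfl⟩
  have hW : ∀ j v, W j v ↔ ∃ c : (α × Co M) × Gm M, (SS M).U n c.2 ∧ Sg E n c.1.1 c.1.2 ∧
      c.2 • c.1.2 ∈ G ∧ j.1 = od (SS M) hG h2 c.1 ∧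
      v.1 = nd hG (good_og (Γ := Gm M) hE) (c.2, c.1.1) := by
    intro i v
    refine (hzO _).trans (exists_congr fun c => and_congr_right fun _ =>
      and_congr_right fun _ => and_congr_right fun _ => ⟨fun h => ?_, ?_⟩)
    · exact ZFA.op_inj h
    · rintro ⟨h4, h5⟩
      rw [h4, h5]
  have hWW : ∀ v : El (nd hG hE a₀), (∃ j, W j v) ↔ Plain.Mem v.1 (nd hG hEW yW) := by
    intro v
    rw [hzW]
    constructor
    · rintro ⟨j, hj⟩
      obtain ⟨c, h4, h5, h6, -, h7⟩ := (hW j v).1 hj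
      refine ⟨(c.2, c.1.1), _, h6, ⟨h4, ?_⟩, h7⟩
      rw [inv_smul_smul]
      exact h5
    · rintro ⟨c, p, hp, ⟨h4, h5⟩, h6⟩
      refine ⟨⟨od (SS M) hG h2 (c.2, c.1⁻¹ • p), (mem_Od hG h2).2 ⟨_, rfl⟩⟩,
        (hW _ _).2 ⟨((c.2, c.1⁻¹ • p), c.1), h4, h5, ?_, rfl, h6⟩⟩
      rw [smul_inv_smul]
      exact hp
  -- the injections
  let Φ : El (Od (SS M) hG h3) → El (Us hG h0) → El (nd hG hE a₀) → Prop := fun i u v =>
    ZFA.Mem (ZFA.op (ZFA.op i.1 u.1) v.1) zP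
  have hΦi : ZFA.Int (NN (SS M) hG) (fun q : (El (Od (SS M) hG h3) × El (Us hG h0)) ×
    El (nd hG hE a₀) => Φ q.1.1 q.1.2 q.2) := ⟨zP, fun q => Iff.rfl⟩
  have hΦ : ∀ i u v, Φ i u v ↔ ∃ c : Ez (M := M) α, ∃ r : Co M, r ∈ G ∧
      (Sy (SS M) E c.1.2.1 c.1.1 ∧ Zp n c.1.2.1 c.1.2.2 c.2.1.1 c.2.1.2 c.2.2 r) ∧
      i.1 = od (SS M) hG h3 c.1 ∧ u.1 = uu hG h0 c.2.1 ∧
      v.1 = nd hG (good_og (Γ := Gm M) hE) (c.2.2, c.1.1) := by
    intro i u v
    refine (hzP _).trans (exists_congr fun c => exists_congr fun r => and_congr_right fun _ =>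
      and_congr_right fun _ => ⟨fun h => ?_, ?_⟩)
    · obtain ⟨h4, h5⟩ := ZFA.op_inj h
      obtain ⟨h6, h7⟩ := ZFA.op_inj h4
      exact ⟨h6, h7, h5⟩
    · rintro ⟨h4, h5, h6⟩
      rw [h4, h5, h6]
  refine dec_of (M := NN (SS M) hG) (iwo_Od hG hC h1) (iwo_Od hG hC h3)
    (iwo_Od hG hC h2) X.int_mem (F := F) hFi ?_ ?_ (W := W) hWi ?_ (Φ := Φ) hΦi ?_
  · intro i u v v' h4 h5
    obtain ⟨c, a1, a2, a3, a4⟩ := (hF _ _ _).1 h4
    obtain ⟨c', b1, b2, b3, b4⟩ := (hF _ _ _).1 h5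
    have h6 : c.1 = c'.1 := od_inj hG h1 hC (a2.symm.trans b2)
    have h7 := (uu_eq hG h0 hC).1 (a3.symm.trans b3)
    refine Subtype.ext ?_
    rw [a4, b4, ← h6]
    exact nd_LL hG hE a1 h7.2
  · intro v _
    obtain ⟨b, _, _, _, hb⟩ := (mem_nd hG hE).1 v.2
    obtain ⟨m, hm⟩ := hE.sym b
    refine ⟨⟨od (SS M) hG h1 (b, m), (mem_Od hG h1).2 ⟨_, rfl⟩⟩,
      ⟨uu hG h0 (1, m), (mem_Us hG h0).2 ⟨_, rfl⟩⟩, (hF _ _ _).2 ⟨((b, m), 1), hm, rfl, rfl, ?_⟩⟩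
    rw [hb]
    exact (nd_og_one hG hE b).symm
  · intro j v v' h4 h5
    obtain ⟨c, a1, a2, a3, a4, a5⟩ := (hW _ _).1 h4
    obtain ⟨c', b1, b2, b3, b4, b5⟩ := (hW _ _).1 h5
    have h6 : c.1 = c'.1 := od_inj hG h2 hC (a4.symm.trans b4)
    refine Subtype.ext ?_
    rw [a5, b5, ← h6]
    rw [← h6] at b3
    obtain ⟨r, hr, h7, h8⟩ := hG.dir _ _ a3 b3
    exact (nd_eq hG _ _).2 ⟨r, hr, a2 _ _ a1 b1 r h7 h8⟩
  · intro i v hv hnW hrk
    obtain ⟨b, _, _, _, hb⟩ := (mem_nd hG hE).1 v.2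
    obtain ⟨mb, hmb⟩ := hE.sym b
    obtain ⟨m, hnm, hbm⟩ : ∃ m, n ≤ m ∧ mb ≤ m := ⟨max n mb, le_max_left _ _, le_max_right _ _⟩
    replace hmb := sy_mono hbm hmb
    have hv1 : v.1 = nd hG (good_og (Γ := Gm M) hE) (1, b) :=
      hb.trans (nd_og_one hG hE b).symm
    obtain ⟨i₀, hi₀⟩ := (mem_Od hG h1).1 i.2
    let act0 : Gm M → Gm M × α → Gm M × α := fun σ q => (σ * q.1, q.2)
    have hact : ∀ π b, act0 π⁻¹ (act0 π b) = b := fun π b => by
      change (π⁻¹ * (π * b.1), b.2) = b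
      rw [inv_mul_cancel_left]
    have f0 : EqFam hG act0 (fun q => nd hG (good_og (Γ := Gm M) hE) q) := og_fam hG hE
    have f2 : EqFam hG act0 (fun q => ZFA.op (od (SS M) hG h1 i₀)
        (nd hG (good_og (Γ := Gm M) hE) q)) :=
      ((od_fam hG h1).comp (φ := fun _ : Gm M × α => i₀) (IntF.const _)
        fun _ _ => rfl).op hact f0
    obtain ⟨p1, hp1, q1⟩ := hplus hG f0 hEB hyB (c := ((1, b) : Gm M × α)) (by
      have h4 := (hB1 v).2 hv
      rw [hv1] at h4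
      exact h4)
    obtain ⟨p2, hp2, q2⟩ := hminus hG f0 hEW hyW (c := ((1, b) : Gm M × α)) (by
      intro h4
      rw [← hv1, ← hWW] at h4
      obtain ⟨j, hj⟩ := h4
      exact hnW j hj)
    obtain ⟨p3, hp3, q3⟩ := hplus hG f2 hE1 hy1 (c := ((1, b) : Gm M × α)) (by
      have h4 := (hF1 i v).2 hrk.1
      rw [hi₀, hv1] at h4
      exact h4)
    obtain ⟨p4, hp4, q4⟩ := hminus hG f2 hE2 hy2 (c := ((1, b) : Gm M × α)) (by
      intro h4
      have h5 : ZFA.Mem (ZFA.op i.1 v.1) (nd hG hE2 y2) := by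
        rw [hi₀, hv1]
        exact h4
      obtain ⟨i', h6, h7⟩ := (hF2 i v).1 h5
      exact hrk.2 i' h7 h6)
    obtain ⟨p, hp, hp1', hp2', hp3', hp4'⟩ : ∃ p, p ∈ G ∧ p ≤ p1 ∧ p ≤ p2 ∧ p ≤ p3 ∧ p ≤ p4 := by
      obtain ⟨r1, hr1, c1, c2⟩ := hG.dir p1 p2 hp1 hp2
      obtain ⟨r2, hr2, c3, c4⟩ := hG.dir p3 p4 hp3 hp4
      obtain ⟨r3, hr3, c5, c6⟩ := hG.dir r1 r2 hr1 hr2
      exact ⟨r3, hr3, c5.trans c1, c5.trans c2, c6.trans c3, c6.trans c4⟩
    have key : ∀ τ, (SS M).U n τ → τ • p ∈ G →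
        ∃ hv' : Plain.Mem (nd hG (good_og (Γ := Gm M) hE) (τ, b)) (nd hG hE a₀),
          (⟨_, hv'⟩ : El (nd hG hE a₀)) ∈ X ∧ (∀ j, ¬ W j ⟨_, hv'⟩) ∧
            Rk (fun x y : El (Od (SS M) hG h1) => Plain.Mem x.1 y.1) F ⟨_, hv'⟩ i := by
      intro τ hτ hτp
      have e1 := q1 τ hτ (hG.up _ _ hτp (smul_le_smul' τ hp1'))
      have e2 := q2 τ hτ (hG.up _ _ hτp (smul_le_smul' τ hp2'))
      have e3 := q3 τ hτ (hG.up _ _ hτp (smul_le_smul' τ hp3'))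
      have e4 := q4 τ hτ (hG.up _ _ hτp (smul_le_smul' τ hp4'))
      have e0 : act0 τ (1, b) = (τ, b) := by
        change (τ * 1, b) = (τ, b)
        rw [mul_one]
      rw [e0] at e1 e2 e3 e4
      have hv' := hBd _ e1
      refine ⟨hv', ?_, ?_, ?_, ?_⟩
      · exact (hB1 (⟨_, hv'⟩ : El (nd hG hE a₀))).1 e1
      · intro j hj
        exact e2 ((hWW ⟨_, hv'⟩).1 ⟨j, hj⟩)
      · rw [← hF1, hi₀]
        exact e3
      · intro i' h6 h7
        refine e4 ?_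
        rw [← hi₀]
        exact (hF2 i ⟨_, hv'⟩).2 ⟨i', h7, h6⟩
    have hphi : ∀ u v', Φ ⟨od (SS M) hG h3 (b, (m, p)), (mem_Od hG h3).2 ⟨_, rfl⟩⟩ u v' →
        ∃ σ m₁ π, u.1 = uu hG h0 (σ, m₁) ∧ IsPz n m p.1.1 σ m₁ π ∧
          v'.1 = nd hG (good_og (Γ := Gm M) hE) (π, b) := by
      intro u v' h4
      obtain ⟨⟨⟨b', m', p'⟩, ⟨σ, m₁⟩, π₀⟩, r', hr', ⟨h5, h6⟩, h7, h8, h9⟩ := (hΦ _ _ _).1 h4
      dsimp only at h5 h6 h7 h8 h9
      have h10 := od_inj hG h3 hC h7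
      obtain ⟨rfl, h11⟩ := Prod.mk.inj h10
      obtain ⟨rfl, rfl⟩ := Prod.mk.inj h11
      obtain rfl := gen_unique hG hr' hp h6.1
      obtain ⟨π, hπ⟩ := exists_pz hnm r'.1.1 σ m₁
      refine ⟨σ, m₁, π, h8, hπ, ?_⟩
      rw [h9]
      exact nd_LL hG hE h5 (Zp_eqM hG hp h6 (Zp_of_pz hπ))
    refine ⟨⟨od (SS M) hG h3 (b, (m, p)), (mem_Od hG h3).2 ⟨_, rfl⟩⟩, ?_, ?_, ?_⟩
    · intro u
      obtain ⟨⟨σ, m₁⟩, hu⟩ := (mem_Us hG h0).1 u.2
      obtain ⟨π, hπ⟩ := exists_pz hnm p.1.1 σ m₁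
      obtain ⟨hv', -⟩ := key π hπ.U (by rw [pz_smul hπ]; exact hp)
      exact ⟨⟨_, hv'⟩, (hΦ _ _ _).2 ⟨((b, (m, p)), ((σ, m₁), π)), p, hp,
        ⟨hmb, Zp_of_pz hπ⟩, rfl, hu, rfl⟩⟩
    · intro u u' v' h4 h5
      obtain ⟨σ, m₁, π, h6, h7, h8⟩ := hphi u v' h4
      obtain ⟨σ', m₁', π', h6', h7', h8'⟩ := hphi u' v' h5
      by_contra hne
      have hne' : ¬ (m₁ = m₁' ∧ EqM G m₁ σ σ') := by
        intro h9
        refine hne (Subtype.ext ?_)
        rw [h6, h6']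
        exact (uu_eq hG h0 hC).2 h9
      obtain ⟨s, hs, h9⟩ := (nd_eq hG _ _).1 (h8.symm.trans h8')
      obtain ⟨s', hs', h10, h11, h12⟩ := exists_sepa hG hs p.1.1 hne'
      have h13 := Sg_of_eq hE hnm h7 h7' hmb h11 (h9.mono h10) h12
      obtain ⟨hv', -, h14, -⟩ := key π h7.U (by rw [pz_smul h7]; exact hp)
      obtain ⟨j, hj⟩ := (hWW ⟨_, hv'⟩).2 ((hzW _).2 ⟨(π, b), s', hs', ⟨h7.U, h13⟩, rfl⟩)
      exact h14 j hj
    · intro u v' h4
      obtain ⟨σ, m₁, π, h6, h7, h8⟩ := hphi u v' h4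
      obtain ⟨hv', h9, h10, h11⟩ := key π h7.U (by rw [pz_smul h7]; exact hp)
      have h12 : v' = ⟨_, hv'⟩ := Subtype.ext h8
      rw [h12]
      exact ⟨h9, h10, h11⟩

end

end Pool.Agent.Y580
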