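import Pool.Agent.Y580.Defs

/-!
# The well-foundedness principles for cardinals and the dual Cantor-Bernstein theorem, in a
structure for the language of set theory

`LSet` and `Mem` are from `Pool.Agent.Helper672.SIK.Plain`; `IsOmega`, `App`, `IsFun`, `IsInj` and
`IsBij` are from `Pool.Agent.H310R3.Cards`; `IsSucc`, `IsSurj` and `LeStar` are from
`Pool.Agent.Y580.Defs`.
-/

namespace Pool.Agent.Y580S

open FirstOrder FirstOrder.Language
open Pool.Agent.Helper672.Plain (LSet Mem)
open Pool.Agent.H310Cards

universe u

section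

variable {M : Type u} [LSet.Structure M]

/-- `|x| ≤ |y|`: there is an injection from `x` to `y`. -/
def LeI (x y : M) : Prop := ∃ f, IsInj f x y

/-- `|x| = |y|`: there is a bijection from `x` to `y`. -/
def EqB (x y : M) : Prop := ∃ f, IsBij f x y

/-- `K` is a code of a cardinal: a nonempty set any two elements of which are in bijection. It
codes the cardinal of its elements. -/
def IsCode (K : M) : Prop := (∃ X, Mem X K) ∧ ∀ X Y, Mem X K → Mem Y K → EqB X Y

/-- The relation `P` for the cardinals that are coded by `K` and `L`. -/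
def OnCodes (P : M → M → Prop) (K L : M) : Prop := ∃ X Y, Mem X K ∧ Mem Y L ∧ P X Y

end

/-- The letters `i` and `s`. -/
inductive IS
  | i
  | s

/-- The letters `i`, `s` and `b`. -/
inductive ISB
  | i
  | s
  | b

/-- The relation `≼_x`: `|a| ≤ |c|` for `x = i` and `|a| ≤* |c|` for `x = s`. -/
def IS.le {M : Type u} [LSet.Structure M] : IS → M → M → Prop
  | .i => LeI
  | .s => LeStar

/-- `f` is a map that gives `c ≼_x a`: an injection from `c` to `a` for `x = i` and a surjection
from `a` onto `c` for `x = s`. -/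
def IS.map {M : Type u} [LSet.Structure M] : IS → M → M → M → Prop
  | .i => fun f c a => IsInj f c a
  | .s => fun f c a => IsSurj f a c

/-- The relation `R_y`: `|a| ≤ |c|` for `y = i`, `|a| ≤* |c|` for `y = s` and `|a| = |c|` for
`y = b`. -/
def ISB.rel {M : Type u} [LSet.Structure M] : ISB → M → M → Prop
  | .i => LeI
  | .s => LeStar
  | .b => EqB

/-- The principle WF^x_{y1}: every nonempty set `C` of cardinals has an element `K` such that
`K R_y L` for all `L` in `C` with `L ≼_x K`. -/
def WF1 (x : IS) (y : ISB) (N : Type u) [LSet.Structure N] : Prop :=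
  ∀ C : N, (∃ K, Mem K C) → (∀ K, Mem K C → IsCode K) →
    ∃ K, Mem K C ∧ ∀ L, Mem L C → OnCodes x.le L K → OnCodes y.rel K L

/-- The principle WF^x_{y2}: for every sequence `K` of cardinals (a function whose domain is the
set `w` of the natural numbers) with `K_{n+1} ≼_x K_n` for all `n`, there is `n` with
`K_n R_y K_{n+1}`. -/
def WF2 (x : IS) (y : ISB) (N : Type u) [LSet.Structure N] : Prop :=
  ∀ w K b : N, IsOmega w → IsFun K w b → (∀ n k, Mem n w → App K n k → IsCode k) →
    (∀ n s k l, Mem n w → IsSucc s n → App K n k → App K s l → OnCodes x.le l k) →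
    ∃ n s k l, Mem n w ∧ IsSucc s n ∧ App K n k ∧ App K s l ∧ OnCodes y.rel k l

/-- The principle WF^x_{y3}: for every sequence `A` of sets with `|A_{n+1}| ≼_x |A_n|` for all
`n`, there is `n` with `|A_n| R_y |A_{n+1}|`. -/
def WF3 (x : IS) (y : ISB) (N : Type u) [LSet.Structure N] : Prop :=
  ∀ w A b : N, IsOmega w → IsFun A w b →
    (∀ n s a c, Mem n w → IsSucc s n → App A n a → App A s c → x.le c a) →
    ∃ n s a c, Mem n w ∧ IsSucc s n ∧ App A n a ∧ App A s c ∧ y.rel a c

/-- The principle WF^x_{y4}: for every sequence `A` of sets and every sequence `F` of maps, where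
`F_n` is an injection from `A_{n+1}` to `A_n` (for `x = i`) or a surjection from `A_n` onto
`A_{n+1}` (for `x = s`), there is `n` with `|A_n| R_y |A_{n+1}|`. -/
def WF4 (x : IS) (y : ISB) (N : Type u) [LSet.Structure N] : Prop :=
  ∀ w A b F c : N, IsOmega w → IsFun A w b → IsFun F w c →
    (∀ n s a d f, Mem n w → IsSucc s n → App A n a → App A s d → App F n f → x.map f d a) →
    ∃ n s a d, Mem n w ∧ IsSucc s n ∧ App A n a ∧ App A s d ∧ y.rel a d

/-- The dual Cantor-Bernstein theorem CSB*: if `|x| ≤* |y|` and `|y| ≤* |x|` then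
`|x| = |y|`. -/
def CSBstar (N : Type u) [LSet.Structure N] : Prop :=
  ∀ x y : N, LeStar x y → LeStar y x → EqB x y

end Pool.Agent.Y580S
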