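import Pool.Agent.Y580.D2
import Pool.Agent.Y580.Defs2
import Pool.Agent.H310R3.W8

/-!
# The principles from the decomposition
-/

set_option maxHeartbeats 400000
set_option linter.all false
set_option synthInstance.maxSize 2000

namespace Pool.Agent.Y580

open FirstOrder FirstOrder.Language
open Pool.Agent.Helper672.ZFA
open Pool.Agent.Helper672.ZFA.H635 (IWO)

universe u

section

attribute [local instance] Helper672.Plain.toL

variable {M : Type u} [Helper672.Plain.LSet.Structure M] [hZ : Helper672.Plain.Zermelo M]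

local instance instModelY4 : IsModel M := Helper672.Plain.isModel_toL

open Pool.Agent.H310 Pool.Agent.H310Cards Pool.Agent.Y580S

theorem leStar_code {α β : Type u} [ITy M α] [ITy M β] (p : IPow M α) (q : IPow M β) :
    LeStar (code (M := M) q) (code p) ↔ PSu M (fun a => a ∈ p) (fun b => b ∈ q) := by
  constructor
  · rintro (h | ⟨f, hf, hs⟩)
    · refine ⟨sep M fun _ => False, fun a b b' h1 => ?_, fun b hb => ?_⟩
      · exact ((mem_sep (p := fun _ : α × β => False) (Int.const _)).1 h1).elim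
      · exact absurd (mem_codeU.2 ⟨b, hb, rfl⟩) (h (code b))
    · have hi : Int M (fun w : α × β => Mem (op (code (M := M) w.1) (code w.2)) f) :=
        ⟨f, fun w => Iff.rfl⟩
      refine ⟨sep M fun w : α × β => Mem (op (code (M := M) w.1) (code w.2)) f,
        fun a b b' h1 h2 => ?_, fun b hb => ?_⟩
      · have h3 := app_iff.2 ((mem_sep hi).1 h1)
        have h4 := app_iff.2 ((mem_sep hi).1 h2)
        have h5 := hf.2 _ (app_mem hf h3).1
        exact ITy.inj (h5.unique h3 h4)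
      · obtain ⟨x, hx⟩ := hs (code b) (mem_codeU.2 ⟨b, hb, rfl⟩)
        obtain ⟨a, ha, rfl⟩ := mem_codeU.1 (app_mem hf hx).1
        exact ⟨a, ha, (mem_sep hi).2 (app_iff.1 hx)⟩
  · rintro ⟨R, h1, h2⟩
    by_cases h0 : ∃ b, b ∈ q
    · right
      obtain ⟨b₀, hb₀⟩ := h0
      have hb₀' : Mem (code (M := M) b₀) (code (M := M) q) := mem_codeU.2 ⟨b₀, hb₀, rfl⟩
      have iR : Int M (fun w : El (code (M := M) p) × El (code (M := M) q) =>
        Mem (op w.1.1 w.2.1) (code (M := M) R)) := ⟨code (M := M) R, fun q => Iff.rfl⟩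
      let ψ : IFun M (El (code (M := M) p)) (El (code (M := M) q)) :=
        ⟨fun a => the (fun b : El (code (M := M) q) => Mem (op a.1 b.1) (code (M := M) R))
          ⟨code b₀, hb₀'⟩, IntF.the iR (IntF.const _)⟩
      refine ⟨code ψ, isFun_code ψ (fun z => mem_El) (fun a => (ψ a).2), fun y hy => ?_⟩
      obtain ⟨b, hb, rfl⟩ := mem_codeU.1 hy
      obtain ⟨a, ha, h3⟩ := h2 b hb
      have ha' : Mem (code (M := M) a) (code (M := M) p) := mem_codeU.2 ⟨a, ha, rfl⟩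
      refine ⟨code a, app_code.2 ⟨⟨code a, ha'⟩, rfl, ?_⟩⟩
      have h4 : Mem (op (code (M := M) a) (code b)) (code (M := M) R) :=
        mem_code_iff (M := M) (s := R) (a := (a, b)) |>.2 h3
      have h7 : ψ ⟨code a, ha'⟩ = ⟨code b, hy⟩ := by
        change the (fun b : El (code (M := M) q) => Mem (op (code (M := M) a) b.1)
          (code (M := M) R)) _ = _
        refine the_eq ⟨⟨code b, hy⟩, h4, fun b' hb' => ?_⟩ h4
        obtain ⟨b'', hb'', h5⟩ := mem_codeU.1 b'.2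
        have h8 : Mem (op (code (M := M) a) b'.1) (code (M := M) R) := hb'
        rw [← h5] at h8
        have h6 : (a, b'') ∈ R := mem_code_iff (M := M) (s := R) (a := (a, b'')) |>.1 h8
        refine Subtype.ext ?_
        rw [← h5]
        change code b'' = code b
        rw [h1 _ _ _ h3 h6]
      rw [h7]
      rfl
    · left
      intro z hz
      obtain ⟨b, hb, -⟩ := mem_codeU.1 hz
      exact h0 ⟨b, hb⟩

theorem exists_self (x : M) : ∃ p : IPow M (El x), code (M := M) p = x :=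
  exists_code_of (α := El x) (u := x) fun z hz => ⟨⟨z, hz⟩, rfl⟩

theorem leStar_trans {x y z : M} (h : LeStar x y) (h' : LeStar y z) : LeStar x z := by
  obtain ⟨p, hp⟩ := exists_self x
  obtain ⟨q, hq⟩ := exists_self y
  obtain ⟨r, hr⟩ := exists_self z
  rw [← hp, ← hq, leStar_code] at h
  rw [← hq, ← hr, leStar_code] at h'
  rw [← hp, ← hr, leStar_code]
  exact h'.trans h

theorem leStar_of_inj {f x y : M} (h : IsInj f x y) : LeStar x y := by
  obtain ⟨p, hp⟩ := exists_self x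
  obtain ⟨q, hq⟩ := exists_self y
  rw [← hp, ← hq, leStar_code]
  have hi : Int M (fun w : El x × El y => Mem (op w.1.1 w.2.1) f) := ⟨f, fun w => Iff.rfl⟩
  have hi' : Int M (fun w : El y × El x => Mem (op w.2.1 w.1.1) f) :=
    hi.comp (IntF.pair IntF.snd' IntF.fst')
  refine ⟨sep M fun w : El y × El x => Mem (op w.2.1 w.1.1) f, fun a b b' h1 h2 => ?_,
    fun b hb => ?_⟩
  · have h3 := app_iff.2 ((mem_sep hi').1 h1)
    have h4 := app_iff.2 ((mem_sep hi').1 h2)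
    exact Subtype.ext (h.2 _ _ _ h3 h4)
  · obtain ⟨z, hz, -⟩ := h.1.2 b.1 b.2
    have hzy := (app_mem h.1 hz).2
    refine ⟨⟨z, hzy⟩, ?_, (mem_sep hi').2 (app_iff.1 hz)⟩
    have h3 : Mem z (code (M := M) q) := by
      rw [hq]
      exact hzy
    exact (mem_code_iff (M := M) (α := El y) (s := q) (a := ⟨z, hzy⟩)).1 h3

theorem leStar_of_bij {f x y : M} (h : IsBij f x y) : LeStar x y ∧ LeStar y x :=
  ⟨leStar_of_inj h.1, Or.inr ⟨f, h.1.1, h.2⟩⟩

theorem leStar_of_le {x y : M} (k : IS) (h : k.le x y) : LeStar x y := by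
  cases k
  · obtain ⟨f, hf⟩ := h
    exact leStar_of_inj hf
  · exact h

/-- The principle for sets of sets. -/
def WFS (N : Type u) [Helper672.Plain.LSet.Structure N] : Prop :=
  ∀ S : N, (∃ X, Helper672.Plain.Mem X S) → ∃ X, Helper672.Plain.Mem X S ∧
    ∀ Y, Helper672.Plain.Mem Y S → LeStar Y X → LeStar X Y

theorem wfs_of (H : ∀ d : M, ∃ (U δ δ' : M) (lt : El δ → El δ → Prop)
    (lt' : El δ' → El δ' → Prop), IWO M (El δ) lt ∧ IWO M (El δ') lt' ∧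
      ∀ X : IPow M (El d), ∃ (Z : IPow M (El δ)) (Y : IPow M (El δ')), Dec M (El U)
        (fun v => v ∈ X) (fun i => i ∈ Z) (fun j => j ∈ Y)) : WFS M := by
  intro S hS
  obtain ⟨d, hd⟩ := hZ.union S
  obtain ⟨U, δ, δ', lt, lt', h1, h2, h3⟩ := H d
  obtain ⟨S', rfl⟩ := exists_code_of (α := IPow M (El d)) (u := S) fun z hz =>
    exists_code_of (α := El d) (u := z) fun t ht => ⟨⟨t, (hd t).2 ⟨z, hz, ht⟩⟩, rfl⟩
  obtain ⟨X, hX⟩ := hS
  obtain ⟨X', hX', -⟩ := mem_codeU.1 hX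
  obtain ⟨X, h4, h5⟩ := exists_min h1 h2 h3 S' ⟨X', hX'⟩
  refine ⟨code X, mem_codeU.2 ⟨X, h4, rfl⟩, fun Y hY h6 => ?_⟩
  obtain ⟨Y', h7, rfl⟩ := mem_codeU.1 hY
  rw [leStar_code] at h6 ⊢
  exact h5 Y' h7 h6

/-- The range of a sequence. -/
theorem exists_range {w A b : M} (hA : IsFun A w b) :
    ∃ S : M, ∀ z, Mem z S ↔ ∃ n, Mem n w ∧ App A n z := by
  have hi : Int M (fun z : El b => ∃ n : El w, Mem (op n.1 z.1) A) := by
    have h1 : Int M (fun q : El w × El b => Mem (op q.1.1 q.2.1) A) := ⟨A, fun q => Iff.rfl⟩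
    exact Int.ex (h1.comp (IntF.pair IntF.snd' IntF.fst'))
  refine ⟨code (M := M) (sep M fun z : El b => ∃ n : El w, Mem (op n.1 z.1) A), fun z => ?_⟩
  refine mem_codeU.trans ⟨?_, ?_⟩
  · rintro ⟨z, hz, rfl⟩
    obtain ⟨n, hn⟩ := (mem_sep hi).1 hz
    exact ⟨n.1, n.2, app_iff.2 hn⟩
  · rintro ⟨n, h1, h2⟩
    exact ⟨⟨z, (app_mem hA h2).2⟩, (mem_sep hi).2 ⟨⟨n, h1⟩, app_iff.1 h2⟩, rfl⟩

theorem exists_succ {w n : M} (hw : IsOmega w) (hn : Mem n w) :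
    ∃ s, Mem s w ∧ IsSucc s n := by
  obtain ⟨m, rfl⟩ := (mem_omega hw).1 hn
  exact ⟨code m.succ, (mem_omega hw).2 ⟨_, rfl⟩, fun z =>
    (INat.mem_succ (n := m) (z := z) : Mem z m.succ.val ↔ Mem z m.val ∨ z = m.val)⟩

theorem exists_omega_mem {w : M} (hw : IsOmega w) : ∃ n, Mem n w :=
  ⟨code (0 : INat M), (mem_omega hw).2 ⟨_, rfl⟩⟩

theorem wf1_of (h : WFS M) (x : IS) : WF1 x .s M := by
  rintro C ⟨K₀, hK₀⟩ hC
  obtain ⟨S, hS⟩ := hZ.union C
  obtain ⟨X₀, hX₀⟩ := (hC K₀ hK₀).1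
  obtain ⟨X, h1, h2⟩ := h S ⟨X₀, (hS _).2 ⟨K₀, hK₀, hX₀⟩⟩
  obtain ⟨K, hK, hXK⟩ := (hS X).1 h1
  refine ⟨K, hK, fun L hL h3 => ?_⟩
  obtain ⟨Y, X', hY, hX', h4⟩ := h3
  obtain ⟨f, hf⟩ := (hC K hK).2 X X' hXK hX'
  exact ⟨X, Y, hXK, hY, h2 Y ((hS Y).2 ⟨L, hL, hY⟩)
    (leStar_trans (leStar_of_le x h4) (leStar_of_bij hf).2)⟩

theorem wf2_of (h : WFS M) (x : IS) : WF2 x .s M := by
  intro w K b hw hK hc hd
  obtain ⟨C, hC⟩ := exists_range hK
  obtain ⟨n₀, hn₀⟩ := exists_omega_mem hw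
  obtain ⟨k₀, hk₀, -⟩ := hK.2 n₀ hn₀
  obtain ⟨k, hk, h1⟩ := wf1_of h x C ⟨k₀, (hC _).2 ⟨n₀, hn₀, hk₀⟩⟩ (fun k hk => by
    obtain ⟨n, h1, h2⟩ := (hC k).1 hk
    exact hc n k h1 h2)
  obtain ⟨n, hn, h2⟩ := (hC k).1 hk
  obtain ⟨s, hs, hs'⟩ := exists_succ hw hn
  obtain ⟨l, hl, -⟩ := hK.2 s hs
  exact ⟨n, s, k, l, hn, hs', h2, hl, h1 l ((hC l).2 ⟨s, hs, hl⟩) (hd n s k l hn hs' h2 hl)⟩

theorem wf3_of (h : WFS M) (x : IS) : WF3 x .s M := by
  intro w A b hw hA hd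
  obtain ⟨S, hS⟩ := exists_range hA
  obtain ⟨n₀, hn₀⟩ := exists_omega_mem hw
  obtain ⟨k₀, hk₀, -⟩ := hA.2 n₀ hn₀
  obtain ⟨X, hX, h1⟩ := h S ⟨k₀, (hS _).2 ⟨n₀, hn₀, hk₀⟩⟩
  obtain ⟨n, hn, h2⟩ := (hS X).1 hX
  obtain ⟨s, hs, hs'⟩ := exists_succ hw hn
  obtain ⟨l, hl, -⟩ := hA.2 s hs
  exact ⟨n, s, X, l, hn, hs', h2, hl, h1 l ((hS l).2 ⟨s, hs, hl⟩)
    (leStar_of_le x (hd n s X l hn hs' h2 hl))⟩

theorem wf4_of (h : WFS M) (x : IS) : WF4 x .s M := by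
  intro w A b F c hw hA hF hd
  refine wf3_of h x w A b hw hA fun n s a d hn hs ha hd' => ?_
  obtain ⟨f, hf, -⟩ := hF.2 n hn
  have h1 := hd n s a d f hn hs ha hd' hf
  cases x
  · exact ⟨f, h1⟩
  · exact Or.inr ⟨f, h1⟩

end

end Pool.Agent.Y580
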