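import Pool.Agent.Y580.D4
import Pool.Agent.Y580.B5

/-!
# The dual Cantor-Bernstein theorem fails in the symmetric extension
-/

set_option maxHeartbeats 400000
set_option linter.all false
set_option synthInstance.maxSize 2000

namespace Pool.Agent.Y580

open FirstOrder FirstOrder.Language
open Pool.Agent.Helper672
open Pool.Agent.Helper672.ZFA
open Pool.Agent.Helper672.ZFA.H635
open Pool.Agent.Y580S (CSBstar)

universe u

section

attribute [local instance] Helper672.Plain.toL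

variable {M : Type u} [Helper672.Plain.LSet.Structure M] [hZ : Helper672.Plain.Zermelo M]

local instance instModelY6 : IsModel M := Helper672.Plain.isModel_toL

open Pool.Agent.H310 Pool.Agent.H310Cards

theorem csb_bij (h : CSBstar M) {α β : Type u} [ITy M α] [ITy M β] (p : IPow M α)
    (q : IPow M β) (h1 : PSu M (fun a => a ∈ p) (fun b => b ∈ q))
    (h2 : PSu M (fun b => b ∈ q) (fun a => a ∈ p)) : ∃ f : M,
      (∀ b, b ∈ q → ∃ a, a ∈ p ∧ ZFA.Mem (ZFA.op (code (M := M) a) (code b)) f) ∧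
      (∀ (a : α) (b b' : β), ZFA.Mem (ZFA.op (code (M := M) a) (code b)) f →
        ZFA.Mem (ZFA.op (code a) (code b')) f → b = b') ∧
      ∀ (a a' : α) (b : β), ZFA.Mem (ZFA.op (code (M := M) a) (code b)) f →
        ZFA.Mem (ZFA.op (code a') (code b)) f → a = a' := by
  obtain ⟨f, hf, hs⟩ := h (code p) (code q) ((leStar_code q p).2 h2) ((leStar_code p q).2 h1)
  refine ⟨f, fun b hb => ?_, fun a b b' h3 h4 => ?_, fun a a' b h3 h4 => ?_⟩
  · obtain ⟨x, hx⟩ := hs (code b) (mem_codeU.2 ⟨b, hb, rfl⟩)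
    obtain ⟨a, ha, rfl⟩ := mem_codeU.1 (app_mem hf.1 hx).1
    exact ⟨a, ha, app_iff.1 hx⟩
  · have h5 := app_iff.2 h3
    have h6 := app_iff.2 h4
    exact ITy.inj ((hf.1.2 _ (app_mem hf.1 h5).1).unique h5 h6)
  · exact ITy.inj (hf.2 _ _ _ (app_iff.2 h3) (app_iff.2 h4))

theorem csb_red (h : CSBstar M) {U : Type u} [ITy M U] {E Z1 Z2 : U → U → Prop}
    (hE : ZFA.Int M (fun q : U × U => E q.1 q.2)) (hZ1 : ZFA.Int M (fun q : U × U => Z1 q.1 q.2))
    (hZ2 : ZFA.Int M (fun q : U × U => Z2 q.1 q.2))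
    (a1 : ∀ u v v', Z1 u v → Z1 u v' → v = v') (a2 : ∀ u v v', Z2 u v → Z2 u v' → v = v')
    (a3 : ∀ u v v', Z1 u v → ¬ Z2 u v') (a4 : ∀ v, ∃ u, Z1 u v)
    (a5 : ∀ v w, E v w → ∃ u, Z2 u v) :
    ∃ r : U → U → Prop, ZFA.Int M (fun q : U × U => r q.1 q.2) ∧
      (∀ u v, E u v → ∃ w, r u w) ∧ (∀ u v v', r u v → r u v' → v = v') ∧
      (∀ u u' v, (∀ w, E u w ↔ E u' w) → r u v → r u' v) ∧
      ∀ u u' v, r u v → r u' v → ∀ w, E u w ↔ E u' w := by
  obtain ⟨cls, hcls, mcls⟩ : ∃ cls : U → IPow M U, IntF M cls ∧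
      ∀ u v, v ∈ cls u ↔ E u v :=
    ⟨fun u => sep M (fun v : U => E u v), IntF.sep hE, fun u v =>
      mem_sep (p := fun v : U => E u v) (hE.comp (IntF.pair (IntF.const u) IntF.id))⟩
  have hqi : ZFA.Int M (fun y : U ⊕ IPow M U => (∃ u, y = Sum.inl u) ∨
      ∃ u, (∃ v, E u v) ∧ y = Sum.inr (cls u)) := by
    refine ZFA.Int.or (ZFA.Int.ex (ZFA.Int.eq IntF.fst' (IntF.inl IntF.snd')))
      (ZFA.Int.ex (ZFA.Int.and (ZFA.Int.ex ?_)
        (ZFA.Int.eq IntF.fst' (IntF.inr (IntF.comp hcls IntF.snd')))))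
    exact ZFA.Int.comp₂ (p := fun u v : U => E u v) hE (IntF.snd IntF.fst') IntF.snd'
  have hRi : ZFA.Int M (fun w : U × (U ⊕ IPow M U) => (∃ v, Z1 w.1 v ∧ w.2 = Sum.inl v) ∨
        ∃ v, Z2 w.1 v ∧ w.2 = Sum.inr (cls v)) := by
    refine ZFA.Int.or (ZFA.Int.ex (ZFA.Int.and ?_ (ZFA.Int.eq (IntF.snd IntF.fst')
      (IntF.inl IntF.snd')))) (ZFA.Int.ex (ZFA.Int.and ?_
        (ZFA.Int.eq (IntF.snd IntF.fst') (IntF.inr (IntF.comp hcls IntF.snd')))))
    · exact ZFA.Int.comp₂ (p := fun u v : U => Z1 u v) hZ1 (IntF.fst IntF.fst') IntF.snd'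
    · exact ZFA.Int.comp₂ (p := fun u v : U => Z2 u v) hZ2 (IntF.fst IntF.fst') IntF.snd'
  have hRi' : ZFA.Int M (fun w : (U ⊕ IPow M U) × U => w.1 = Sum.inl w.2) :=
    ZFA.Int.eq IntF.fst' (IntF.inl IntF.snd')
  have hp : ∀ a, a ∈ sep M (fun _ : U => True) := fun a =>
    (mem_sep (p := fun _ : U => True) (ZFA.Int.const _)).2 trivial
  obtain ⟨f, f1, f2, f3⟩ := csb_bij h (sep M (fun _ : U => True))
    (sep M (fun y : U ⊕ IPow M U => (∃ u, y = Sum.inl u) ∨
      ∃ u, (∃ v, E u v) ∧ y = Sum.inr (cls u))) (by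
    refine ⟨sep M (fun w : U × (U ⊕ IPow M U) => (∃ v, Z1 w.1 v ∧ w.2 = Sum.inl v) ∨
        ∃ v, Z2 w.1 v ∧ w.2 = Sum.inr (cls v)), fun a b b' h1 h2 => ?_, fun b hb => ?_⟩
    · rcases (mem_sep hRi).1 h1 with ⟨v, h3, h4⟩ | ⟨v, h3, h4⟩
      · rcases (mem_sep hRi).1 h2 with ⟨v', h5, h6⟩ | ⟨v', h5, h6⟩
        · dsimp only at h3 h4 h5 h6
          rw [h4, h6, a1 _ _ _ h3 h5]
        · exact absurd h5 (a3 _ _ _ h3)
      · rcases (mem_sep hRi).1 h2 with ⟨v', h5, h6⟩ | ⟨v', h5, h6⟩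
        · exact absurd h3 (a3 _ _ _ h5)
        · dsimp only at h3 h4 h5 h6
          rw [h4, h6, a2 _ _ _ h3 h5]
    · rcases (mem_sep hqi).1 hb with ⟨u, rfl⟩ | ⟨u, ⟨v, hv⟩, rfl⟩
      · obtain ⟨w, hw⟩ := a4 u
        exact ⟨w, hp _, (mem_sep hRi).2 (Or.inl ⟨u, hw, rfl⟩)⟩
      · obtain ⟨w, hw⟩ := a5 u v hv
        exact ⟨w, hp _, (mem_sep hRi).2 (Or.inr ⟨u, hw, rfl⟩)⟩) (by
    refine ⟨sep M (fun w : (U ⊕ IPow M U) × U => w.1 = Sum.inl w.2),
      fun a b b' h1 h2 => ?_, fun b hb => ?_⟩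
    · exact Sum.inl.inj (((mem_sep hRi').1 h1).symm.trans ((mem_sep hRi').1 h2))
    · exact ⟨Sum.inl b, (mem_sep hqi).2 (Or.inl ⟨b, rfl⟩), (mem_sep hRi').2 rfl⟩)
  have hFi : ZFA.Int M (fun q : U × (U ⊕ IPow M U) => ZFA.Mem (ZFA.op
        (code (M := M) q.1) (code q.2)) f) := ⟨f, fun q => Iff.rfl⟩
  have hhi : ZFA.Int M (fun q : U × U => ZFA.Mem (ZFA.op (code (M := M) q.2)
      (code (Sum.inr (cls q.1) : U ⊕ IPow M U))) f) :=
    hFi.comp (IntF.pair IntF.snd' (IntF.inr (IntF.comp hcls IntF.fst')))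
  refine ⟨fun u v => ZFA.Mem (ZFA.op (code (M := M) v)
      (code (Sum.inr (cls u) : U ⊕ IPow M U))) f, hhi, fun u v huv => ?_,
        fun u v v' h1 h2 => ?_, fun u u' v h1 h2 => ?_, fun u u' v h1 h2 => ?_⟩
  · obtain ⟨a, -, ha⟩ := f1 (Sum.inr (cls u)) ((mem_sep hqi).2 (Or.inr ⟨u, ⟨v, huv⟩, rfl⟩))
    exact ⟨a, ha⟩
  · exact f3 _ _ _ h1 h2
  · have h3 : cls u' = cls u := IPow.ext' fun w => by rw [mcls, mcls, h1]
    dsimp only
    rw [h3]
    exact h2
  · have h3 := Sum.inr.inj (f2 _ _ _ h1 h2)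
    intro w
    rw [← mcls, ← mcls, h3]

end

variable {M : Type u} [L.Structure M] [hM : IsModel M]

/-- `τ` is the translation by a set of positions with coordinate `k` and bounded levels. -/
def Tr (k : INat M) (τ : Gm M) : Prop :=
  ∃ (l : INat M) (d : XX M), (∀ a, a ∈ d → a.1 < l ∧ a.2.1 = k) ∧
    ∀ x a, a ∈ rh τ x ↔ ¬ (a ∈ x ↔ a ∈ d)

theorem int_Tr : ZFA.Int M (fun q : INat M × Gm M => Tr q.1 q.2) := by
  have h1 : IntF M (fun q : Gm M × XX M => rh q.1 q.2) := int_rh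
  unfold Tr
  (repeat' (first | with_reducible exact IntF.id | with_reducible exact IntF.fst' | with_reducible exact IntF.snd' | with_reducible exact IntF.const _ | with_reducible exact Int.const _ | assumption | with_reducible apply Int.and | with_reducible apply Int.or | with_reducible apply Int.not | with_reducible apply Int.imp | with_reducible apply Int.iff | with_reducible apply Int.ne | with_reducible apply Int.eq | with_reducible apply Int.mem | with_reducible apply Int.subset | with_reducible apply Int.ltN | with_reducible apply Int.leN | with_reducible_and_instances apply Helper672.ZFA.Int.le | with_reducible_and_instances apply Helper672.ZFA.Int.lt | with_reducible apply Int.all | with_reducible apply Int.ex | with_reducible apply IntF.fst | with_reducible apply IntF.snd | with_reducible apply IntF.app | with_reducible apply IntF.inl | with_reducible apply IntF.inr | with_reducible apply Int.fin | with_reducible apply IntF.sep | with_reducible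 apply IntF.lam | with_reducible apply IntF.insert | with_reducible apply IntF.singleton | with_reducible apply IntF.union | with_reducible apply IntF.iimage | with_reducible apply IntF.ite | with_reducible apply IntF.the | with_reducible apply IntF.irec | with_reducible apply IntF.succ | with_reducible apply IntF.val | (with_reducible refine Int.comp ?_ ?_; assumption) | (with_reducible refine Int.comp₂ ?_ ?_ ?_; assumption) | (with_reducible refine Int.comp₃ ?_ ?_ ?_ ?_; assumption) | (with_reducible refine Int.comp₄ ?_ ?_ ?_ ?_ ?_; assumption) | (with_reducible refine IntF.comp ?_ ?_; assumption) | (with_reducible refine IntF.comp₂ ?_ ?_ ?_; assumption) | (with_reducible refine IntF.comp₃ ?_ ?_ ?_ ?_; assumption) | with_reducible apply IntF.mk | with_reducible apply IntF.pair))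

theorem rh_inv_of_tr {τ : Gm M} {d : XX M} (h : ∀ x a, a ∈ rh τ x ↔ ¬ (a ∈ x ↔ a ∈ d))
    (x : XX M) (a : Ps M) : a ∈ rh τ⁻¹ x ↔ ¬ (a ∈ x ↔ a ∈ d) := by
  have h1 := h (rh τ⁻¹ x) a
  rw [rh_rh_inv] at h1
  tauto

theorem smul_tr {τ : Gm M} {d : XX M} (h : ∀ x a, a ∈ rh τ x ↔ ¬ (a ∈ x ↔ a ∈ d))
    (π : Gm M) (p : Co M) (a : Ps M) :
    a ∈ ((π * τ)⁻¹ • p).1.2 ↔ a.1 < p.1.1 ∧ ¬ (a ∈ (π⁻¹ • p).1.2 ↔ a ∈ d) := by
  rw [mul_inv_rev, mul_smul]
  change a ∈ lv p.1.1 (rh τ⁻¹ (π⁻¹ • p).1.2) ↔ _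
  rw [mem_lv, rh_inv_of_tr h]

theorem Tr.one (k : INat M) : Tr k (1 : Gm M) := by
  refine ⟨0, sep M fun _ => False, fun a ha => ?_, fun x a => ?_⟩
  · exact ((mem_sep (p := fun _ : Ps M => False) (ZFA.Int.const _)).1 ha).elim
  · rw [rh_one, mem_sep (p := fun _ : Ps M => False) (ZFA.Int.const _)]
    tauto

theorem Tr.mul {k : INat M} {τ τ' : Gm M} (h : Tr k τ) (h' : Tr k τ') : Tr k (τ * τ') := by
  obtain ⟨l, d, h1, h2⟩ := h
  obtain ⟨l', d', h1', h2'⟩ := h'
  refine ⟨max l l', xd d d', fun a ha => ?_, fun x a => ?_⟩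
  · rw [mem_xd] at ha
    by_cases h3 : a ∈ d
    · exact ⟨(h1 a h3).1.trans_le (le_max_left _ _), (h1 a h3).2⟩
    · by_cases h4 : a ∈ d'
      · exact ⟨(h1' a h4).1.trans_le (le_max_right _ _), (h1' a h4).2⟩
      · exact absurd (iff_of_false h3 h4) ha
  · rw [rh_mul, h2, h2', mem_xd]
    tauto

theorem Tr.inv {k : INat M} {τ : Gm M} (h : Tr k τ) : Tr k τ⁻¹ := by
  obtain ⟨l, d, h1, h2⟩ := h
  exact ⟨l, d, h1, rh_inv_of_tr h2⟩

section

variable {G : Set (Co M)} (hG : IsGen M G)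
variable {lt : Tu M → Tu M → Prop} (hlt : IWO M (Tu M) lt)

include hG in
theorem eqM_tr {k m : INat M} {π π' τ : Gm M} (h : EqM G m π π') (hτ : Tr k τ) :
    EqM G m (π * τ) (π' * τ) := by
  obtain ⟨l, d, h1, h2⟩ := hτ
  intro p hp a ha
  rw [smul_tr h2, smul_tr h2, h p hp a ha]

/-- The equivalence relation. -/
theorem exists_E (hC : CollL M) : ∃ z : NN (SS M) hG,
    (∀ (π : Gm M) (k : INat M) (v : NN (SS M) hG),
      ZFA.Mem (ZFA.op (uu hG hlt (π, k.succ)) v) z ↔
        ∃ τ, Tr k τ ∧ v = uu hG hlt (π * τ, k.succ)) ∧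
    ∀ u v : NN (SS M) hG, ZFA.Mem (ZFA.op u v) z →
      ∃ (π : Gm M) (k : INat M), u = uu hG hlt (π, k.succ) := by
  let act : Gm M → (Gm M × Gm M) × INat M → (Gm M × Gm M) × INat M := fun σ c =>
    ((σ * c.1.1, c.1.2), c.2)
  have hact : ∀ π b, act π⁻¹ (act π b) = b := fun π b => by
    change ((π⁻¹ * (π * b.1.1), b.1.2), b.2) = b
    rw [inv_mul_cancel_left]
  have f1 : EqFam hG act (fun c => uu hG hlt (c.1.1, c.2.succ)) :=
    (uu_fam hG hlt).comp (φ := fun c : (Gm M × Gm M) × INat M => (c.1.1, c.2.succ))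
      (IntF.pair (IntF.fst IntF.fst') (IntF.succ IntF.snd')) fun _ _ => rfl
  have f2 : EqFam hG act (fun c => uu hG hlt (c.1.1 * c.1.2, c.2.succ)) := by
    refine (uu_fam hG hlt).comp (φ := fun c : (Gm M × Gm M) × INat M =>
      (c.1.1 * c.1.2, c.2.succ)) (IntF.pair (IntF.mul (IntF.fst IntF.fst')
        (IntF.snd IntF.fst')) (IntF.succ IntF.snd')) fun π c => ?_
    change (π * c.1.1 * c.1.2, c.2.succ) = (π * (c.1.1 * c.1.2), c.2.succ)
    rw [mul_assoc]
  have hT := int_Tr (M := M)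
  obtain ⟨z, hz⟩ := (f1.op hact f2).set (Z := fun c : (Gm M × Gm M) × INat M => Tr c.2 c.1.2)
    (ZFA.Int.comp₂ (p := fun (k : INat M) (τ : Gm M) => Tr k τ) hT IntF.snd'
      (IntF.snd IntF.fst')) ⟨0, fun _ _ _ h => h⟩
  refine ⟨z, fun π k v => (hz _).trans ⟨?_, ?_⟩, fun u v h => ?_⟩
  · rintro ⟨⟨⟨π', τ⟩, k'⟩, h1, h2⟩
    obtain ⟨h3, h4⟩ := ZFA.op_inj h2
    obtain ⟨h5, h6⟩ := (uu_eq hG hlt hC).1 h3
    dsimp only at h1 h4 h5 h6
    obtain rfl := INat.succ_inj h5
    refine ⟨τ, h1, h4.trans ?_⟩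
    exact ((uu_eq hG hlt hC).2 ⟨rfl, eqM_tr hG h6 h1⟩).symm
  · rintro ⟨τ, h1, rfl⟩
    exact ⟨((π, τ), k), h1, rfl⟩
  · obtain ⟨⟨⟨π', τ⟩, k'⟩, h1, h2⟩ := (hz _).1 h
    exact ⟨π', k', (ZFA.op_inj h2).1⟩

/-- The equivalence relation has no reduction to the equality. -/
theorem no_red (hC : CollL M) (zh : NN (SS M) hG)
    (h1 : ∀ (π : Gm M) (k : INat M), ∃ e : Gm M × INat M,
      ZFA.Mem (ZFA.op (uu hG hlt (π, k.succ)) (uu hG hlt e)) zh)
    (h2 : ∀ c e e', ZFA.Mem (ZFA.op (uu hG hlt c) (uu hG hlt e)) zh →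
      ZFA.Mem (ZFA.op (uu hG hlt c) (uu hG hlt e')) zh → uu hG hlt e = uu hG hlt e')
    (h3 : ∀ (π τ : Gm M) (k : INat M) e, Tr k τ →
      ZFA.Mem (ZFA.op (uu hG hlt (π, k.succ)) (uu hG hlt e)) zh →
      ZFA.Mem (ZFA.op (uu hG hlt (π * τ, k.succ)) (uu hG hlt e)) zh)
    (h4 : ∀ (π π' : Gm M) (k : INat M) e,
      ZFA.Mem (ZFA.op (uu hG hlt (π, k.succ)) (uu hG hlt e)) zh →
      ZFA.Mem (ZFA.op (uu hG hlt (π', k.succ)) (uu hG hlt e)) zh →
      ∃ τ, Tr k τ ∧ uu hG hlt (π', k.succ) = uu hG hlt (π * τ, k.succ)) : False := by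
  obtain ⟨_, _, Ef, hEf, yf, n, hyf, rfl⟩ := exists_nm hG zh
  obtain ⟨⟨σ, m⟩, h5⟩ := h1 1 n
  let act : Gm M → Gm M × (Gm M × INat M) → Gm M × (Gm M × INat M) := fun σ c =>
    (σ * c.1, (σ * c.2.1, c.2.2))
  have hact : ∀ π b, act π⁻¹ (act π b) = b := fun π b => by
    change (π⁻¹ * (π * b.1), (π⁻¹ * (π * b.2.1), b.2.2)) = b
    rw [inv_mul_cancel_left, inv_mul_cancel_left]
  have f1 : EqFam hG act (fun c => uu hG hlt (c.1, n.succ)) :=
    (uu_fam hG hlt).comp (φ := fun c : Gm M × (Gm M × INat M) => (c.1, n.succ))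
      (IntF.pair IntF.fst' (IntF.const _)) fun _ _ => rfl
  have f2 : EqFam hG act (fun c => uu hG hlt c.2) :=
    (uu_fam hG hlt).comp (φ := fun c : Gm M × (Gm M × INat M) => c.2) IntF.snd' fun _ _ => rfl
  obtain ⟨p, hp, h6⟩ := hplus hG (f1.op hact f2) hEf hyf (c := (1, (σ, m))) h5
  -- the translations
  have tr : ∀ d : XX M, (∀ a, a ∈ d → p.1.1 ≤ a.1 ∧ a.2.1 = n) → ∃ τ : Gm M,
      (∀ x a, a ∈ rh τ x ↔ ¬ (a ∈ x ↔ a ∈ d)) ∧
        ZFA.Mem (ZFA.op (uu hG hlt (τ, n.succ)) (uu hG hlt (τ * σ, m))) (nd hG hEf yf) := by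
    intro d hd
    obtain ⟨τ, -, h7, -⟩ := exists_tr (m := n.succ) (d := d) (fun a ha => by
      rw [(hd a ha).2]
      exact INat.lt_succ_self n)
    have h8 : (SS M).U n τ := by
      intro x a ha
      rw [h7, mem_xd]
      have h8 : ¬ a ∈ d := fun h8 => absurd ha (by rw [(hd a h8).2]; exact lt_irrefl n)
      tauto
    have h9 : τ • p = p := by
      rw [smul_def']
      conv_rhs => rw [← co_self p]
      refine co_eq.2 fun a ha => ?_
      rw [h7, mem_xd]
      have h8 : ¬ a ∈ d := fun h8 => absurd ha (not_lt.2 (hd a h8).1)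
      tauto
    have h10 := h6 τ h8 (by rw [h9]; exact hp)
    change ZFA.Mem (ZFA.op (uu hG hlt (τ * 1, n.succ)) (uu hG hlt (τ * σ, m))) _ at h10
    rw [mul_one] at h10
    exact ⟨τ, fun x a => by rw [h7, mem_xd], h10⟩
  have hd : ∀ l : INat M, ∀ a, a ∈ sep M (fun a : Ps M => p.1.1 ≤ a.1 ∧ a.2 = (n, 0) ∧
      a.1 < l) ↔ (p.1.1 ≤ a.1 ∧ a.2 = (n, 0) ∧ a.1 < l) := fun l a =>
    mem_sep (p := fun a : Ps M => p.1.1 ≤ a.1 ∧ a.2 = (n, 0) ∧ a.1 < l) (by (repeat' (first | with_reducible exact IntF.id | with_reducible exact IntF.fst' | with_reducible exact IntF.snd' | with_reducible exact IntF.const _ | with_reducible exact Int.const _ | assumption | with_reducible apply Int.and | with_reducible apply Int.or | with_reducible apply Int.not | with_reducible apply Int.imp | with_reducible apply Int.iff | with_reducible apply Int.ne | with_reducible apply Int.eq | with_reducible apply Int.mem | with_reducible apply Int.subset | with_reducible apply Int.ltN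 | with_reducible apply Int.leN | with_reducible_and_instances apply Helper672.ZFA.Int.le | with_reducible_and_instances apply Helper672.ZFA.Int.lt | with_reducible apply Int.all | with_reducible apply Int.ex | with_reducible apply IntF.fst | with_reducible apply IntF.snd | with_reducible apply IntF.app | with_reducible apply IntF.inl | with_reducible apply IntF.inr | with_reducible apply Int.fin | with_reducible apply IntF.sep | with_reducible apply IntF.lam | with_reducible apply IntF.insert | with_reducible apply IntF.singleton | with_reducible apply IntF.union | with_reducible apply IntF.iimage | with_reducible apply IntF.ite | with_reducible apply IntF.the | with_reducible apply IntF.irec | with_reducible apply IntF.succ | with_reducible apply IntF.val | (with_reducible refine Int.comp ?_ ?_; assumption) | (with_reducible refine Int.comp₂ ?_ ?_ ?_; assumption) | (with_reducible refine Int.comp₃ ?_ ?_ ?_ ?_; assumption) | (with_reducible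 refine Int.comp₄ ?_ ?_ ?_ ?_ ?_; assumption) | (with_reducible refine IntF.comp ?_ ?_; assumption) | (with_reducible refine IntF.comp₂ ?_ ?_ ?_; assumption) | (with_reducible refine IntF.comp₃ ?_ ?_ ?_ ?_; assumption) | with_reducible apply IntF.mk | with_reducible apply IntF.pair)))
  have hd' : ∀ a, a ∈ sep M (fun a : Ps M => p.1.1 ≤ a.1 ∧ a.2 = (n, 0)) ↔
      (p.1.1 ≤ a.1 ∧ a.2 = (n, 0)) := fun a =>
    mem_sep (p := fun a : Ps M => p.1.1 ≤ a.1 ∧ a.2 = (n, 0)) (by (repeat' (first | with_reducible exact IntF.id | with_reducible exact IntF.fst' | with_reducible exact IntF.snd' | with_reducible exact IntF.const _ | with_reducible exact Int.const _ | assumption | with_reducible apply Int.and | with_reducible apply Int.or | with_reducible apply Int.not | with_reducible apply Int.imp | with_reducible apply Int.iff | with_reducible apply Int.ne | with_reducible apply Int.eq | with_reducible apply Int.mem | with_reducible apply Int.subset | with_reducible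 apply Int.ltN | with_reducible apply Int.leN | with_reducible_and_instances apply Helper672.ZFA.Int.le | with_reducible_and_instances apply Helper672.ZFA.Int.lt | with_reducible apply Int.all | with_reducible apply Int.ex | with_reducible apply IntF.fst | with_reducible apply IntF.snd | with_reducible apply IntF.app | with_reducible apply IntF.inl | with_reducible apply IntF.inr | with_reducible apply Int.fin | with_reducible apply IntF.sep | with_reducible apply IntF.lam | with_reducible apply IntF.insert | with_reducible apply IntF.singleton | with_reducible apply IntF.union | with_reducible apply IntF.iimage | with_reducible apply IntF.ite | with_reducible apply IntF.the | with_reducible apply IntF.irec | with_reducible apply IntF.succ | with_reducible apply IntF.val | (with_reducible refine Int.comp ?_ ?_; assumption) | (with_reducible refine Int.comp₂ ?_ ?_ ?_; assumption) | (with_reducible refine Int.comp₃ ?_ ?_ ?_ ?_; assumption) | (with_reducible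 refine Int.comp₄ ?_ ?_ ?_ ?_ ?_; assumption) | (with_reducible refine IntF.comp ?_ ?_; assumption) | (with_reducible refine IntF.comp₂ ?_ ?_ ?_; assumption) | (with_reducible refine IntF.comp₃ ?_ ?_ ?_ ?_; assumption) | with_reducible apply IntF.mk | with_reducible apply IntF.pair)))
  obtain ⟨τ, t1, t2⟩ := tr (sep M (fun a : Ps M => p.1.1 ≤ a.1 ∧ a.2 = (n, 0))) fun a ha => by
    obtain ⟨h7, h8⟩ := (hd' a).1 ha
    exact ⟨h7, by rw [h8]⟩
  have h7 : uu hG hlt (τ * σ, m) = uu hG hlt (σ, m) := by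
    refine (uu_eq hG hlt hC).2 ⟨rfl, fun g hg => ?_⟩
    obtain ⟨τl, s1, s2⟩ := tr (sep M (fun a : Ps M => p.1.1 ≤ a.1 ∧ a.2 = (n, 0) ∧
      a.1 < g.1.1)) fun a ha => by
        obtain ⟨h7, h8, -⟩ := (hd _ a).1 ha
        exact ⟨h7, by rw [h8]⟩
    have s3 : Tr n τl := ⟨g.1.1, _, fun a ha => by
      obtain ⟨h7, h8, h9⟩ := (hd _ a).1 ha
      exact ⟨h9, by rw [h8]⟩, s1⟩
    have s4 := h3 1 τl n _ s3 h5
    rw [one_mul] at s4
    have s5 := h2 _ _ _ s2 s4
    have s6 := ((uu_eq hG hlt hC).1 s5).2 g hg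
    have s7 : (τ * σ)⁻¹ • g = (τl * σ)⁻¹ • g := by
      rw [smul_def', smul_def', mul_inv_rev, mul_inv_rev, rh_mul, rh_mul]
      refine co_eq.2 ((rh_lv σ⁻¹).2 fun a ha => ?_)
      rw [rh_inv_of_tr t1, rh_inv_of_tr s1, hd, hd']
      tauto
    rw [s7]
    exact s6
  rw [h7] at t2
  obtain ⟨τ', ⟨l, d, r1, r2⟩, r3⟩ := h4 1 τ n _ h5 t2
  rw [one_mul] at r3
  have r4 := ((uu_eq hG hlt hC).1 r3).2
  obtain ⟨g, hg, -, h12⟩ := exists_len hG hp (max l p.1.1).succ
  have h13 := r4 g hg (max l p.1.1, (n, 0)) (INat.lt_succ_self n)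
  have h14 : max l p.1.1 < g.1.1 := INat.succ_le_iff.1 h12
  have e1 := smul_tr t1 1 g (max l p.1.1, (n, 0))
  have e2 := smul_tr r2 1 g (max l p.1.1, (n, 0))
  rw [one_mul] at e1 e2
  rw [e1, e2, hd'] at h13
  have e3 : ¬ ((max l p.1.1, (n, 0)) : Ps M) ∈ d := fun h => absurd (r1 _ h).1
    (not_lt.2 (le_max_left l p.1.1))
  have e4 : p.1.1 ≤ max l p.1.1 := le_max_right _ _
  dsimp only at h13
  tauto

end

end Pool.Agent.Y580
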