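import Pool.Agent.Y580.D5
import Pool.Agent.Y580.D3
import Pool.Agent.Y580.B6

/-!
# A model of ZF with the well-foundedness principles for surjections and without the dual
Cantor-Bernstein theorem
-/

set_option maxHeartbeats 400000
set_option linter.all false
set_option synthInstance.maxSize 2000

namespace Pool.Agent.Y580

open FirstOrder FirstOrder.Language
open Pool.Agent.Helper672
open Pool.Agent.Helper672.ZFA
open Pool.Agent.Helper672.ZFA.H635
open Pool.Agent.Helper672.Plain (LSet)
open Pool.Agent.H635Amen (ZF)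
open Pool.Agent.H310NAS (WO)
open Pool.Agent.Y580S (CSBstar WF1 WF2 WF3 WF4 IS)

universe u

section

variable {M : Type u} [L.Structure M] [hM : IsModel M]
variable {G : Set (Co M)} (hG : IsGen M G)
variable {lt : Tu M → Tu M → Prop} (hlt : IWO M (Tu M) lt)

theorem exists_Z (φ ψ : INat M → INat M) (hφ : IntF M φ) (hψ : IntF M ψ) :
    ∃ z : NN (SS M) hG, ∀ w, Plain.Mem w z ↔ ∃ c : Gm M × INat M,
      w = ZFA.op (M := NN (SS M) hG) (uu hG hlt (c.1, φ c.2)) (uu hG hlt (c.1, ψ c.2)) := by
  let act : Gm M → Gm M × INat M → Gm M × INat M := fun σ c => (σ * c.1, c.2)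
  have hact : ∀ π b, act π⁻¹ (act π b) = b := fun π b => by
    change (π⁻¹ * (π * b.1), b.2) = b
    rw [inv_mul_cancel_left]
  have f1 : EqFam hG act (fun c => uu hG hlt (c.1, φ c.2)) :=
    (uu_fam hG hlt).comp (φ := fun c : Gm M × INat M => (c.1, φ c.2))
      (IntF.pair IntF.fst' (IntF.comp hφ IntF.snd')) fun _ _ => rfl
  have f2 : EqFam hG act (fun c => uu hG hlt (c.1, ψ c.2)) :=
    (uu_fam hG hlt).comp (φ := fun c : Gm M × INat M => (c.1, ψ c.2))
      (IntF.pair IntF.fst' (IntF.comp hψ IntF.snd')) fun _ _ => rfl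
  obtain ⟨z, hz⟩ := (f1.op hact f2).set (Z := fun _ => True) (ZFA.Int.const _)
    ⟨0, fun _ _ _ _ => trivial⟩
  exact ⟨z, fun w => (hz w).trans ⟨fun ⟨a, _, h⟩ => ⟨a, h⟩, fun ⟨a, h⟩ => ⟨a, trivial, h⟩⟩⟩

/-- The elements of the set of all sets given by parts of reals. -/
noncomputable def eu (c : Gm M × INat M) : El (Us hG hlt) :=
  ⟨uu hG hlt c, (mem_Us hG hlt).2 ⟨c, rfl⟩⟩

theorem eu_surj (u : El (Us hG hlt)) : ∃ c, u = eu hG hlt c := by
  obtain ⟨c, hc⟩ := (mem_Us hG hlt).1 u.2
  exact ⟨c, Subtype.ext hc⟩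

theorem Z_fun (hC : CollL M) {φ ψ : INat M → INat M} (hφ : ∀ k k', φ k = φ k' → k = k')
    (hψ : ∀ k, ψ k ≤ φ k) {z : NN (SS M) hG} (hz : ∀ w, Plain.Mem w z ↔ ∃ c : Gm M × INat M,
      w = ZFA.op (M := NN (SS M) hG) (uu hG hlt (c.1, φ c.2)) (uu hG hlt (c.1, ψ c.2)))
    {u v v' : NN (SS M) hG} (h1 : ZFA.Mem (ZFA.op u v) z) (h2 : ZFA.Mem (ZFA.op u v') z) :
    v = v' := by
  obtain ⟨c, hc⟩ := (hz _).1 h1
  obtain ⟨c', hc'⟩ := (hz _).1 h2
  obtain ⟨a1, a2⟩ := ZFA.op_inj hc
  obtain ⟨b1, b2⟩ := ZFA.op_inj hc'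
  obtain ⟨h7, h8⟩ := (uu_eq hG hlt hC).1 (a1.symm.trans b1)
  have h9 := hφ _ _ h7
  rw [a2, b2, ← h9]
  exact (uu_eq hG hlt hC).2 ⟨rfl, fun g hg => (h8 g hg).mono (hψ _)⟩

include hlt in
theorem not_csb (hC : CollL M) : ¬ CSBstar (NN (SS M) hG) := by
  intro hcsb
  haveI := nn_zermelo (S := SS M) hG
  obtain ⟨zE, hE1, hE2⟩ := exists_E hG hlt hC
  obtain ⟨z1, hz1⟩ := exists_Z hG hlt (fun k => k + k) (fun k => k) (by (repeat' (first | with_reducible exact IntF.id | with_reducible exact IntF.fst' | with_reducible exact IntF.snd' | with_reducible exact IntF.const _ | with_reducible exact Int.const _ | assumption | with_reducible apply Int.and | with_reducible apply Int.or | with_reducible apply Int.not | with_reducible apply Int.imp | with_reducible apply Int.iff | with_reducible apply Int.ne | with_reducible apply Int.eq | with_reducible apply Int.mem | with_reducible apply Int.subset | with_reducible apply Int.ltN | with_reducible apply Int.leN | with_reducible_and_instances apply Helper672.ZFA.Int.le | with_reducible_and_instances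 apply Helper672.ZFA.Int.lt | with_reducible apply Int.all | with_reducible apply Int.ex | with_reducible apply IntF.fst | with_reducible apply IntF.snd | with_reducible apply IntF.app | with_reducible apply IntF.inl | with_reducible apply IntF.inr | with_reducible_and_instances apply IntF.mul | with_reducible_and_instances apply IntF.inv | with_reducible_and_instances apply IntF.add | with_reducible_and_instances apply IntF.sub | with_reducible_and_instances apply IntF.neg | with_reducible_and_instances apply IntF.smul | with_reducible apply Int.fin | with_reducible apply IntF.sep | with_reducible apply IntF.lam | with_reducible apply IntF.insert | with_reducible apply IntF.singleton | with_reducible apply IntF.union | with_reducible apply IntF.iimage | with_reducible apply IntF.ite | with_reducible apply IntF.the | with_reducible apply IntF.irec | with_reducible apply IntF.succ | with_reducible apply IntF.val | with_reducible apply IntF.mk | (with_reducible refine Int.comp ?_ ?_; assumption) | (with_reducible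 refine Int.comp₂ ?_ ?_ ?_; assumption) | (with_reducible refine Int.comp₃ ?_ ?_ ?_ ?_; assumption) | (with_reducible refine Int.comp₄ ?_ ?_ ?_ ?_ ?_; assumption) | (with_reducible refine IntF.comp ?_ ?_; assumption) | (with_reducible refine IntF.comp₂ ?_ ?_ ?_; assumption) | (with_reducible refine IntF.comp₃ ?_ ?_ ?_ ?_; assumption) | with_reducible apply IntF.pair))) IntF.id
  obtain ⟨z2, hz2⟩ := exists_Z hG hlt (fun k => (k + k).succ) (fun k => k.succ) (by (repeat' (first | with_reducible exact IntF.id | with_reducible exact IntF.fst' | with_reducible exact IntF.snd' | with_reducible exact IntF.const _ | with_reducible exact Int.const _ | assumption | with_reducible apply Int.and | with_reducible apply Int.or | with_reducible apply Int.not | with_reducible apply Int.imp | with_reducible apply Int.iff | with_reducible apply Int.ne | with_reducible apply Int.eq | with_reducible apply Int.mem | with_reducible apply Int.subset | with_reducible apply Int.ltN | with_reducible apply Int.leN | with_reducible_and_instances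 apply Helper672.ZFA.Int.le | with_reducible_and_instances apply Helper672.ZFA.Int.lt | with_reducible apply Int.all | with_reducible apply Int.ex | with_reducible apply IntF.fst | with_reducible apply IntF.snd | with_reducible apply IntF.app | with_reducible apply IntF.inl | with_reducible apply IntF.inr | with_reducible_and_instances apply IntF.mul | with_reducible_and_instances apply IntF.inv | with_reducible_and_instances apply IntF.add | with_reducible_and_instances apply IntF.sub | with_reducible_and_instances apply IntF.neg | with_reducible_and_instances apply IntF.smul | with_reducible apply Int.fin | with_reducible apply IntF.sep | with_reducible apply IntF.lam | with_reducible apply IntF.insert | with_reducible apply IntF.singleton | with_reducible apply IntF.union | with_reducible apply IntF.iimage | with_reducible apply IntF.ite | with_reducible apply IntF.the | with_reducible apply IntF.irec | with_reducible apply IntF.succ | with_reducible apply IntF.val | with_reducible apply IntF.mk | (with_reducible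 refine Int.comp ?_ ?_; assumption) | (with_reducible refine Int.comp₂ ?_ ?_ ?_; assumption) | (with_reducible refine Int.comp₃ ?_ ?_ ?_ ?_; assumption) | (with_reducible refine Int.comp₄ ?_ ?_ ?_ ?_ ?_; assumption) | (with_reducible refine IntF.comp ?_ ?_; assumption) | (with_reducible refine IntF.comp₂ ?_ ?_ ?_; assumption) | (with_reducible refine IntF.comp₃ ?_ ?_ ?_ ?_; assumption) | with_reducible apply IntF.pair)))
    (IntF.succ IntF.id)
  obtain ⟨r, hr, r1, r2, r3, r4⟩ := csb_red hcsb (U := El (Us hG hlt))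
    (E := fun u v => ZFA.Mem (ZFA.op u.1 v.1) zE)
    (Z1 := fun u v => ZFA.Mem (ZFA.op u.1 v.1) z1)
    (Z2 := fun u v => ZFA.Mem (ZFA.op u.1 v.1) z2) ⟨zE, fun q => Iff.rfl⟩
    ⟨z1, fun q => Iff.rfl⟩ ⟨z2, fun q => Iff.rfl⟩
    (fun u v v' h1 h2 => Subtype.ext (Z_fun hG hlt hC (fun k k' h => dbl_inj h)
      (fun k => H310.le_add_r _ _) hz1 h1 h2))
    (fun u v v' h1 h2 => Subtype.ext (Z_fun hG hlt hC (fun k k' h => dbl_inj (INat.succ_inj h))
      (fun k => INat.succ_le_iff.2 (INat.lt_succ_iff.2 (H310.le_add_r _ _))) hz2 h1 h2))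
    (fun u v v' h1 h2 => by
      obtain ⟨c, hc⟩ := (hz1 _).1 h1
      obtain ⟨c', hc'⟩ := (hz2 _).1 h2
      exact dbl_ne ((uu_eq hG hlt hC).1 ((ZFA.op_inj hc).1.symm.trans (ZFA.op_inj hc').1)).1)
    (fun v => by
      obtain ⟨c, rfl⟩ := eu_surj hG hlt v
      exact ⟨eu hG hlt (c.1, c.2 + c.2), (hz1 _).2 ⟨c, rfl⟩⟩)
    (fun v w h => by
      obtain ⟨π, k, hc⟩ := hE2 _ _ h
      refine ⟨eu hG hlt (π, (k + k).succ), (hz2 _).2 ⟨(π, k), ?_⟩⟩
      change ZFA.op (uu hG hlt (π, (k + k).succ)) v.1 = _
      rw [hc])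
  have hzh : ∀ c e : Gm M × INat M, ZFA.Mem (ZFA.op (uu hG hlt c) (uu hG hlt e))
      (code (M := NN (SS M) hG) (sep (NN (SS M) hG) (fun q : El (Us hG hlt) × El (Us hG hlt) =>
        r q.1 q.2))) ↔ r (eu hG hlt c) (eu hG hlt e) := by
    intro c e
    refine Iff.trans (mem_code_iff (M := NN (SS M) hG)
      (a := ((eu hG hlt c, eu hG hlt e) : El (Us hG hlt) × El (Us hG hlt)))) ?_
    exact mem_sep hr
  have hrefl : ∀ (π : Gm M) (k : INat M), ZFA.Mem (ZFA.op (uu hG hlt (π, k.succ))
      (uu hG hlt (π, k.succ))) zE := fun π k =>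
    (hE1 π k _).2 ⟨1, Tr.one k, by rw [mul_one]⟩
  refine no_red hG hlt hC (code (M := NN (SS M) hG) (sep (NN (SS M) hG)
      (fun q : El (Us hG hlt) × El (Us hG hlt) => r q.1 q.2)))
    (fun π k => ?_) (fun c e e' h1 h2 => ?_)
    (fun π τ k e hτ h1 => ?_) (fun π π' k e h1 h2 => ?_)
  · obtain ⟨a, ha⟩ := r1 (eu hG hlt (π, k.succ)) (eu hG hlt (π, k.succ)) (hrefl π k)
    obtain ⟨e, rfl⟩ := eu_surj hG hlt a
    exact ⟨e, (hzh _ _).2 ha⟩
  · exact congrArg Subtype.val (r2 _ _ _ ((hzh _ _).1 h1) ((hzh _ _).1 h2))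
  · refine (hzh _ _).2 (r3 _ _ _ (fun w => ?_) ((hzh _ _).1 h1))
    refine (hE1 _ _ _).trans (Iff.trans ⟨?_, ?_⟩ (hE1 _ _ _).symm)
    · rintro ⟨τ', h4, h5⟩
      exact ⟨τ⁻¹ * τ', hτ.inv.mul h4, by rw [h5, mul_assoc, mul_inv_cancel_left]⟩
    · rintro ⟨τ', h4, h5⟩
      exact ⟨τ * τ', hτ.mul h4, by rw [h5, mul_assoc]⟩
  · have h3 := r4 _ _ _ ((hzh _ _).1 h1) ((hzh _ _).1 h2) (eu hG hlt (π', k.succ))
    exact (hE1 π k _).1 (h3.2 (hrefl π' k))

theorem wfs_NN (hC : CollL M)
    (hWO : ∀ (δ : Type u) [ITy M δ], ∃ lt : δ → δ → Prop, IWO M δ lt) :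
    WFS (NN (SS M) hG) := by
  haveI := nn_zermelo (S := SS M) hG
  obtain ⟨lt, hlt⟩ := hWO (Tu M)
  refine wfs_of fun d => ?_
  obtain ⟨δ, δ', l, l', h1, h2, h3⟩ := exists_dec hG hC hWO d hlt
  exact ⟨Us hG hlt, δ, δ', l, l', h1, h2, h3⟩

end

end Pool.Agent.Y580
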