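import Pool.Agent.Y580.D6

/-!
# The models
-/

set_option maxHeartbeats 400000
set_option linter.all false
set_option synthInstance.maxSize 2000

namespace Pool.Agent.Y580

open FirstOrder FirstOrder.Language
open Pool.Agent.Helper672.ZFA
open Pool.Agent.Helper672.ZFA.H635 (IPerm IsGen NN EqFam CollL IWO nn_zf nn_zermelo
  isModel_of_zermelo coll_of_zf exists_countable_sub toL)
open Pool.Agent.Helper672.Plain (LSet)
open Pool.Agent.H635Amen (ZF)
open Pool.Agent.H310NAS (WO)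
open Pool.Agent.Y580S (CSBstar WF1 WF2 WF3 WF4 IS)

universe u

theorem exists_modelD' (M : Type u) [L.Structure M] [IsModel M] [Countable M] (hC : CollL M)
    (hWO : ∀ x : M, ∃ lt : El x → El x → Prop, IWO M (El x) lt) :
    ∃ (N : Type u) (_ : LSet.Structure N), ZF N ∧
      (∀ x : IS, WF1 x .s N ∧ WF2 x .s N ∧ WF3 x .s N ∧ WF4 x .s N) ∧ ¬ CSBstar N ∧
        ¬ Y580S.AC N := by
  have hWO' : ∀ (δ : Type u) [ITy M δ], ∃ lt : δ → δ → Prop, IWO M δ lt :=
    fun δ _ => Pool.Agent.H310.NA.exists_iwo hWO δ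
  obtain ⟨G, hG⟩ := H635.exists_gen (M := M) (co (0 : INat M) (sep M fun _ => False))
  obtain ⟨lt, hlt⟩ := hWO' (Tu M)
  haveI := nn_zermelo (S := SS M) hG
  have h := wfs_NN hG hC hWO'
  exact ⟨NN (SS M) hG, inferInstance, nn_zf hG hC,
    fun x => ⟨wf1_of h x, wf2_of h x, wf3_of h x, wf4_of h x⟩, not_csb hG hlt hC,
    not_ac hG hlt hC⟩

section

attribute [local instance] toL

theorem exists_modelD_c (M : Type u) [LSet.Structure M] [Countable M] (h : ZF M) (hW : WO M) :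
    ∃ (N : Type u) (_ : LSet.Structure N), ZF N ∧
      (∀ x : IS, WF1 x .s N ∧ WF2 x .s N ∧ WF3 x .s N ∧ WF4 x .s N) ∧ ¬ CSBstar N ∧
        ¬ Y580S.AC N := by
  have hM : IsModel M := isModel_of_zermelo h.toZermelo
  exact exists_modelD' M (coll_of_zf h) (Pool.Agent.H310.NA.iwo_of hW)

end

/-- The theorem for all models of ZF with a well-order on every set. -/
theorem exists_modelD (M : Type u) [LSet.Structure M] (h : ZF M) (hW : WO M) :
    ∃ (N : Type u) (_ : LSet.Structure N), ZF N ∧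
      (∀ x : IS, WF1 x .s N ∧ WF2 x .s N ∧ WF3 x .s N ∧ WF4 x .s N) ∧ ¬ CSBstar N ∧
        ¬ Y580S.AC N := by
  obtain ⟨M₀, h1, h2⟩ := exists_countable_sub M h
  exact exists_modelD_c M₀ h2 (Pool.Agent.H310.NA.wo_substructure M₀ hW)

/-- There is a model. -/
theorem exists_modelD_zs :
    ∃ (N : Type 1) (_ : LSet.Structure N), ZF N ∧
      (∀ x : IS, WF1 x .s N ∧ WF2 x .s N ∧ WF3 x .s N ∧ WF4 x .s N) ∧ ¬ CSBstar N ∧
        ¬ Y580S.AC N :=
  letI := Pool.Agent.H310.NA.zs.{0}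
  exists_modelD ZFSet.{0} Pool.Agent.H310.NA.zf_zs Pool.Agent.H310.NA.wo_zs

end Pool.Agent.Y580
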